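import Mathlib

/-!
Estimates.

PROOFS. eval_bound: a polynomial T over ℕ satisfies T.eval (n (n+3)) ≤ C n^C for all n ≥ 1: e.g. each
monomial a (n (n+3))^i ≤ a (4 n^2)^i = a 4^i n^(2i) ≤ a 4^i n^(2 deg); sum over the support
(Polynomial.eval_eq_sum_range), C = max (sum of the a 4^i) (2 deg). bound_always: (n+3) 2^n + 1 ≤ 5 n 2^n
for n ≥ 1, so the product is ≤ 5 C n^(C+1) 2^n. exists_harm: the harmonic series diverges
(Real.tendsto_sum_range_one_div_nat_succ_atTop, Filter.Tendsto.eventually_gt_atTop).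
-/

namespace Pool.Agent.Lib.MP_e05f17_lc

theorem eval_bound (T : Polynomial ℕ) : ∃ C : ℕ, ∀ n : ℕ, 1 ≤ n → T.eval (n * (n + 3)) ≤ C * n ^ C := by
  let A : ℕ := ∑ i ∈ Finset.range (T.natDegree + 1), T.coeff i * 4 ^ i
  refine ⟨max A (2 * T.natDegree), fun n hn => ?_⟩
  rw [Polynomial.eval_eq_sum_range]
  have h1 : ∀ i ∈ Finset.range (T.natDegree + 1),
      T.coeff i * (n * (n + 3)) ^ i ≤ T.coeff i * 4 ^ i * n ^ (2 * T.natDegree) := by
    intro i hi
    have hi' : i ≤ T.natDegree := Nat.lt_succ_iff.1 (Finset.mem_range.1 hi)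
    rw [mul_assoc]
    apply Nat.mul_le_mul_left
    calc (n * (n + 3)) ^ i ≤ (4 * n ^ 2) ^ i := by
          apply Nat.pow_le_pow_left
          nlinarith
      _ = 4 ^ i * n ^ (2 * i) := by
          rw [mul_pow, ← pow_mul]
      _ ≤ 4 ^ i * n ^ (2 * T.natDegree) := by
          apply Nat.mul_le_mul_left
          exact Nat.pow_le_pow_right hn (by omega)
  calc ∑ i ∈ Finset.range (T.natDegree + 1), T.coeff i * (n * (n + 3)) ^ i
      ≤ ∑ i ∈ Finset.range (T.natDegree + 1), T.coeff i * 4 ^ i * n ^ (2 * T.natDegree) :=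
        Finset.sum_le_sum h1
    _ = A * n ^ (2 * T.natDegree) := by rw [← Finset.sum_mul]
    _ ≤ max A (2 * T.natDegree) * n ^ (max A (2 * T.natDegree)) :=
        Nat.mul_le_mul (le_max_left _ _) (Nat.pow_le_pow_right hn (le_max_right _ _))

theorem bound_always (T : Polynomial ℕ) : ∃ C : ℕ, ∀ n : ℕ, 1 ≤ n →
    ((T.eval (n * (n + 3)) : ℕ) : ℝ) * ((n + 3) * 2 ^ n + 1) ≤ C * n ^ C * 2 ^ n := by
  obtain ⟨C, hC⟩ := eval_bound T
  refine ⟨5 * C + 1, fun n hn => ?_⟩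
  have h1 : T.eval (n * (n + 3)) * ((n + 3) * 2 ^ n + 1) ≤
      (5 * C + 1) * n ^ (5 * C + 1) * 2 ^ n := by
    have h2 : (n + 3) * 2 ^ n + 1 ≤ 5 * n * 2 ^ n := by
      have h3 : 1 ≤ 2 ^ n := Nat.one_le_two_pow
      nlinarith
    calc T.eval (n * (n + 3)) * ((n + 3) * 2 ^ n + 1) ≤ (C * n ^ C) * (5 * n * 2 ^ n) :=
          Nat.mul_le_mul (hC n hn) h2
      _ = (5 * C) * n ^ (C + 1) * 2 ^ n := by ring
      _ ≤ (5 * C + 1) * n ^ (5 * C + 1) * 2 ^ n := by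
          apply Nat.mul_le_mul_right
          apply Nat.mul_le_mul (Nat.le_succ _)
          exact Nat.pow_le_pow_right hn (by omega)
  exact_mod_cast h1

theorem exists_harm (x : ℝ) : ∃ Kmax : ℕ, x < ∑ K ∈ Finset.range Kmax, 1 / ((K : ℝ) + 1) := by
  exact (Real.tendsto_sum_range_one_div_nat_succ_atTop.eventually_gt_atTop x).exists

end Pool.Agent.Lib.MP_e05f17_lc
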