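import Pool.Agent.Lib.MP_e05f17_lc.AsyA

/-!
The final estimate.

PROOF. E = 0: δ n/4 ≤ B, so n ≤ n0 := ⌈4B/δ⌉, N ≤ n: finitely many n, ε = 1/2 and C large (C ≥ the
maximum of the left-hand sides for n, N ≤ n0, and (2 - ε)^n ≥ 1). E > 0: N ≥ (δ n/4 - B)/E, so with
ρ = (1-q)^(δ/(4E)) < 1 (Real.rpow) (1-q)^N ≤ (1-q)^(-B/E) ρ^n =: c1 ρ^n (real exponents,
Real.rpow_le_rpow_of_exponent_ge). So the left side is ≤ p(n) (c1 (2ρ)^n + 1) with p(n) a polynomial
bound (eval_bound for n ≥ 1; n = 0 separately), and with 2 - ε > max (2ρ, 1), e.g. 2 - ε =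
(2 + max (2ρ) 1)/2, p(n) (c1 (2ρ)^n + 1) / (2-ε)^n is bounded: p(n) r^n → 0 for r < 1
(tendsto_pow_const_mul_const_pow_of_abs_lt_one), a convergent sequence is bounded
(Filter.Tendsto.bddAbove_range). N and n are independent up to the inequality, so the bound must be
uniform in N: that is why (1-q)^N is replaced first. Simpler variant without rpow: choose a natural
number a with δ a ≥ 4 E (a > 0) ; then n ≤ a N + a' gives N ≥ (n - a')/a and (1-q)^N: let r be with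
r^a = 1 - q (r = (1-q)^(1/a), or use (1-q) ≤ (1 - q/a)^a by Bernoulli, r = 1 - q/a): (1-q)^N ≤ r^(a N)
≤ r^(n - a') (natural subtraction, r < 1) ≤ r^n / r^a'.
-/

namespace Pool.Agent.Lib.MP_e05f17_lc

private theorem asyB_bdd (k : ℕ) {r : ℝ} (h0 : 0 ≤ r) (h1 : r < 1) :
    ∃ M : ℝ, 0 ≤ M ∧ ∀ n : ℕ, (n : ℝ) ^ k * r ^ n ≤ M := by
  have ht := tendsto_pow_const_mul_const_pow_of_abs_lt_one k
    (show |r| < 1 by rw [abs_of_nonneg h0]; exact h1)
  obtain ⟨M, hM⟩ := ht.bddAbove_range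
  have hM' : ∀ n : ℕ, (n : ℝ) ^ k * r ^ n ≤ M := fun n => hM (Set.mem_range_self n)
  refine ⟨M, ?_, hM'⟩
  exact le_trans (by positivity) (hM' 0)

theorem bound_twins (T : Polynomial ℕ) {δ q : ℝ} (hδ : 0 < δ) (hq : 0 < q) (hq' : q < 1)
    (E B : ℕ) : ∃ (ε : ℝ) (C : ℕ), 0 < ε ∧ ε < 1 ∧ ∀ n N : ℕ, N ≤ n → δ * n / 4 ≤ N * E + B →
      ((T.eval (n * (n + 3)) : ℕ) : ℝ) * ((n + 3) * 2 ^ n * (1 - q) ^ N + 1) ≤ C * (2 - ε) ^ n := by
  obtain ⟨a0, ha0⟩ := exists_nat_ge (4 * ((E : ℝ) + 1) / δ)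
  obtain ⟨a, hadef⟩ : ∃ a : ℕ, a = a0 + 1 := ⟨_, rfl⟩
  have ha1 : (1 : ℝ) ≤ a := by
    rw [hadef]; push_cast; linarith [Nat.cast_nonneg (α := ℝ) a0]
  have ha : 4 * ((E : ℝ) + 1) ≤ δ * a := by
    have h1 : 4 * ((E : ℝ) + 1) / δ ≤ a := by
      rw [hadef]; push_cast; linarith
    rw [div_le_iff₀ hδ] at h1
    linarith
  obtain ⟨r, hr⟩ : ∃ r : ℝ, r = 1 - q / a := ⟨_, rfl⟩
  have hapos : (0 : ℝ) < a := by linarith
  have hqa : q / a ≤ q := by
    rw [div_le_iff₀ hapos]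
    nlinarith
  have hqa0 : 0 < q / a := div_pos hq hapos
  have hr0 : 0 < r := by rw [hr]; linarith
  have hr1 : r < 1 := by rw [hr]; linarith
  have hbern : 1 - q ≤ r ^ a := by
    have h1 := one_add_mul_le_pow (a := -(q / a)) (by linarith) a
    have h2 : (1 : ℝ) + a * -(q / a) = 1 - q := by
      field_simp
      ring
    rw [h2] at h1
    rw [hr]
    have h3 : (1 : ℝ) + -(q / a) = 1 - q / a := by ring
    rw [h3] at h1
    exact h1
  obtain ⟨K, hK⟩ : ∃ K : ℝ, K = (r ^ (a * B))⁻¹ := ⟨_, rfl⟩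
  have hK0 : 0 < K := by rw [hK]; positivity
  have hKr : K * r ^ (a * B) = 1 := by
    rw [hK]
    exact inv_mul_cancel₀ (by positivity)
  obtain ⟨β, hβ⟩ : ∃ β : ℝ, β = (2 + max (2 * r) 1) / 2 := ⟨_, rfl⟩
  have hm1 : 2 * r ≤ max (2 * r) 1 := le_max_left _ _
  have hm2 : 1 ≤ max (2 * r) 1 := le_max_right _ _
  have hm3 : max (2 * r) 1 < 2 := max_lt (by linarith) (by norm_num)
  have hβ1 : 2 * r < β := by rw [hβ]; linarith
  have hβ2 : 1 < β := by rw [hβ]; linarith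
  have hβ3 : β < 2 := by rw [hβ]; linarith
  have hβ0 : 0 < β := by linarith
  obtain ⟨C₀, hC₀⟩ := eval_bound T
  obtain ⟨M₁, hM₁0, hM₁⟩ := asyB_bdd (C₀ + 1) (r := 2 * r / β) (by positivity)
    (by rw [div_lt_one hβ0]; exact hβ1)
  obtain ⟨M₂, hM₂0, hM₂⟩ := asyB_bdd C₀ (r := 1 / β) (by positivity)
    (by rw [div_lt_one hβ0]; exact hβ2)
  obtain ⟨C, hC⟩ := exists_nat_ge ((C₀ : ℝ) * (4 * K * M₁ + M₂) + 4 * (T.eval 0 : ℕ))
  refine ⟨2 - β, C, by linarith, by linarith, ?_⟩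
  intro n N hN hle
  have hb : 2 - (2 - β) = β := by ring
  rw [hb]
  have hT0 : (0 : ℝ) ≤ ((T.eval 0 : ℕ) : ℝ) := Nat.cast_nonneg _
  have hCM : (0 : ℝ) ≤ (C₀ : ℝ) * (4 * K * M₁ + M₂) := by positivity
  rcases Nat.eq_zero_or_pos n with hn | hn
  · subst hn
    have hN0 : N = 0 := Nat.le_zero.mp hN
    subst hN0
    have h1 : T.eval (0 * (0 + 3)) = T.eval 0 := by norm_num
    rw [h1]
    simp only [Nat.cast_zero, pow_zero, mul_one, zero_add]
    linarith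
  · have hn1 : (1 : ℝ) ≤ n := by exact_mod_cast hn
    -- n ≤ a N + a B
    have hnat : n ≤ a * N + a * B := by
      have h1 : (δ * n : ℝ) ≤ 4 * (((E : ℝ) + 1) * (N + B)) := by
        have h2 : (N : ℝ) * E + B ≤ ((E : ℝ) + 1) * (N + B) := by
          have h3 : (0 : ℝ) ≤ (E : ℝ) * B := by positivity
          have h4 : (0 : ℝ) ≤ (N : ℝ) := Nat.cast_nonneg _
          nlinarith
        linarith
      have h5 : (0 : ℝ) ≤ (N : ℝ) + B := by positivity
      have h6 : 4 * (((E : ℝ) + 1) * (N + B)) ≤ δ * a * (N + B) := by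
        have := mul_le_mul_of_nonneg_right ha h5
        linarith
      have h7 : δ * (n : ℝ) ≤ δ * (a * (N + B)) := by linarith
      have h8 : (n : ℝ) ≤ a * (N + B) := le_of_mul_le_mul_left h7 hδ
      have h9 : (n : ℝ) ≤ ((a * N + a * B : ℕ) : ℝ) := by push_cast; linarith
      exact_mod_cast h9
    have hpow : (1 - q) ^ N ≤ K * r ^ n := by
      have h1 : (1 - q) ^ N ≤ r ^ (a * N) := by
        rw [pow_mul]
        exact pow_le_pow_left₀ (by linarith) hbern N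
      have h2 : r ^ (a * N + a * B) ≤ r ^ n := pow_le_pow_of_le_one hr0.le hr1.le hnat
      have h3 : r ^ (a * N) = K * r ^ (a * N + a * B) := by
        rw [pow_add]
        calc r ^ (a * N) = r ^ (a * N) * (K * r ^ (a * B)) := by rw [hKr, mul_one]
          _ = K * (r ^ (a * N) * r ^ (a * B)) := by ring
      rw [h3] at h1
      exact h1.trans (mul_le_mul_of_nonneg_left h2 hK0.le)
    have hP : ((T.eval (n * (n + 3)) : ℕ) : ℝ) ≤ C₀ * (n : ℝ) ^ C₀ := by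
      exact_mod_cast hC₀ n hn
    have hfac : ((n : ℝ) + 3) * 2 ^ n * (1 - q) ^ N + 1 ≤
        4 * n * (K * (2 * r) ^ n) + 1 := by
      have h1 : ((n : ℝ) + 3) * 2 ^ n ≤ 4 * n * 2 ^ n := by
        have : (n : ℝ) + 3 ≤ 4 * n := by linarith
        exact mul_le_mul_of_nonneg_right this (by positivity)
      have h2 : 0 ≤ (1 - q) ^ N := pow_nonneg (by linarith) N
      have h3 : ((n : ℝ) + 3) * 2 ^ n * (1 - q) ^ N ≤ 4 * n * 2 ^ n * (K * r ^ n) :=
        mul_le_mul h1 hpow h2 (by positivity)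
      have h4 : 4 * (n : ℝ) * 2 ^ n * (K * r ^ n) = 4 * n * (K * (2 * r) ^ n) := by
        rw [mul_pow]; ring
      linarith
    have hfac0 : (0 : ℝ) ≤ ((n : ℝ) + 3) * 2 ^ n * (1 - q) ^ N + 1 := by
      have h2 : 0 ≤ (1 - q) ^ N := pow_nonneg (by linarith) N
      positivity
    have hA : (n : ℝ) ^ (C₀ + 1) * (2 * r) ^ n ≤ M₁ * β ^ n := by
      have h1 := hM₁ n
      rw [div_pow] at h1
      have h2 : (n : ℝ) ^ (C₀ + 1) * (2 * r) ^ n =
          (n : ℝ) ^ (C₀ + 1) * ((2 * r) ^ n / β ^ n) * β ^ n := by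
        field_simp
      rw [h2]
      exact mul_le_mul_of_nonneg_right h1 (by positivity)
    have hBn : (n : ℝ) ^ C₀ ≤ M₂ * β ^ n := by
      have h1 := hM₂ n
      rw [div_pow, one_pow] at h1
      have h2 : (n : ℝ) ^ C₀ = (n : ℝ) ^ C₀ * (1 / β ^ n) * β ^ n := by
        field_simp
      rw [h2]
      exact mul_le_mul_of_nonneg_right h1 (by positivity)
    calc ((T.eval (n * (n + 3)) : ℕ) : ℝ) * ((n + 3) * 2 ^ n * (1 - q) ^ N + 1)
        ≤ (C₀ * (n : ℝ) ^ C₀) * (4 * n * (K * (2 * r) ^ n) + 1) :=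
          mul_le_mul hP hfac hfac0 (by positivity)
      _ = C₀ * (4 * K * ((n : ℝ) ^ (C₀ + 1) * (2 * r) ^ n) + (n : ℝ) ^ C₀) := by
          rw [pow_succ]; ring
      _ ≤ C₀ * (4 * K * (M₁ * β ^ n) + M₂ * β ^ n) := by
          refine mul_le_mul_of_nonneg_left ?_ (Nat.cast_nonneg _)
          have h1 := mul_le_mul_of_nonneg_left hA (show (0 : ℝ) ≤ 4 * K by positivity)
          linarith
      _ = (C₀ * (4 * K * M₁ + M₂)) * β ^ n := by ring
      _ ≤ C * β ^ n := by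
          refine mul_le_mul_of_nonneg_right ?_ (by positivity)
          linarith

end Pool.Agent.Lib.MP_e05f17_lc
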