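import Pool.Agent.Lib.MP_e05f17_lc.Core

/-!
The budget formula: linearity and congruence.

PROOFS. All by induction on L, generalizing b and M (and M'), with cases on b; the definition of TT has
the equations TT F [] b M = F M, TT F (i :: L) 0 M = TT F L 0 (i.1 :: M),
TT F (i :: L) (b+1) M = TT F L (b+1) (i.1 :: M) + (TT F L b M - TT F L b (i.1 :: M)).
TT_congr for i :: L: for the terms with i.1 :: M and i.1 :: M' use the hypothesis for E ++ [i.1]
(E ++ (i.1 :: M) = (E ++ [i.1]) ++ M), for the term with M the hypothesis for E. TT_listSum: induction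
on J with TT_add and TT_zero (or prove it like the others).
-/

namespace Pool.Agent.Lib.MP_e05f17_lc

theorem TT_sum {ι : Type} (J : Finset ι) (F : ι → List (ℕ × ℕ) → ℤ) (L : List Blk) (b : ℕ)
    (M : List (ℕ × ℕ)) : TT (fun M => ∑ j ∈ J, F j M) L b M = ∑ j ∈ J, TT (F j) L b M := by
  induction L generalizing b M with
  | nil => rfl
  | cons i L ih =>
    cases b with
    | zero => exact ih 0 _
    | succ b =>
      show TT (fun M => ∑ j ∈ J, F j M) L (b + 1) (i.1 :: M) +
        (TT (fun M => ∑ j ∈ J, F j M) L b M - TT (fun M => ∑ j ∈ J, F j M) L b (i.1 :: M)) =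
        ∑ j ∈ J, (TT (F j) L (b + 1) (i.1 :: M) + (TT (F j) L b M - TT (F j) L b (i.1 :: M)))
      rw [ih, ih, ih, Finset.sum_add_distrib, Finset.sum_sub_distrib]

theorem TT_mul (z : ℤ) (F : List (ℕ × ℕ) → ℤ) (L : List Blk) (b : ℕ) (M : List (ℕ × ℕ)) :
    TT (fun M => z * F M) L b M = z * TT F L b M := by
  induction L generalizing b M with
  | nil => rfl
  | cons i L ih =>
    cases b with
    | zero => exact ih 0 _
    | succ b =>
      show TT (fun M => z * F M) L (b + 1) (i.1 :: M) +
        (TT (fun M => z * F M) L b M - TT (fun M => z * F M) L b (i.1 :: M)) =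
        z * (TT F L (b + 1) (i.1 :: M) + (TT F L b M - TT F L b (i.1 :: M)))
      rw [ih, ih, ih]
      ring

theorem TT_add (F G : List (ℕ × ℕ) → ℤ) (L : List Blk) (b : ℕ) (M : List (ℕ × ℕ)) :
    TT (fun M => F M + G M) L b M = TT F L b M + TT G L b M := by
  induction L generalizing b M with
  | nil => rfl
  | cons i L ih =>
    cases b with
    | zero => exact ih 0 _
    | succ b =>
      show TT (fun M => F M + G M) L (b + 1) (i.1 :: M) +
        (TT (fun M => F M + G M) L b M - TT (fun M => F M + G M) L b (i.1 :: M)) =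
        (TT F L (b + 1) (i.1 :: M) + (TT F L b M - TT F L b (i.1 :: M))) +
        (TT G L (b + 1) (i.1 :: M) + (TT G L b M - TT G L b (i.1 :: M)))
      rw [ih, ih, ih]
      ring

theorem TT_listSum {ι : Type} (J : List ι) (F : ι → List (ℕ × ℕ) → ℤ) (L : List Blk) (b : ℕ)
    (M : List (ℕ × ℕ)) : TT (fun M => (J.map fun j => F j M).sum) L b M =
      (J.map fun j => TT (F j) L b M).sum := by
  induction J with
  | nil =>
    have h := TT_mul 0 (fun _ => 0) L b M
    simpa using h
  | cons j J ih =>
    have h := TT_add (F j) (fun M => (J.map fun j => F j M).sum) L b M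
    simp only [List.map_cons, List.sum_cons]
    rw [h, ih]

/-- `TT` depends only on the values of `F` at the lists `E ++ M`, `E` a list of pairs of `L`. -/
theorem TT_congr {F G : List (ℕ × ℕ) → ℤ} {L : List Blk} {M M' : List (ℕ × ℕ)}
    (h : ∀ E : List (ℕ × ℕ), (∀ e ∈ E, e ∈ L.map Prod.fst) → F (E ++ M) = G (E ++ M')) (b : ℕ) :
    TT F L b M = TT G L b M' := by
  induction L generalizing b M M' with
  | nil => exact h [] (by simp)
  | cons i L ih =>
    have h0 : ∀ E : List (ℕ × ℕ), (∀ e ∈ E, e ∈ L.map Prod.fst) → F (E ++ M) = G (E ++ M') := by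
      intro E hE
      refine h E (fun e he => ?_)
      rw [List.map_cons, List.mem_cons]
      exact Or.inr (hE e he)
    have h1 : ∀ E : List (ℕ × ℕ), (∀ e ∈ E, e ∈ L.map Prod.fst) →
        F (E ++ (i.1 :: M)) = G (E ++ (i.1 :: M')) := by
      intro E hE
      have h2 := h (E ++ [i.1]) (fun e he => by
        rw [List.map_cons, List.mem_cons]
        rcases List.mem_append.1 he with he | he
        · exact Or.inr (hE e he)
        · exact Or.inl (List.mem_singleton.1 he))
      rw [List.append_assoc, List.append_assoc, List.singleton_append, List.singleton_append] at h2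
      exact h2
    cases b with
    | zero => exact ih h1 0
    | succ b =>
      show TT F L (b + 1) (i.1 :: M) + (TT F L b M - TT F L b (i.1 :: M)) =
        TT G L (b + 1) (i.1 :: M') + (TT G L b M' - TT G L b (i.1 :: M'))
      rw [ih h1, ih h0, ih h1]

end Pool.Agent.Lib.MP_e05f17_lc
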