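import Pool.Agent.Lib.MP_e05f17_lc.Core

/-!
Critical blocks.
-/

namespace Pool.Agent.Lib.MP_e05f17_lc

/-- The block `i` is critical for the sequence `p`. -/
def crit (H : List ℕ) {k : ℕ} (p : Fin (k + 1) → ℕ) (i : Blk) : Prop :=
  ∃ j : Fin k, (p j.castSucc = i.1.1 ∧ p j.succ ∈ H) ∨ (p j.castSucc ∈ H ∧ p j.succ = i.1.1)

instance (H : List ℕ) {k : ℕ} (p : Fin (k + 1) → ℕ) (i : Blk) : Decidable (crit H p i) :=
  inferInstanceAs (Decidable (∃ j : Fin k, (p j.castSucc = i.1.1 ∧ p j.succ ∈ H) ∨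
    (p j.castSucc ∈ H ∧ p j.succ = i.1.1)))

end Pool.Agent.Lib.MP_e05f17_lc
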