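import Pool.Agent.Lib.MP_e05f17_lc.Core

/-!
The partner function and the modified adjacency.

PROOFS. pm_append: pm is defined by find? of (b.1 == x); find? of E ++ b :: M: List.find?_append,
and find? (b :: M) skips b as b.1 ≠ x. pm_mem: the find? gives some e ∈ M with e.1 = b.1
(List.find?_eq_some_iff or by cases on the value: none is impossible as b ∈ M), e and b are in P and
P.map Prod.fst is Nodup, so e = b (List.inj_on_of_nodup_map). pm_not_mem: find? = none.
am_congr: unfold am. fX_skip: first W (am ..(E ++ b :: M)) X t k x = W (am .. (E ++ M)) X t k x for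
all x ≠ b.1, by induction on k generalizing x (Finset.sum_congr; the y in X are ≠ b.1 as b.1 ∉ X;
am_congr), then unfold fX.
-/

namespace Pool.Agent.Lib.MP_e05f17_lc

theorem pm_append (E M : List (ℕ × ℕ)) (b : ℕ × ℕ) (x : ℕ) (hx : x ≠ b.1) :
    pm (E ++ b :: M) x = pm (E ++ M) x := by
  unfold pm
  rw [List.find?_append, List.find?_append, List.find?_cons_of_neg]
  simpa using (Ne.symm hx)

/-- The partner of a member of a list of disjoint pairs. -/
theorem pm_mem {M P : List (ℕ × ℕ)} (hP : (P.map Prod.fst).Nodup) (hM : ∀ e ∈ M, e ∈ P) {b : ℕ × ℕ}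
    (hb : b ∈ M) : pm M b.1 = b.2 := by
  unfold pm
  rcases he : M.find? (fun e => e.1 == b.1) with _ | e
  · rw [List.find?_eq_none] at he
    exact absurd (he b hb) (by simp)
  · have h1 := List.find?_some he
    have h2 := List.mem_of_find?_eq_some he
    have h3 : e = b := List.inj_on_of_nodup_map hP (hM e h2) (hM b hb) (by simpa using h1)
    rw [he, h3]
    rfl

theorem pm_not_mem {M : List (ℕ × ℕ)} {x : ℕ} (hx : ∀ e ∈ M, e.1 ≠ x) : pm M x = x := by
  unfold pm
  have h1 : M.find? (fun e => e.1 == x) = none := by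
    rw [List.find?_eq_none]
    intro e he
    simpa using hx e he
  rw [h1]
  rfl

theorem am_nil (A : ℕ → ℕ → Bool) (H : List ℕ) : am A H [] = A := by
  funext x y
  have h1 : ∀ z, pm [] z = z := fun z => pm_not_mem (by simp)
  unfold am
  simp [h1]

/-- The modified adjacency does not change if `x` or `y` is not the first element of the pair. -/
theorem am_congr (A : ℕ → ℕ → Bool) (H : List ℕ) (E M : List (ℕ × ℕ)) (b : ℕ × ℕ) (x y : ℕ)
    (h1 : x ∈ H → y ≠ b.1) (h2 : y ∈ H → x ∉ H → x ≠ b.1) :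
    am A H (E ++ b :: M) x y = am A H (E ++ M) x y := by
  unfold am
  split_ifs with hx hy
  · rw [pm_append E M b y (h1 hx)]
  · rw [pm_append E M b x (h2 hy hx)]
  · rfl

private theorem W_skip {A : ℕ → ℕ → Bool} {t : ℕ} {H : List ℕ} (b : ℕ × ℕ)
    (E M : List (ℕ × ℕ)) (X : Finset ℕ) (hb : b.1 ∉ X) (k : ℕ) : ∀ x, x ≠ b.1 →
    W (am A H (E ++ b :: M)) X t k x = W (am A H (E ++ M)) X t k x := by
  induction k with
  | zero => intro x _; rfl
  | succ k ih =>
    intro x hx
    unfold W
    refine Finset.sum_congr rfl fun y hy => ?_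
    have hyb : y ≠ b.1 := fun h => hb (h ▸ hy)
    rw [am_congr A H E M b x y (fun _ => hyb) (fun _ _ => hx), ih y hyb]

theorem fX_skip {A : ℕ → ℕ → Bool} {n s t : ℕ} {H : List ℕ} (S : ℕ → Bool) (b : ℕ × ℕ)
    (E M : List (ℕ × ℕ)) (X : Finset ℕ) (hb : b.1 ∉ X) (hs : s ≠ b.1) :
    fX (am A H (E ++ b :: M)) n s t S X = fX (am A H (E ++ M)) n s t S X := by
  unfold fX
  refine Finset.sum_congr rfl fun k _ => ?_
  rw [W_skip b E M X hb k s hs]

end Pool.Agent.Lib.MP_e05f17_lc
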