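import Pool.Agent.Lib.MP_e05f17_lc.BudA
import Pool.Agent.Lib.MP_e05f17_lc.SwapA
import Pool.Agent.Lib.MP_e05f17_lc.Crit

/-!
The budget formula for one sequence.

PROOF. Let F M = if IsWalk (am A H M) p then 1 else 0. Induction on L, generalizing b and M; i :: L.
 i NOT critical: for all E M': F (E ++ i.1 :: M') = F (E ++ M') (IsWalk is about the pairs
 (p j.castSucc, p j.succ): am_congr of SwapA; its two hypotheses are exactly not crit). So by TT_congr
 TT F L b (i.1 :: M) = TT F L b M for all b. The count of critical blocks of L is the same. b = 0: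
 TT F L 0 (i.1 :: M) = TT F L 0 M = F M (induction). b + 1: the bracket is 0 and the first term is
 TT F L (b+1) M = F M by induction (count ≤ b + 1).
 i critical: List.filter_cons_of_pos, the count for L is ≤ b - 1 and b = b' + 1. By induction
 TT F L (b'+1) (i.1 :: M) = F (i.1 :: M), TT F L b' M = F M, TT F L b' (i.1 :: M) = F (i.1 :: M):
 the sum is F M.
-/

namespace Pool.Agent.Lib.MP_e05f17_lc

private theorem budB_key (A : ℕ → ℕ → Bool) (H : List ℕ) {k : ℕ} (p : Fin (k + 1) → ℕ) (i : Blk)
    (hc : ¬ crit H p i) (E M : List (ℕ × ℕ)) :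
    (if IsWalk (am A H (E ++ i.1 :: M)) p then (1 : ℤ) else 0) =
      if IsWalk (am A H (E ++ M)) p then 1 else 0 := by
  have h1 : ∀ j : Fin k, am A H (E ++ i.1 :: M) (p j.castSucc) (p j.succ) =
      am A H (E ++ M) (p j.castSucc) (p j.succ) := by
    intro j
    refine am_congr A H E M i.1 _ _ ?_ ?_
    · intro hx hy
      exact hc ⟨j, Or.inr ⟨hx, hy⟩⟩
    · intro hy _ hx
      exact hc ⟨j, Or.inl ⟨hx, hy⟩⟩
  have h2 : IsWalk (am A H (E ++ i.1 :: M)) p ↔ IsWalk (am A H (E ++ M)) p := by
    unfold IsWalk
    constructor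
    · intro h j
      rw [← h1 j]
      exact h j
    · intro h j
      rw [h1 j]
      exact h j
  by_cases h3 : IsWalk (am A H (E ++ M)) p
  · rw [if_pos (h2.mpr h3), if_pos h3]
  · rw [if_neg (fun h => h3 (h2.mp h)), if_neg h3]

theorem TT_single (A : ℕ → ℕ → Bool) (H : List ℕ) {k : ℕ} (p : Fin (k + 1) → ℕ) (L : List Blk)
    (b : ℕ) (M : List (ℕ × ℕ)) (h : (L.filter fun i => decide (crit H p i)).length ≤ b) :
    TT (fun M => if IsWalk (am A H M) p then 1 else 0) L b M =
      if IsWalk (am A H M) p then 1 else 0 := by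
  induction L generalizing b M with
  | nil => rfl
  | cons i L ih =>
    by_cases hc : crit H p i
    · rw [List.filter_cons_of_pos (by rw [decide_eq_true hc]), List.length_cons] at h
      obtain ⟨b', rfl⟩ : ∃ b', b = b' + 1 := ⟨b - 1, by omega⟩
      show TT _ L (b' + 1) (i.1 :: M) + (TT _ L b' M - TT _ L b' (i.1 :: M)) = _
      rw [ih (b' + 1) (i.1 :: M) (by omega), ih b' M (by omega), ih b' (i.1 :: M) (by omega)]
      ring
    · rw [List.filter_cons_of_neg (by rw [decide_eq_false hc]; exact Bool.false_ne_true)] at h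
      have key : ∀ b : ℕ, TT (fun M => if IsWalk (am A H M) p then (1 : ℤ) else 0) L b (i.1 :: M) =
          TT (fun M => if IsWalk (am A H M) p then (1 : ℤ) else 0) L b M := by
        intro b
        exact TT_congr (fun E _ => budB_key A H p i hc E M) b
      cases b with
      | zero =>
        show TT _ L 0 (i.1 :: M) = _
        rw [key 0]
        exact ih 0 M h
      | succ b =>
        show TT _ L (b + 1) (i.1 :: M) + (TT _ L b M - TT _ L b (i.1 :: M)) = _
        rw [key b, sub_self, add_zero, key (b + 1)]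
        exact ih (b + 1) M h

end Pool.Agent.Lib.MP_e05f17_lc
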