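import Pool.Agent.Lib.MP_e05f17_lc.Crit

/-!
There are at most two critical blocks for every hub.

PROOF. Let A1 = image of p j.castSucc over the j : Fin k with p j.succ ∈ H, A2 = image of p j.succ over
the j with p j.castSucc ∈ H. |A1| ≤ number of these j ≤ |H.toFinset| ≤ H.length because j ↦ p j.succ is
injective into H.toFinset (Finset.card_le_card_of_injOn); same for A2. The list
(L.filter crit).map (fun i => i.1.1) is Nodup (a sublist of L.map ..: List.Sublist.map,
List.filter_sublist, hL) and all its elements are in A1 ∪ A2, so its length is ≤ |A1 ∪ A2| ≤ 2 |H|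
(List.toFinset_card_of_nodup, Finset.card_le_card, Finset.card_union_le).
-/

namespace Pool.Agent.Lib.MP_e05f17_lc

/-- There are at most two critical blocks for every hub. -/
theorem crit_le (H : List ℕ) {k : ℕ} (p : Fin (k + 1) → ℕ) (hp : Function.Injective p)
    (L : List Blk) (hL : (L.map fun i => i.1.1).Nodup) :
    (L.filter fun i => decide (crit H p i)).length ≤ 2 * H.length := by
  classical
  let A1 : Finset ℕ := (Finset.univ.filter fun j : Fin k => p j.succ ∈ H).image
    fun j => p j.castSucc
  let A2 : Finset ℕ := (Finset.univ.filter fun j : Fin k => p j.castSucc ∈ H).image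
    fun j => p j.succ
  have e1 : A1.card ≤ H.length := by
    refine le_trans Finset.card_image_le ?_
    refine le_trans ?_ (List.toFinset_card_le H)
    refine Finset.card_le_card_of_injOn (fun j => p j.succ) ?_ ?_
    · intro j hj
      exact Finset.mem_coe.2 (List.mem_toFinset.2 (Finset.mem_filter.1 (Finset.mem_coe.1 hj)).2)
    · intro i _ j _ hij
      exact Fin.succ_injective k (hp hij)
  have e2 : A2.card ≤ H.length := by
    refine le_trans Finset.card_image_le ?_
    refine le_trans ?_ (List.toFinset_card_le H)
    refine Finset.card_le_card_of_injOn (fun j => p j.castSucc) ?_ ?_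
    · intro j hj
      exact Finset.mem_coe.2 (List.mem_toFinset.2 (Finset.mem_filter.1 (Finset.mem_coe.1 hj)).2)
    · intro i _ j _ hij
      exact Fin.castSucc_injective k (hp hij)
  have h1 : ((L.filter fun i => decide (crit H p i)).map fun i => i.1.1).Nodup :=
    hL.sublist (List.filter_sublist.map _)
  have h2 := List.toFinset_card_of_nodup h1
  rw [List.length_map] at h2
  rw [← h2]
  have h3 : ((L.filter fun i => decide (crit H p i)).map fun i => i.1.1).toFinset ⊆ A1 ∪ A2 := by
    intro x hx
    rw [List.mem_toFinset, List.mem_map] at hx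
    obtain ⟨i, hi, rfl⟩ := hx
    obtain ⟨_, hi2⟩ := List.mem_filter.1 hi
    obtain ⟨j, hj⟩ := of_decide_eq_true hi2
    rw [Finset.mem_union]
    rcases hj with ⟨ha, hb⟩ | ⟨ha, hb⟩
    · left
      exact Finset.mem_image.2 ⟨j, Finset.mem_filter.2 ⟨Finset.mem_univ _, hb⟩, ha⟩
    · right
      exact Finset.mem_image.2 ⟨j, Finset.mem_filter.2 ⟨Finset.mem_univ _, ha⟩, hb⟩
  have h4 := Finset.card_le_card h3
  have h5 := Finset.card_union_le A1 A2
  omega

end Pool.Agent.Lib.MP_e05f17_lc
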