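import Pool.Agent.Lib.MP_e05f17_lc.BudB
import Pool.Agent.Lib.MP_e05f17_lc.BudC

/-!
The budget formula for the number of paths.

PROOF. PC A U s t k is the card of a filter: (PC A U s t k : ℤ) = sum over p ∈ inj U s t k of
(if IsWalk A p then 1 else 0) (Finset.card_filter, push_cast). TT_sum, then TT_single with crit_le for
every p (p is injective by Finset.mem_filter), then am_nil.
-/

namespace Pool.Agent.Lib.MP_e05f17_lc

theorem TT_PC (A : ℕ → ℕ → Bool) (H : List ℕ) (U : Finset ℕ) (s t k : ℕ) (L : List Blk)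
    (hL : (L.map fun i => i.1.1).Nodup) :
    TT (fun M => (PC (am A H M) U s t k : ℤ)) L (2 * H.length) [] = (PC A U s t k : ℤ) := by
  have e1 : ∀ B : ℕ → ℕ → Bool, (PC B U s t k : ℤ) =
      ∑ p ∈ inj U s t k, (if IsWalk B p then (1 : ℤ) else 0) := by
    intro B
    unfold PC
    rw [Finset.card_filter]
    push_cast
    rfl
  have e2 : (fun M => (PC (am A H M) U s t k : ℤ)) =
      fun M => ∑ p ∈ inj U s t k, (if IsWalk (am A H M) p then (1 : ℤ) else 0) := by
    funext M
    exact e1 _
  rw [e2, TT_sum (inj U s t k) (fun p M => if IsWalk (am A H M) p then (1 : ℤ) else 0), e1]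
  refine Finset.sum_congr rfl fun p hp => ?_
  have hinj : Function.Injective p := (Finset.mem_filter.1 hp).2.1
  rw [TT_single A H p L (2 * H.length) [] (crit_le H p hinj L hL), am_nil]

end Pool.Agent.Lib.MP_e05f17_lc
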