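import Pool.Agent.Lib.MP_e05f17_lc.Core

/-!
The greedy matching.

PROOFS. Invariants of the foldl over prs d (by induction on the list of pairs, from the left:
List.foldl induction with the accumulator generalized, or List.reverseRecOn): for the accumulator
(U, L): every b ∈ L satisfies the properties of mt_spec (members p of prs d have p.1 < p.2 < nOf d);
the members of [b.1.1, b.1.2], b ∈ L, are in U and not sOf, tOf; sOf d, tOf d ∈ U; every element of U is
sOf d, tOf d or in L.flatMap [b.1.1, b.1.2]; L.flatMap [..] is Nodup (a new pair p is added only if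
p.1, p.2 ∉ U; and p.1 ≠ p.2); U only grows. mt_max: (u, v) ∈ prs d; when it is processed either
u ∈ U or v ∈ U or c < (delta d u v).length (impossible) or it is added; afterwards u ∈ U or v ∈ U in
the final U: so u or v is sOf, tOf or in the flatMap.
-/

namespace Pool.Agent.Lib.MP_e05f17_lc

variable (d : List Bool) (c : ℕ)

/-- the invariant of the fold -/
private structure MSInv (acc : List ℕ × List Blk) (dn : List (ℕ × ℕ)) : Prop where
  spec : ∀ b ∈ acc.2, b.1.1 < b.1.2 ∧ b.1.2 < nOf d ∧ b.2 = delta d b.1.1 b.1.2 ∧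
    b.2.length ≤ c
  mem : ∀ x, x ∈ acc.1 ↔ x = sOf d ∨ x = tOf d ∨ x ∈ acc.2.flatMap fun b => [b.1.1, b.1.2]
  nodup : (acc.2.flatMap fun b => [b.1.1, b.1.2]).Nodup
  avoid : ∀ b ∈ acc.2, ∀ x ∈ [b.1.1, b.1.2], x ≠ sOf d ∧ x ≠ tOf d
  mx : ∀ q ∈ dn, (delta d q.1 q.2).length ≤ c → q.1 ∈ acc.1 ∨ q.2 ∈ acc.1

private theorem ms_step {acc : List ℕ × List Blk} {dn : List (ℕ × ℕ)} (h : MSInv d c acc dn)
    {q : ℕ × ℕ} (hq : q.1 < q.2) (hq2 : q.2 < nOf d) : MSInv d c (mstep d c acc q) (dn ++ [q]) := by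
  unfold mstep
  split_ifs with hc
  · refine ⟨h.spec, h.mem, h.nodup, h.avoid, fun r hr hl => ?_⟩
    rw [List.mem_append, List.mem_singleton] at hr
    rcases hr with hr | hr
    · exact h.mx r hr hl
    · subst hr
      simp only [Bool.or_eq_true, List.contains_iff_mem, decide_eq_true_eq] at hc
      rcases hc with (hc | hc) | hc
      · exact Or.inl hc
      · exact Or.inr hc
      · omega
  · simp only [Bool.or_eq_true, List.contains_iff_mem, decide_eq_true_eq, not_or, not_lt] at hc
    obtain ⟨⟨h1, h2⟩, h3⟩ := hc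
    have h1' := h1
    have h2' := h2
    rw [h.mem] at h1' h2'
    push Not at h1' h2'
    refine ⟨?_, ?_, ?_, ?_, ?_⟩
    · intro b hb
      rcases List.mem_cons.1 hb with rfl | hb
      · exact ⟨hq, hq2, rfl, h3⟩
      · exact h.spec b hb
    · intro x
      rw [List.mem_cons, List.mem_cons, h.mem, List.flatMap_cons, List.mem_append]
      simp only [List.mem_cons, List.not_mem_nil, or_false]
      tauto
    · rw [List.flatMap_cons]
      show (q.1 :: q.2 :: acc.2.flatMap fun b => [b.1.1, b.1.2]).Nodup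
      rw [List.nodup_cons, List.nodup_cons, List.mem_cons]
      refine ⟨?_, h2'.2.2, h.nodup⟩
      rintro (h4 | h4)
      · omega
      · exact h1'.2.2 h4
    · intro b hb x hx
      rcases List.mem_cons.1 hb with rfl | hb
      · simp only [List.mem_cons, List.not_mem_nil, or_false] at hx
        rcases hx with rfl | rfl
        · exact ⟨h1'.1, h1'.2.1⟩
        · exact ⟨h2'.1, h2'.2.1⟩
      · exact h.avoid b hb x hx
    · intro r hr hl
      rw [List.mem_append, List.mem_singleton] at hr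
      rcases hr with hr | hr
      · rcases h.mx r hr hl with h4 | h4
        · exact Or.inl (List.mem_cons_of_mem _ (List.mem_cons_of_mem _ h4))
        · exact Or.inr (List.mem_cons_of_mem _ (List.mem_cons_of_mem _ h4))
      · subst hr
        exact Or.inl List.mem_cons_self

private theorem ms_fold (l : List (ℕ × ℕ)) : ∀ (acc : List ℕ × List Blk) (dn : List (ℕ × ℕ)),
    MSInv d c acc dn → (∀ q ∈ l, q.1 < q.2 ∧ q.2 < nOf d) →
    MSInv d c (l.foldl (mstep d c) acc) (dn ++ l) := by
  induction l with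
  | nil =>
    intro acc dn h _
    rw [List.foldl_nil, List.append_nil]
    exact h
  | cons q l ih =>
    intro acc dn h hl
    rw [List.foldl_cons]
    have h1 := ih (mstep d c acc q) (dn ++ [q])
      (ms_step d c h (hl q List.mem_cons_self).1 (hl q List.mem_cons_self).2)
      (fun r hr => hl r (List.mem_cons_of_mem _ hr))
    rwa [List.append_assoc, List.singleton_append] at h1

private theorem ms_prs (q : ℕ × ℕ) : q ∈ prs d ↔ q.1 < q.2 ∧ q.2 < nOf d := by
  unfold prs
  rw [List.mem_flatMap]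
  constructor
  · rintro ⟨v, hv, hq⟩
    rw [List.mem_map] at hq
    obtain ⟨u, hu, rfl⟩ := hq
    exact ⟨List.mem_range.1 hu, List.mem_range.1 hv⟩
  · rintro ⟨h1, h2⟩
    exact ⟨q.2, List.mem_range.2 h2, List.mem_map.2 ⟨q.1, List.mem_range.2 h1, rfl⟩⟩

private theorem ms_inv : MSInv d c ((prs d).foldl (mstep d c) ([sOf d, tOf d], [])) (prs d) := by
  have h0 : MSInv d c ([sOf d, tOf d], []) [] := by
    refine ⟨?_, ?_, ?_, ?_, ?_⟩
    · intro b hb
      exact absurd hb List.not_mem_nil
    · intro x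
      simp
    · exact List.nodup_nil
    · intro b hb
      exact absurd hb List.not_mem_nil
    · intro q hq
      exact absurd hq List.not_mem_nil
  have h1 := ms_fold d c (prs d) _ _ h0 (fun q hq => (ms_prs d q).1 hq)
  rwa [List.nil_append] at h1

theorem mt_spec : ∀ b ∈ mt d c, b.1.1 < b.1.2 ∧ b.1.2 < nOf d ∧ b.2 = delta d b.1.1 b.1.2 ∧
    b.2.length ≤ c := (ms_inv d c).spec

theorem mt_nodup : ((mt d c).flatMap fun b => [b.1.1, b.1.2]).Nodup := (ms_inv d c).nodup

theorem mt_avoid : ∀ b ∈ mt d c, ∀ x ∈ [b.1.1, b.1.2], x ≠ sOf d ∧ x ≠ tOf d :=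
  (ms_inv d c).avoid

theorem mt_max (u v : ℕ) (huv : u < v) (hv : v < nOf d) (h : (delta d u v).length ≤ c) :
    (∃ x ∈ [u, v], x = sOf d ∨ x = tOf d) ∨
      ∃ x ∈ [u, v], x ∈ (mt d c).flatMap fun b => [b.1.1, b.1.2] := by
  have h1 := (ms_inv d c).mx (u, v) ((ms_prs d (u, v)).2 ⟨huv, hv⟩) h
  have key : ∀ x ∈ [u, v], x ∈ ((prs d).foldl (mstep d c) ([sOf d, tOf d], [])).1 →
      (∃ x ∈ [u, v], x = sOf d ∨ x = tOf d) ∨
        ∃ x ∈ [u, v], x ∈ (mt d c).flatMap fun b => [b.1.1, b.1.2] := by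
    intro x hx h2
    rw [(ms_inv d c).mem] at h2
    rcases h2 with h2 | h2 | h2
    · exact Or.inl ⟨x, hx, Or.inl h2⟩
    · exact Or.inl ⟨x, hx, Or.inr h2⟩
    · exact Or.inr ⟨x, hx, h2⟩
  rcases h1 with h1 | h1
  · exact key u List.mem_cons_self h1
  · exact key v (List.mem_cons_of_mem _ List.mem_cons_self) h1

end Pool.Agent.Lib.MP_e05f17_lc
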