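import Pool.Agent.Lib.MP_e05f17_lc.SelSpec
import Pool.Agent.Lib.MP_e05f17_lc.MatchSpec

/-!
The chosen blocks.

PROOFS. mt_pairs: mt_nodup, mt_spec, mt_avoid; mem: b.2 = delta d u v = filter of List.range (nOf d)
(List.mem_filter; the Boolean x != u is x ≠ u, the last condition is adjB d u x != adjB d v x);
nodup': List.nodup_range.filter. choice: unfold choice, cases on the value of find?: none: ([], []):
Good is trivial for the empty list; some K: the pair (H, sel ..) with the property from List.find?_some: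
sel_good, sel_le with mt_pairs. choice_few: M0 * (2 * |H|) = 2 * M0 * |H|.
-/

namespace Pool.Agent.Lib.MP_e05f17_lc

variable (c Kmax M0 : ℕ) (d : List Bool)

theorem mt_pairs (hA : Adj (adjB d) (nOf d)) :
    Pairs (adjB d) (nOf d) (sOf d) (tOf d) c (mt d c) := by
  have _ := hA
  have h1 := mt_spec d c
  have h2 := mt_avoid d c
  refine ⟨mt_nodup d c, ?_, ?_, ?_, ?_, ?_⟩
  · intro b hb
    obtain ⟨h3, h4, _, _⟩ := h1 b hb
    exact ⟨lt_trans h3 h4, h4⟩
  · intro b hb
    have h3 := h2 b hb b.1.1 (by simp)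
    have h4 := h2 b hb b.1.2 (by simp)
    exact ⟨h3.1, h3.2, h4.1, h4.2⟩
  · intro b hb x
    obtain ⟨_, _, h5, _⟩ := h1 b hb
    rw [h5, delta, List.mem_filter, List.mem_range]
    simp only [Bool.and_eq_true, bne_iff_ne, ne_eq]
    tauto
  · intro b hb
    obtain ⟨_, _, h5, _⟩ := h1 b hb
    rw [h5, delta]
    exact List.nodup_range.filter _
  · intro b hb
    exact (h1 b hb).2.2.2

private theorem ChoA_cases : (choice c Kmax M0 d = ([], [])) ∨ ∃ K,
    choice c Kmax M0 d = (hubs (nOf d) (mt d c) (K + 1),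
      sel (sOf d) (tOf d) (hubs (nOf d) (mt d c) (K + 1)) (mt d c)) ∧
    2 * M0 * (hubs (nOf d) (mt d c) (K + 1)).length ≤
      (sel (sOf d) (tOf d) (hubs (nOf d) (mt d c) (K + 1)) (mt d c)).length := by
  unfold choice
  rcases h : (List.range Kmax).find? fun K => decide (2 * M0 *
      (hubs (nOf d) (mt d c) (K + 1)).length ≤
      (sel (sOf d) (tOf d) (hubs (nOf d) (mt d c) (K + 1)) (mt d c)).length) with _ | K
  · left
    rfl
  · right
    have h2 := List.find?_some h
    exact ⟨K, rfl, of_decide_eq_true h2⟩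

theorem choice_good (hA : Adj (adjB d) (nOf d)) :
    Good (adjB d) (nOf d) (sOf d) (tOf d) (choice c Kmax M0 d).1 (choice c Kmax M0 d).2 := by
  rcases ChoA_cases c Kmax M0 d with h | ⟨K, h, _⟩
  · rw [h]
    refine ⟨List.nodup_nil, ?_, ?_⟩
    · intro b hb
      exact absurd hb List.not_mem_nil
    · intro b hb
      exact absurd hb List.not_mem_nil
  · rw [h]
    exact sel_good hA (mt_pairs c d hA) _

theorem choice_le (hA : Adj (adjB d) (nOf d)) : ∀ b ∈ (choice c Kmax M0 d).2, b.2.length ≤ c := by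
  rcases ChoA_cases c Kmax M0 d with h | ⟨K, h, _⟩
  · rw [h]
    intro b hb
    exact absurd hb List.not_mem_nil
  · rw [h]
    exact sel_le (mt_pairs c d hA) _

theorem choice_few : M0 * (2 * (choice c Kmax M0 d).1.length) ≤ (choice c Kmax M0 d).2.length := by
  rcases ChoA_cases c Kmax M0 d with h | ⟨K, h, h2⟩
  · rw [h]
    simp
  · rw [h]
    calc M0 * (2 * (hubs (nOf d) (mt d c) (K + 1)).length) =
        2 * M0 * (hubs (nOf d) (mt d c) (K + 1)).length := by ring
      _ ≤ _ := h2

end Pool.Agent.Lib.MP_e05f17_lc
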