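import Pool.Agent.Lib.MP_e05f17_lc.ChoA

/-!
There are many chosen blocks if the matching is large.

PROOF. m = (mt d c).length, h_K = (hubs .. (K+1)).length, N_K = (sel ..).length for K < Kmax. Kmax ≥ 1 as the
sum in hK is > 0, so m ≥ 4. If find? gives some K: 2 M0 h_K ≤ N_K, so h_K ≤ N_K (M0 ≥ 1), and sel_large:
m ≤ h_K + (K+1)((c+2) N_K + 2) ≤ N_K + Kmax (c+2) N_K + 2 Kmax. If find? gives none: for all K < Kmax
N_K < 2 M0 h_K, so by sel_large m ≤ h_K + (K+1)((c+2) 2 M0 h_K + 2) and, as 2(K+1) ≤ 2 Kmax ≤ m/2,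
m/2 ≤ h_K (1 + (K+1)(c+2) 2 M0) ≤ h_K (K+1) (2 M0 (c+2) + 1), that is
h_K ≥ m / (2 (2 M0 (c+2) + 1)) * 1/(K+1). Sum over K < Kmax with sum_hubs_le:
c m ≥ m / (2 (2 M0 (c+2)+1)) * sum 1/(K+1) > m c by hK and m > 0: contradiction.
-/

namespace Pool.Agent.Lib.MP_e05f17_lc

variable (c Kmax M0 : ℕ) (d : List Bool)

/-- The number of blocks is large if the matching is large. -/
theorem choice_large (hA : Adj (adjB d) (nOf d)) (hM : 0 < M0)
    (hK : ((2 * (2 * M0 * (c + 2) + 1) * c : ℕ) : ℝ) < ∑ K ∈ Finset.range Kmax, 1 / ((K : ℝ) + 1))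
    (hm : 4 * Kmax ≤ (mt d c).length) :
    (mt d c).length ≤ (choice c Kmax M0 d).2.length * (Kmax * (c + 2) + 1) + 2 * Kmax := by
  have hP : Pairs (adjB d) (nOf d) (sOf d) (tOf d) c (mt d c) := mt_pairs c d hA
  have hKpos : 0 < Kmax := by
    rcases Nat.eq_zero_or_pos Kmax with h0 | h0
    · exfalso
      rw [h0, Finset.range_zero, Finset.sum_empty] at hK
      exact absurd hK (not_lt.2 (Nat.cast_nonneg _))
    · exact h0
  rcases hf : (List.range Kmax).find? (fun K => decide (2 * M0 *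
      (hubs (nOf d) (mt d c) (K + 1)).length ≤
      (sel (sOf d) (tOf d) (hubs (nOf d) (mt d c) (K + 1)) (mt d c)).length)) with _ | K
  · exfalso
    have hall : ∀ K, K < Kmax →
        (sel (sOf d) (tOf d) (hubs (nOf d) (mt d c) (K + 1)) (mt d c)).length <
          2 * M0 * (hubs (nOf d) (mt d c) (K + 1)).length := by
      intro K hKK
      have h1 := List.find?_eq_none.1 hf K (List.mem_range.2 hKK)
      simpa using h1
    set m := (mt d c).length with hmdef
    have hmpos : 0 < m := by omega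
    have hstep : ∀ K ∈ Finset.range Kmax,
        (m : ℝ) / (2 * (2 * M0 * (c + 2) + 1)) * (1 / ((K : ℝ) + 1)) ≤
          ((hubs (nOf d) (mt d c) (K + 1)).length : ℝ) := by
      intro K hKK
      have hKK' : K < Kmax := Finset.mem_range.1 hKK
      have h1 := sel_large hP K
      have h2 := hall K hKK'
      set h := (hubs (nOf d) (mt d c) (K + 1)).length
      set N := (sel (sOf d) (tOf d) (hubs (nOf d) (mt d c) (K + 1)) (mt d c)).length
      rw [← hmdef] at h1
      have h3 : m ≤ h + (K + 1) * ((c + 2) * (2 * M0 * h) + 2) := by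
        refine h1.trans ?_
        have h4 : (c + 2) * N ≤ (c + 2) * (2 * M0 * h) := Nat.mul_le_mul_left _ h2.le
        have h5 : (K + 1) * ((c + 2) * N + 2) ≤ (K + 1) * ((c + 2) * (2 * M0 * h) + 2) :=
          Nat.mul_le_mul_left _ (by omega)
        omega
      have h6 : m ≤ 2 * ((K + 1) * (2 * M0 * (c + 2) + 1) * h) := by
        have h7 : (K + 1) * ((c + 2) * (2 * M0 * h) + 2) =
            (K + 1) * (2 * M0 * (c + 2)) * h + 2 * (K + 1) := by ring
        have h8 : (K + 1) * (2 * M0 * (c + 2) + 1) * h =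
            (K + 1) * (2 * M0 * (c + 2)) * h + (K + 1) * h := by ring
        have h9 : h ≤ (K + 1) * h := Nat.le_mul_of_pos_left h (Nat.succ_pos K)
        rw [h7] at h3
        rw [h8]
        omega
      have h10 : (m : ℝ) ≤ 2 * (((K : ℝ) + 1) * (2 * M0 * (c + 2) + 1) * h) := by
        exact_mod_cast h6
      have hE : (0 : ℝ) < 2 * (2 * M0 * (c + 2) + 1) := by positivity
      have hK1 : (0 : ℝ) < (K : ℝ) + 1 := by positivity
      rw [div_mul_div_comm, mul_one, div_le_iff₀ (by positivity)]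
      calc (m : ℝ) ≤ 2 * (((K : ℝ) + 1) * (2 * M0 * (c + 2) + 1) * h) := h10
        _ = (h : ℝ) * (2 * (2 * M0 * (c + 2) + 1) * ((K : ℝ) + 1)) := by ring
    have hsum := Finset.sum_le_sum hstep
    rw [← Finset.mul_sum] at hsum
    have htot : ((∑ K ∈ Finset.range Kmax, (hubs (nOf d) (mt d c) (K + 1)).length : ℕ) : ℝ) ≤
        ((c * m : ℕ) : ℝ) := by exact_mod_cast sum_hubs_le hP Kmax
    push_cast at htot hK
    have hE : (0 : ℝ) < 2 * (2 * M0 * (c + 2) + 1) := by positivity
    have hmr : (0 : ℝ) < m := by exact_mod_cast hmpos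
    have hcoef : (0 : ℝ) < (m : ℝ) / (2 * (2 * M0 * (c + 2) + 1)) := by positivity
    have h11 : (m : ℝ) / (2 * (2 * M0 * (c + 2) + 1)) * (2 * (2 * M0 * (c + 2) + 1) * c) <
        (m : ℝ) / (2 * (2 * M0 * (c + 2) + 1)) *
          ∑ K ∈ Finset.range Kmax, 1 / ((K : ℝ) + 1) := mul_lt_mul_of_pos_left hK hcoef
    have h12 : (m : ℝ) / (2 * (2 * M0 * (c + 2) + 1)) * (2 * (2 * M0 * (c + 2) + 1) * c) =
        c * m := by
      field_simp
    rw [h12] at h11
    linarith
  · have hp := List.find?_some hf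
    have hmem := List.mem_of_find?_eq_some hf
    have hKK : K < Kmax := List.mem_range.1 hmem
    have hp' : 2 * M0 * (hubs (nOf d) (mt d c) (K + 1)).length ≤
        (sel (sOf d) (tOf d) (hubs (nOf d) (mt d c) (K + 1)) (mt d c)).length := by
      simpa using hp
    have hch : (choice c Kmax M0 d).2 =
        sel (sOf d) (tOf d) (hubs (nOf d) (mt d c) (K + 1)) (mt d c) := by
      unfold choice
      rw [hf]
      rfl
    rw [hch]
    have h1 := sel_large hP K
    set h := (hubs (nOf d) (mt d c) (K + 1)).length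
    set N := (sel (sOf d) (tOf d) (hubs (nOf d) (mt d c) (K + 1)) (mt d c)).length
    have h2 : h ≤ N := by
      refine le_trans ?_ hp'
      exact Nat.le_mul_of_pos_left h (by positivity)
    have h3 : (K + 1) * ((c + 2) * N + 2) ≤ Kmax * ((c + 2) * N + 2) :=
      Nat.mul_le_mul_right _ hKK
    calc (mt d c).length ≤ h + (K + 1) * ((c + 2) * N + 2) := h1
      _ ≤ N + Kmax * ((c + 2) * N + 2) := by omega
      _ = N * (Kmax * (c + 2) + 1) + 2 * Kmax := by ring

end Pool.Agent.Lib.MP_e05f17_lc
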