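import Pool.Agent.Lib.MP_e05f17_lc.ChoA

/-!
The vertices outside the blocks.

PROOFS. restOf_spec: a filter of List.range (nOf d) (List.mem_filter, List.mem_range; simp).
card_le: the list (choice).2.flatMap verts ++ restOf d (choice).2 is Nodup (choice_good.nodup,
restOf_spec; disjoint by restOf_spec) and all elements are < nOf d (choice_good.out), so its length is
≤ nOf d (List.Nodup.length_le_card / toFinset ⊆ range, or List.Subperm of List.range). Second part:
L.length ≤ (L.flatMap verts).length (every verts b has length ≥ 2; induction).
-/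

namespace Pool.Agent.Lib.MP_e05f17_lc

variable (c Kmax M0 : ℕ) (d : List Bool)

/-- The vertices outside the blocks. -/
theorem restOf_spec (L : List Blk) : (restOf d L).Nodup ∧ ∀ x, x ∈ restOf d L ↔
    x < nOf d ∧ x ≠ sOf d ∧ x ≠ tOf d ∧ x ∉ L.flatMap verts := by
  unfold restOf
  refine ⟨List.nodup_range.filter _, fun x => ?_⟩
  rw [List.mem_filter, List.mem_range]
  simp only [Bool.and_eq_true, bne_iff_ne, ne_eq, Bool.not_eq_true', and_assoc]
  have h : (L.flatMap verts).contains x = false ↔ x ∉ L.flatMap verts := by
    rw [← List.contains_iff_mem, Bool.not_eq_true]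
  rw [h]

private theorem ChoC_len (L : List Blk) : L.length ≤ (L.flatMap verts).length := by
  induction L with
  | nil => exact le_rfl
  | cons b L ih =>
    rw [List.flatMap_cons, List.length_append, List.length_cons]
    have h : (verts b).length = b.2.length + 1 + 1 := rfl
    omega

/-- The number of vertices. -/
theorem card_le (hA : Adj (adjB d) (nOf d)) :
    ((choice c Kmax M0 d).2.flatMap verts).length +
      (restOf d (choice c Kmax M0 d).2).length ≤ nOf d ∧
    (choice c Kmax M0 d).2.length + (restOf d (choice c Kmax M0 d).2).length ≤ nOf d := by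
  have hg := choice_good c Kmax M0 d hA
  obtain ⟨hn, hr⟩ := restOf_spec d (choice c Kmax M0 d).2
  have h1 : ((choice c Kmax M0 d).2.flatMap verts ++ restOf d (choice c Kmax M0 d).2).Nodup := by
    rw [List.nodup_append]
    refine ⟨hg.nodup, hn, fun a ha b hb hab => ?_⟩
    subst hab
    exact ((hr a).1 hb).2.2.2 ha
  have h2 : ((choice c Kmax M0 d).2.flatMap verts ++ restOf d (choice c Kmax M0 d).2).length ≤
      nOf d := by
    have h3 : ((choice c Kmax M0 d).2.flatMap verts ++
        restOf d (choice c Kmax M0 d).2) ⊆ List.range (nOf d) := by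
      intro x hx
      rw [List.mem_range]
      rcases List.mem_append.1 hx with hx | hx
      · obtain ⟨b, hb, hxb⟩ := List.mem_flatMap.1 hx
        exact (hg.out b hb x hxb).1
      · exact ((hr x).1 hx).1
    have h4 := (List.subperm_of_subset h1 h3).length_le
    rwa [List.length_range] at h4
  rw [List.length_append] at h2
  exact ⟨h2, (Nat.add_le_add_right (ChoC_len _) _).trans h2⟩

end Pool.Agent.Lib.MP_e05f17_lc
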