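import Pool.Agent.Lib.MP_e05f17_lc.ChoA
import Pool.Agent.Lib.MP_e05f17_lc.ChoB
import Pool.Agent.Lib.MP_e05f17_lc.ChoC

/-!
The chosen blocks: collects ChoA, ChoB, ChoC.
-/

namespace Pool.Agent.Lib.MP_e05f17_lc



end Pool.Agent.Lib.MP_e05f17_lc
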