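import Mathlib

/-!
Linear neighbourhood complexity.
-/

namespace Pool.Agent.Lib.MP_e05f17_lc

/-- Linear neighbourhood complexity: on every nonempty set `A` of vertices the neighbourhoods of the
vertices of `G` have at most `D |A|` different traces. -/
def LinComplexity {n : ℕ} (G : SimpleGraph (Fin n)) (D : ℕ) : Prop :=
  ∀ A : Finset (Fin n), A.Nonempty →
    {T : Set (Fin n) | ∃ v, T = {x | x ∈ A ∧ G.Adj v x}}.ncard ≤ D * A.card

end Pool.Agent.Lib.MP_e05f17_lc
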