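import Mathlib

/-!
Linear complexity bounds the dimension.

PROOF. If F shatters B then every subset of B is Y ∩ B for some Y ∈ F, so 2^(2c+1) = B.powerset.card ≤
(F.image (· ∩ B)).card ≤ c (2c + 2); but 2 * 4^c > c (2c+2), i.e. 4^c > c^2 + c (induction on c).
-/

namespace Pool.Agent.Lib.MP_e05f17_lc

private theorem nce_four (c : ℕ) : c * c + c + 1 ≤ 4 ^ c := by
  induction c with
  | zero => norm_num
  | succ c ih =>
    rw [pow_succ]
    nlinarith

theorem not_shatters {α : Type*} [DecidableEq α] (F : Finset (Finset α)) (c : ℕ)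
    (hc : ∀ A : Finset α, (F.image fun Y => Y ∩ A).card ≤ c * (A.card + 1)) (B : Finset α)
    (hB : B.card = 2 * c + 1) : ¬ F.Shatters B := by
  intro h
  have h1 : B.powerset ⊆ F.image fun Y => Y ∩ B := by
    intro t ht
    obtain ⟨u, hu, hut⟩ := h (Finset.mem_powerset.1 ht)
    rw [Finset.mem_image]
    exact ⟨u, hu, by rw [Finset.inter_comm]; exact hut⟩
  have h2 := (Finset.card_le_card h1).trans (hc B)
  rw [Finset.card_powerset, hB, pow_succ, pow_mul] at h2
  have h3 := nce_four c
  norm_num at h2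
  nlinarith

end Pool.Agent.Lib.MP_e05f17_lc
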