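import Mathlib

/-!
Maximal families of disjoint pairs.

PROOF. The numbers m for which u, v : Fin m → Fin n with Sum.elim u v injective and P (u i) (v i) for all i
exist satisfy 2 m ≤ n (Fintype.card_le_of_injective, Fintype.card_sum), and m = 0 is one; take the
largest (Nat.findGreatest or Nat.find on n - m). V = complement of the range of Sum.elim u v:
V.card + 2 m = n (Finset.card_compl, card_image_of_injective). If x ≠ y ∈ V with P x y then
Fin.snoc u x (or Fin.cons), Fin.snoc v y give m + 1.
-/

namespace Pool.Agent.Lib.MP_e05f17_lc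

theorem exists_pairs {n : ℕ} (P : Fin n → Fin n → Prop) :
    ∃ (m : ℕ) (u v : Fin m → Fin n), Function.Injective (Sum.elim u v) ∧ (∀ i, P (u i) (v i)) ∧
      ∃ V : Finset (Fin n), V.card + 2 * m = n ∧ ∀ x ∈ V, ∀ y ∈ V, x ≠ y → ¬ P x y := by
  classical
  let Q : ℕ → Prop := fun m => ∃ u v : Fin m → Fin n,
    Function.Injective (Sum.elim u v) ∧ ∀ i, P (u i) (v i)
  have hQ : ∀ m, Q m → 2 * m ≤ n := by
    rintro m ⟨u, v, h, -⟩
    have h1 := Fintype.card_le_of_injective _ h
    rw [Fintype.card_sum, Fintype.card_fin, Fintype.card_fin] at h1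
    omega
  have h0 : Q 0 := ⟨Fin.elim0, Fin.elim0, fun a => by
    rcases a with a | a
    · exact a.elim0
    · exact a.elim0, fun i => i.elim0⟩
  obtain ⟨u, v, huv, hP⟩ : Q (Nat.findGreatest Q n) :=
    Nat.findGreatest_spec (Nat.zero_le n) h0
  have hmax : ¬ Q (Nat.findGreatest Q n + 1) := by
    intro h1
    have h2 := hQ _ h1
    exact Nat.findGreatest_is_greatest (Nat.lt_succ_self _) (by omega) h1
  generalize Nat.findGreatest Q n = m at u v huv hP hmax
  refine ⟨m, u, v, huv, hP, (Finset.univ.image (Sum.elim u v))ᶜ, ?_, ?_⟩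
  · rw [Finset.card_compl, Finset.card_image_of_injective _ huv, Finset.card_univ,
      Fintype.card_sum, Fintype.card_fin, Fintype.card_fin]
    have h1 := hQ m ⟨u, v, huv, hP⟩
    omega
  · intro x hx y hy hxy hPxy
    rw [Finset.mem_compl, Finset.mem_image] at hx hy
    have hxu : ∀ a, u a ≠ x := fun a h => hx ⟨Sum.inl a, Finset.mem_univ _, h⟩
    have hxv : ∀ a, v a ≠ x := fun a h => hx ⟨Sum.inr a, Finset.mem_univ _, h⟩
    have hyu : ∀ a, u a ≠ y := fun a h => hy ⟨Sum.inl a, Finset.mem_univ _, h⟩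
    have hyv : ∀ a, v a ≠ y := fun a h => hy ⟨Sum.inr a, Finset.mem_univ _, h⟩
    have hui : Function.Injective u := fun a b h => Sum.inl_injective (huv h)
    have hvi : Function.Injective v := fun a b h => Sum.inr_injective (huv h)
    have huv' : ∀ a b, u a ≠ v b := fun a b h => Sum.inl_ne_inr (huv (a₁ := Sum.inl a)
      (a₂ := Sum.inr b) h)
    apply hmax
    refine ⟨Fin.cons x u, Fin.cons y v, Function.Injective.sumElim ?_ ?_ ?_, ?_⟩
    · rw [Fin.cons_injective_iff]
      exact ⟨fun ⟨a, ha⟩ => hxu a ha, hui⟩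
    · rw [Fin.cons_injective_iff]
      exact ⟨fun ⟨a, ha⟩ => hyv a ha, hvi⟩
    · intro a b
      refine Fin.cases ?_ (fun a => ?_) a
      · refine Fin.cases ?_ (fun b => ?_) b
        · rw [Fin.cons_zero, Fin.cons_zero]
          exact hxy
        · rw [Fin.cons_zero, Fin.cons_succ]
          exact (hxv b).symm
      · refine Fin.cases ?_ (fun b => ?_) b
        · rw [Fin.cons_zero, Fin.cons_succ]
          exact hyu a
        · rw [Fin.cons_succ, Fin.cons_succ]
          exact huv' a b
    · intro i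
      refine Fin.cases ?_ (fun i => ?_) i
      · rw [Fin.cons_zero, Fin.cons_zero]
        exact hPxy
      · rw [Fin.cons_succ, Fin.cons_succ]
        exact hP i

end Pool.Agent.Lib.MP_e05f17_lc
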