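import Pool.Agent.Lib.MP_33f9c4_lc.Defs
import Mathlib

/-! Counting paths in graphs with near-twins: the definitions used in the statement. -/

namespace Pool.Agent.Lib.MP_e05f17_lc

open Classical in
/-- The input: the `n × (n + 3)` matrix of bits whose row `i` consists of the adjacency row of `i`,
the bits `i = s`, `i = t` and the bit `i + 1 ∈ S`, written row by row. -/
noncomputable def input {n : ℕ} (G : SimpleGraph (Fin n)) (s t : Fin n) (S : Set ℕ) : List Bool :=
  (List.ofFn fun i : Fin n => (List.ofFn fun j : Fin n => decide (G.Adj i j)) ++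
    [decide (i = s), decide (i = t), decide ((i : ℕ) + 1 ∈ S)]).flatten

/-- The number of paths from `s` to `t` in `G` whose number of vertices belongs to `S`. -/
noncomputable def pathCount {n : ℕ} (G : SimpleGraph (Fin n)) (s t : Fin n) (S : Set ℕ) : ℕ :=
  Nat.card {p : G.Walk s t // p.IsPath ∧ p.length + 1 ∈ S}

open Classical in
/-- The number of vertices other than `u` and `v` which are adjacent to exactly one of `u` and `v`. -/
noncomputable def differ {n : ℕ} (G : SimpleGraph (Fin n)) (u v : Fin n) : ℕ :=
  (Finset.univ.filter fun x => x ≠ u ∧ x ≠ v ∧ ¬ (G.Adj u x ↔ G.Adj v x)).card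

/-- There are `m ≥ δ n` pairwise disjoint pairs `{u i, v i}` of vertices such that on the whole at most
`D n` vertices distinguish the two members of a pair. -/
def NearTwins {n : ℕ} (G : SimpleGraph (Fin n)) (δ : ℝ) (D : ℕ) : Prop :=
  ∃ (m : ℕ) (u v : Fin m → Fin n), δ * n ≤ m ∧ Function.Injective (Sum.elim u v) ∧
    ∑ i, differ G (u i) (v i) ≤ D * n

end Pool.Agent.Lib.MP_e05f17_lc
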