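import Pool.Agent.Lib.MP_e05f17_lc.NCD
import Pool.Agent.Lib.MP_e05f17_lc.NCE
import Pool.Agent.Lib.MP_e05f17_lc.NCF
import Pool.Agent.Lib.MP_e05f17_lc.NCDef
import Pool.Agent.Lib.MP_e05f17_lc.Stmt

/-!
Graphs with linear neighbourhood complexity have many near-twins.

PROOF. N v = univ.filter (G.Adj v ·) (classical). hc': for all V and A the number of traces of the
N v, v ∈ V, on A is ≤ c (|A| + 1): A nonempty: from h (the map T ↦ (T : Set) injects the image into the
set of the definition, Set.ncard_le_ncard with finiteness, or Finset.coe / Set.ncard_coe_finset);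
A = ∅: at most one trace, c ≥ 1. P x y := (symmDiff (N x) (N y)).card ≤ 64 c^2. exists_pairs gives m, u, v, V.
Claim 2 V.card ≤ n: otherwise with K = 64 c^2 + 1 (pairs of V are separated), d = 2 c (not_shatters for
F = V.image N), s = n / (4c) (natural division; 1 ≤ s ≤ n, 4 c s ≤ n, n < 4 c (s+1) ≤ 8 c s) packing gives
s K (M - c s) ≤ 4 c M n, M = V.card > n/2 ≥ 2 c s, so M - c s ≥ M/2 and s K M ≤ 8 c M n, s K ≤ 8 c n < 64
c^2 s: contradiction. So 2 m ≥ n/2, m ≥ n/4. differ G (u i) (v i) ≤ (symmDiff ..).card ≤ 64 c^2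
(Finset.card_le_card), and the sum is ≤ m * 64 c^2 ≤ 64 c^2 n.
-/

namespace Pool.Agent.Lib.MP_e05f17_lc

open Classical in
/-- the neighbourhoods -/
private noncomputable def ncgN {n : ℕ} (G : SimpleGraph (Fin n)) (v : Fin n) : Finset (Fin n) :=
  Finset.univ.filter fun x => G.Adj v x

private theorem ncg_mem {n : ℕ} (G : SimpleGraph (Fin n)) (v x : Fin n) : x ∈ ncgN G v ↔ G.Adj v x := by
  simp only [ncgN, Finset.mem_filter, Finset.mem_univ, true_and]

private theorem ncg_traces {n : ℕ} (c : ℕ) (hc : 1 ≤ c) (G : SimpleGraph (Fin n)) (h : LinComplexity G c)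
    (V A : Finset (Fin n)) : (V.image fun v => ncgN G v ∩ A).card ≤ c * (A.card + 1) := by
  rcases A.eq_empty_or_nonempty with rfl | hA
  · have h1 : (V.image fun v => ncgN G v ∩ ∅).card ≤ 1 := by
      rw [Finset.card_le_one]
      intro a ha b hb
      rw [Finset.mem_image] at ha hb
      obtain ⟨x, -, rfl⟩ := ha
      obtain ⟨y, -, rfl⟩ := hb
      rw [Finset.inter_empty, Finset.inter_empty]
    rw [Finset.card_empty]
    omega
  · have h1 := h A hA
    have h2 : ((V.image fun v => ncgN G v ∩ A).image fun T : Finset (Fin n) => (T : Set (Fin n))).card =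
        (V.image fun v => ncgN G v ∩ A).card :=
      Finset.card_image_of_injective _ Finset.coe_injective
    have h3 : (((V.image fun v => ncgN G v ∩ A).image fun T : Finset (Fin n) => (T : Set (Fin n))) : Set (Set (Fin n))) ⊆
        {T : Set (Fin n) | ∃ v, T = {x | x ∈ A ∧ G.Adj v x}} := by
      intro T hT
      rw [Finset.mem_coe, Finset.mem_image] at hT
      obtain ⟨T', hT', rfl⟩ := hT
      rw [Finset.mem_image] at hT'
      obtain ⟨v, -, rfl⟩ := hT'
      refine ⟨v, ?_⟩
      ext x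
      rw [Finset.mem_coe, Finset.mem_inter, ncg_mem]
      exact ⟨fun k => ⟨k.2, k.1⟩, fun k => ⟨k.2, k.1⟩⟩
    have h4 := Set.ncard_le_ncard h3 (Set.toFinite _)
    rw [Set.ncard_coe_finset, h2] at h4
    have h5 : c * A.card ≤ c * (A.card + 1) := Nat.mul_le_mul_left c (Nat.le_succ _)
    omega

private theorem ncg_arith {n c s M K : ℕ} (hc : 1 ≤ c) (hs1 : 1 ≤ s) (hs2 : 4 * c * s ≤ n) (hs3 : n < 8 * c * s)
    (hM : n < 2 * M) (hK : 64 * c ^ 2 < K) (hp : s * K * (M - c * s) ≤ 2 * (2 * c) * M * n) : False := by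
  have h1 : M ≤ 2 * (M - c * s) := by
    have : 4 * (c * s) ≤ n := by
      calc 4 * (c * s) = 4 * c * s := by ring
        _ ≤ n := hs2
    omega
  have hM0 : 0 < M := by omega
  have h2 : s * K * M ≤ 8 * c * n * M := by
    calc s * K * M ≤ s * K * (2 * (M - c * s)) := Nat.mul_le_mul_left _ h1
      _ = 2 * (s * K * (M - c * s)) := by ring
      _ ≤ 2 * (2 * (2 * c) * M * n) := Nat.mul_le_mul_left _ hp
      _ = 8 * c * n * M := by ring
  have h3 : s * K ≤ 8 * c * n := Nat.le_of_mul_le_mul_right h2 hM0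
  have h4 : 8 * c * n ≤ 8 * c * (8 * c * s) := Nat.mul_le_mul_left _ hs3.le
  have h5 : s * K ≤ s * (64 * c ^ 2) := by
    calc s * K ≤ 8 * c * (8 * c * s) := h3.trans h4
      _ = s * (64 * c ^ 2) := by ring
  have h6 : K ≤ 64 * c ^ 2 := Nat.le_of_mul_le_mul_left h5 hs1
  omega

theorem nearTwins_complexity {n : ℕ} (c : ℕ) (hc : 1 ≤ c) (hn : 4 * c ≤ n)
    (G : SimpleGraph (Fin n)) (h : LinComplexity G c) : NearTwins G (1 / 4) (64 * c ^ 2) := by
  classical
  obtain ⟨m, u, v, hinj, hP, V, hV, hsep⟩ := exists_pairs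
    (fun x y : Fin n => (symmDiff (ncgN G x) (ncgN G y)).card ≤ 64 * c ^ 2)
  have hV2 : 2 * V.card ≤ n := by
    by_contra hcon
    push Not at hcon
    have hs1 : 1 ≤ n / (4 * c) := (Nat.one_le_div_iff (by omega)).2 hn
    have hs2 : 4 * c * (n / (4 * c)) ≤ n := Nat.mul_div_le n (4 * c)
    have hs3 : n < 8 * c * (n / (4 * c)) := by
      have h1 := Nat.lt_mul_div_succ n (show 0 < 4 * c by omega)
      have h2 : 4 * c * (n / (4 * c) + 1) ≤ 4 * c * (n / (4 * c) + n / (4 * c)) :=
        Nat.mul_le_mul_left _ (by omega)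
      calc n < 4 * c * (n / (4 * c) + 1) := h1
        _ ≤ 4 * c * (n / (4 * c) + n / (4 * c)) := h2
        _ = 8 * c * (n / (4 * c)) := by ring
    have hs4 : n / (4 * c) ≤ Fintype.card (Fin n) := by
      rw [Fintype.card_fin]
      exact Nat.div_le_self _ _
    have hp := packing (ncgN G) V (64 * c ^ 2 + 1) c (2 * c) (n / (4 * c))
      (fun x hx y hy hxy => by
        have := hsep x hx y hy hxy
        omega)
      (fun B hB => not_shatters (V.image (ncgN G)) c (fun A => by
        rw [Finset.image_image]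
        exact ncg_traces c hc G h V A) B hB)
      (fun A => ncg_traces c hc G h V A) hs1 hs4
    rw [Fintype.card_fin] at hp
    exact ncg_arith hc hs1 hs2 hs3 hcon (Nat.lt_succ_self _) hp
  refine ⟨m, u, v, ?_, hinj, ?_⟩
  · have h1 : n ≤ 4 * m := by omega
    have h2 : (n : ℝ) ≤ 4 * m := by exact_mod_cast h1
    linarith
  · have hd : ∀ i : Fin m, differ G (u i) (v i) ≤ 64 * c ^ 2 := by
      intro i
      refine le_trans ?_ (hP i)
      unfold differ
      apply Finset.card_le_card
      intro x hx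
      rw [Finset.mem_filter] at hx
      rw [Finset.mem_symmDiff, ncg_mem, ncg_mem]
      have h1 := hx.2.2.2
      tauto
    calc ∑ i, differ G (u i) (v i) ≤ ∑ _i : Fin m, 64 * c ^ 2 := Finset.sum_le_sum fun i _ => hd i
      _ = m * (64 * c ^ 2) := by
          rw [Finset.sum_const, Finset.card_univ, Fintype.card_fin, smul_eq_mul]
      _ ≤ n * (64 * c ^ 2) := Nat.mul_le_mul_right _ (by omega)
      _ = 64 * c ^ 2 * n := Nat.mul_comm _ _

end Pool.Agent.Lib.MP_e05f17_lc
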