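import Pool.Agent.Lib.MP_e05f17_lc.Stmt

/-!
Near-twins of the complement.

PROOF. For x ≠ u, x ≠ v: Gᶜ.Adj u x ↔ not G.Adj u x (SimpleGraph.compl_adj), so differ Gᶜ u v =
differ G u v (Finset.filter_congr). Then unfold NearTwins.
-/

namespace Pool.Agent.Lib.MP_e05f17_lc

attribute [-instance] SimpleGraph.Compl.adjDecidable in
theorem differ_compl {n : ℕ} (G : SimpleGraph (Fin n)) (u v : Fin n) :
    differ Gᶜ u v = differ G u v := by
  classical
  unfold differ
  refine congrArg Finset.card (Finset.filter_congr fun x _ => ?_)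
  constructor
  · rintro ⟨h1, h2, h3⟩
    refine ⟨h1, h2, fun h4 => h3 ?_⟩
    rw [SimpleGraph.compl_adj, SimpleGraph.compl_adj, h4]
    exact ⟨fun h => ⟨h2.symm, h.2⟩, fun h => ⟨h1.symm, h.2⟩⟩
  · rintro ⟨h1, h2, h3⟩
    refine ⟨h1, h2, fun h4 => h3 ?_⟩
    rw [SimpleGraph.compl_adj, SimpleGraph.compl_adj] at h4
    constructor
    · intro h5
      by_contra h6
      exact (h4.2 ⟨h2.symm, h6⟩).2 h5
    · intro h5
      by_contra h6
      exact (h4.1 ⟨h1.symm, h6⟩).2 h5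

theorem nearTwins_compl {n : ℕ} {G : SimpleGraph (Fin n)} {δ : ℝ} {D : ℕ} (h : NearTwins Gᶜ δ D) :
    NearTwins G δ D := by
  obtain ⟨m, u, v, h1, h2, h3⟩ := h
  refine ⟨m, u, v, h1, h2, ?_⟩
  simp only [differ_compl] at h3
  exact h3

end Pool.Agent.Lib.MP_e05f17_lc
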