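import Pool.Agent.Lib.MP_e05f17_lc.Stmt

/-!
Sparse graphs have many near-twins.

PROOF. The sum of the degrees is twice the number of edges (SimpleGraph.sum_degrees_eq_twice_card_edges;
Set.ncard_coe_finset / coe_edgeFinset) ≤ 2 D n. Let W be the set of the vertices of degree ≤ 4 D; the
others, if there are w' of them, give (4D+1) w' ≤ 2 D n, so w' ≤ n/2 and |W| ≥ n/2. Let m = |W|/2
(natural division), m ≥ n/4 - 1/2 ≥ n/8 for n ≥ 4. Enumerate W by an injective e : Fin (2m) → Fin n
(Finset.orderEmbOfFin / Fintype.equivFin composed with Fin.castLE), u i = e (2i), v i = e (2i+1). Each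
differ G (u i) (v i) ≤ deg (u i) + deg (v i) ≤ 8 D (a vertex adjacent to exactly one of them is in one
of the two neighbour finsets), so the sum is ≤ m 8 D ≤ 8 D n.
-/

namespace Pool.Agent.Lib.MP_e05f17_lc

private theorem SparB_differ {n : ℕ} (G : SimpleGraph (Fin n))
    (a b : Fin n) [Fintype (G.neighborSet a)] [Fintype (G.neighborSet b)] :
    differ G a b ≤ G.degree a + G.degree b := by
  classical
  unfold differ
  rw [← G.card_neighborFinset_eq_degree a, ← G.card_neighborFinset_eq_degree b]
  refine (Finset.card_le_card ?_).trans (Finset.card_union_le _ _)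
  intro x hx
  rw [Finset.mem_filter] at hx
  rw [Finset.mem_union, SimpleGraph.mem_neighborFinset, SimpleGraph.mem_neighborFinset]
  by_contra hcon
  push Not at hcon
  exact hx.2.2.2 ⟨fun h => absurd h hcon.1, fun h => absurd h hcon.2⟩

theorem nearTwins_sparse {n : ℕ} (hn : 4 ≤ n) (G : SimpleGraph (Fin n)) (D : ℕ)
    (h : G.edgeSet.ncard ≤ D * n) : NearTwins G (1 / 8) (8 * D) := by
  classical
  have hdeg : ∑ v, G.degree v ≤ 2 * D * n := by
    rw [G.sum_degrees_eq_twice_card_edges]
    have h1 : G.edgeFinset.card = G.edgeSet.ncard := by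
      rw [← SimpleGraph.coe_edgeFinset, Set.ncard_coe_finset]
    rw [h1]
    nlinarith
  set W := Finset.univ.filter (fun v => G.degree v ≤ 4 * D) with hW
  set W' := Finset.univ.filter (fun v => ¬ G.degree v ≤ 4 * D) with hW'
  have hWc : (4 * D + 1) * W'.card ≤ 2 * D * n := by
    calc (4 * D + 1) * W'.card = ∑ v ∈ W', (4 * D + 1) := by
          rw [Finset.sum_const, smul_eq_mul, mul_comm]
      _ ≤ ∑ v ∈ W', G.degree v := Finset.sum_le_sum fun v hv => by
          have := (Finset.mem_filter.1 hv).2
          omega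
      _ ≤ ∑ v, G.degree v := Finset.sum_le_sum_of_subset (Finset.filter_subset _ _)
      _ ≤ _ := hdeg
  have hWn : W.card + W'.card = n := by
    have h1 := Finset.card_filter_add_card_filter_not (s := (Finset.univ : Finset (Fin n)))
      (fun v => G.degree v ≤ 4 * D)
    rw [Finset.card_univ, Fintype.card_fin] at h1
    exact h1
  have hW2 : n ≤ 2 * W.card := by
    by_contra hcon
    push Not at hcon
    have h1 : n < 2 * W'.card := by omega
    nlinarith
  have hWle : W.card ≤ n := by omega
  set f := W.orderEmbOfFin rfl with hf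
  have hfW : ∀ i, G.degree (f i) ≤ 4 * D := fun i =>
    (Finset.mem_filter.1 (W.orderEmbOfFin_mem rfl i)).2
  have hm : 2 * (W.card / 2) ≤ W.card := by omega
  refine ⟨W.card / 2, fun i => f ⟨2 * i, by have := i.2; omega⟩,
    fun i => f ⟨2 * i + 1, by have := i.2; omega⟩, ?_, ?_, ?_⟩
  · have h1 : n ≤ 8 * (W.card / 2) := by omega
    have h2 : (n : ℝ) ≤ 8 * ((W.card / 2 : ℕ) : ℝ) := by exact_mod_cast h1
    linarith
  · rintro (i | i) (j | j) hij
    · simp only [Sum.elim_inl] at hij
      have h1 := Fin.mk.inj (f.injective hij)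
      rw [Sum.inl.injEq]
      exact Fin.ext (by omega)
    · simp only [Sum.elim_inl, Sum.elim_inr] at hij
      have h1 := Fin.mk.inj (f.injective hij)
      omega
    · simp only [Sum.elim_inl, Sum.elim_inr] at hij
      have h1 := Fin.mk.inj (f.injective hij)
      omega
    · simp only [Sum.elim_inr] at hij
      have h1 := Fin.mk.inj (f.injective hij)
      rw [Sum.inr.injEq]
      exact Fin.ext (by omega)
  · calc ∑ i : Fin (W.card / 2), differ G (f ⟨2 * i, by have := i.2; omega⟩)
          (f ⟨2 * i + 1, by have := i.2; omega⟩)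
        ≤ ∑ _i : Fin (W.card / 2), 8 * D := by
          refine Finset.sum_le_sum fun i _ => ?_
          refine (SparB_differ G _ _).trans ?_
          have h1 := hfW ⟨2 * i, by have := i.2; omega⟩
          have h2 := hfW ⟨2 * i + 1, by have := i.2; omega⟩
          omega
      _ = (W.card / 2) * (8 * D) := by
          rw [Finset.sum_const, Finset.card_univ, Fintype.card_fin, smul_eq_mul]
      _ ≤ n * (8 * D) := Nat.mul_le_mul_right _ (by omega)
      _ = 8 * D * n := by ring

end Pool.Agent.Lib.MP_e05f17_lc
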