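import Pool.Agent.Lib.MP_e05f17_lc.Main
import Pool.Agent.Lib.MP_e05f17_lc.SparA
import Pool.Agent.Lib.MP_e05f17_lc.SparB
import Pool.Agent.Lib.MP_e05f17_lc.NCG

/-! Graphs with near-twins, few edges, few non-edges, or linear neighbourhood complexity. -/

namespace Pool.Agent.Lib.MP_e05f17_lc

open Pool.Agent.Lib.MP_33f9c4_lc

private theorem outputs_mono {U : Machine} {x y : List Bool} {a b : ℕ} (h : Outputs U x y a)
    (hab : a ≤ b) : Outputs U x y b := by
  obtain ⟨h⟩ := h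
  exact ⟨{ steps := h.steps, evals_in_steps := h.evals_in_steps,
           steps_le_m := h.steps_le_m.trans hab }⟩

private theorem nearTwins_mono {n : ℕ} {G : SimpleGraph (Fin n)} {δ δ' : ℝ} {D D' : ℕ}
    (h : NearTwins G δ D) (hδ : δ' ≤ δ) (hD : D ≤ D') : NearTwins G δ' D' := by
  obtain ⟨m, u, v, h1, h2, h3⟩ := h
  refine ⟨m, u, v, le_trans ?_ h1, h2, h3.trans (Nat.mul_le_mul_right _ hD)⟩
  exact mul_le_mul_of_nonneg_right hδ (Nat.cast_nonneg _)

private theorem complexity_mono {n : ℕ} {G : SimpleGraph (Fin n)} {D D' : ℕ}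
    (h : LinComplexity G D) (hD : D ≤ D') : LinComplexity G D' :=
  fun A hA => (h A hA).trans (Nat.mul_le_mul_right _ hD)

theorem main_all (δ : ℝ) (hδ : 0 < δ) (D : ℕ) : ∃ (U : Machine) (ε : ℝ) (C : ℕ), 0 < ε ∧ ε < 1 ∧
    ∀ (n : ℕ) (G : SimpleGraph (Fin n)) (s t : Fin n) (S : Set ℕ), s ≠ t →
      Outputs U (input G s t S) (Nat.bits (pathCount G s t S)) (C * n ^ C * 2 ^ n) ∧
      (NearTwins G δ D ∨ LinComplexity G D ∨ G.edgeSet.ncard ≤ D * n ∨
          Gᶜ.edgeSet.ncard ≤ D * n →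
        Outputs U (input G s t S) (Nat.bits (pathCount G s t S)) ⌊(C : ℝ) * (2 - ε) ^ n⌋₊) := by
  obtain ⟨U, ε, C, hε, hε1, h⟩ := main (min δ (1 / 8)) (lt_min hδ (by norm_num))
    (8 * D + 64 * (D + 1) ^ 2)
  set N0 := 4 * (D + 1) with hN0
  refine ⟨U, ε, C * N0 ^ C * 2 ^ N0 + C, hε, hε1, fun n G s t S hst => ?_⟩
  have hn : 1 ≤ n := by have := s.2; omega
  obtain ⟨h1, h2⟩ := h n G s t S hst
  have hC : C ≤ C * N0 ^ C * 2 ^ N0 + C := Nat.le_add_left _ _
  refine ⟨outputs_mono h1 ?_, fun hG => ?_⟩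
  · have h3 : n ^ C ≤ n ^ (C * N0 ^ C * 2 ^ N0 + C) := Nat.pow_le_pow_right hn hC
    exact Nat.mul_le_mul_right _ (Nat.mul_le_mul hC h3)
  · have h1ε : (1 : ℝ) ≤ (2 - ε) ^ n := one_le_pow₀ (by linarith)
    rcases Nat.lt_or_ge n N0 with h4 | h4
    · refine outputs_mono h1 (Nat.le_floor ?_)
      have h5 : n ^ C ≤ N0 ^ C := Nat.pow_le_pow_left h4.le C
      have h6 : 2 ^ n ≤ 2 ^ N0 := Nat.pow_le_pow_right (by norm_num) h4.le
      have h7 : C * n ^ C * 2 ^ n ≤ C * N0 ^ C * 2 ^ N0 + C :=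
        (Nat.mul_le_mul (Nat.mul_le_mul_left C h5) h6).trans (Nat.le_add_right _ _)
      calc ((C * n ^ C * 2 ^ n : ℕ) : ℝ) ≤ ((C * N0 ^ C * 2 ^ N0 + C : ℕ) : ℝ) := by
            exact_mod_cast h7
        _ = ((C * N0 ^ C * 2 ^ N0 + C : ℕ) : ℝ) * 1 := (mul_one _).symm
        _ ≤ ((C * N0 ^ C * 2 ^ N0 + C : ℕ) : ℝ) * (2 - ε) ^ n :=
          mul_le_mul_of_nonneg_left h1ε (Nat.cast_nonneg _)
    · have hn4 : 4 ≤ n := by omega
      have h81 : 8 * D ≤ 8 * D + 64 * (D + 1) ^ 2 := Nat.le_add_right _ _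
      have htw : NearTwins G (min δ (1 / 8)) (8 * D + 64 * (D + 1) ^ 2) := by
        rcases hG with hG | hG | hG | hG
        · exact nearTwins_mono hG (min_le_left _ _) (by omega)
        · exact nearTwins_mono (nearTwins_complexity (D + 1) (by omega) h4 G
            (complexity_mono hG (Nat.le_succ D))) ((min_le_right _ _).trans (by norm_num))
            (Nat.le_add_left _ _)
        · exact nearTwins_mono (nearTwins_sparse hn4 G D hG) (min_le_right _ _) h81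
        · exact nearTwins_mono (nearTwins_compl (nearTwins_sparse hn4 Gᶜ D hG)) (min_le_right _ _)
            h81
      refine outputs_mono (h2 htw) (Nat.floor_le_floor ?_)
      have h5 : (C : ℝ) ≤ ((C * N0 ^ C * 2 ^ N0 + C : ℕ) : ℝ) := by exact_mod_cast hC
      exact mul_le_mul_of_nonneg_right h5 (by linarith)

end Pool.Agent.Lib.MP_e05f17_lc
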