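import Pool.Agent.Lib.PolyTime
import Pool.Agent.Lib.PolyTime.BinNat
import Mathlib

/-! Counting paths in graphs with near-twins: the definitions of the algorithm. -/

namespace Pool.Agent.Lib.MP_e05f17_lc

open Pool.Agent.Lib.PolyTime

/-! ### Walks and paths -/

/-- The number of walks with `k` steps from `x` to `t` whose vertices after `x` belong to `X`. -/
def W (A : ℕ → ℕ → Bool) (X : Finset ℕ) (t : ℕ) : ℕ → ℕ → ℕ
  | 0, x => if x = t then 1 else 0
  | k + 1, x => ∑ y ∈ X, if A x y then W A X t k y else 0

/-- The sequence `p` is a walk. -/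
def IsWalk (A : ℕ → ℕ → Bool) {k : ℕ} (p : Fin (k + 1) → ℕ) : Prop :=
  ∀ i : Fin k, A (p i.castSucc) (p i.succ) = true

instance (A : ℕ → ℕ → Bool) {k : ℕ} (p : Fin (k + 1) → ℕ) : Decidable (IsWalk A p) :=
  inferInstanceAs (Decidable (∀ i : Fin k, A (p i.castSucc) (p i.succ) = true))

/-- The injective sequences with `k + 1` entries in `U` from `s` to `t`. -/
def inj (U : Finset ℕ) (s t k : ℕ) : Finset (Fin (k + 1) → ℕ) :=
  (Fintype.piFinset fun _ => U).filter fun p => Function.Injective p ∧ p 0 = s ∧ p (Fin.last k) = t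

/-- The number of paths with `k + 1` vertices in `U` from `s` to `t`. -/
def PC (A : ℕ → ℕ → Bool) (U : Finset ℕ) (s t k : ℕ) : ℕ :=
  ((inj U s t k).filter fun p => IsWalk A p).card

/-- The coefficients of the inclusion-exclusion formula. -/
def cf (n c k : ℕ) : ℤ := if c ≤ k then (-1) ^ (k - c) * ((n - c).choose (k - c) : ℤ) else 0

/-- The terms of the inclusion-exclusion formula. -/
def fX (A : ℕ → ℕ → Bool) (n s t : ℕ) (S : ℕ → Bool) (X : Finset ℕ) : ℤ :=
  ∑ k ∈ Finset.range n, if S (k + 1) then cf n X.card (k + 1) * (W A X t k s : ℤ) else 0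

/-! ### Blocks and modified adjacency -/

/-- A block: a pair `(u, v)` and the list of the other vertices (not hubs) that distinguish them. -/
abbrev Blk : Type := (ℕ × ℕ) × List ℕ

/-- The vertices of a block. -/
def verts (b : Blk) : List ℕ := b.1.1 :: b.1.2 :: b.2

/-- The partner function of a list of pairs. -/
def pm (M : List (ℕ × ℕ)) (x : ℕ) : ℕ := ((M.find? fun b => b.1 == x).map Prod.snd).getD x

/-- The modified adjacency: the adjacency of `u` to the hubs is replaced by that of `v`, for the pairs
`(u, v)` in `M`. -/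
def am (A : ℕ → ℕ → Bool) (H : List ℕ) (M : List (ℕ × ℕ)) (x y : ℕ) : Bool :=
  if x ∈ H then A x (pm M y) else if y ∈ H then A (pm M x) y else A x y

/-- The properties of the hubs `H` and of the blocks `L`. -/
structure Good (A : ℕ → ℕ → Bool) (n s t : ℕ) (H : List ℕ) (L : List Blk) : Prop where
  nodup : (L.flatMap verts).Nodup
  out : ∀ b ∈ L, ∀ x ∈ verts b, x < n ∧ x ≠ s ∧ x ≠ t ∧ x ∉ H
  twin : ∀ b ∈ L, ∀ x, x ∉ verts b → x ∉ H → A b.1.1 x = A b.1.2 x

/-- The adjacency is symmetric and without loops, and vanishes outside `0, …, n-1`. -/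
structure Adj (A : ℕ → ℕ → Bool) (n : ℕ) : Prop where
  symm : ∀ x y, A x y = A y x
  irrefl : ∀ x, A x x = false
  lt : ∀ x y, A x y = true → x < n

/-! ### The budget formula -/

/-- The budget formula. -/
def TT (F : List (ℕ × ℕ) → ℤ) : List Blk → ℕ → List (ℕ × ℕ) → ℤ
  | [], _, M => F M
  | i :: L, 0, M => TT F L 0 (i.1 :: M)
  | i :: L, b + 1, M => TT F L (b + 1) (i.1 :: M) + (TT F L b M - TT F L b (i.1 :: M))

/-! ### The tree -/

/-- The sublists of the first `d` elements of a list. -/
def subs : ℕ → List ℕ → List (List ℕ)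
  | 0, _ => [[]]
  | _ + 1, [] => [[]]
  | d + 1, x :: D => subs d D ++ (subs d D).map (x :: ·)

/-- The nodes of the search tree: remaining blocks, remaining vertices, budget; the chosen set, the
modified pairs, the weight. -/
abbrev Node : Type := ((List Blk × List ℕ) × ℕ) × ((List ℕ × List (ℕ × ℕ)) × BZ)

/-- The node with the given data. -/
def nd (L : List Blk) (R : List ℕ) (b : ℕ) (X : List ℕ) (M : List (ℕ × ℕ)) (w : ℤ) : Node :=
  (((L, R), b), ((X, M), ⟨w⟩))

/-- The children for a subset `P` of the block which do not use the budget. -/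
def kids0 (i : Blk) (L : List Blk) (R : List ℕ) (b : ℕ) (X : List ℕ) (M : List (ℕ × ℕ)) (w : ℤ)
    (P : List ℕ) : List Node :=
  [nd L R b (P ++ X) (i.1 :: M) w,
    nd L R b (i.1.1 :: (P ++ X)) (i.1 :: M) (if P.isEmpty then w + w else w),
    nd L R b (i.1.1 :: i.1.2 :: (P ++ X)) (i.1 :: M) w] ++
  (if P.isEmpty then [] else [nd L R b (i.1.2 :: (P ++ X)) (i.1 :: M) w])

/-- The children for a subset `P` of the block which use the budget; `b` is the remaining budget. -/
def kids1 (i : Blk) (L : List Blk) (R : List ℕ) (b : ℕ) (X : List ℕ) (M : List (ℕ × ℕ)) (w : ℤ)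
    (P : List ℕ) : List Node :=
  [nd L R b (i.1.1 :: (P ++ X)) M w, nd L R b (i.1.1 :: (P ++ X)) (i.1 :: M) (-w),
    nd L R b (i.1.1 :: i.1.2 :: (P ++ X)) M w, nd L R b (i.1.1 :: i.1.2 :: (P ++ X)) (i.1 :: M) (-w)]

/-- The children of a node; `d` bounds the number of vertices of a block besides the pair. -/
def kids (d : ℕ) (x : Node) : List Node :=
  match x with
  | (((i :: L, R), b), ((X, M), w)) =>
      (subs d i.2).flatMap (kids0 i L R b X M w.val) ++
        (if b = 0 then [] else (subs d i.2).flatMap (kids1 i L R (b - 1) X M w.val))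
  | ((([], r :: R), b), ((X, M), w)) => [nd [] R b X M w.val, nd [] R b (r :: X) M w.val]
  | ((([], []), _), _) => []

/-- The value of a node, given the function on the leaves. -/
def nval (v : List ℕ → List (ℕ × ℕ) → ℤ) (x : Node) : ℤ :=
  if x.1.1.1.isEmpty && x.1.1.2.isEmpty then x.2.2.val * v x.2.1.1 x.2.1.2 else 0

/-! ### Traversal of trees -/

/-- The sum of the values of the nodes of a tree (up to depth `k`). -/
def tsum {σ : Type} (kids : σ → List σ) (val : σ → ℤ) : ℕ → σ → ℤ
  | 0, x => val x
  | k + 1, x => val x + ((kids x).map (tsum kids val k)).sum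

/-- The number of nodes of a tree (up to depth `k`). -/
def tcount {σ : Type} (kids : σ → List σ) : ℕ → σ → ℕ
  | 0, _ => 1
  | k + 1, x => 1 + ((kids x).map (tcount kids k)).sum

/-- The tree below `x` has depth at most `k`. -/
def Depth {σ : Type} (kids : σ → List σ) : ℕ → σ → Prop
  | 0, x => kids x = []
  | k + 1, x => ∀ y ∈ kids x, Depth kids k y

/-! ### Reading the input -/

/-- The number of vertices. -/
def nOf (d : List Bool) : ℕ :=
  ((List.range (d.length + 1)).find? fun n => n * (n + 3) == d.length).getD 0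

/-- The entry `(i, j)` of the matrix. -/
def ent (d : List Bool) (i j : ℕ) : Bool := d.getD (i * (nOf d + 3) + j) false

/-- The adjacency. -/
def adjB (d : List Bool) (i j : ℕ) : Bool := decide (i < nOf d) && decide (j < nOf d) && ent d i j

/-- The first vertex. -/
def sOf (d : List Bool) : ℕ := ((List.range (nOf d)).find? fun i => ent d i (nOf d)).getD 0

/-- The last vertex. -/
def tOf (d : List Bool) : ℕ := ((List.range (nOf d)).find? fun i => ent d i (nOf d + 1)).getD 0

/-- The set of lengths. -/
def lenB (d : List Bool) (k : ℕ) : Bool :=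
  decide (1 ≤ k) && decide (k ≤ nOf d) && ent d (k - 1) (nOf d + 2)

/-! ### The value of a leaf -/

/-- One step of the dynamic programming. -/
def wstep (A : ℕ → ℕ → Bool) (X : List ℕ) (vec : List BN) : List BN :=
  X.map fun x => ⟨((X.zip vec).map fun y => if A x y.1 then y.2.val else 0).sum⟩

/-- The numbers of walks with `k` steps from the elements of `X` to `t`. -/
def wvec (A : ℕ → ℕ → Bool) (X : List ℕ) (t k : ℕ) : List BN :=
  (wstep A X)^[k] (X.map fun x => ⟨if x = t then 1 else 0⟩)

/-- The number of walks with `k` steps from `s` to `t` in `X`. -/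
def wnum (A : ℕ → ℕ → Bool) (X : List ℕ) (s t k : ℕ) : ℕ :=
  ((X.zip (wvec A X t k)).map fun y => if y.1 = s then y.2.val else 0).sum

/-- The value of a leaf. -/
def leaf (d : List Bool) (H : List ℕ) (X : List ℕ) (M : List (ℕ × ℕ)) : ℤ :=
  ((List.range (nOf d)).map fun k => if lenB d (k + 1) then
    cf (nOf d) X.length (k + 1) * (wnum (am (adjB d) H M) X (sOf d) (tOf d) k : ℤ) else 0).sum

/-! ### Finding the blocks -/

/-- The vertices that distinguish `u` and `v`. -/
def delta (d : List Bool) (u v : ℕ) : List ℕ :=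
  (List.range (nOf d)).filter fun x => x != u && x != v && (adjB d u x != adjB d v x)

/-- The pairs `u < v`. -/
def prs (d : List Bool) : List (ℕ × ℕ) :=
  (List.range (nOf d)).flatMap fun v => (List.range v).map fun u => (u, v)

/-- One step of the greedy matching. -/
def mstep (d : List Bool) (c : ℕ) (acc : List ℕ × List Blk) (p : ℕ × ℕ) : List ℕ × List Blk :=
  if acc.1.contains p.1 || acc.1.contains p.2 || decide (c < (delta d p.1 p.2).length) then acc
  else (p.1 :: p.2 :: acc.1, (p, delta d p.1 p.2) :: acc.2)

/-- The greedy matching by pairs which are distinguished by at most `c` vertices. -/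
def mt (d : List Bool) (c : ℕ) : List Blk :=
  ((prs d).foldl (mstep d c) ([sOf d, tOf d], [])).2

/-- The number of blocks whose list contains `x`. -/
def mult (L : List Blk) (x : ℕ) : ℕ := (L.filter fun b => b.2.contains x).length

/-- The hubs. -/
def hubs (n : ℕ) (L : List Blk) (K : ℕ) : List ℕ := (List.range n).filter fun x => decide (K ≤ mult L x)

/-- A block without the hubs. -/
def trim (H : List ℕ) (b : Blk) : Blk := (b.1, b.2.filter fun x => !H.contains x)

/-- One step of the selection of disjoint blocks. -/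
def sstep (H : List ℕ) (acc : List ℕ × List Blk) (b : Blk) : List ℕ × List Blk :=
  if H.contains b.1.1 || H.contains b.1.2 || (verts (trim H b)).any (fun x => acc.1.contains x) then acc
  else (verts (trim H b) ++ acc.1, trim H b :: acc.2)

/-- The selection of disjoint blocks. -/
def sel (s t : ℕ) (H : List ℕ) (L : List Blk) : List Blk := (L.foldl (sstep H) ([s, t], [])).2

/-- The hubs and the blocks: the first `K` such that there are few hubs. -/
def choice (c Kmax M0 : ℕ) (d : List Bool) : List ℕ × List Blk :=
  (((List.range Kmax).find? fun K => decide (2 * M0 * (hubs (nOf d) (mt d c) (K + 1)).length ≤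
      (sel (sOf d) (tOf d) (hubs (nOf d) (mt d c) (K + 1)) (mt d c)).length)).map fun K =>
    (hubs (nOf d) (mt d c) (K + 1),
      sel (sOf d) (tOf d) (hubs (nOf d) (mt d c) (K + 1)) (mt d c))).getD ([], [])

/-- The vertices outside the blocks. -/
def restOf (d : List Bool) (L : List Blk) : List ℕ :=
  (List.range (nOf d)).filter fun x => x != sOf d && x != tOf d && !(L.flatMap verts).contains x

/-- The context and the root of the search tree. -/
def root (c Kmax M0 : ℕ) (d : List Bool) : (List Bool × List ℕ) × Node :=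
  ((d, (choice c Kmax M0 d).1), nd (choice c Kmax M0 d).2 (restOf d (choice c Kmax M0 d).2)
    (2 * (choice c Kmax M0 d).1.length) [sOf d, tOf d] [] 1)

/-! ### The number of nodes -/

/-- The function that bounds the number of nodes. -/
noncomputable def psi (q : ℝ) (N b : ℕ) : ℝ :=
  ∑ j ∈ Finset.range (b + 1), (N.choose j : ℝ) * (1 - q) ^ (N - j)

end Pool.Agent.Lib.MP_e05f17_lc
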