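import Pool.Agent.Lib.MP_e05f17_lc.ReadPT

/-!
The greedy matching in polynomial time.

TOOLS: `PT f` says that f is computable in polynomial time (types with `Enc`). Files PolyTime/Core, Ctrl,
Derived, More, Lists, BinNat (all imported) contain: PT.id, PT.const, PT.fst, PT.snd, PT.pair, .fst',
.snd', PT.comp, PT.congr (pointwise equality), PT.ite (hypothesis PT (fun a => decide (c a))), PT.cond,
PT.and, PT.or, PT.not, PT.eq, PT.le, PT.lt, PT.add, PT.sub, PT.mul, PT.mulConst, PT.addConst, PT.succ,
PT.pred, PT.cons, PT.append, PT.reverse, PT.length, PT.tail, PT.isNil, PT.head?, PT.drop, PT.range,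
PT.map, PT.filter, PT.flatMap, PT.any, PT.all, PT.zipIdx, PT.getElem?, PT.listCases, PT.natCases,
PT.optCases, PT.list1, PT.mapConst, PT.flatMapConst, PT.foldl (size bound for all prefixes),
PT.foldl_add (each step adds a bounded size), PT.iterate, PT.size_le, PB.* for polynomial bounds;
BinNat: BN (binary numbers), BZ (integers): PT.toBN, PT.bnAdd, bnMul, bnDiv, bnMod, bnSum, bnFoldl,
bzAdd, bzMul, bzNeg, bzOfBN, bzFoldl, size_BN_le_of_lt, lt_two_pow_size, size_BZ_le_of_lt; also
mpt_getD, mpt_take of MP_33f9c4_lc/Mpt.lean. Typical proofs: Mpt.lean, section General. In PT.map etc.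
the inner hypothesis is PT (fun x : α × β => g x.1 x.2): give g explicitly (g := fun a b => ...).

PROOFS. delta: PT.filter over PT.range (pt_nOf), tests with pt_adjB; x != u is !(x == u): PT.not of
PT.eq (congr); b != b' for Bool: PT.eq on Bool. prs: PT.flatMap over PT.range of PT.map over PT.range.
mt: PT.foldl_add with state List ℕ × List Blk: the step adds at most size (p.1) + size (p.2) + 2 to
the first list and size (p, delta d p.1 p.2) + 1 to the second, both ≤ a polynomial in size d for
p ∈ prs d (size_mem_lt: size p < size (prs d) ≤ polynomial; PT.size_le for delta). The step is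
PT.ite / PT.cond of pt_contains, PT.lt. init = ([sOf d, tOf d], []).
-/

namespace Pool.Agent.Lib.MP_e05f17_lc

open Pool.Agent.Lib.PolyTime Pool.Agent.Lib.MP_33f9c4_lc

variable {α : Type} [Enc α]

theorem pt_delta {d : α → List Bool} {u v : α → ℕ} (hd : PT d) (hu : PT u) (hv : PT v) :
    PT (fun a => delta (d a) (u a) (v a)) := by
  refine PT.filter (f := fun a => List.range (nOf (d a)))
    (p := fun a x => x != u a && x != v a && (adjB (d a) (u a) x != adjB (d a) (v a) x))
    (PT.range (pt_nOf hd)) ?_
  have h1 : PT (fun y : α × ℕ => d y.1) := hd.comp PT.fst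
  have h2 : PT (fun y : α × ℕ => u y.1) := hu.comp PT.fst
  have h3 : PT (fun y : α × ℕ => v y.1) := hv.comp PT.fst
  have h4 : PT (fun y : α × ℕ => y.2) := PT.snd
  refine ((PT.and (PT.not (PT.eq h4 h2)) (PT.not (PT.eq h4 h3))).and
    (PT.not (PT.eq (pt_adjB h1 h2 h4) (pt_adjB h1 h3 h4)))).congr (fun y => ?_)
  simp only [bne, beq_eq_decide]

private theorem FindA_prs {d : α → List Bool} (hd : PT d) : PT (fun a => prs (d a)) := by
  refine PT.flatMap (f := fun a => List.range (nOf (d a)))
    (g := fun _ v => (List.range v).map fun u => (u, v)) (PT.range (pt_nOf hd)) ?_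
  refine PT.map (f := fun x : α × ℕ => List.range x.2) (g := fun x u => (u, x.2))
    (PT.range PT.snd) ?_
  exact PT.pair PT.snd PT.fst.snd'

private theorem FindA_step (c : ℕ) :
    PT (fun x : List Bool × ((List ℕ × List Blk) × (ℕ × ℕ)) => mstep x.1 c x.2.1 x.2.2) := by
  have hid : PT (fun x : List Bool × ((List ℕ × List Blk) × (ℕ × ℕ)) => x) := PT.id
  have hd := hid.fst'
  have hacc := hid.snd'.fst'
  have hp := hid.snd'.snd'
  have hdel := pt_delta hd hp.fst' hp.snd'
  have hb : PT (fun x : List Bool × ((List ℕ × List Blk) × (ℕ × ℕ)) =>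
      x.2.1.1.contains x.2.2.1 || x.2.1.1.contains x.2.2.2 ||
        decide (c < (delta x.1 x.2.2.1 x.2.2.2).length)) :=
    ((pt_contains hacc.fst' hp.fst').or (pt_contains hacc.fst' hp.snd')).or
      (PT.lt (PT.const c) (PT.length hdel))
  refine (PT.ite (c := fun x : List Bool × ((List ℕ × List Blk) × (ℕ × ℕ)) =>
      (x.2.1.1.contains x.2.2.1 || x.2.1.1.contains x.2.2.2 ||
        decide (c < (delta x.1 x.2.2.1 x.2.2.2).length)) = true)
    (hb.congr fun x => by rw [Bool.decide_coe]) hacc
    (PT.pair (PT.cons hp.fst' (PT.cons hp.snd' hacc.fst'))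
      (PT.cons (PT.pair hp hdel) hacc.snd'))).congr (fun x => ?_)
  rfl

theorem pt_mt (c : ℕ) : PT (fun d => mt d c) := by
  obtain ⟨p1, hp1⟩ := (FindA_prs (PT.id (α := List Bool))).size_le
  have hid : PT (fun x : List Bool × (ℕ × ℕ) => x) := PT.id
  obtain ⟨q, hq⟩ := (pt_delta hid.fst' hid.snd'.fst' hid.snd'.snd').size_le
  have hinit : PT (fun d : List Bool => (([sOf d, tOf d], []) : List ℕ × List Blk)) :=
    PT.pair (PT.cons (pt_sOf PT.id) (PT.cons (pt_tOf PT.id) (PT.const []))) (PT.const [])
  refine (PT.foldl_add (f := fun d : List Bool => prs d)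
    (init := fun d => (([sOf d, tOf d], []) : List ℕ × List Blk))
    (step := fun d acc p => mstep d c acc p) (FindA_prs PT.id) hinit (FindA_step c)
    (C := fun n => (p1.eval n + p1.eval n) + (q.eval (n + p1.eval n + 1) + 5))
    (((PB.poly p1).add (PB.poly p1)).add
      ((PB.comp q ((PB.id.add (PB.poly p1)).add (PB.const 1))).add (PB.const 5)))
    ?_).snd'
  intro d s p hp
  have h1 : size p < size (prs d) := size_mem_lt hp
  have h2 : size (prs d) ≤ p1.eval (size d) := hp1 d
  have h3 : size (delta d p.1 p.2) ≤ q.eval (size (d, p)) := hq (d, p)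
  have h4 : size (d, p) ≤ size d + p1.eval (size d) + 1 := by
    rw [size_prod]
    simp only
    omega
  have h5 := eval_mono q h4
  have h6 : size p = size p.1 + size p.2 + 1 := size_prod p
  have h7 : size s = size s.1 + size s.2 + 1 := size_prod s
  show size (mstep d c s p) ≤ _
  unfold mstep
  split_ifs
  · omega
  · rw [size_prod, size_cons, size_cons, size_cons, size_prod]
    simp only
    omega

end Pool.Agent.Lib.MP_e05f17_lc
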