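import Pool.Agent.Lib.MP_e05f17_lc.PTA

/-!
Hubs and disjoint blocks in polynomial time.

TOOLS: `PT f` says that f is computable in polynomial time (types with `Enc`). Files PolyTime/Core, Ctrl,
Derived, More, Lists, BinNat (all imported) contain: PT.id, PT.const, PT.fst, PT.snd, PT.pair, .fst',
.snd', PT.comp, PT.congr (pointwise equality), PT.ite (hypothesis PT (fun a => decide (c a))), PT.cond,
PT.and, PT.or, PT.not, PT.eq, PT.le, PT.lt, PT.add, PT.sub, PT.mul, PT.mulConst, PT.addConst, PT.succ,
PT.pred, PT.cons, PT.append, PT.reverse, PT.length, PT.tail, PT.isNil, PT.head?, PT.drop, PT.range,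
PT.map, PT.filter, PT.flatMap, PT.any, PT.all, PT.zipIdx, PT.getElem?, PT.listCases, PT.natCases,
PT.optCases, PT.list1, PT.mapConst, PT.flatMapConst, PT.foldl (size bound for all prefixes),
PT.foldl_add (each step adds a bounded size), PT.iterate, PT.size_le, PB.* for polynomial bounds;
BinNat: BN (binary numbers), BZ (integers): PT.toBN, PT.bnAdd, bnMul, bnDiv, bnMod, bnSum, bnFoldl,
bzAdd, bzMul, bzNeg, bzOfBN, bzFoldl, size_BN_le_of_lt, lt_two_pow_size, size_BZ_le_of_lt; also
mpt_getD, mpt_take of MP_33f9c4_lc/Mpt.lean. Typical proofs: Mpt.lean, section General. In PT.map etc.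
the inner hypothesis is PT (fun x : α × β => g x.1 x.2): give g explicitly (g := fun a b => ...).

PROOFS. mult L x = (L.filter fun b => b.2.contains x).length. hubs: PT.filter over PT.range, PT.le.
trim H b = (b.1, b.2.filter fun x => !H.contains x). sel: PT.foldl_add with state List ℕ × List Blk: a
step adds verts (trim H b) to the first list (size ≤ size of b + 2, the filter does not increase the
size: by induction on the list) and trim H b to the second. Condition: PT.or, pt_contains, PT.any.
init = ([s, t], []).
-/

namespace Pool.Agent.Lib.MP_e05f17_lc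

open Pool.Agent.Lib.PolyTime Pool.Agent.Lib.MP_33f9c4_lc

variable {α : Type} [Enc α]

theorem pt_verts {f : α → Blk} (hf : PT f) : PT (fun a => verts (f a)) :=
  PT.cons hf.fst'.fst' (PT.cons hf.fst'.snd' hf.snd')

theorem pt_hubs {n K : α → ℕ} {L : α → List Blk} (hn : PT n) (hL : PT L) (hK : PT K) :
    PT (fun a => hubs (n a) (L a) (K a)) := by
  refine PT.filter (f := fun a => List.range (n a))
    (p := fun a x => decide (K a ≤ mult (L a) x)) (PT.range hn) ?_
  refine PT.le (hK.comp PT.fst) ?_
  refine PT.length (f := fun y : α × ℕ => (L y.1).filter fun b => b.2.contains y.2) ?_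
  refine PT.filter (f := fun y : α × ℕ => L y.1) (p := fun y b => b.2.contains y.2)
    (hL.comp PT.fst) ?_
  exact pt_contains PT.snd.snd' PT.fst.snd'

private theorem FindB_trim {H : α → List ℕ} {b : α → Blk} (hH : PT H) (hb : PT b) :
    PT (fun a => trim (H a) (b a)) := by
  refine PT.pair hb.fst' ?_
  refine PT.filter (f := fun a => (b a).2) (p := fun a x => !(H a).contains x) hb.snd' ?_
  exact PT.not (pt_contains (hH.comp PT.fst) PT.snd)

private theorem FindB_size_filter {β : Type} [Enc β] (l : List β) (p : β → Bool) :
    size (l.filter p) ≤ size l := by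
  induction l with
  | nil => exact le_rfl
  | cons b l ih =>
    rw [List.filter_cons, size_cons]
    split_ifs
    · rw [size_cons]
      omega
    · omega

private theorem FindB_size_trim (H : List ℕ) (b : Blk) : size (trim H b) ≤ size b := by
  have h1 : size (trim H b) = size b.1 + size (b.2.filter fun x => !H.contains x) + 1 :=
    size_prod _
  have h2 : size b = size b.1 + size b.2 + 1 := size_prod b
  have h3 := FindB_size_filter b.2 fun x => !H.contains x
  omega

private theorem FindB_size_verts (b : Blk) : size (verts b) ≤ size b + 2 := by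
  have h1 : size (verts b) = size b.1.1 + (size b.1.2 + size b.2 + 1) + 1 := by
    unfold verts
    rw [size_cons, size_cons]
  have h2 : size b = size b.1 + size b.2 + 1 := size_prod b
  have h3 : size b.1 = size b.1.1 + size b.1.2 + 1 := size_prod b.1
  omega

private theorem FindB_step : PT (fun x : List ℕ × ((List ℕ × List Blk) × Blk) =>
    sstep x.1 x.2.1 x.2.2) := by
  have hid : PT (fun x : List ℕ × ((List ℕ × List Blk) × Blk) => x) := PT.id
  have hH := hid.fst'
  have hacc := hid.snd'.fst'
  have hb := hid.snd'.snd'
  have htr := FindB_trim hH hb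
  have hv := pt_verts htr
  have hany : PT (fun x : List ℕ × ((List ℕ × List Blk) × Blk) =>
      (verts (trim x.1 x.2.2)).any (fun y => x.2.1.1.contains y)) := by
    refine PT.any (f := fun x : List ℕ × ((List ℕ × List Blk) × Blk) =>
      verts (trim x.1 x.2.2)) (p := fun x y => x.2.1.1.contains y) hv ?_
    exact pt_contains PT.fst.snd'.fst'.fst' PT.snd
  have hc : PT (fun x : List ℕ × ((List ℕ × List Blk) × Blk) =>
      x.1.contains x.2.2.1.1 || x.1.contains x.2.2.1.2 ||
        (verts (trim x.1 x.2.2)).any (fun y => x.2.1.1.contains y)) :=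
    ((pt_contains hH hb.fst'.fst').or (pt_contains hH hb.fst'.snd')).or hany
  refine (PT.ite (c := fun x : List ℕ × ((List ℕ × List Blk) × Blk) =>
      (x.1.contains x.2.2.1.1 || x.1.contains x.2.2.1.2 ||
        (verts (trim x.1 x.2.2)).any (fun y => x.2.1.1.contains y)) = true)
    (hc.congr fun x => by rw [Bool.decide_coe]) hacc
    (PT.pair (PT.append hv hacc.fst') (PT.cons htr hacc.snd'))).congr (fun x => ?_)
  rfl

theorem pt_sel {s t : α → ℕ} {H : α → List ℕ} {L : α → List Blk} (hs : PT s) (ht : PT t)
    (hH : PT H) (hL : PT L) : PT (fun a => sel (s a) (t a) (H a) (L a)) := by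
  obtain ⟨q, hq⟩ := hL.size_le
  have hinit : PT (fun a => (([s a, t a], []) : List ℕ × List Blk)) :=
    PT.pair (PT.cons hs (PT.cons ht (PT.const []))) (PT.const [])
  have hstep : PT (fun x : α × ((List ℕ × List Blk) × Blk) => sstep (H x.1) x.2.1 x.2.2) :=
    FindB_step.comp (PT.pair (hH.comp PT.fst) PT.snd)
  refine (PT.foldl_add (f := L) (init := fun a => (([s a, t a], []) : List ℕ × List Blk))
    (step := fun a acc b => sstep (H a) acc b) hL hinit hstep
    (C := fun n => (q.eval n + q.eval n) + 3)
    (((PB.poly q).add (PB.poly q)).add (PB.const 3)) ?_).snd'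
  intro a acc b hb
  have h1 : size b < size (L a) := size_mem_lt hb
  have h2 := hq a
  have h3 := FindB_size_trim (H a) b
  have h4 := FindB_size_verts (trim (H a) b)
  have h7 : size acc = size acc.1 + size acc.2 + 1 := size_prod acc
  show size (sstep (H a) acc b) ≤ _
  unfold sstep
  split_ifs
  · omega
  · have h8 := size_append (verts (trim (H a) b)) acc.1
    rw [size_prod, size_cons]
    simp only
    omega

end Pool.Agent.Lib.MP_e05f17_lc
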