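import Pool.Agent.Lib.MP_e05f17_lc.FindA
import Pool.Agent.Lib.MP_e05f17_lc.FindB

/-!
The root of the search tree in polynomial time.

TOOLS: `PT f` says that f is computable in polynomial time (types with `Enc`). Files PolyTime/Core, Ctrl,
Derived, More, Lists, BinNat (all imported) contain: PT.id, PT.const, PT.fst, PT.snd, PT.pair, .fst',
.snd', PT.comp, PT.congr (pointwise equality), PT.ite (hypothesis PT (fun a => decide (c a))), PT.cond,
PT.and, PT.or, PT.not, PT.eq, PT.le, PT.lt, PT.add, PT.sub, PT.mul, PT.mulConst, PT.addConst, PT.succ,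
PT.pred, PT.cons, PT.append, PT.reverse, PT.length, PT.tail, PT.isNil, PT.head?, PT.drop, PT.range,
PT.map, PT.filter, PT.flatMap, PT.any, PT.all, PT.zipIdx, PT.getElem?, PT.listCases, PT.natCases,
PT.optCases, PT.list1, PT.mapConst, PT.flatMapConst, PT.foldl (size bound for all prefixes),
PT.foldl_add (each step adds a bounded size), PT.iterate, PT.size_le, PB.* for polynomial bounds;
BinNat: BN (binary numbers), BZ (integers): PT.toBN, PT.bnAdd, bnMul, bnDiv, bnMod, bnSum, bnFoldl,
bzAdd, bzMul, bzNeg, bzOfBN, bzFoldl, size_BN_le_of_lt, lt_two_pow_size, size_BZ_le_of_lt; also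
mpt_getD, mpt_take of MP_33f9c4_lc/Mpt.lean. Typical proofs: Mpt.lean, section General. In PT.map etc.
the inner hypothesis is PT (fun x : α × β => g x.1 x.2): give g explicitly (g := fun a b => ...).

PROOFS. choice: find? over the constant list List.range Kmax (PT.const) with a PT test (pt_hubs, pt_sel,
PT.length, PT.mulConst with the constant 2 * M0, PT.le), then Option.map and getD: PT.optCases, congr
by cases on the value of find?. restOf: PT.filter over PT.range, pt_contains for L.flatMap verts
(PT.flatMap, pt_verts). root: PT.pair; nd and ⟨1⟩ : BZ are PT.pair and PT.const.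
-/

namespace Pool.Agent.Lib.MP_e05f17_lc

open Pool.Agent.Lib.PolyTime Pool.Agent.Lib.MP_33f9c4_lc

theorem pt_choice (c Kmax M0 : ℕ) : PT (choice c Kmax M0) := by
  have hmt : PT (fun d => mt d c) := pt_mt c
  have hH : PT (fun x : List Bool × ℕ => hubs (nOf x.1) (mt x.1 c) (x.2 + 1)) :=
    pt_hubs (pt_nOf PT.fst) (hmt.comp PT.fst) (PT.addConst PT.snd 1)
  have hS : PT (fun x : List Bool × ℕ =>
      sel (sOf x.1) (tOf x.1) (hubs (nOf x.1) (mt x.1 c) (x.2 + 1)) (mt x.1 c)) :=
    pt_sel (pt_sOf PT.fst) (pt_tOf PT.fst) hH (hmt.comp PT.fst)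
  have hf : PT (fun d : List Bool => (List.range Kmax).find? (fun K =>
      decide (2 * M0 * (hubs (nOf d) (mt d c) (K + 1)).length ≤
        (sel (sOf d) (tOf d) (hubs (nOf d) (mt d c) (K + 1)) (mt d c)).length))) :=
    pt_find (f := fun _ : List Bool => List.range Kmax)
      (p := fun (d : List Bool) K =>
        decide (2 * M0 * (hubs (nOf d) (mt d c) (K + 1)).length ≤
          (sel (sOf d) (tOf d) (hubs (nOf d) (mt d c) (K + 1)) (mt d c)).length))
      (PT.const _) (PT.le (PT.mulConst (PT.length hH) (2 * M0)) (PT.length hS))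
  refine (PT.optCases (g := fun _ => (([], []) : List ℕ × List Blk))
    (h := fun d K => (hubs (nOf d) (mt d c) (K + 1),
      sel (sOf d) (tOf d) (hubs (nOf d) (mt d c) (K + 1)) (mt d c)))
    hf (PT.const _) (PT.pair hH hS)).congr (fun d => ?_)
  unfold choice
  cases (List.range Kmax).find? (fun K =>
      decide (2 * M0 * (hubs (nOf d) (mt d c) (K + 1)).length ≤
        (sel (sOf d) (tOf d) (hubs (nOf d) (mt d c) (K + 1)) (mt d c)).length)) <;> rfl

private theorem findPT_ne {α : Type} [Enc α] {f g : α → ℕ} (hf : PT f) (hg : PT g) :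
    PT (fun a => f a != g a) :=
  (PT.not (PT.eq hf hg)).congr (fun a => by
    by_cases h : f a = g a <;> simp [h])

theorem pt_root (c Kmax M0 : ℕ) : PT (root c Kmax M0) := by
  have hid : PT (fun d : List Bool => d) := PT.id
  have hc : PT (fun d => choice c Kmax M0 d) := pt_choice c Kmax M0
  have hfl : PT (fun x : List Bool × ℕ => (choice c Kmax M0 x.1).2.flatMap verts) :=
    PT.flatMap (g := fun _ b => verts b) (hc.comp PT.fst).snd' (pt_verts PT.snd)
  have hrest : PT (fun d => restOf d (choice c Kmax M0 d).2) :=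
    PT.filter (f := fun d : List Bool => List.range (nOf d))
      (p := fun (d : List Bool) x => x != sOf d && x != tOf d &&
        !((choice c Kmax M0 d).2.flatMap verts).contains x)
      (PT.range (pt_nOf hid))
      (PT.and (PT.and (findPT_ne PT.snd (pt_sOf PT.fst)) (findPT_ne PT.snd (pt_tOf PT.fst)))
        (PT.not (pt_contains hfl PT.snd)))
  exact PT.pair (PT.pair hid hc.fst')
    (PT.pair (PT.pair (PT.pair hc.snd' hrest) (PT.mulConst (PT.length hc.fst') 2))
      (PT.pair (PT.pair (PT.cons (pt_sOf hid) (PT.list1 (pt_tOf hid))) (PT.const []))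
        (PT.const (⟨1⟩ : BZ))))

end Pool.Agent.Lib.MP_e05f17_lc
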