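import Pool.Agent.Lib.MP_e05f17_lc.Core

/-!
Walks counted by `W` are sequences in `X`.

PROOF. Induction on k, generalizing x. k = 0: functions p : Fin 1 → ℕ with values in X and p 0 = x,
p 0 = t (Fin.last 0 = 0); IsWalk is trivial (no i : Fin 0); if x = t exactly the constant function x
(hx), else none. k + 1: Finset.card_eq_sum_card_fiberwise for p ↦ p 1 (with values in X), and for y
in X the fibre {p : p 0 = x, p 1 = y, p last = t, IsWalk} is empty if A x y = false and is in
bijection with {q : q 0 = y, q last = t, IsWalk} by p ↦ Fin.tail p, inverse Fin.cons x (use hx).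
IsWalk for Fin.cons x q: Fin.forall_fin_succ (i = 0: A x (q 0); i = j.succ: q).
-/

namespace Pool.Agent.Lib.MP_e05f17_lc

/-- The walks counted by `W` are the sequences in `X`. -/
theorem W_eq_card (A : ℕ → ℕ → Bool) (X : Finset ℕ) (t k x : ℕ) (hx : x ∈ X) :
    W A X t k x = ((Fintype.piFinset fun _ : Fin (k + 1) => X).filter fun p =>
      p 0 = x ∧ p (Fin.last k) = t ∧ IsWalk A p).card := by
  classical
  induction k generalizing x with
  | zero =>
    by_cases h : x = t
    · subst h
      have e : ((Fintype.piFinset fun _ : Fin (0 + 1) => X).filter fun p =>
          p 0 = x ∧ p (Fin.last 0) = x ∧ IsWalk A p) = {fun _ => x} := by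
        ext p
        rw [Finset.mem_filter, Fintype.mem_piFinset, Finset.mem_singleton]
        constructor
        · rintro ⟨_, h1, _⟩
          funext i
          rw [Fin.eq_zero i]
          exact h1
        · rintro rfl
          exact ⟨fun _ => hx, rfl, rfl, fun i => i.elim0⟩
      rw [e, Finset.card_singleton, W, if_pos rfl]
    · have e : ((Fintype.piFinset fun _ : Fin (0 + 1) => X).filter fun p =>
          p 0 = x ∧ p (Fin.last 0) = t ∧ IsWalk A p) = ∅ := by
        rw [Finset.filter_eq_empty_iff]
        rintro p _ ⟨h1, h2, _⟩
        apply h
        rw [← h1, ← h2]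
        rfl
      rw [e, Finset.card_empty, W, if_neg h]
  | succ k ih =>
    have key : ∀ y ∈ X, (if A x y then W A X t k y else 0) =
        (((Fintype.piFinset fun _ : Fin (k + 1 + 1) => X).filter fun p =>
          p 0 = x ∧ p (Fin.last (k + 1)) = t ∧ IsWalk A p).filter fun p => p 1 = y).card := by
      intro y hy
      split_ifs with hA
      · rw [ih y hy]
        symm
        refine Finset.card_bij' (fun p _ => Fin.tail p) (fun q _ => Fin.cons x q) ?_ ?_ ?_ ?_
        · intro p hp
          rw [Finset.mem_filter, Finset.mem_filter, Fintype.mem_piFinset] at hp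
          obtain ⟨⟨h1, h2, h3, h4⟩, h5⟩ := hp
          rw [Finset.mem_filter, Fintype.mem_piFinset]
          refine ⟨fun i => h1 i.succ, h5, ?_, ?_⟩
          · show p (Fin.last k).succ = t
            rw [Fin.succ_last]
            exact h3
          · intro i
            show A (p i.castSucc.succ) (p i.succ.succ) = true
            have h6 := h4 i.succ
            rwa [← Fin.succ_castSucc] at h6
        · intro q hq
          rw [Finset.mem_filter, Fintype.mem_piFinset] at hq
          obtain ⟨h1, h2, h3, h4⟩ := hq
          rw [Finset.mem_filter, Finset.mem_filter, Fintype.mem_piFinset]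
          have h5 : (Fin.cons x q : Fin (k + 1 + 1) → ℕ) 1 = y := by
            rw [← h2]
            exact Fin.cons_succ (α := fun _ => ℕ) x q 0
          refine ⟨⟨?_, rfl, ?_, ?_⟩, h5⟩
          · intro i
            refine Fin.cases ?_ ?_ i
            · exact hx
            · intro j
              rw [Fin.cons_succ]
              exact h1 j
          · rw [← Fin.succ_last, Fin.cons_succ]
            exact h3
          · intro i
            refine Fin.cases ?_ ?_ i
            · show A x (q 0) = true
              rw [h2]
              exact hA
            · intro j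
              rw [← Fin.succ_castSucc, Fin.cons_succ, Fin.cons_succ]
              exact h4 j
        · intro p hp
          rw [Finset.mem_filter, Finset.mem_filter] at hp
          have h2 := hp.1.2.1
          show (Fin.cons x (Fin.tail p) : Fin (k + 1 + 1) → ℕ) = p
          rw [← h2]
          exact Fin.cons_self_tail p
        · intro q _
          exact Fin.tail_cons (α := fun _ => ℕ) x q
      · symm
        rw [Finset.card_eq_zero, Finset.filter_eq_empty_iff]
        intro p hp h5
        rw [Finset.mem_filter] at hp
        have h4 := hp.2.2.2 0
        apply hA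
        have h6 : p (Fin.castSucc 0) = x := hp.2.1
        have h7 : p (Fin.succ 0) = y := h5
        rw [h6, h7] at h4
        exact h4
    rw [W, Finset.sum_congr rfl key]
    symm
    refine Finset.card_eq_sum_card_fiberwise ?_
    intro p hp
    rw [Finset.mem_coe, Finset.mem_filter, Fintype.mem_piFinset] at hp
    exact hp.1 1

end Pool.Agent.Lib.MP_e05f17_lc
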