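import Pool.Agent.Lib.MP_e05f17_lc.Core

/-!
The coefficients of the inclusion-exclusion formula.

PROOF. Let r = R.card, X = R ∪ Y with Y a subset of range n minus R, X.card = r + Y.card. The sum is
the sum over j of C(n-r, j) * cf n (r+j) (k+1) (Finset.sum_powerset_apply_card or
Finset.sum_powerset and card of powersetCard). Only r + j ≤ k + 1 contributes; with m = k + 1 - r
(if r > k + 1 impossible by hr) C(n-r, j) C(n-r-j, m-j) = C(n-r, m) C(m, j)
(Nat.choose_mul or Nat.choose_mul_choose..., needs m ≤ n - r, that is k + 1 ≤ n), so the sum is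
C(n-r,m) * sum over j ≤ m of (-1)^(m-j) C(m,j) = C(n-r,m) * [m = 0] (Int.alternating_sum_range_choose
after reflecting, or (1 + (-1))^m with add_pow). For j > m the term is 0 (cf is 0).
-/

namespace Pool.Agent.Lib.MP_e05f17_lc

theorem sum_cf (n k : ℕ) (hk : k < n) (R : Finset ℕ) (hR : R ⊆ Finset.range n)
    (hr : R.card ≤ k + 1) :
    ∑ Y ∈ (Finset.range n \ R).powerset, cf n (R ∪ Y).card (k + 1) =
      if R.card = k + 1 then 1 else 0 := by
  have hcard : (Finset.range n \ R).card = n - R.card := by
    rw [Finset.card_sdiff_of_subset hR, Finset.card_range]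
  have h1 : ∑ Y ∈ (Finset.range n \ R).powerset, cf n (R ∪ Y).card (k + 1) =
      ∑ Y ∈ (Finset.range n \ R).powerset, (fun j => cf n (R.card + j) (k + 1)) Y.card := by
    refine Finset.sum_congr rfl (fun Y hY => ?_)
    rw [Finset.mem_powerset] at hY
    have hd : Disjoint R Y := by
      rw [Finset.disjoint_left]
      intro x hx hy
      exact (Finset.mem_sdiff.1 (hY hy)).2 hx
    show cf n (R ∪ Y).card (k + 1) = cf n (R.card + Y.card) (k + 1)
    rw [Finset.card_union_of_disjoint hd]
  rw [h1, Finset.sum_powerset_apply_card (fun j => cf n (R.card + j) (k + 1)), hcard]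
  obtain ⟨m, hm⟩ : ∃ m, k + 1 = R.card + m := ⟨k + 1 - R.card, by omega⟩
  have hma : m ≤ n - R.card := by omega
  have h2 : ∀ j ∈ Finset.range (n - R.card + 1), (n - R.card).choose j • cf n (R.card + j) (k + 1) =
      if j ∈ Finset.range (m + 1) then
        ((n - R.card).choose m : ℤ) * ((1 : ℤ) ^ j * (-1) ^ (m - j) * (m.choose j : ℤ)) else 0 := by
    intro j _
    unfold cf
    rw [hm]
    by_cases hj : j ≤ m
    · rw [if_pos (by omega), if_pos (Finset.mem_range.2 (by omega))]
      have e1 : R.card + m - (R.card + j) = m - j := by omega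
      have e2 : n - (R.card + j) = n - R.card - j := by omega
      have e3 := Nat.choose_mul (n := n - R.card) hj
      have e4 : ((n - R.card).choose m : ℤ) * (m.choose j : ℤ) =
          ((n - R.card).choose j : ℤ) * ((n - R.card - j).choose (m - j) : ℤ) := by
        exact_mod_cast e3
      rw [e1, e2, nsmul_eq_mul, one_pow, one_mul]
      linear_combination (-(-1) ^ (m - j)) * e4
    · rw [if_neg (by omega), if_neg (by rw [Finset.mem_range]; omega), smul_zero]
  rw [Finset.sum_congr rfl h2, ← Finset.sum_filter]
  have h3 : (Finset.range (n - R.card + 1)).filter (fun j => j ∈ Finset.range (m + 1)) =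
      Finset.range (m + 1) := by
    ext j
    rw [Finset.mem_filter, Finset.mem_range, Finset.mem_range]
    omega
  rw [h3, ← Finset.mul_sum, ← add_pow, add_neg_cancel]
  by_cases h0 : R.card = k + 1
  · have hm0 : m = 0 := by omega
    rw [if_pos h0, hm0, pow_zero, Nat.choose_zero_right, Nat.cast_one, mul_one]
  · have hm0 : m ≠ 0 := by omega
    rw [if_neg h0, zero_pow hm0, mul_zero]

end Pool.Agent.Lib.MP_e05f17_lc
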