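import Pool.Agent.Lib.MP_e05f17_lc.IncA
import Pool.Agent.Lib.MP_e05f17_lc.IncB

/-!
The inclusion-exclusion formula for the number of paths.

PROOF. Unfold fX, exchange the sums: for every k < n with S (k+1) we need
  sum over Y in P(range n - {s,t}) of cf n |X| (k+1) * W A X t k s (X = {s,t} ∪ Y) = PC A (range n) s t k.
By W_eq_card (s ∈ X) W is the number of p : Fin (k+1) → ℕ with values in X, p 0 = s, p last = t,
IsWalk. Write it as a sum over ALL p with values in range n, p 0 = s, p last = t, IsWalk of
[R p ⊆ X], R p = Finset.univ.image p (contains s and t). Exchange: for fixed p the sum over X of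
cf n |X| (k+1) [R p ⊆ X]; the X = {s,t} ∪ Y containing R p are the R p ∪ Y', Y' in P(range n - R p)
(bijection: Y' = X - R p; Finset.sum_bij' or Finset.sum_nbij'), so by sum_cf it is
[|R p| = k + 1], i.e. 1 if p is injective (Finset.card_image_iff / card_image_of_injective, and
Finset.card_image_le for hr), else 0. The number of these p is PC by definition of inj.
-/

namespace Pool.Agent.Lib.MP_e05f17_lc

private theorem incexc_bij (n k : ℕ) (T R : Finset ℕ) (hTR : T ⊆ R) (hR : R ⊆ Finset.range n) :
    ∑ Y ∈ (Finset.range n \ T).powerset, (if R ⊆ T ∪ Y then cf n (T ∪ Y).card (k + 1) else 0) =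
      ∑ Y ∈ (Finset.range n \ R).powerset, cf n (R ∪ Y).card (k + 1) := by
  classical
  rw [← Finset.sum_filter]
  refine Finset.sum_nbij' (fun Y => Y \ R) (fun Y => (R \ T) ∪ Y) ?_ ?_ ?_ ?_ ?_
  · intro Y hY
    rw [Finset.mem_filter, Finset.mem_powerset] at hY
    rw [Finset.mem_powerset]
    intro x hx
    rw [Finset.mem_sdiff] at hx ⊢
    exact ⟨(Finset.mem_sdiff.1 (hY.1 hx.1)).1, hx.2⟩
  · intro Y hY
    rw [Finset.mem_powerset] at hY
    rw [Finset.mem_filter, Finset.mem_powerset]
    constructor
    · intro x hx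
      rw [Finset.mem_union, Finset.mem_sdiff] at hx
      rw [Finset.mem_sdiff]
      rcases hx with hx | hx
      · exact ⟨hR hx.1, hx.2⟩
      · have h1 := Finset.mem_sdiff.1 (hY hx)
        exact ⟨h1.1, fun h2 => h1.2 (hTR h2)⟩
    · intro x hx
      rw [Finset.mem_union, Finset.mem_union, Finset.mem_sdiff]
      by_cases h1 : x ∈ T
      · exact Or.inl h1
      · exact Or.inr (Or.inl ⟨hx, h1⟩)
  · intro Y hY
    rw [Finset.mem_filter, Finset.mem_powerset] at hY
    ext x
    simp only [Finset.mem_union, Finset.mem_sdiff]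
    constructor
    · rintro (h1 | h1)
      · have h2 := hY.2 h1.1
        rw [Finset.mem_union] at h2
        rcases h2 with h2 | h2
        · exact absurd h2 h1.2
        · exact h2
      · exact h1.1
    · intro h1
      by_cases h2 : x ∈ R
      · exact Or.inl ⟨h2, (Finset.mem_sdiff.1 (hY.1 h1)).2⟩
      · exact Or.inr ⟨h1, h2⟩
  · intro Y hY
    rw [Finset.mem_powerset] at hY
    ext x
    simp only [Finset.mem_union, Finset.mem_sdiff]
    constructor
    · rintro ⟨h1 | h1, h2⟩
      · exact absurd h1.1 h2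
      · exact h1
    · intro h1
      exact ⟨Or.inr h1, (Finset.mem_sdiff.1 (hY h1)).2⟩
  · intro Y hY
    rw [Finset.mem_filter, Finset.mem_powerset] at hY
    have h1 : R ∪ (Y \ R) = T ∪ Y := by
      ext x
      simp only [Finset.mem_union, Finset.mem_sdiff]
      constructor
      · rintro (h2 | h2)
        · exact Finset.mem_union.1 (hY.2 h2)
        · exact Or.inr h2.1
      · rintro (h2 | h2)
        · exact Or.inl (hTR h2)
        · by_cases h3 : x ∈ R
          · exact Or.inl h3
          · exact Or.inr ⟨h2, h3⟩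
    rw [h1]

private theorem incexc_key (A : ℕ → ℕ → Bool) (n s t : ℕ) (hs : s < n) (ht : t < n) (k : ℕ)
    (hk : k < n) : ∑ Y ∈ (Finset.range n \ {s, t}).powerset,
      cf n (({s, t} : Finset ℕ) ∪ Y).card (k + 1) * (W A ({s, t} ∪ Y) t k s : ℤ) =
        (PC A (Finset.range n) s t k : ℤ) := by
  classical
  have hTU : ({s, t} : Finset ℕ) ⊆ Finset.range n := by
    intro x hx
    rw [Finset.mem_insert, Finset.mem_singleton] at hx
    rw [Finset.mem_range]
    rcases hx with rfl | rfl
    · exact hs
    · exact ht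
  have h1 : ∀ Y ∈ (Finset.range n \ {s, t}).powerset, (W A ({s, t} ∪ Y) t k s : ℤ) =
      ∑ p ∈ (Fintype.piFinset fun _ : Fin (k + 1) => Finset.range n).filter (fun p =>
        p 0 = s ∧ p (Fin.last k) = t ∧ IsWalk A p),
        (if Finset.univ.image p ⊆ {s, t} ∪ Y then (1 : ℤ) else 0) := by
    intro Y hY
    rw [Finset.mem_powerset] at hY
    rw [W_eq_card A ({s, t} ∪ Y) t k s (by simp), Finset.sum_boole]
    have h2 : ((Fintype.piFinset fun _ : Fin (k + 1) => ({s, t} ∪ Y : Finset ℕ)).filter fun p =>
        p 0 = s ∧ p (Fin.last k) = t ∧ IsWalk A p) =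
        ((Fintype.piFinset fun _ : Fin (k + 1) => Finset.range n).filter (fun p =>
          p 0 = s ∧ p (Fin.last k) = t ∧ IsWalk A p)).filter
            (fun p => Finset.univ.image p ⊆ {s, t} ∪ Y) := by
      ext p
      rw [Finset.mem_filter, Finset.mem_filter, Finset.mem_filter, Fintype.mem_piFinset,
        Fintype.mem_piFinset]
      constructor
      · rintro ⟨a, b⟩
        refine ⟨⟨fun i => ?_, b⟩, ?_⟩
        · have h3 := a i
          rw [Finset.mem_union] at h3
          rcases h3 with h3 | h3
          · exact hTU h3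
          · exact (Finset.mem_sdiff.1 (hY h3)).1
        · intro x hx
          rw [Finset.mem_image] at hx
          obtain ⟨i, -, rfl⟩ := hx
          exact a i
      · rintro ⟨⟨a, b⟩, c⟩
        exact ⟨fun i => c (Finset.mem_image_of_mem _ (Finset.mem_univ i)), b⟩
    rw [h2]
  rw [Finset.sum_congr rfl fun Y hY => by rw [h1 Y hY]]
  simp only [Finset.mul_sum]
  rw [Finset.sum_comm]
  have h2 : ∀ p ∈ (Fintype.piFinset fun _ : Fin (k + 1) => Finset.range n).filter (fun p =>
        p 0 = s ∧ p (Fin.last k) = t ∧ IsWalk A p),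
      ∑ Y ∈ (Finset.range n \ {s, t}).powerset, cf n (({s, t} : Finset ℕ) ∪ Y).card (k + 1) *
        (if Finset.univ.image p ⊆ {s, t} ∪ Y then (1 : ℤ) else 0) =
      if Function.Injective p then (1 : ℤ) else 0 := by
    intro p hp
    rw [Finset.mem_filter, Fintype.mem_piFinset] at hp
    obtain ⟨hpU, hp0, hpl, -⟩ := hp
    have hTR : ({s, t} : Finset ℕ) ⊆ Finset.univ.image p := by
      intro x hx
      rw [Finset.mem_insert, Finset.mem_singleton] at hx
      rcases hx with rfl | rfl
      · rw [← hp0]
        exact Finset.mem_image_of_mem _ (Finset.mem_univ _)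
      · rw [← hpl]
        exact Finset.mem_image_of_mem _ (Finset.mem_univ _)
    have hR : Finset.univ.image p ⊆ Finset.range n := by
      intro x hx
      rw [Finset.mem_image] at hx
      obtain ⟨i, -, rfl⟩ := hx
      exact hpU i
    have hr : (Finset.univ.image p).card ≤ k + 1 := by
      refine Finset.card_image_le.trans ?_
      rw [Finset.card_univ, Fintype.card_fin]
    have h3 := incexc_bij n k {s, t} (Finset.univ.image p) hTR hR
    rw [sum_cf n k hk _ hR hr] at h3
    have h4 : (Finset.univ.image p).card = k + 1 ↔ Function.Injective p := by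
      have h5 := Finset.card_image_iff (s := (Finset.univ : Finset (Fin (k + 1)))) (f := p)
      rw [Finset.card_univ, Fintype.card_fin, Finset.coe_univ, Set.injOn_univ] at h5
      exact h5
    have h6 : ∑ Y ∈ (Finset.range n \ {s, t}).powerset,
        cf n (({s, t} : Finset ℕ) ∪ Y).card (k + 1) *
          (if Finset.univ.image p ⊆ {s, t} ∪ Y then (1 : ℤ) else 0) =
        ∑ Y ∈ (Finset.range n \ {s, t}).powerset,
          (if Finset.univ.image p ⊆ {s, t} ∪ Y then
            cf n (({s, t} : Finset ℕ) ∪ Y).card (k + 1) else 0) := by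
      refine Finset.sum_congr rfl fun Y _ => ?_
      rw [mul_ite, mul_one, mul_zero]
    rw [h6, h3]
    by_cases h7 : Function.Injective p
    · rw [if_pos h7, if_pos (h4.2 h7)]
    · rw [if_neg h7, if_neg (fun h8 => h7 (h4.1 h8))]
  rw [Finset.sum_congr rfl h2, Finset.sum_boole]
  unfold PC inj
  rw [Finset.filter_filter, Finset.filter_filter]
  have h8 : (Fintype.piFinset fun _ : Fin (k + 1) => Finset.range n).filter
      (fun p => (p 0 = s ∧ p (Fin.last k) = t ∧ IsWalk A p) ∧ Function.Injective p) =
      (Fintype.piFinset fun _ : Fin (k + 1) => Finset.range n).filter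
        (fun p => (Function.Injective p ∧ p 0 = s ∧ p (Fin.last k) = t) ∧ IsWalk A p) := by
    refine Finset.filter_congr fun p _ => ?_
    tauto
  rw [h8]

theorem incexc (A : ℕ → ℕ → Bool) (n s t : ℕ) (hs : s < n) (ht : t < n) (S : ℕ → Bool) :
    ∑ Y ∈ (Finset.range n \ {s, t}).powerset, fX A n s t S ({s, t} ∪ Y) =
      ∑ k ∈ Finset.range n, if S (k + 1) then (PC A (Finset.range n) s t k : ℤ) else 0 := by
  unfold fX
  rw [Finset.sum_comm]
  refine Finset.sum_congr rfl fun k hk => ?_
  rw [Finset.mem_range] at hk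
  by_cases hS : S (k + 1) = true
  · simp only [hS, if_true]
    exact incexc_key A n s t hs ht k hk
  · simp only [hS]
    simp

end Pool.Agent.Lib.MP_e05f17_lc
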