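import Pool.Agent.Lib.MP_e05f17_lc.Core
import Pool.Agent.Lib.MP_e05f17_lc.Stmt

/-!
The entries of the input.

PROOFS. input is the flatten of the list (List.ofFn row) of n rows, each of length n + 3. Prove first a
general lemma: for a list l of lists which all have length m, and i < l.length, j < m:
l.flatten.getD (i * m + j) d = (l.getD i []).getD j d and l.flatten.length = l.length * m (induction on
l; i = 0: List.getD_append; i + 1: List.getD_append_right, (i + 1) * m + j - m = i * m + j), then
List.getD_eq_getElem, List.getElem_ofFn.
-/

namespace Pool.Agent.Lib.MP_e05f17_lc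

private theorem InpA_len {α : Type*} (m : ℕ) (l : List (List α)) (h : ∀ x ∈ l, x.length = m) :
    l.flatten.length = l.length * m := by
  induction l with
  | nil => rw [List.flatten_nil, List.length_nil, List.length_nil, zero_mul]
  | cons a l ih =>
    rw [List.flatten_cons, List.length_append, ih (fun x hx => h x (List.mem_cons_of_mem _ hx)),
      h a List.mem_cons_self, List.length_cons]
    ring

private theorem InpA_get {α : Type*} (m : ℕ) (d : α) (l : List (List α))
    (h : ∀ x ∈ l, x.length = m) (i j : ℕ) (hj : j < m) :
    l.flatten.getD (i * m + j) d = (l.getD i []).getD j d := by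
  induction l generalizing i with
  | nil => rfl
  | cons a l ih =>
    have ha := h a List.mem_cons_self
    cases i with
    | zero =>
      rw [List.flatten_cons, zero_mul, zero_add, List.getD_append _ _ _ _ (by omega)]
      rfl
    | succ i =>
      have h1 : (i + 1) * m + j - a.length = i * m + j := by
        rw [ha, Nat.succ_mul]
        omega
      have h2 : a.length ≤ (i + 1) * m + j := by
        rw [ha, Nat.succ_mul]
        omega
      rw [List.flatten_cons, List.getD_append_right _ _ _ _ h2, h1,
        ih (fun x hx => h x (List.mem_cons_of_mem _ hx))]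
      rfl

variable {n : ℕ} (G : SimpleGraph (Fin n)) (s t : Fin n) (S : Set ℕ)

open Classical in
private noncomputable def InpA_row (i : Fin n) : List Bool :=
  (List.ofFn fun j : Fin n => decide (G.Adj i j)) ++
    [decide (i = s), decide (i = t), decide ((i : ℕ) + 1 ∈ S)]

private theorem InpA_rowlen (i : Fin n) : (InpA_row G s t S i).length = n + 3 := by
  unfold InpA_row
  rw [List.length_append, List.length_ofFn]
  rfl

private theorem InpA_input : input G s t S = (List.ofFn (InpA_row G s t S)).flatten := rfl

private theorem InpA_mem (x : List Bool) (hx : x ∈ List.ofFn (InpA_row G s t S)) :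
    x.length = n + 3 := by
  obtain ⟨i, rfl⟩ := List.mem_ofFn.1 hx
  exact InpA_rowlen G s t S i

private theorem InpA_ent (i : Fin n) (j : ℕ) (hj : j < n + 3) :
    (input G s t S).getD ((i : ℕ) * (n + 3) + j) false = (InpA_row G s t S i).getD j false := by
  have h1 : (List.ofFn (InpA_row G s t S)).getD i [] = InpA_row G s t S i := by
    rw [List.getD_eq_getElem _ _ (by rw [List.length_ofFn]; exact i.2), List.getElem_ofFn]
  rw [InpA_input, InpA_get (n + 3) false _ (InpA_mem G s t S) i j hj, h1]

theorem input_length : (input G s t S).length = n * (n + 3) := by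
  rw [InpA_input, InpA_len (n + 3) _ (InpA_mem G s t S), List.length_ofFn]

open Classical in
theorem input_adj (i j : Fin n) :
    (input G s t S).getD ((i : ℕ) * (n + 3) + j) false = decide (G.Adj i j) := by
  rw [InpA_ent G s t S i j (by omega)]
  unfold InpA_row
  rw [List.getD_append _ _ _ _ (by rw [List.length_ofFn]; exact j.2),
    List.getD_eq_getElem _ _ (by rw [List.length_ofFn]; exact j.2), List.getElem_ofFn]

open Classical in
theorem input_s (i : Fin n) :
    (input G s t S).getD ((i : ℕ) * (n + 3) + n) false = decide (i = s) := by
  rw [InpA_ent G s t S i n (by omega)]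
  unfold InpA_row
  rw [List.getD_append_right _ _ _ _ (by rw [List.length_ofFn]), List.length_ofFn]
  rw [show n - n = 0 by omega]
  rfl

open Classical in
theorem input_t (i : Fin n) :
    (input G s t S).getD ((i : ℕ) * (n + 3) + (n + 1)) false = decide (i = t) := by
  rw [InpA_ent G s t S i (n + 1) (by omega)]
  unfold InpA_row
  rw [List.getD_append_right _ _ _ _ (by rw [List.length_ofFn]; omega), List.length_ofFn]
  rw [show (n + 1) - n = 1 by omega]
  rfl

open Classical in
theorem input_S (i : Fin n) :
    (input G s t S).getD ((i : ℕ) * (n + 3) + (n + 2)) false = decide ((i : ℕ) + 1 ∈ S) := by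
  rw [InpA_ent G s t S i (n + 2) (by omega)]
  unfold InpA_row
  rw [List.getD_append_right _ _ _ _ (by rw [List.length_ofFn]; omega), List.length_ofFn]
  rw [show (n + 2) - n = 2 by omega]
  rfl

end Pool.Agent.Lib.MP_e05f17_lc
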