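import Pool.Agent.Lib.MP_e05f17_lc.InpA

/-!
Reading the input.

PROOFS. nOf_input: find? over List.range (len + 1) of the n' with n' * (n' + 3) == len = n * (n + 3):
m ↦ m * (m + 3) is strictly monotone, so the only solution is n, and n < len + 1; find? of a list
returns the unique element with the property (List.find?_eq_some_iff_getElem or: cases on the value of
find?: none contradicts List.find?_eq_none with n in the range; some m gives m * (m+3) = n * (n+3) by
List.find?_some, so m = n by Nat nonlinear arithmetic: nlinarith / by_contra with lt_trichotomy).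
adjB_input: unfold adjB ent, nOf_input, input_adj. sOf_input: find? in List.range n of the i with
decide (i = s): the unique solution (same argument, i < n by List.mem_range); for all i < n
ent .. i n = decide (⟨i, _⟩ = s). lenB_input: lenB d k = decide (1 ≤ k) && decide (k ≤ nOf d) &&
ent d (k-1) (nOf d + 2), and (k - 1) + 1 = k. adj_input: from adjB_input (Bool equality by
Bool.eq_iff_iff), G.symm, G.irrefl (note: irrefl says = false; lt: i < n).
-/

namespace Pool.Agent.Lib.MP_e05f17_lc

variable {n : ℕ} (G : SimpleGraph (Fin n)) (s t : Fin n) (S : Set ℕ)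

private theorem find_uniq (N m : ℕ) (P : ℕ → Bool) (hm : m < N) (hP : P m = true)
    (hu : ∀ i < N, P i = true → i = m) : (List.range N).find? P = some m := by
  cases h : (List.range N).find? P with
  | none =>
    have h1 := List.find?_eq_none.1 h m (List.mem_range.2 hm)
    exact absurd hP h1
  | some i =>
    have h1 := List.find?_some h
    have h2 := List.mem_of_find?_eq_some h
    rw [hu i (List.mem_range.1 h2) h1]

theorem nOf_input : nOf (input G s t S) = n := by
  unfold nOf
  rw [input_length, find_uniq _ n, Option.getD_some]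
  · nlinarith
  · exact beq_self_eq_true _
  · intro i _ h
    have h1 : i * (i + 3) = n * (n + 3) := by simpa using h
    rcases lt_trichotomy i n with h2 | h2 | h2
    · nlinarith
    · exact h2
    · nlinarith

theorem adjB_input (i j : ℕ) :
    adjB (input G s t S) i j = true ↔ ∃ (hi : i < n) (hj : j < n), G.Adj ⟨i, hi⟩ ⟨j, hj⟩ := by
  classical
  unfold adjB ent
  rw [nOf_input, Bool.and_eq_true, Bool.and_eq_true, decide_eq_true_iff, decide_eq_true_iff]
  constructor
  · rintro ⟨⟨hi, hj⟩, h⟩
    have h1 := input_adj G s t S ⟨i, hi⟩ ⟨j, hj⟩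
    exact ⟨hi, hj, of_decide_eq_true (h1.symm.trans h)⟩
  · rintro ⟨hi, hj, h⟩
    refine ⟨⟨hi, hj⟩, ?_⟩
    have h1 := input_adj G s t S ⟨i, hi⟩ ⟨j, hj⟩
    exact h1.trans (decide_eq_true h)

theorem sOf_input : sOf (input G s t S) = s := by
  unfold sOf
  rw [nOf_input, find_uniq _ (s : ℕ), Option.getD_some]
  · exact s.2
  · unfold ent
    rw [nOf_input]
    exact (input_s G s t S s).trans (decide_eq_true rfl)
  · intro i hi h
    unfold ent at h
    rw [nOf_input] at h
    have h1 := (input_s G s t S ⟨i, hi⟩).symm.trans h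
    exact congrArg Fin.val (of_decide_eq_true h1)

theorem tOf_input : tOf (input G s t S) = t := by
  unfold tOf
  rw [nOf_input, find_uniq _ (t : ℕ), Option.getD_some]
  · exact t.2
  · unfold ent
    rw [nOf_input]
    exact (input_t G s t S t).trans (decide_eq_true rfl)
  · intro i hi h
    unfold ent at h
    rw [nOf_input] at h
    have h1 := (input_t G s t S ⟨i, hi⟩).symm.trans h
    exact congrArg Fin.val (of_decide_eq_true h1)

theorem lenB_input (k : ℕ) : lenB (input G s t S) k = true ↔ 1 ≤ k ∧ k ≤ n ∧ k ∈ S := by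
  classical
  unfold lenB ent
  rw [nOf_input, Bool.and_eq_true, Bool.and_eq_true, decide_eq_true_iff, decide_eq_true_iff]
  constructor
  · rintro ⟨⟨h1, h2⟩, h⟩
    have h3 := input_S G s t S ⟨k - 1, by omega⟩
    have h4 := of_decide_eq_true (h3.symm.trans h)
    have h5 : k - 1 + 1 = k := by omega
    refine ⟨h1, h2, ?_⟩
    have h6 : k - 1 + 1 ∈ S := h4
    rw [h5] at h6
    exact h6
  · rintro ⟨h1, h2, h⟩
    refine ⟨⟨h1, h2⟩, ?_⟩
    have h3 := input_S G s t S ⟨k - 1, by omega⟩
    have h5 : k - 1 + 1 = k := by omega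
    refine h3.trans (decide_eq_true ?_)
    show k - 1 + 1 ∈ S
    rw [h5]
    exact h

theorem adj_input : Adj (adjB (input G s t S)) n where
  symm x y := by
    rw [Bool.eq_iff_iff, adjB_input, adjB_input]
    constructor
    · rintro ⟨hi, hj, h⟩
      exact ⟨hj, hi, h.symm⟩
    · rintro ⟨hi, hj, h⟩
      exact ⟨hj, hi, h.symm⟩
  irrefl x := by
    rw [Bool.eq_false_iff, Ne, adjB_input]
    rintro ⟨hi, hj, h⟩
    exact h.ne rfl
  lt x y h := ((adjB_input G s t S x y).1 h).choose

end Pool.Agent.Lib.MP_e05f17_lc
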