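import Pool.Agent.Lib.MP_e05f17_lc.LeafPT

/-!
The children of a node in polynomial time.

TOOLS: `PT f` says that f is computable in polynomial time (types with `Enc`). Files PolyTime/Core, Ctrl,
Derived, More, Lists, BinNat (all imported) contain: PT.id, PT.const, PT.fst, PT.snd, PT.pair, .fst',
.snd', PT.comp, PT.congr (pointwise equality), PT.ite (hypothesis PT (fun a => decide (c a))), PT.cond,
PT.and, PT.or, PT.not, PT.eq, PT.le, PT.lt, PT.add, PT.sub, PT.mul, PT.mulConst, PT.addConst, PT.succ,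
PT.pred, PT.cons, PT.append, PT.reverse, PT.length, PT.tail, PT.isNil, PT.head?, PT.drop, PT.range,
PT.map, PT.filter, PT.flatMap, PT.any, PT.all, PT.zipIdx, PT.getElem?, PT.listCases, PT.natCases,
PT.optCases, PT.list1, PT.mapConst, PT.flatMapConst, PT.foldl (size bound for all prefixes),
PT.foldl_add (each step adds a bounded size), PT.iterate, PT.size_le, PB.* for polynomial bounds;
BinNat: BN (binary numbers), BZ (integers): PT.toBN, PT.bnAdd, bnMul, bnDiv, bnMod, bnSum, bnFoldl,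
bzAdd, bzMul, bzNeg, bzOfBN, bzFoldl, size_BN_le_of_lt, lt_two_pow_size, size_BZ_le_of_lt; also
mpt_getD, mpt_take of MP_33f9c4_lc/Mpt.lean. Typical proofs: Mpt.lean, section General. In PT.map etc.
the inner hypothesis is PT (fun x : α × β => g x.1 x.2): give g explicitly (g := fun a b => ...).

PROOFS. pt_subs: induction on c (α, f arbitrary or for the function subs c itself and compose):
subs (c+1) l by PT.listCases: [] gives [[]]; x :: D gives subs c D ++ (subs c D).map (x :: ·)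
(PT.append, PT.map, PT.cons). pt_kids: kids c x is a nested match: PT.listCases on x.1.1.1 (blocks);
nil: PT.listCases on x.1.1.2; cons i L: PT.append of PT.flatMap (pt_subs) of kids0, and
PT.ite (b = 0, PT.eqConst 0 or PT.eq) of [] and PT.flatMap of kids1 with PT.pred. kids0, kids1 are
lists of 3 to 4 tuples: PT.cons, PT.pair, PT.bzAdd for w + w, PT.bzNeg for -w, PT.cond on isEmpty
(PT.isNil), PT.append. Prove PT of kids0/kids1 as functions of one tuple first:
fun x : (Blk × (List Blk × (List ℕ × (ℕ × (List ℕ × (List (ℕ × ℕ) × BZ)))))) × List ℕ => .... congr by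
rcases on the node: ⟨⟨⟨L, R⟩, b⟩, ⟨⟨X, M⟩, w⟩⟩, cases L; cases R.
-/

namespace Pool.Agent.Lib.MP_e05f17_lc

open Pool.Agent.Lib.PolyTime

private theorem pt_subs0 (c : ℕ) : PT (subs c) := by
  induction c with
  | zero => exact (PT.const [[]]).congr (fun a => rfl)
  | succ c ih =>
    refine (PT.listCases (f := fun l : List ℕ => l) (g := fun _ => ([[]] : List (List ℕ)))
      (h := fun _ x D => subs c D ++ (subs c D).map (fun l => x :: l)) PT.id (PT.const _)
      ?_).congr (fun l => by cases l <;> rfl)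
    exact PT.append (ih.comp PT.snd.snd')
      (PT.map (f := fun x : List ℕ × (ℕ × List ℕ) => subs c x.2.2)
        (g := fun x l => x.2.1 :: l) (ih.comp PT.snd.snd') (PT.cons PT.fst.snd'.fst' PT.snd))

theorem pt_subs (c : ℕ) {α : Type} [Enc α] {f : α → List ℕ} (hf : PT f) :
    PT (fun a => subs c (f a)) :=
  (pt_subs0 c).comp hf

section

variable {α : Type} [Enc α] {i : α → Blk} {L : α → List Blk} {R : α → List ℕ} {b : α → ℕ}
  {X : α → List ℕ} {M : α → List (ℕ × ℕ)} {w : α → BZ} {P : α → List ℕ}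

private theorem pt_nd (hL : PT L) (hR : PT R) (hb : PT b) (hX : PT X) (hM : PT M) (hw : PT w) :
    PT (fun a => nd (L a) (R a) (b a) (X a) (M a) (w a).val) :=
  (PT.pair (PT.pair (PT.pair hL hR) hb) (PT.pair (PT.pair hX hM) hw)).congr (fun _ => rfl)

private theorem pt_kids0 (hi : PT i) (hL : PT L) (hR : PT R) (hb : PT b) (hX : PT X) (hM : PT M)
    (hw : PT w) (hP : PT P) :
    PT (fun a => kids0 (i a) (L a) (R a) (b a) (X a) (M a) (w a).val (P a)) := by
  have hPX : PT (fun a => P a ++ X a) := PT.append hP hX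
  have hM' : PT (fun a => (i a).1 :: M a) := PT.cons hi.fst' hM
  have hu : PT (fun a => (i a).1.1 :: (P a ++ X a)) := PT.cons hi.fst'.fst' hPX
  have hv : PT (fun a => (i a).1.2 :: (P a ++ X a)) := PT.cons hi.fst'.snd' hPX
  have huv : PT (fun a => (i a).1.1 :: (i a).1.2 :: (P a ++ X a)) := PT.cons hi.fst'.fst' hv
  have hww : PT (fun a => (if (P a).isEmpty then (⟨(w a).val + (w a).val⟩ : BZ) else w a)) :=
    PT.cond (PT.isNil hP) (PT.bzAdd hw hw) hw
  have h1 := pt_nd hL hR hb hPX hM' hw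
  have h2 : PT (fun a => nd (L a) (R a) (b a) ((i a).1.1 :: (P a ++ X a)) ((i a).1 :: M a)
      (if (P a).isEmpty then (w a).val + (w a).val else (w a).val)) :=
    (pt_nd hL hR hb hu hM' hww).congr (fun a => by split_ifs <;> rfl)
  have h3 := pt_nd hL hR hb huv hM' hw
  have h4 := pt_nd hL hR hb hv hM' hw
  exact PT.append (PT.cons h1 (PT.cons h2 (PT.cons h3 (PT.const []))))
    (PT.cond (PT.isNil hP) (PT.const []) (PT.cons h4 (PT.const [])))

private theorem pt_kids1 (hi : PT i) (hL : PT L) (hR : PT R) (hb : PT b) (hX : PT X) (hM : PT M)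
    (hw : PT w) (hP : PT P) :
    PT (fun a => kids1 (i a) (L a) (R a) (b a) (X a) (M a) (w a).val (P a)) := by
  have hPX : PT (fun a => P a ++ X a) := PT.append hP hX
  have hM' : PT (fun a => (i a).1 :: M a) := PT.cons hi.fst' hM
  have hu : PT (fun a => (i a).1.1 :: (P a ++ X a)) := PT.cons hi.fst'.fst' hPX
  have hv : PT (fun a => (i a).1.2 :: (P a ++ X a)) := PT.cons hi.fst'.snd' hPX
  have huv : PT (fun a => (i a).1.1 :: (i a).1.2 :: (P a ++ X a)) := PT.cons hi.fst'.fst' hv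
  have hn : PT (fun a => (⟨-(w a).val⟩ : BZ)) := PT.bzNeg hw
  have h1 := pt_nd hL hR hb hu hM hw
  have h2 := pt_nd hL hR hb hu hM' hn
  have h3 := pt_nd hL hR hb huv hM hw
  have h4 := pt_nd hL hR hb huv hM' hn
  exact PT.cons h1 (PT.cons h2 (PT.cons h3 (PT.cons h4 (PT.const []))))

end

theorem pt_kids (c : ℕ) : PT (fun x : (List Bool × List ℕ) × Node => kids c x.2) := by
  -- the case without blocks
  have hnil : PT (fun x : (List Bool × List ℕ) × Node => match x.2.1.1.2 with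
      | [] => ([] : List Node)
      | r :: R => [nd [] R x.2.1.2 x.2.2.1.1 x.2.2.1.2 x.2.2.2.val,
          nd [] R x.2.1.2 (r :: x.2.2.1.1) x.2.2.1.2 x.2.2.2.val]) := by
    refine (PT.listCases (f := fun x : (List Bool × List ℕ) × Node => x.2.1.1.2)
      (g := fun _ => ([] : List Node))
      (h := fun x r R => [nd [] R x.2.1.2 x.2.2.1.1 x.2.2.1.2 x.2.2.2.val,
          nd [] R x.2.1.2 (r :: x.2.2.1.1) x.2.2.1.2 x.2.2.2.val])
      PT.snd.fst'.fst'.snd' (PT.const _) ?_).congr (fun x => by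
        obtain ⟨_, ⟨⟨⟨L, R⟩, b⟩, ⟨⟨X, M⟩, ⟨w⟩⟩⟩⟩ := x
        cases R <;> rfl)
    have hx : PT (fun y : ((List Bool × List ℕ) × Node) × (ℕ × List ℕ) => y.1.2) := PT.fst.snd'
    have hR : PT (fun y : ((List Bool × List ℕ) × Node) × (ℕ × List ℕ) => y.2.2) := PT.snd.snd'
    have hr : PT (fun y : ((List Bool × List ℕ) × Node) × (ℕ × List ℕ) => y.2.1) := PT.snd.fst'
    have h1 := pt_nd (L := fun _ : ((List Bool × List ℕ) × Node) × (ℕ × List ℕ) =>
      ([] : List Blk)) (PT.const _) hR hx.fst'.snd' hx.snd'.fst'.fst' hx.snd'.fst'.snd' hx.snd'.snd'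
    have h2 := pt_nd (L := fun _ : ((List Bool × List ℕ) × Node) × (ℕ × List ℕ) =>
      ([] : List Blk)) (PT.const _) hR hx.fst'.snd' (PT.cons hr hx.snd'.fst'.fst')
      hx.snd'.fst'.snd' hx.snd'.snd'
    exact PT.cons h1 (PT.cons h2 (PT.const []))
  refine (PT.listCases (f := fun x : (List Bool × List ℕ) × Node => x.2.1.1.1)
    (g := fun x : (List Bool × List ℕ) × Node => match x.2.1.1.2 with
      | [] => ([] : List Node)
      | r :: R => [nd [] R x.2.1.2 x.2.2.1.1 x.2.2.1.2 x.2.2.2.val,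
          nd [] R x.2.1.2 (r :: x.2.2.1.1) x.2.2.1.2 x.2.2.2.val])
    (h := fun x i L => (subs c i.2).flatMap
        (kids0 i L x.2.1.1.2 x.2.1.2 x.2.2.1.1 x.2.2.1.2 x.2.2.2.val) ++
      (if x.2.1.2 = 0 then [] else (subs c i.2).flatMap
        (kids1 i L x.2.1.1.2 (x.2.1.2 - 1) x.2.2.1.1 x.2.2.1.2 x.2.2.2.val)))
    PT.snd.fst'.fst'.fst' hnil ?_).congr (fun x => ?_)
  · have hy : PT (fun y : ((List Bool × List ℕ) × Node) × (Blk × List Blk) => y.1.2) :=
      PT.fst.snd'
    have hz : PT (fun z : (((List Bool × List ℕ) × Node) × (Blk × List Blk)) × List ℕ =>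
      z.1.1.2) := PT.fst.fst'.snd'
    have hi : PT (fun z : (((List Bool × List ℕ) × Node) × (Blk × List Blk)) × List ℕ =>
      z.1.2.1) := PT.fst.snd'.fst'
    have hL : PT (fun z : (((List Bool × List ℕ) × Node) × (Blk × List Blk)) × List ℕ =>
      z.1.2.2) := PT.fst.snd'.snd'
    have hP : PT (fun z : (((List Bool × List ℕ) × Node) × (Blk × List Blk)) × List ℕ =>
      z.2) := PT.snd
    have hs : PT (fun y : ((List Bool × List ℕ) × Node) × (Blk × List Blk) =>
      subs c y.2.1.2) := pt_subs c PT.snd.fst'.snd'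
    refine PT.append ?_ (PT.ite (c := fun y : ((List Bool × List ℕ) × Node) × (Blk × List Blk) =>
      y.1.2.1.2 = 0) ((PT.eqConst 0).comp hy.fst'.snd') (PT.const _) ?_)
    · exact PT.flatMap (g := fun (y : ((List Bool × List ℕ) × Node) × (Blk × List Blk))
        (P : List ℕ) => kids0 y.2.1 y.2.2 y.1.2.1.1.2 y.1.2.1.2 y.1.2.2.1.1 y.1.2.2.1.2
          y.1.2.2.2.val P) hs
        (pt_kids0 hi hL hz.fst'.fst'.snd' hz.fst'.snd' hz.snd'.fst'.fst' hz.snd'.fst'.snd'
          hz.snd'.snd' hP)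
    · exact PT.flatMap (g := fun (y : ((List Bool × List ℕ) × Node) × (Blk × List Blk))
        (P : List ℕ) => kids1 y.2.1 y.2.2 y.1.2.1.1.2 (y.1.2.1.2 - 1) y.1.2.2.1.1 y.1.2.2.1.2
          y.1.2.2.2.val P) hs
        (pt_kids1 hi hL hz.fst'.fst'.snd' (PT.pred hz.fst'.snd') hz.snd'.fst'.fst'
          hz.snd'.fst'.snd' hz.snd'.snd' hP)
  · obtain ⟨_, ⟨⟨⟨L, R⟩, b⟩, ⟨⟨X, M⟩, ⟨w⟩⟩⟩⟩ := x
    cases L with
    | nil => cases R <;> rfl
    | cons i L => rfl

end Pool.Agent.Lib.MP_e05f17_lc
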