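import Pool.Agent.Lib.MP_e05f17_lc.KidA

/-!
The values of the nodes in polynomial time.

TOOLS: `PT f` says that f is computable in polynomial time (types with `Enc`). Files PolyTime/Core, Ctrl,
Derived, More, Lists, BinNat (all imported) contain: PT.id, PT.const, PT.fst, PT.snd, PT.pair, .fst',
.snd', PT.comp, PT.congr (pointwise equality), PT.ite (hypothesis PT (fun a => decide (c a))), PT.cond,
PT.and, PT.or, PT.not, PT.eq, PT.le, PT.lt, PT.add, PT.sub, PT.mul, PT.mulConst, PT.addConst, PT.succ,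
PT.pred, PT.cons, PT.append, PT.reverse, PT.length, PT.tail, PT.isNil, PT.head?, PT.drop, PT.range,
PT.map, PT.filter, PT.flatMap, PT.any, PT.all, PT.zipIdx, PT.getElem?, PT.listCases, PT.natCases,
PT.optCases, PT.list1, PT.mapConst, PT.flatMapConst, PT.foldl (size bound for all prefixes),
PT.foldl_add (each step adds a bounded size), PT.iterate, PT.size_le, PB.* for polynomial bounds;
BinNat: BN (binary numbers), BZ (integers): PT.toBN, PT.bnAdd, bnMul, bnDiv, bnMod, bnSum, bnFoldl,
bzAdd, bzMul, bzNeg, bzOfBN, bzFoldl, size_BN_le_of_lt, lt_two_pow_size, size_BZ_le_of_lt; also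
mpt_getD, mpt_take of MP_33f9c4_lc/Mpt.lean. Typical proofs: Mpt.lean, section General. In PT.map etc.
the inner hypothesis is PT (fun x : α × β => g x.1 x.2): give g explicitly (g := fun a b => ...).

PROOF. nval v x = if x.1.1.1.isEmpty && x.1.1.2.isEmpty then x.2.2.val * v x.2.1.1 x.2.1.2 else 0:
PT.cond with PT.isNil, PT.and, PT.bzMul, pt_leaf, PT.bzConst 0; congr (cases of the Boolean).
-/

namespace Pool.Agent.Lib.MP_e05f17_lc

open Pool.Agent.Lib.PolyTime

theorem pt_nval : PT (fun x : (List Bool × List ℕ) × Node =>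
    (⟨nval (leaf x.1.1 x.1.2) x.2⟩ : BZ)) := by
  have hx : PT (fun x : (List Bool × List ℕ) × Node => x) := PT.id
  have h1 : PT (fun x : (List Bool × List ℕ) × Node => x.1) := hx.fst'
  have h2 : PT (fun x : (List Bool × List ℕ) × Node => x.2) := hx.snd'
  have hc : PT (fun x : (List Bool × List ℕ) × Node =>
      x.2.1.1.1.isEmpty && x.2.1.1.2.isEmpty) :=
    PT.and (PT.isNil h2.fst'.fst'.fst') (PT.isNil h2.fst'.fst'.snd')
  have hl : PT (fun x : (List Bool × List ℕ) × Node =>
      (⟨leaf x.1.1 x.1.2 x.2.2.1.1 x.2.2.1.2⟩ : BZ)) :=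
    pt_leaf h1.fst' h1.snd' h2.snd'.fst'.fst' h2.snd'.fst'.snd'
  have hw : PT (fun x : (List Bool × List ℕ) × Node => x.2.2.2) := h2.snd'.snd'
  refine (PT.cond hc (PT.bzMul hw hl) (PT.bzConst 0)).congr fun x => ?_
  unfold nval
  split_ifs <;> rfl

end Pool.Agent.Lib.MP_e05f17_lc
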