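import Pool.Agent.Lib.MP_e05f17_lc.ReadPT

/-!
The modified adjacency in polynomial time.

TOOLS: `PT f` says that f is computable in polynomial time (types with `Enc`). Files PolyTime/Core, Ctrl,
Derived, More, Lists, BinNat (all imported) contain: PT.id, PT.const, PT.fst, PT.snd, PT.pair, .fst',
.snd', PT.comp, PT.congr (pointwise equality), PT.ite (hypothesis PT (fun a => decide (c a))), PT.cond,
PT.and, PT.or, PT.not, PT.eq, PT.le, PT.lt, PT.add, PT.sub, PT.mul, PT.mulConst, PT.addConst, PT.succ,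
PT.pred, PT.cons, PT.append, PT.reverse, PT.length, PT.tail, PT.isNil, PT.head?, PT.drop, PT.range,
PT.map, PT.filter, PT.flatMap, PT.any, PT.all, PT.zipIdx, PT.getElem?, PT.listCases, PT.natCases,
PT.optCases, PT.list1, PT.mapConst, PT.flatMapConst, PT.foldl (size bound for all prefixes),
PT.foldl_add (each step adds a bounded size), PT.iterate, PT.size_le, PB.* for polynomial bounds;
BinNat: BN (binary numbers), BZ (integers): PT.toBN, PT.bnAdd, bnMul, bnDiv, bnMod, bnSum, bnFoldl,
bzAdd, bzMul, bzNeg, bzOfBN, bzFoldl, size_BN_le_of_lt, lt_two_pow_size, size_BZ_le_of_lt; also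
mpt_getD, mpt_take of MP_33f9c4_lc/Mpt.lean. Typical proofs: Mpt.lean, section General. In PT.map etc.
the inner hypothesis is PT (fun x : α × β => g x.1 x.2): give g explicitly (g := fun a b => ...).

PROOFS. pm M x = ((M.find? fun b => b.1 == x).map Prod.snd).getD x: pt_find and PT.optCases, then
congr by cases on the value of find?. am: PT.ite for x ∈ H (decide (x ∈ H) = H.contains x: pt_contains
and PT.congr), pt_adjB, pt_pm.
-/

namespace Pool.Agent.Lib.MP_e05f17_lc

open Pool.Agent.Lib.PolyTime Pool.Agent.Lib.MP_33f9c4_lc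

variable {α : Type} [Enc α]

theorem pt_pm {f : α → List (ℕ × ℕ)} {g : α → ℕ} (hf : PT f) (hg : PT g) :
    PT (fun a => pm (f a) (g a)) := by
  have h0 : PT (fun x : α × (ℕ × ℕ) => x.2.1 == g x.1) :=
    (PT.eq (f := fun x : α × (ℕ × ℕ) => x.2.1) (g := fun x : α × (ℕ × ℕ) => g x.1) PT.snd.fst'
      (hg.comp PT.fst)).congr (fun x => by
        rw [Bool.eq_iff_iff]
        simp)
  have h1 : PT (fun a => (f a).find? (fun b => b.1 == g a)) :=
    pt_find (p := fun (a : α) (b : ℕ × ℕ) => b.1 == g a) hf h0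
  exact (PT.optCases (g := g) (h := fun _ b => b.2) h1 hg PT.snd.snd').congr (fun a => by
    unfold pm
    cases (f a).find? (fun b => b.1 == g a) <;> rfl)

theorem pt_am {d : α → List Bool} {H : α → List ℕ} {M : α → List (ℕ × ℕ)} {x y : α → ℕ}
    (hd : PT d) (hH : PT H) (hM : PT M) (hx : PT x) (hy : PT y) :
    PT (fun a => am (adjB (d a)) (H a) (M a) (x a) (y a)) := by
  have hc1 : PT (fun a => decide (x a ∈ H a)) := (pt_contains hH hx).congr (fun a => by
    rw [Bool.eq_iff_iff]
    simp)
  have hc2 : PT (fun a => decide (y a ∈ H a)) := (pt_contains hH hy).congr (fun a => by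
    rw [Bool.eq_iff_iff]
    simp)
  exact PT.ite (c := fun a => x a ∈ H a) hc1 (pt_adjB hd hx (pt_pm hM hy))
    (PT.ite (c := fun a => y a ∈ H a) hc2 (pt_adjB hd (pt_pm hM hx) hy) (pt_adjB hd hx hy))

end Pool.Agent.Lib.MP_e05f17_lc
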