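import Pool.Agent.Lib.MP_e05f17_lc.PTA

/-!
Binomial coefficients and the coefficients of the formula in polynomial time.

TOOLS: `PT f` says that f is computable in polynomial time (types with `Enc`). Files PolyTime/Core, Ctrl,
Derived, More, Lists, BinNat (all imported) contain: PT.id, PT.const, PT.fst, PT.snd, PT.pair, .fst',
.snd', PT.comp, PT.congr (pointwise equality), PT.ite (hypothesis PT (fun a => decide (c a))), PT.cond,
PT.and, PT.or, PT.not, PT.eq, PT.le, PT.lt, PT.add, PT.sub, PT.mul, PT.mulConst, PT.addConst, PT.succ,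
PT.pred, PT.cons, PT.append, PT.reverse, PT.length, PT.tail, PT.isNil, PT.head?, PT.drop, PT.range,
PT.map, PT.filter, PT.flatMap, PT.any, PT.all, PT.zipIdx, PT.getElem?, PT.listCases, PT.natCases,
PT.optCases, PT.list1, PT.mapConst, PT.flatMapConst, PT.foldl (size bound for all prefixes),
PT.foldl_add (each step adds a bounded size), PT.iterate, PT.size_le, PB.* for polynomial bounds;
BinNat: BN (binary numbers), BZ (integers): PT.toBN, PT.bnAdd, bnMul, bnDiv, bnMod, bnSum, bnFoldl,
bzAdd, bzMul, bzNeg, bzOfBN, bzFoldl, size_BN_le_of_lt, lt_two_pow_size, size_BZ_le_of_lt; also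
mpt_getD, mpt_take of MP_33f9c4_lc/Mpt.lean. Typical proofs: Mpt.lean, section General. In PT.map etc.
the inner hypothesis is PT (fun x : α × β => g x.1 x.2): give g explicitly (g := fun a b => ...).

PROOFS. pt_choose: (List.range k).foldl (fun s i => ⟨s.val * (n - i) / (i + 1)⟩) ⟨1⟩ = ⟨n.choose k⟩ by
induction on k (List.range_succ, foldl_append; Nat.choose_succ_right_eq: C(n,k+1) (k+1) = C(n,k) (n-k),
Nat.div_eq_of_eq_mul_left). PT.foldl with the bound: every prefix of List.range k is List.range j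
(List.IsPrefix: l' = (List.range k).take l'.length = List.range (min ..)), the value is C(n,j) ≤ 2^n
(Nat.choose_le_two_pow), size_BN_le_of_lt. PT.bnMul, PT.bnDiv, PT.toBN for (n - i) and (i + 1).
pt_cf: if c ≤ k then (-1)^(k-c) * C(n-c, k-c): with e = k - c, (-1)^e is 1 or -1 by the parity of e; the
parity in polynomial time e.g. by PT.iterate with the step not on Bool (size ≤ 3) or by
decide ((toBN e).val % 2 = 0) via PT.bnMod; PT.bzOfBN, PT.bzNeg, PT.ite; congr with Even/Odd.
-/

namespace Pool.Agent.Lib.MP_e05f17_lc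

open Pool.Agent.Lib.PolyTime Pool.Agent.Lib.MP_33f9c4_lc

variable {α : Type} [Enc α]

private theorem leafB_fold (n k : ℕ) :
    (List.range k).foldl (fun (s : BN) (i : ℕ) => (⟨s.val * (n - i) / (i + 1)⟩ : BN)) ⟨1⟩ =
      ⟨n.choose k⟩ := by
  induction k with
  | zero => simp
  | succ k ih =>
    rw [List.range_succ, List.foldl_append, ih]
    show (⟨n.choose k * (n - k) / (k + 1)⟩ : BN) = ⟨n.choose (k + 1)⟩
    rw [← Nat.choose_succ_right_eq, Nat.mul_div_cancel _ (Nat.succ_pos k)]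

/-- Binomial coefficients. -/
theorem pt_choose {f g : α → ℕ} (hf : PT f) (hg : PT g) :
    PT (fun a => (⟨(f a).choose (g a)⟩ : BN)) := by
  obtain ⟨p, hp⟩ := hf.size_le
  have hstep : PT (fun x : α × (BN × ℕ) =>
      (⟨x.2.1.val * (f x.1 - x.2.2) / (x.2.2 + 1)⟩ : BN)) :=
    PT.bnDiv (f := fun x : α × (BN × ℕ) => (⟨x.2.1.val * (f x.1 - x.2.2)⟩ : BN))
      (g := fun x : α × (BN × ℕ) => (⟨x.2.2 + 1⟩ : BN))
      (PT.bnMul (f := fun x : α × (BN × ℕ) => x.2.1)
        (g := fun x : α × (BN × ℕ) => (⟨f x.1 - x.2.2⟩ : BN)) PT.snd.fst'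
        (PT.toBN (PT.sub (hf.comp PT.fst) PT.snd.snd')))
      (PT.toBN (PT.succ PT.snd.snd'))
  have hfold : PT (fun a => (List.range (g a)).foldl
      (fun (s : BN) (i : ℕ) => (⟨s.val * (f a - i) / (i + 1)⟩ : BN)) ⟨1⟩) := by
    refine PT.bnFoldl (f := fun a => List.range (g a)) (init := fun _ => (⟨1⟩ : BN))
      (step := fun a (s : BN) (i : ℕ) => (⟨s.val * (f a - i) / (i + 1)⟩ : BN))
      (PT.range hg) (PT.bnConst 1) hstep (PB.poly p) ?_
    intro a l' hl'
    have h1 : l' = List.range (min l'.length (g a)) := by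
      have h2 := List.prefix_iff_eq_take.1 hl'
      rw [List.take_range] at h2
      exact h2
    rw [h1, leafB_fold]
    have h3 : 2 * f a + 1 ≤ p.eval (size a) := by
      have := hp a
      rwa [size_nat] at this
    calc (f a).choose (min l'.length (g a)) ≤ 2 ^ (f a) := Nat.choose_le_two_pow _ _
      _ < 2 ^ (p.eval (size a)) := Nat.pow_lt_pow_right (by norm_num) (by omega)
  exact hfold.congr fun a => leafB_fold (f a) (g a)

private theorem leafB_sign (e m : ℕ) :
    (if decide (e % 2 = 1) then -(m : ℤ) else (m : ℤ)) = (-1) ^ e * (m : ℤ) := by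
  rcases Nat.mod_two_eq_zero_or_one e with h | h
  · rw [(Nat.even_iff.2 h).neg_one_pow, if_neg (by simp [h]), one_mul]
  · rw [(Nat.odd_iff.2 h).neg_one_pow, if_pos (by simp [h]), neg_one_mul]

theorem pt_cf {f g h : α → ℕ} (hf : PT f) (hg : PT g) (hh : PT h) :
    PT (fun a => (⟨cf (f a) (g a) (h a)⟩ : BZ)) := by
  have hpar : PT (fun a => decide ((h a - g a) % 2 = 1)) :=
    PT.bnEq (f := fun a => (⟨(h a - g a) % 2⟩ : BN)) (g := fun _ => (⟨1⟩ : BN))
      (PT.bnMod (f := fun a => (⟨h a - g a⟩ : BN)) (g := fun _ => (⟨2⟩ : BN))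
        (PT.toBN (PT.sub hh hg)) (PT.bnConst 2)) (PT.bnConst 1)
  have hmk := PT.bzMk hpar (pt_choose (PT.sub hf hg) (PT.sub hh hg))
  have hite : PT (fun a => if g a ≤ h a then
      (⟨if decide ((h a - g a) % 2 = 1) then -(((f a - g a).choose (h a - g a) : ℕ) : ℤ)
        else (((f a - g a).choose (h a - g a) : ℕ) : ℤ)⟩ : BZ) else ⟨0⟩) :=
    PT.ite (PT.le hg hh) hmk (PT.bzConst 0)
  refine hite.congr fun a => ?_
  unfold cf
  by_cases hc : g a ≤ h a
  · rw [if_pos hc, if_pos hc, leafB_sign]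
  · rw [if_neg hc, if_neg hc]

end Pool.Agent.Lib.MP_e05f17_lc
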