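import Pool.Agent.Lib.MP_e05f17_lc.LeafA

/-!
The number of walks in polynomial time.

TOOLS: `PT f` says that f is computable in polynomial time (types with `Enc`). Files PolyTime/Core, Ctrl,
Derived, More, Lists, BinNat (all imported) contain: PT.id, PT.const, PT.fst, PT.snd, PT.pair, .fst',
.snd', PT.comp, PT.congr (pointwise equality), PT.ite (hypothesis PT (fun a => decide (c a))), PT.cond,
PT.and, PT.or, PT.not, PT.eq, PT.le, PT.lt, PT.add, PT.sub, PT.mul, PT.mulConst, PT.addConst, PT.succ,
PT.pred, PT.cons, PT.append, PT.reverse, PT.length, PT.tail, PT.isNil, PT.head?, PT.drop, PT.range,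
PT.map, PT.filter, PT.flatMap, PT.any, PT.all, PT.zipIdx, PT.getElem?, PT.listCases, PT.natCases,
PT.optCases, PT.list1, PT.mapConst, PT.flatMapConst, PT.foldl (size bound for all prefixes),
PT.foldl_add (each step adds a bounded size), PT.iterate, PT.size_le, PB.* for polynomial bounds;
BinNat: BN (binary numbers), BZ (integers): PT.toBN, PT.bnAdd, bnMul, bnDiv, bnMod, bnSum, bnFoldl,
bzAdd, bzMul, bzNeg, bzOfBN, bzFoldl, size_BN_le_of_lt, lt_two_pow_size, size_BZ_le_of_lt; also
mpt_getD, mpt_take of MP_33f9c4_lc/Mpt.lean. Typical proofs: Mpt.lean, section General. In PT.map etc.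
the inner hypothesis is PT (fun x : α × β => g x.1 x.2): give g explicitly (g := fun a b => ...).

PROOFS. Bound: every entry of wvec A X t k is ≤ 2^(k * X.length) and the length is X.length: induction on
k (Function.iterate_succ_apply'): the sum of at most X.length numbers ≤ 2^(k m) is ≤ m 2^(k m) ≤
2^((k+1) m), m = X.length (the zip has length ≤ m; List.sum_le_card_nsmul). So
size (wvec ..) ≤ polynomial in size of (X, k): size_list_le (PolyTime/Lists) and size_BN_le_of_lt.
PT: PT.iterate with f = k, init = X.map (fun x => ⟨if x = t then 1 else 0⟩), step =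
wstep (am ..) X; wstep is PT.map over X of PT.bnSum over X.zip vec. The zip of two lists in polynomial
time: X.zip vec = X.zipIdx.filterMap ..., e.g. (List.range X.length).flatMap (fun i => for i <
vec.length [(X[i], vec[i])]) with mpt_getD and PT.cond; prove it as a private lemma
pt_zip {f : α → List β} {g : α → List γ} [Inhabited or default values b c]. wnum: PT.bnSum over the zip.
α is arbitrary: first prove the statement for the tuple type and compose.
-/

namespace Pool.Agent.Lib.MP_e05f17_lc

open Pool.Agent.Lib.PolyTime Pool.Agent.Lib.MP_33f9c4_lc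

variable {α : Type} [Enc α]

private theorem lc_zip_id {β γ : Type} (b : β) (c : γ) : ∀ (l : List β) (m : List γ),
    (List.range l.length).flatMap (fun i =>
      if i < m.length then [(l.getD i b, m.getD i c)] else []) = l.zip m
  | [], m => by simp
  | x :: l, m => by
    rw [List.length_cons, List.range_succ_eq_map, List.flatMap_cons, List.flatMap_map]
    cases m with
    | nil => simp
    | cons y m =>
      have h := lc_zip_id b c l m
      rw [List.zip_cons_cons, ← h]
      simp

private theorem lc_zip {β γ : Type} [Enc β] [Enc γ] {f : α → List β} {g : α → List γ}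
    (b : β) (c : γ) (hf : PT f) (hg : PT g) : PT (fun a => (f a).zip (g a)) := by
  have h := PT.flatMap (f := fun a => List.range (f a).length)
    (g := fun a i => if i < (g a).length then [((f a).getD i b, (g a).getD i c)] else [])
    (PT.range (PT.length hf))
    (PT.ite (PT.lt PT.snd (PT.length (hg.comp PT.fst)))
      (PT.list1 ((mpt_getD (hf.comp PT.fst) PT.snd b).pair (mpt_getD (hg.comp PT.fst) PT.snd c)))
      (PT.const []))
  exact h.congr (fun a => lc_zip_id b c (f a) (g a))

private theorem lc_bound (A : ℕ → ℕ → Bool) (X : List ℕ) (t k : ℕ) :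
    (wvec A X t k).length = X.length ∧
      ∀ v ∈ wvec A X t k, v.val ≤ 2 ^ (k * X.length) := by
  induction k with
  | zero =>
    refine ⟨by simp [wvec], fun v hv => ?_⟩
    unfold wvec at hv
    rw [Function.iterate_zero_apply] at hv
    obtain ⟨x, -, rfl⟩ := List.mem_map.1 hv
    simp only [Nat.zero_mul, pow_zero]
    split_ifs <;> simp
  | succ k ih =>
    have e : wvec A X t (k + 1) = wstep A X (wvec A X t k) :=
      Function.iterate_succ_apply' _ _ _
    rw [e]
    refine ⟨by simp [wstep], fun v hv => ?_⟩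
    obtain ⟨x, -, rfl⟩ := List.mem_map.1 hv
    have h1 := List.sum_le_card_nsmul
      ((X.zip (wvec A X t k)).map fun y => if A x y.1 then y.2.val else 0)
      (2 ^ (k * X.length)) (by
        intro z hz
        obtain ⟨y, hy, rfl⟩ := List.mem_map.1 hz
        have h2 := ih.2 y.2 (List.of_mem_zip hy).2
        split_ifs
        · exact h2
        · exact Nat.zero_le _)
    rw [List.length_map, List.length_zip, ih.1, min_self, smul_eq_mul] at h1
    refine h1.trans ?_
    have h3 : X.length ≤ 2 ^ X.length := Nat.lt_two_pow_self.le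
    calc X.length * 2 ^ (k * X.length) ≤ 2 ^ X.length * 2 ^ (k * X.length) :=
          Nat.mul_le_mul_right _ h3
      _ = 2 ^ ((k + 1) * X.length) := by rw [← pow_add]; congr 1; ring

private theorem lc_size (A : ℕ → ℕ → Bool) (X : List ℕ) (t k : ℕ) :
    size (wvec A X t k) ≤ X.length * (4 * (k * X.length + 1) + 1 + 1) + 1 := by
  obtain ⟨h1, h2⟩ := lc_bound A X t k
  have h3 := size_list_le (S := 4 * (k * X.length + 1) + 1) (wvec A X t k) (fun v hv => by
    refine size_BN_le_of_lt ((h2 v hv).trans_lt ?_)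
    rw [pow_succ]
    have : 0 < 2 ^ (k * X.length) := by positivity
    omega)
  rwa [h1] at h3

private theorem lc_sum {d : α → List Bool} {H X : α → List ℕ} {M : α → List (ℕ × ℕ)}
    (hd : PT d) (hH : PT H) (hX : PT X) (hM : PT M) :
    PT (fun z : (α × List BN) × ℕ => (⟨(((X z.1.1).zip z.1.2).map fun y =>
        if am (adjB (d z.1.1)) (H z.1.1) (M z.1.1) z.2 y.1 then y.2.val else 0).sum⟩ : BN)) := by
  have hz : PT (fun z : (α × List BN) × ℕ => (X z.1.1).zip z.1.2) :=
    lc_zip 0 ⟨0⟩ (hX.comp PT.fst.fst') PT.fst.snd'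
  have hc := pt_am (d := fun w : ((α × List BN) × ℕ) × (ℕ × BN) => d w.1.1.1)
    (H := fun w => H w.1.1.1) (M := fun w => M w.1.1.1) (x := fun w => w.1.2)
    (y := fun w => w.2.1)
    (hd.comp PT.fst.fst'.fst') (hH.comp PT.fst.fst'.fst') (hM.comp PT.fst.fst'.fst')
    PT.fst.snd' PT.snd.fst'
  have h := PT.cond (f := fun w : ((α × List BN) × ℕ) × (ℕ × BN) => w.2.2)
    (g := fun _ => (⟨0⟩ : BN)) hc PT.snd.snd' (PT.const _)
  have h2 : PT (fun w : ((α × List BN) × ℕ) × (ℕ × BN) =>
      (⟨if am (adjB (d w.1.1.1)) (H w.1.1.1) (M w.1.1.1) w.1.2 w.2.1 then w.2.2.val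
        else 0⟩ : BN)) := by
    refine h.congr (fun w => ?_)
    cases am (adjB (d w.1.1.1)) (H w.1.1.1) (M w.1.1.1) w.1.2 w.2.1 <;> rfl
  exact PT.bnSum (f := fun z : (α × List BN) × ℕ => (X z.1.1).zip z.1.2)
    (g := fun z y => (⟨if am (adjB (d z.1.1)) (H z.1.1) (M z.1.1) z.2 y.1 then y.2.val
      else 0⟩ : BN)) hz h2

private theorem lc_step0 {X : α → List ℕ} {g : α × List BN → ℕ → BN} (hX : PT X)
    (hg : PT (fun z : (α × List BN) × ℕ => g z.1 z.2)) :
    PT (fun x : α × List BN => (X x.1).map (g x)) := by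
  have h1 : PT (fun x : α × List BN => X x.1) := hX.comp PT.fst
  exact PT.map h1 hg

private def lc_g (d : α → List Bool) (H X : α → List ℕ) (M : α → List (ℕ × ℕ))
    (x : α × List BN) (u : ℕ) : BN :=
  ⟨(((X x.1).zip x.2).map fun y =>
    if am (adjB (d x.1)) (H x.1) (M x.1) u y.1 then y.2.val else 0).sum⟩

private theorem lc_step {d : α → List Bool} {H X : α → List ℕ} {M : α → List (ℕ × ℕ)}
    (hd : PT d) (hH : PT H) (hX : PT X) (hM : PT M) :
    PT (fun x : α × List BN => wstep (am (adjB (d x.1)) (H x.1) (M x.1)) (X x.1) x.2) := by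
  have hs := lc_sum hd hH hX hM
  have hs' : PT (fun z : (α × List BN) × ℕ => lc_g d H X M z.1 z.2) := hs
  have h := lc_step0 (X := X) (g := lc_g d H X M) hX hs'
  exact h

private theorem lc_init {X : α → List ℕ} {t : α → ℕ} (hX : PT X) (ht : PT t) :
    PT (fun a => (X a).map fun x => (⟨if x = t a then 1 else 0⟩ : BN)) := by
  have h := PT.ite (c := fun z : α × ℕ => z.2 = t z.1) (f := fun _ => (⟨1⟩ : BN))
    (g := fun _ => (⟨0⟩ : BN)) (PT.eq PT.snd (ht.comp PT.fst)) (PT.const _) (PT.const _)
  have h2 : PT (fun z : α × ℕ => (⟨if z.2 = t z.1 then 1 else 0⟩ : BN)) := by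
    refine h.congr (fun z => ?_)
    split_ifs <;> rfl
  exact PT.map (f := X) (g := fun a x => (⟨if x = t a then 1 else 0⟩ : BN)) hX h2

private theorem lc_wvec {d : α → List Bool} {H X : α → List ℕ} {M : α → List (ℕ × ℕ)}
    {t k : α → ℕ} (hd : PT d) (hH : PT H) (hX : PT X) (hM : PT M) (ht : PT t) (hk : PT k) :
    PT (fun a => wvec (am (adjB (d a)) (H a) (M a)) (X a) (t a) (k a)) := by
  obtain ⟨p, hp⟩ := hX.size_le
  obtain ⟨q, hq⟩ := hk.size_le
  have h := PT.iterate (f := k)
    (init := fun a => (X a).map fun x => (⟨if x = t a then 1 else 0⟩ : BN))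
    (step := fun a v => wstep (am (adjB (d a)) (H a) (M a)) (X a) v) hk (lc_init hX ht)
    (lc_step hd hH hX hM)
    (B := fun n => p.eval n * (4 * (q.eval n * p.eval n + 1) + 1 + 1) + 1)
    (((PB.poly p).mul (((((PB.const 4).mul (((PB.poly q).mul (PB.poly p)).add (PB.const 1))).add
      (PB.const 1)).add (PB.const 1)))).add (PB.const 1))
    (by
      intro a i hi
      have h1 := lc_size (am (adjB (d a)) (H a) (M a)) (X a) (t a) i
      have h2 : (X a).length ≤ p.eval (size a) := (length_le_size _).trans (hp a)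
      have h3 : i ≤ q.eval (size a) := by
        have h4 := hq a
        rw [size_nat] at h4
        omega
      refine h1.trans ?_
      have h5 : i * (X a).length ≤ q.eval (size a) * p.eval (size a) := Nat.mul_le_mul h3 h2
      have h6 := Nat.mul_le_mul h2 (show 4 * (i * (X a).length + 1) + 1 + 1 ≤
        4 * (q.eval (size a) * p.eval (size a) + 1) + 1 + 1 by omega)
      omega)
  exact h.congr (fun a => by unfold wvec; rfl)

theorem pt_wnum {d : α → List Bool} {H X : α → List ℕ} {M : α → List (ℕ × ℕ)} {s t k : α → ℕ}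
    (hd : PT d) (hH : PT H) (hX : PT X) (hM : PT M) (hs : PT s) (ht : PT t) (hk : PT k) :
    PT (fun a => (⟨wnum (am (adjB (d a)) (H a) (M a)) (X a) (s a) (t a) (k a)⟩ : BN)) := by
  have h := PT.bnSum
    (f := fun a => (X a).zip (wvec (am (adjB (d a)) (H a) (M a)) (X a) (t a) (k a)))
    (g := fun a y => (⟨if y.1 = s a then y.2.val else 0⟩ : BN))
    (lc_zip 0 ⟨0⟩ hX (lc_wvec hd hH hX hM ht hk))
    (by
      have h := PT.ite (c := fun z : α × (ℕ × BN) => z.2.1 = s z.1) (f := fun z => z.2.2)
        (g := fun _ => (⟨0⟩ : BN)) (PT.eq PT.snd.fst' (hs.comp PT.fst)) PT.snd.snd' (PT.const _)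
      refine h.congr (fun z => ?_)
      split_ifs <;> rfl)
  exact h.congr (fun a => by unfold wnum; rfl)

end Pool.Agent.Lib.MP_e05f17_lc
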