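import Pool.Agent.Lib.MP_e05f17_lc.Core

/-!
The value of a leaf.

PROOFS. wvec_get: for X Nodup, X.zip (wvec A X t k) is X.map (fun x => (x, ⟨W A X.toFinset t k x⟩)),
equivalently wvec A X t k = X.map (fun x => ⟨W A X.toFinset t k x⟩), by induction on k with
Function.iterate_succ_apply': wstep maps x to the sum over the zip of (if A x y.1 then y.2.val else 0) =
(X.map fun y => if A x y then W .. y else 0).sum = sum over X.toFinset (List.sum_toFinset, hX) = W (k+1) x.
wnum_eq: the sum of (X.map fun y => if y = s then W .. y else 0) with s ∈ X, X Nodup: again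
List.sum_toFinset and Finset.sum_ite_eq. leaf_eq: unfold leaf fX; List.sum over List.range is
Finset.sum over Finset.range (Finset.sum_range / List.sum_range_... : `Finset.sum_list_map_count` is not
needed; prove (List.range n).map f sum = ∑ k ∈ Finset.range n, f k by induction or
List.sum_toFinset); X.toFinset.card = X.length (List.toFinset_card_of_nodup).
-/

namespace Pool.Agent.Lib.MP_e05f17_lc

open Pool.Agent.Lib.PolyTime

private theorem LeafEq_zip {α β : Type*} (X : List α) (f : α → β) :
    X.zip (X.map f) = X.map fun x => (x, f x) := by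
  induction X with
  | nil => rfl
  | cons a X ih => rw [List.map_cons, List.zip_cons_cons, ih, List.map_cons]

theorem wvec_eq (A : ℕ → ℕ → Bool) (X : List ℕ) (hX : X.Nodup) (t k : ℕ) :
    wvec A X t k = X.map fun x => (⟨W A X.toFinset t k x⟩ : BN) := by
  induction k with
  | zero => rfl
  | succ k ih =>
    unfold wvec at ih ⊢
    rw [Function.iterate_succ_apply', ih]
    unfold wstep
    refine List.map_congr_left fun x _ => ?_
    rw [LeafEq_zip, List.map_map]
    have h1 : W A X.toFinset t (k + 1) x =
        ∑ y ∈ X.toFinset, if A x y then W A X.toFinset t k y else 0 := rfl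
    rw [h1, List.sum_toFinset _ hX]
    rfl

theorem wnum_eq (A : ℕ → ℕ → Bool) (X : List ℕ) (hX : X.Nodup) (s t k : ℕ) (hs : s ∈ X) :
    wnum A X s t k = W A X.toFinset t k s := by
  unfold wnum
  rw [wvec_eq A X hX, LeafEq_zip, List.map_map]
  have h1 : W A X.toFinset t k s = ∑ y ∈ X.toFinset, if y = s then W A X.toFinset t k y else 0 := by
    rw [Finset.sum_ite_eq' X.toFinset s (fun y => W A X.toFinset t k y),
      if_pos (List.mem_toFinset.2 hs)]
  rw [h1, List.sum_toFinset _ hX]
  rfl

theorem leaf_eq (d : List Bool) (H X : List ℕ) (M : List (ℕ × ℕ)) (hX : X.Nodup)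
    (hs : sOf d ∈ X) :
    leaf d H X M = fX (am (adjB d) H M) (nOf d) (sOf d) (tOf d) (lenB d) X.toFinset := by
  unfold leaf fX
  rw [← List.toFinset_range, List.sum_toFinset _ List.nodup_range, List.toFinset_card_of_nodup hX]
  refine congrArg List.sum (List.map_congr_left fun k _ => ?_)
  rw [wnum_eq _ X hX _ _ _ hs]

end Pool.Agent.Lib.MP_e05f17_lc
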