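import Pool.Agent.Lib.MP_e05f17_lc.LeafC
import Pool.Agent.Lib.MP_e05f17_lc.LeafB

/-!
The value of a leaf in polynomial time.

TOOLS: `PT f` says that f is computable in polynomial time (types with `Enc`). Files PolyTime/Core, Ctrl,
Derived, More, Lists, BinNat (all imported) contain: PT.id, PT.const, PT.fst, PT.snd, PT.pair, .fst',
.snd', PT.comp, PT.congr (pointwise equality), PT.ite (hypothesis PT (fun a => decide (c a))), PT.cond,
PT.and, PT.or, PT.not, PT.eq, PT.le, PT.lt, PT.add, PT.sub, PT.mul, PT.mulConst, PT.addConst, PT.succ,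
PT.pred, PT.cons, PT.append, PT.reverse, PT.length, PT.tail, PT.isNil, PT.head?, PT.drop, PT.range,
PT.map, PT.filter, PT.flatMap, PT.any, PT.all, PT.zipIdx, PT.getElem?, PT.listCases, PT.natCases,
PT.optCases, PT.list1, PT.mapConst, PT.flatMapConst, PT.foldl (size bound for all prefixes),
PT.foldl_add (each step adds a bounded size), PT.iterate, PT.size_le, PB.* for polynomial bounds;
BinNat: BN (binary numbers), BZ (integers): PT.toBN, PT.bnAdd, bnMul, bnDiv, bnMod, bnSum, bnFoldl,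
bzAdd, bzMul, bzNeg, bzOfBN, bzFoldl, size_BN_le_of_lt, lt_two_pow_size, size_BZ_le_of_lt; also
mpt_getD, mpt_take of MP_33f9c4_lc/Mpt.lean. Typical proofs: Mpt.lean, section General. In PT.map etc.
the inner hypothesis is PT (fun x : α × β => g x.1 x.2): give g explicitly (g := fun a b => ...).

PROOF. leaf is the sum over List.range (nOf d) of (if lenB d (k+1) then cf .. * (wnum .. : ℤ) else 0):
pt_sumBZ (PTA) with PT.range (pt_nOf), inner: PT.cond/PT.ite on pt_lenB, PT.bzMul (pt_cf with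
PT.length of X) (PT.bzOfBN pt_wnum), PT.bzConst 0; congr (⟨if .. then a else b⟩ = if .. then ⟨a⟩ else ⟨b⟩
by split_ifs / cases).
-/

namespace Pool.Agent.Lib.MP_e05f17_lc

open Pool.Agent.Lib.PolyTime Pool.Agent.Lib.MP_33f9c4_lc

variable {α : Type} [Enc α]

theorem pt_leaf {d : α → List Bool} {H X : α → List ℕ} {M : α → List (ℕ × ℕ)}
    (hd : PT d) (hH : PT H) (hX : PT X) (hM : PT M) :
    PT (fun a => (⟨leaf (d a) (H a) (X a) (M a)⟩ : BZ)) := by
  have h1 : PT (fun x : α × ℕ => (⟨if lenB (d x.1) (x.2 + 1) then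
      cf (nOf (d x.1)) (X x.1).length (x.2 + 1) *
        (wnum (am (adjB (d x.1)) (H x.1) (M x.1)) (X x.1) (sOf (d x.1)) (tOf (d x.1)) x.2 : ℤ)
      else 0⟩ : BZ)) := by
    have hd' : PT (fun x : α × ℕ => d x.1) := hd.comp PT.fst
    have hH' : PT (fun x : α × ℕ => H x.1) := hH.comp PT.fst
    have hX' : PT (fun x : α × ℕ => X x.1) := hX.comp PT.fst
    have hM' : PT (fun x : α × ℕ => M x.1) := hM.comp PT.fst
    have hk : PT (fun x : α × ℕ => x.2 + 1) := PT.addConst PT.snd 1
    have hc := pt_cf (pt_nOf hd') (PT.length hX') hk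
    have hw := PT.bzOfBN (pt_wnum hd' hH' hX' hM' (pt_sOf hd') (pt_tOf hd') PT.snd)
    have hm := PT.bzMul hc hw
    refine (PT.cond (pt_lenB hd' hk) hm (PT.bzConst 0)).congr (fun x => ?_)
    cases lenB (d x.1) (x.2 + 1) <;> rfl
  exact pt_sumBZ (f := fun a => List.range (nOf (d a)))
    (g := fun a k => if lenB (d a) (k + 1) then cf (nOf (d a)) (X a).length (k + 1) *
      (wnum (am (adjB (d a)) (H a) (M a)) (X a) (sOf (d a)) (tOf (d a)) k : ℤ) else 0)
    (PT.range (pt_nOf hd)) h1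

end Pool.Agent.Lib.MP_e05f17_lc
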