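import Pool.Agent.Lib.MP_e05f17_lc.Core

/-!
The number of nodes of the search tree.

PROOF. q = (1/2)^(c+2). Facts on psi q N b = sum over j < b + 1 of C(N,j) (1-q)^(N-j):
 psi q 0 b = 1; psi q (N+1) 0 = (1-q) psi q N 0; psi q (N+1) (b+1) = (1-q) psi q N (b+1) + psi q N b
 (C(N+1,j) = C(N,j) + C(N,j-1); for j ≤ N (1-q)^(N+1-j) = (1-q) (1-q)^(N-j), for j > N C(N,j) = 0;
 Finset.sum_range_succ'), psi q N b ≥ (1-q)^N ≥ (3/4)^N (the term j = 0, the others are ≥ 0).
Let B L = (L.flatMap verts).length (≥ 2 L.length), g L R b = (N+3) 2^(B + R.length) psi q N b,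
N = L.length. Induction on k, generalizing L R b X M w.
k = 0: tcount = 1 ≤ 3 2^B (3/4)^N (B ≥ 2N). k + 1:
 L = [], R = []: no kids: 1 ≤ 3. L = [], r :: R: 1 + 2 * (bound for R) would be too weak, so prove
 the stronger bound tcount ≤ 2^(R.length + 1) - 1 for L = [] first (induction), ≤ 3 2^R.length.
 i :: L: tcount = 1 + sum over kids. kids0: for P ≠ [] 4 kids, for P = [] 3 kids, all of type
 (L, R, b): in total ≤ 4 * 2^|D| - 1 = 2^(|D|+2) - 1 kids, D = i.2 (subs c D has 2^|D| members as
 |D| ≤ c, one of them is []; prove (subs c D).length = 2^D.length and that the sum over P in subs of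
 the number of kids0 is 4 * 2^|D| - 1 by induction); b > 0: kids1: 4 * 2^|D| = 2^(|D|+2) kids of type
 (L, R, b-1). (verts i).length = |D| + 2 =: e ≤ c + 2, so 2^e - 1 ≤ 2^e (1-q). Hence with
 G = (N+3) 2^(B L + R.length):
  tcount ≤ 1 + 2^e (1-q) G psi q N b + 2^e G psi q N (b-1) = 1 + 2^e G psi q (N+1) b and
  1 ≤ 2^(e + B L + R.length) psi q (N+1) b (as e + B L ≥ 2(N+1) and psi ≥ (3/4)^(N+1)).
-/

namespace Pool.Agent.Lib.MP_e05f17_lc

open Pool.Agent.Lib.PolyTime

/-! ### the function psi -/

private theorem psi_succ_zero (q : ℝ) (N : ℕ) : psi q (N + 1) 0 = (1 - q) * psi q N 0 := by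
  simp [psi, pow_succ, mul_comm]

private theorem psi_succ_succ (q : ℝ) (N b : ℕ) :
    psi q (N + 1) (b + 1) = (1 - q) * psi q N (b + 1) + psi q N b := by
  unfold psi
  rw [Finset.sum_range_succ' _ (b + 1), Finset.sum_range_succ' _ (b + 1)]
  have e1 : ∀ j, (((N + 1).choose (j + 1) : ℕ) : ℝ) * (1 - q) ^ (N + 1 - (j + 1)) =
      (N.choose j : ℝ) * (1 - q) ^ (N - j) +
        (1 - q) * ((N.choose (j + 1) : ℝ) * (1 - q) ^ (N - (j + 1))) := by
    intro j
    rw [Nat.choose_succ_succ, Nat.add_sub_add_right]
    by_cases hj : j + 1 ≤ N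
    · have e2 : N - j = (N - (j + 1)) + 1 := by omega
      rw [e2, pow_succ]
      push_cast
      ring
    · rw [Nat.choose_eq_zero_of_lt (by omega : N < j + 1)]
      push_cast
      ring
  rw [Finset.sum_congr rfl fun j _ => e1 j, Finset.sum_add_distrib, ← Finset.mul_sum]
  have e3 : (((N + 1).choose 0 : ℕ) : ℝ) * (1 - q) ^ (N + 1 - 0) =
      (1 - q) * ((N.choose 0 : ℝ) * (1 - q) ^ (N - 0)) := by
    simp [pow_succ, mul_comm]
  rw [e3]
  ring

private theorem le_psi {q : ℝ} (hq : q ≤ 1) (N b : ℕ) : (1 - q) ^ N ≤ psi q N b := by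
  unfold psi
  have h1 := Finset.single_le_sum (s := Finset.range (b + 1))
    (f := fun j => (N.choose j : ℝ) * (1 - q) ^ (N - j))
    (fun j _ => mul_nonneg (Nat.cast_nonneg _) (pow_nonneg (by linarith) _))
    (Finset.mem_range.2 (Nat.succ_pos b))
  simpa using h1

private theorem q_facts (c : ℕ) : (0 : ℝ) < (1 / 2) ^ (c + 2) ∧ ((1 : ℝ) / 2) ^ (c + 2) ≤ 1 / 4 := by
  refine ⟨by positivity, ?_⟩
  have h1 : ((1 : ℝ) / 2) ^ (c + 2) ≤ (1 / 2) ^ 2 :=
    pow_le_pow_of_le_one (by norm_num) (by norm_num) (by omega)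
  calc ((1 : ℝ) / 2) ^ (c + 2) ≤ (1 / 2) ^ 2 := h1
    _ = 1 / 4 := by norm_num

private theorem low (c N b B R : ℕ) (hB : 2 * N ≤ B) :
    (1 : ℝ) ≤ 2 ^ (B + R) * psi ((1 / 2) ^ (c + 2)) N b := by
  obtain ⟨q0, q1⟩ := q_facts c
  have h1 := le_psi (q := (1 / 2) ^ (c + 2)) (by linarith) N b
  have h2 : ((3 : ℝ) / 4) ^ N ≤ (1 - (1 / 2) ^ (c + 2)) ^ N :=
    pow_le_pow_left₀ (by norm_num) (by linarith) N
  have h3 : (4 : ℝ) ^ N ≤ 2 ^ (B + R) := by
    have : (4 : ℝ) ^ N = 2 ^ (2 * N) := by
      rw [pow_mul]; norm_num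
    rw [this]
    exact pow_le_pow_right₀ (by norm_num) (by omega)
  have h4 : (1 : ℝ) ≤ 4 ^ N * (3 / 4) ^ N := by
    rw [← mul_pow]
    norm_num
    exact one_le_pow₀ (by norm_num)
  calc (1 : ℝ) ≤ 4 ^ N * (3 / 4) ^ N := h4
    _ ≤ 2 ^ (B + R) * psi ((1 / 2) ^ (c + 2)) N b :=
      mul_le_mul h3 (h2.trans h1) (by positivity) (by positivity)

/-! ### the number of kids -/

private theorem kids0_len (i : Blk) (L : List Blk) (R : List ℕ) (b : ℕ) (X : List ℕ)
    (M : List (ℕ × ℕ)) (w : ℤ) (P : List ℕ) :
    (kids0 i L R b X M w P).length = if P.isEmpty then 3 else 4 := by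
  unfold kids0
  split_ifs <;> simp

private theorem kids1_len (i : Blk) (L : List Blk) (R : List ℕ) (b : ℕ) (X : List ℕ)
    (M : List (ℕ × ℕ)) (w : ℤ) (P : List ℕ) : (kids1 i L R b X M w P).length = 4 := by
  simp [kids1]

private theorem subs_len : ∀ (d : ℕ) (D : List ℕ), D.length ≤ d →
    (subs d D).length = 2 ^ D.length
  | 0, [], _ => by simp [subs]
  | 0, x :: D, h => by simp at h
  | d + 1, [], _ => by simp [subs]
  | d + 1, x :: D, h => by
    have h1 := subs_len d D (by simpa using h)
    rw [subs, List.length_append, List.length_map, h1, List.length_cons, pow_succ]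
    ring

private theorem subs_sum : ∀ (d : ℕ) (D : List ℕ), D.length ≤ d →
    ((subs d D).map fun P => if P.isEmpty then 3 else 4).sum + 1 = 4 * 2 ^ D.length
  | 0, [], _ => by simp [subs]
  | 0, x :: D, h => by simp at h
  | d + 1, [], _ => by simp [subs]
  | d + 1, x :: D, h => by
    have h1 := subs_sum d D (by simpa using h)
    have h2 := subs_len d D (by simpa using h)
    have h3 : (((subs d D).map (x :: ·)).map fun P => if P.isEmpty then 3 else 4).sum =
        4 * (subs d D).length := by
      rw [List.map_map]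
      have : ((fun P : List ℕ => if P.isEmpty then 3 else 4) ∘ fun x_1 => x :: x_1) =
          fun _ => 4 := by
        funext P
        simp
      rw [this, List.map_const', List.sum_replicate, smul_eq_mul, mul_comm]
    rw [subs, List.map_append, List.sum_append, h3, h2, List.length_cons, pow_succ]
    omega

private theorem len0 (i : Blk) (L : List Blk) (R : List ℕ) (b : ℕ) (X : List ℕ)
    (M : List (ℕ × ℕ)) (w : ℤ) (c : ℕ) (hc : i.2.length ≤ c) :
    ((subs c i.2).flatMap (kids0 i L R b X M w)).length + 1 = 4 * 2 ^ i.2.length := by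
  rw [List.length_flatMap, ← subs_sum c i.2 hc]
  congr 3
  funext P
  exact kids0_len i L R b X M w P

private theorem len1 (i : Blk) (L : List Blk) (R : List ℕ) (b : ℕ) (X : List ℕ)
    (M : List (ℕ × ℕ)) (w : ℤ) (c : ℕ) (hc : i.2.length ≤ c) :
    ((subs c i.2).flatMap (kids1 i L R b X M w)).length = 4 * 2 ^ i.2.length := by
  rw [List.length_flatMap, ← subs_len c i.2 hc]
  have : (fun P => (kids1 i L R b X M w P).length) = fun _ => 4 := by
    funext P
    exact kids1_len i L R b X M w P
  rw [this, List.map_const', List.sum_replicate, smul_eq_mul, mul_comm]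

private theorem mem0 {i : Blk} {L : List Blk} {R : List ℕ} {b : ℕ} {X : List ℕ}
    {M : List (ℕ × ℕ)} {w : ℤ} {l : List (List ℕ)} {y : Node}
    (h : y ∈ l.flatMap (kids0 i L R b X M w)) : ∃ X' M' w', y = nd L R b X' M' w' := by
  rw [List.mem_flatMap] at h
  obtain ⟨P, _, h⟩ := h
  unfold kids0 at h
  split_ifs at h <;> simp only [List.mem_append, List.mem_cons, List.not_mem_nil, or_false] at h
  · rcases h with h | h | h <;> exact ⟨_, _, _, h⟩
  · rcases h with (h | h | h) | h <;> exact ⟨_, _, _, h⟩

private theorem mem1 {i : Blk} {L : List Blk} {R : List ℕ} {b : ℕ} {X : List ℕ}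
    {M : List (ℕ × ℕ)} {w : ℤ} {l : List (List ℕ)} {y : Node}
    (h : y ∈ l.flatMap (kids1 i L R b X M w)) : ∃ X' M' w', y = nd L R b X' M' w' := by
  rw [List.mem_flatMap] at h
  obtain ⟨P, _, h⟩ := h
  unfold kids1 at h
  simp only [List.mem_cons, List.not_mem_nil, or_false] at h
  rcases h with h | h | h | h <;> exact ⟨_, _, _, h⟩

private theorem sum_le {σ : Type} (f : σ → ℕ) (C : ℝ) (l : List σ) (h : ∀ y ∈ l, (f y : ℝ) ≤ C) :
    ((l.map f).sum : ℝ) ≤ l.length * C := by
  induction l with
  | nil => simp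
  | cons a l ih =>
    have h1 := h a List.mem_cons_self
    have h2 := ih fun y hy => h y (List.mem_cons_of_mem _ hy)
    rw [List.map_cons, List.sum_cons, List.length_cons]
    push_cast
    push_cast at h2
    linarith

/-! ### the tree below the blocks -/

private theorem tcount_nil (c : ℕ) : ∀ (k : ℕ) (R : List ℕ) (b : ℕ) (X : List ℕ)
    (M : List (ℕ × ℕ)) (w : ℤ), tcount (kids c) k (nd [] R b X M w) + 1 ≤ 2 ^ (R.length + 1)
  | 0, R, b, X, M, w => by
    rw [tcount, pow_succ]
    have : 1 ≤ 2 ^ R.length := Nat.one_le_two_pow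
    omega
  | k + 1, [], b, X, M, w => by
    rw [tcount]
    simp [kids, nd]
  | k + 1, r :: R, b, X, M, w => by
    have h1 := tcount_nil c k R b X M w
    have h2 := tcount_nil c k R b (r :: X) M w
    have e1 : kids c (nd [] (r :: R) b X M w) = [nd [] R b X M w, nd [] R b (r :: X) M w] := by
      simp [kids, nd]
    rw [tcount, e1]
    simp only [List.map_cons, List.map_nil, List.sum_cons, List.sum_nil, List.length_cons]
    rw [pow_succ]
    omega

private theorem two_le_len (L : List Blk) : 2 * L.length ≤ (L.flatMap verts).length := by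
  induction L with
  | nil => simp
  | cons i L ih =>
    rw [List.flatMap_cons, List.length_append, List.length_cons]
    have : (verts i).length = i.2.length + 2 := by simp [verts]
    omega

theorem tcount_le (c : ℕ) (L : List Blk) (R : List ℕ) (b : ℕ) (X : List ℕ) (M : List (ℕ × ℕ))
    (w : ℤ) (k : ℕ) (hc : ∀ i ∈ L, i.2.length ≤ c) :
    (tcount (kids c) k (nd L R b X M w) : ℝ) ≤
      (L.length + 3) * 2 ^ ((L.flatMap verts).length + R.length) *
        psi ((1 / 2) ^ (c + 2)) L.length b := by
  obtain ⟨q0, q1⟩ := q_facts c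
  induction k generalizing L R b X M w with
  | zero =>
    have h1 := low c L.length b (L.flatMap verts).length R.length (two_le_len L)
    rw [tcount, Nat.cast_one, mul_assoc]
    have h2 : (1 : ℝ) ≤ (L.length : ℝ) + 3 := by
      have : (0 : ℝ) ≤ (L.length : ℝ) := Nat.cast_nonneg _
      linarith
    calc (1 : ℝ) = 1 * 1 := by ring
      _ ≤ _ := mul_le_mul h2 h1 (by norm_num) (by positivity)
  | succ k ih =>
    cases L with
    | nil =>
      have h1 := tcount_nil c (k + 1) R b X M w
      have h2 : (tcount (kids c) (k + 1) (nd [] R b X M w) : ℝ) ≤ 2 * 2 ^ R.length := by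
        have h3 : tcount (kids c) (k + 1) (nd [] R b X M w) ≤ 2 * 2 ^ R.length := by
          rw [pow_succ] at h1
          omega
        exact_mod_cast h3
      have h4 : (1 : ℝ) ≤ psi ((1 / 2) ^ (c + 2)) 0 b := by
        have := le_psi (q := (1 / 2) ^ (c + 2)) (by linarith) 0 b
        simpa using this
      simp only [List.length_nil, Nat.cast_zero, zero_add, List.flatMap_nil]
      have h5 : (0 : ℝ) < 2 ^ R.length := by positivity
      calc (tcount (kids c) (k + 1) (nd [] R b X M w) : ℝ) ≤ 2 * 2 ^ R.length := h2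
        _ ≤ 3 * 2 ^ R.length * 1 := by linarith
        _ ≤ 3 * 2 ^ R.length * psi ((1 / 2) ^ (c + 2)) 0 b :=
          mul_le_mul_of_nonneg_left h4 (by positivity)
    | cons i L =>
      have hi := hc i List.mem_cons_self
      have hL : ∀ i ∈ L, i.2.length ≤ c := fun j hj => hc j (List.mem_cons_of_mem _ hj)
      have hv : (verts i).length = i.2.length + 2 := by simp [verts]
      have hpow : (2 : ℝ) ^ (verts i).length = 4 * 2 ^ i.2.length := by
        rw [hv, pow_add]; ring
      have hq : (2 : ℝ) ^ (verts i).length * (1 / 2) ^ (c + 2) ≤ 1 := by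
        have h1 : (2 : ℝ) ^ (verts i).length ≤ 2 ^ (c + 2) :=
          pow_le_pow_right₀ (by norm_num) (by omega)
        calc (2 : ℝ) ^ (verts i).length * (1 / 2) ^ (c + 2) ≤ 2 ^ (c + 2) * (1 / 2) ^ (c + 2) :=
              mul_le_mul_of_nonneg_right h1 q0.le
          _ = 1 := by rw [← mul_pow]; norm_num
      have hlow := low c (L.length + 1) b ((verts i).length + (L.flatMap verts).length) R.length
        (by have := two_le_len L; omega)
      have hS0 := sum_le (tcount (kids c) k)
        ((L.length + 3) * 2 ^ ((L.flatMap verts).length + R.length) *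
          psi ((1 / 2) ^ (c + 2)) L.length b)
        ((subs c i.2).flatMap (kids0 i L R b X M w)) (by
          intro y hy
          obtain ⟨X', M', w', rfl⟩ := mem0 hy
          exact ih L R b X' M' w' hL)
      have hlen0 : ((((subs c i.2).flatMap (kids0 i L R b X M w)).length : ℕ) : ℝ) =
          2 ^ (verts i).length - 1 := by
        have := len0 i L R b X M w c hi
        rw [hpow, eq_sub_iff_add_eq]
        exact_mod_cast this
      rw [hlen0] at hS0
      rw [List.length_cons, List.flatMap_cons, List.length_append]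
      have hGpos : (0 : ℝ) ≤ (L.length + 3) * 2 ^ ((L.flatMap verts).length + R.length) := by
        positivity
      have hψ : (0 : ℝ) ≤ psi ((1 / 2) ^ (c + 2)) L.length b :=
        (pow_nonneg (by linarith) _).trans (le_psi (by linarith) _ _)
      have hpos2 : (0 : ℝ) < 2 ^ (verts i).length := by positivity
      obtain ⟨G, hG⟩ : ∃ G : ℝ, G = (L.length + 3) * 2 ^ ((L.flatMap verts).length + R.length) :=
        ⟨_, rfl⟩
      obtain ⟨E, hE⟩ : ∃ E : ℝ, E = 2 ^ (verts i).length := ⟨_, rfl⟩
      obtain ⟨q, hqq⟩ : ∃ q : ℝ, q = (1 / 2) ^ (c + 2) := ⟨_, rfl⟩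
      rw [← hG] at hS0 hGpos
      rw [← hE] at hS0 hq hpos2
      rw [← hqq] at hS0 hq hlow hψ q0 q1
      have hrhs : ((L.length + 1 : ℕ) + 3 : ℝ) *
          2 ^ ((verts i).length + (L.flatMap verts).length + R.length) *
            psi q (L.length + 1) b =
          2 ^ ((verts i).length + (L.flatMap verts).length + R.length) * psi q (L.length + 1) b +
            E * G * psi q (L.length + 1) b := by
        rw [hG, hE, add_assoc (verts i).length, pow_add 2 (verts i).length]
        push_cast
        ring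
      rw [← hqq, hrhs]
      have hS0' : ((List.map (tcount (kids c) k)
          ((subs c i.2).flatMap (kids0 i L R b X M w))).sum : ℝ) ≤
          E * G * ((1 - q) * psi q L.length b) := by
        refine hS0.trans ?_
        have h1 : E - 1 ≤ E * (1 - q) := by nlinarith
        calc (E - 1) * (G * psi q L.length b) ≤ (E * (1 - q)) * (G * psi q L.length b) :=
              mul_le_mul_of_nonneg_right h1 (mul_nonneg hGpos hψ)
          _ = _ := by ring
      cases b with
      | zero =>
        have e1 : kids c (nd (i :: L) R 0 X M w) =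
            (subs c i.2).flatMap (kids0 i L R 0 X M w) := by
          simp [kids, nd]
        rw [tcount, e1, psi_succ_zero] at *
        push_cast
        push_cast at hS0' hlow
        linarith
      | succ b =>
        have e1 : kids c (nd (i :: L) R (b + 1) X M w) =
            (subs c i.2).flatMap (kids0 i L R (b + 1) X M w) ++
              (subs c i.2).flatMap (kids1 i L R b X M w) := by
          simp [kids, nd]
        have hS1 := sum_le (tcount (kids c) k) (G * psi q L.length b)
          ((subs c i.2).flatMap (kids1 i L R b X M w)) (by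
            intro y hy
            obtain ⟨X', M', w', rfl⟩ := mem1 hy
            rw [hG, hqq]
            exact ih L R b X' M' w' hL)
        have hlen1 : ((((subs c i.2).flatMap (kids1 i L R b X M w)).length : ℕ) : ℝ) = E := by
          have := len1 i L R b X M w c hi
          rw [hE, hpow]
          exact_mod_cast this
        rw [hlen1] at hS1
        rw [tcount, e1, List.map_append, List.sum_append]
        rw [psi_succ_succ] at *
        push_cast
        push_cast at hS0' hS1 hlow
        linarith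

end Pool.Agent.Lib.MP_e05f17_lc
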