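import Pool.Agent.Lib.MP_e05f17_lc.PathA

/-!
The number of paths.

PROOF. A path has length < n (SimpleGraph.Walk.IsPath.length_lt, Fintype.card_fin). So the type
{p // IsPath ∧ length + 1 ∈ S} is the disjoint union over k < n with k + 1 ∈ S of
{p // IsPath ∧ length = k}; all are finite (G.Path s t is a Fintype / Finite: the map
p ↦ (p.support) into lists without duplicates; or: Finite {p : G.Walk s t // p.length < n}; instance
SimpleGraph.fintypeSetWalkLength...; a convenient way: Nat.card of the subtype as the card of the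
finset, via Set.ncard: the set {p | IsPath ∧ length + 1 ∈ S} is the union over k in
(range n).filter (k + 1 ∈ S) of {p | IsPath ∧ length = k}, each finite because it is contained in
{p | p.length = k}, which is finite (SimpleGraph.Walk.fintypeSetWalkLength / set_walk_length toFinset,
needs Classical decidability), Set.ncard of a finite disjoint union =
sum (Finset induction with Set.ncard_union_eq, or Nat.card_sigma with an explicit Equiv to a Sigma
type: {p // ..} ≃ Σ k : {k // k < n ∧ k + 1 ∈ S}, {p // IsPath ∧ length = k}). Then pathCount_len, and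
for k < n: Sb (k+1) = true ↔ k + 1 ∈ S by hS (1 ≤ k + 1 ≤ n): Finset.sum_filter.
-/

namespace Pool.Agent.Lib.MP_e05f17_lc

theorem pathCount_eq {n : ℕ} (G : SimpleGraph (Fin n)) (s t : Fin n) (S : Set ℕ)
    (A : ℕ → ℕ → Bool) (hA : ∀ i j : Fin n, A i j = true ↔ G.Adj i j) (Sb : ℕ → Bool)
    (hS : ∀ k, 1 ≤ k → k ≤ n → (Sb k = true ↔ k ∈ S)) :
    ((pathCount G s t S : ℕ) : ℤ) =
      ∑ k ∈ Finset.range n, if Sb (k + 1) then (PC A (Finset.range n) s t k : ℤ) else 0 := by
  classical
  have hlt : ∀ p : G.Walk s t, p.IsPath → p.length < n := by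
    intro p hp
    have h1 := hp.length_lt
    rwa [Fintype.card_fin] at h1
  set F : Finset (G.Walk s t) :=
    (G.finsetWalkLengthLT n s t).filter fun p => p.IsPath ∧ p.length + 1 ∈ S with hF
  have hmem : ∀ p : G.Walk s t, p ∈ F ↔ p.IsPath ∧ p.length + 1 ∈ S := by
    intro p
    rw [hF, Finset.mem_filter, SimpleGraph.mem_finsetWalkLengthLT_iff]
    exact ⟨fun h => h.2, fun h => ⟨hlt p h.1, h⟩⟩
  have h1 : pathCount G s t S = F.card := by
    unfold pathCount
    exact Nat.subtype_card F hmem
  have h2 : F.card = ∑ k ∈ Finset.range n, (F.filter fun p => p.length = k).card := by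
    apply Finset.card_eq_sum_card_fiberwise
    intro p hp
    have h3 := (hmem p).1 hp
    exact Finset.mem_coe.2 (Finset.mem_range.2 (hlt p h3.1))
  rw [h1, h2, Nat.cast_sum]
  apply Finset.sum_congr rfl
  intro k hk
  have hk' : k < n := Finset.mem_range.1 hk
  have hSk := hS (k + 1) (by omega) (by omega)
  by_cases h : Sb (k + 1) = true
  · rw [if_pos h]
    have h3 : k + 1 ∈ S := hSk.1 h
    have h4 := pathCount_len G s t A hA k
    rw [← h4]
    have h5 : Nat.card {p : G.Walk s t // p.IsPath ∧ p.length = k} =
        (F.filter fun p => p.length = k).card := by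
      apply Nat.subtype_card
      intro p
      rw [Finset.mem_filter, hmem]
      constructor
      · rintro ⟨⟨a, _⟩, c⟩
        exact ⟨a, c⟩
      · rintro ⟨a, c⟩
        exact ⟨⟨a, by rw [c]; exact h3⟩, c⟩
    rw [h5]
  · rw [if_neg h]
    have h3 : k + 1 ∉ S := fun h' => h (hSk.2 h')
    have h4 : (F.filter fun p => p.length = k) = ∅ := by
      apply Finset.filter_eq_empty_iff.2
      intro p hp hpk
      have h5 := ((hmem p).1 hp).2
      rw [hpk] at h5
      exact h3 h5
    rw [h4, Finset.card_empty, Nat.cast_zero]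

end Pool.Agent.Lib.MP_e05f17_lc
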