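import Pool.Agent.Lib.MP_e05f17_lc.Core

/-!
The bound for `psi`.

PROOF. q = (1/2)^(c+2) ∈ (0, 1/4], y = q/4 ∈ (0,1]. For j ≤ b: y^b ≤ y^j, so
y^b psi q N b ≤ sum over j < b+1 of C(N,j) y^j (1-q)^(N-j) ≤ sum over j < N+1 of the same (terms ≥ 0;
for j > N the binomial is 0) = (y + (1-q))^N = (1 - 3q/4)^N (add_pow). It suffices
(1 - 3q/4)^N ≤ y^b (1 - q/2)^N, and 1 - 3q/4 ≤ (1 - q/2) / (1 + q/4), i.e. (1-3q/4)(1+q/4) ≤ 1 - q/2;
so it suffices (1/y)^b ≤ (1 + q/4)^N, i.e. (4/q)^b ≤ (1+q/4)^N. With M0 = 4^(c+4) = 16/q^2: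
(1+q/4)^N ≥ (1+q/4)^(M0 b) = ((1+q/4)^M0)^b and by Bernoulli (one_add_mul_le_pow)
(1+q/4)^M0 ≥ 1 + M0 q/4 = 1 + 4/q ≥ 4/q. Note (1/2)^(c+3) = q/2.
-/

namespace Pool.Agent.Lib.MP_e05f17_lc

theorem psi_le (c N b : ℕ) (h : 4 ^ (c + 4) * b ≤ N) :
    psi ((1 / 2) ^ (c + 2)) N b ≤ (1 - (1 / 2) ^ (c + 3)) ^ N := by
  have hc3 : ((1 : ℝ) / 2) ^ (c + 3) = (1 / 2) ^ (c + 2) / 2 := by
    rw [pow_succ ((1 : ℝ) / 2) (c + 2)]
    ring
  have hM : (4 : ℝ) ^ (c + 4) * ((1 / 2) ^ (c + 2)) ^ 2 = 16 := by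
    rw [← pow_mul, mul_comm (c + 2) 2, pow_mul]
    have e1 : (4 : ℝ) ^ (c + 4) = 4 ^ (c + 2) * 16 := by
      rw [show c + 4 = (c + 2) + 2 from rfl, pow_add]
      norm_num
    rw [e1, mul_right_comm, ← mul_pow]
    norm_num
  rw [hc3]
  have hq0 : (0 : ℝ) < (1 / 2) ^ (c + 2) := by positivity
  have hq1 : ((1 : ℝ) / 2) ^ (c + 2) ≤ 1 / 4 := by
    rw [pow_add]
    have h1 : ((1 : ℝ) / 2) ^ c ≤ 1 := pow_le_one₀ (by norm_num) (by norm_num)
    linarith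
  generalize ((1 : ℝ) / 2) ^ (c + 2) = q at hM hq0 hq1
  have hbN : b ≤ N := by
    have h1 : 1 ≤ 4 ^ (c + 4) := Nat.one_le_pow _ _ (by norm_num)
    nlinarith
  have hy0 : 0 < q / 4 := by linarith
  have s1 : (q / 4) ^ b * psi q N b ≤ (1 - 3 * q / 4) ^ N := by
    have e1 : (1 - 3 * q / 4 : ℝ) = q / 4 + (1 - q) := by ring
    rw [e1, add_pow, psi, Finset.mul_sum]
    calc ∑ j ∈ Finset.range (b + 1), (q / 4) ^ b * ((N.choose j : ℝ) * (1 - q) ^ (N - j))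
        ≤ ∑ j ∈ Finset.range (b + 1), (q / 4) ^ j * (1 - q) ^ (N - j) * (N.choose j : ℝ) := by
          apply Finset.sum_le_sum
          intro j hj
          have hj' : j ≤ b := Nat.lt_succ_iff.1 (Finset.mem_range.1 hj)
          have h1 : (q / 4) ^ b ≤ (q / 4) ^ j :=
            pow_le_pow_of_le_one hy0.le (by linarith) hj'
          have h2 : 0 ≤ (1 - q) ^ (N - j) * (N.choose j : ℝ) :=
            mul_nonneg (pow_nonneg (by linarith) _) (Nat.cast_nonneg _)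
          have h3 := mul_le_mul_of_nonneg_right h1 h2
          calc (q / 4) ^ b * ((N.choose j : ℝ) * (1 - q) ^ (N - j))
              = (q / 4) ^ b * ((1 - q) ^ (N - j) * (N.choose j : ℝ)) := by ring
            _ ≤ (q / 4) ^ j * ((1 - q) ^ (N - j) * (N.choose j : ℝ)) := h3
            _ = (q / 4) ^ j * (1 - q) ^ (N - j) * (N.choose j : ℝ) := by ring
      _ ≤ ∑ j ∈ Finset.range (N + 1), (q / 4) ^ j * (1 - q) ^ (N - j) * (N.choose j : ℝ) := by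
          apply Finset.sum_le_sum_of_subset_of_nonneg
          · exact Finset.range_mono (by omega)
          · intro j _ _
            exact mul_nonneg (mul_nonneg (pow_nonneg hy0.le _) (pow_nonneg (by linarith) _))
              (Nat.cast_nonneg _)
  have s2 : 1 ≤ (q / 4) ^ b * (1 + q / 4) ^ N := by
    have h1 : 1 + ((4 ^ (c + 4) : ℕ) : ℝ) * (q / 4) ≤ (1 + q / 4) ^ (4 ^ (c + 4)) :=
      one_add_mul_le_pow (by linarith) _
    have h2 : 1 ≤ (q / 4) * (1 + q / 4) ^ (4 ^ (c + 4)) := by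
      have h3 := mul_le_mul_of_nonneg_left h1 hy0.le
      refine le_trans ?_ h3
      push_cast
      nlinarith
    calc (1 : ℝ) = 1 ^ b := (one_pow b).symm
      _ ≤ ((q / 4) * (1 + q / 4) ^ (4 ^ (c + 4))) ^ b := pow_le_pow_left₀ (by norm_num) h2 b
      _ = (q / 4) ^ b * (1 + q / 4) ^ (4 ^ (c + 4) * b) := by rw [mul_pow, ← pow_mul]
      _ ≤ (q / 4) ^ b * (1 + q / 4) ^ N := by
          apply mul_le_mul_of_nonneg_left _ (pow_nonneg hy0.le _)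
          exact pow_le_pow_right₀ (by linarith) h
  have s3 : (1 - 3 * q / 4) ^ N * (1 + q / 4) ^ N ≤ (1 - q / 2) ^ N := by
    rw [← mul_pow]
    apply pow_le_pow_left₀
    · apply mul_nonneg <;> linarith
    · nlinarith
  have s4 : (1 - 3 * q / 4) ^ N ≤ (q / 4) ^ b * (1 - q / 2) ^ N := by
    have h0 : 0 ≤ (1 - 3 * q / 4) ^ N := pow_nonneg (by linarith) _
    calc (1 - 3 * q / 4) ^ N = (1 - 3 * q / 4) ^ N * 1 := (mul_one _).symm
      _ ≤ (1 - 3 * q / 4) ^ N * ((q / 4) ^ b * (1 + q / 4) ^ N) :=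
          mul_le_mul_of_nonneg_left s2 h0
      _ = (q / 4) ^ b * ((1 - 3 * q / 4) ^ N * (1 + q / 4) ^ N) := by ring
      _ ≤ (q / 4) ^ b * (1 - q / 2) ^ N :=
          mul_le_mul_of_nonneg_left s3 (pow_nonneg hy0.le _)
  exact le_of_mul_le_mul_left (le_trans s1 s4) (pow_pos hy0 b)

end Pool.Agent.Lib.MP_e05f17_lc
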