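import Pool.Agent.Lib.MP_e05f17_lc.SwapA

/-!
Equal terms of the inclusion-exclusion formula.

PROOF. Let u = b.1, v = b.2, a = am A H M, V = insert v X, U = insert u X. u, v ∉ X, the two sets have
the same cardinality, so it suffices (unfold fX) that W a V t k s = W a U t k s for all k. Show by
induction on k (both statements together):
 (i) for x ∈ insert s X: W a V t k x = W a U t k x;  (ii) W a V t k v = W a U t k u.
k = 0: x = t decides the same; v ≠ t and u ≠ t by ht. k + 1: Finset.sum_insert on both sides; the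
facts needed, for x, y ∈ insert s X (all of them ∉ verts (b, D), in particular ≠ u, v):
 a x v = a x u: if x ∈ H: A x (pm M v) = A x v = A x (pm M u) by hp1, hp2. If x ∉ H: v, u ∉ H, so it is
 A x v = A x u: hA.symm and htw x.
 a v y = a u y: if y ∈ H: (v, u ∉ H) A (pm M v) y = A v y = A (pm M u) y; if y ∉ H: A v y = A u y: htw.
 a v v = A v v = false = a u u (u, v ∉ H; hA.irrefl).
Then (i), (ii) for k + 1 follow from (i), (ii) for k (s itself need not be in X, that is why (i) is
for insert s X).
-/

namespace Pool.Agent.Lib.MP_e05f17_lc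

theorem fX_swap {A : ℕ → ℕ → Bool} {n s t : ℕ} {H : List ℕ} (hA : Adj A n) (S : ℕ → Bool)
    (b : ℕ × ℕ) (D : List ℕ) (M : List (ℕ × ℕ)) (X : Finset ℕ) (h1 : b.1 ≠ b.2)
    (hs : s ∉ verts (b, D)) (ht : t ∉ verts (b, D)) (hH : b.1 ∉ H ∧ b.2 ∉ H)
    (hX : ∀ x ∈ X, x ∉ verts (b, D))
    (htw : ∀ x, x ∉ verts (b, D) → x ∉ H → A b.1 x = A b.2 x)
    (hp1 : pm M b.1 = b.2) (hp2 : pm M b.2 = b.2) :
    fX (am A H M) n s t S (insert b.2 X) = fX (am A H M) n s t S (insert b.1 X) := by
  obtain ⟨u, v⟩ := b
  dsimp only at *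
  obtain ⟨huH, hvH⟩ := hH
  have hne : ∀ x, x ∉ verts ((u, v), D) → x ≠ u ∧ x ≠ v := by
    intro x hx
    unfold verts at hx
    simp only [List.mem_cons, not_or] at hx
    exact ⟨hx.1, hx.2.1⟩
  have huX : u ∉ X := fun h => (hne u (hX u h)).1 rfl
  have hvX : v ∉ X := fun h => (hne v (hX v h)).2 rfl
  have hxs : ∀ x ∈ insert s X, x ∉ verts ((u, v), D) := by
    intro x hx
    rcases Finset.mem_insert.1 hx with rfl | hx
    · exact hs
    · exact hX x hx
  -- the facts about the modified adjacency
  have f1 : ∀ x, x ∉ verts ((u, v), D) → am A H M x v = am A H M x u := by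
    intro x hx
    unfold am
    by_cases hxH : x ∈ H
    · rw [if_pos hxH, if_pos hxH, hp1, hp2]
    · rw [if_neg hxH, if_neg hxH, if_neg hvH, if_neg huH, hA.symm x v, hA.symm x u, htw x hx hxH]
  have f2 : ∀ y, y ∉ verts ((u, v), D) → am A H M v y = am A H M u y := by
    intro y hy
    unfold am
    rw [if_neg hvH, if_neg huH]
    by_cases hyH : y ∈ H
    · rw [if_pos hyH, if_pos hyH, hp1, hp2]
    · rw [if_neg hyH, if_neg hyH, htw y hy hyH]
  have f3 : am A H M v v = false := by
    unfold am
    rw [if_neg hvH, if_neg hvH, hA.irrefl]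
  have f4 : am A H M u u = false := by
    unfold am
    rw [if_neg huH, if_neg huH, hA.irrefl]
  have key : ∀ k, (∀ x ∈ insert s X,
      W (am A H M) (insert v X) t k x = W (am A H M) (insert u X) t k x) ∧
      W (am A H M) (insert v X) t k v = W (am A H M) (insert u X) t k u := by
    intro k
    induction k with
    | zero =>
      refine ⟨fun x _ => rfl, ?_⟩
      unfold W
      rw [if_neg (hne t ht).2.symm, if_neg (hne t ht).1.symm]
    | succ k ih =>
      obtain ⟨ih1, ih2⟩ := ih
      constructor
      · intro x hx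
        have hx' := hxs x hx
        unfold W
        rw [Finset.sum_insert hvX, Finset.sum_insert huX, f1 x hx', ih2]
        congr 1
        refine Finset.sum_congr rfl fun y hy => ?_
        rw [ih1 y (Finset.mem_insert_of_mem hy)]
      · unfold W
        rw [Finset.sum_insert hvX, Finset.sum_insert huX, f3, f4]
        congr 1
        refine Finset.sum_congr rfl fun y hy => ?_
        rw [ih1 y (Finset.mem_insert_of_mem hy), f2 y (hX y hy)]
  unfold fX
  refine Finset.sum_congr rfl fun k _ => ?_
  rw [Finset.card_insert_of_notMem hvX, Finset.card_insert_of_notMem huX,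
    (key k).1 s (Finset.mem_insert_self _ _)]

end Pool.Agent.Lib.MP_e05f17_lc
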