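import Pool.Agent.Lib.MP_e05f17_lc.Tree
import Pool.Agent.Lib.MP_e05f17_lc.Swap
import Pool.Agent.Lib.MP_e05f17_lc.IncExc
import Pool.Agent.Lib.MP_e05f17_lc.Budget

/-!
The sum over the whole search tree is the number of paths.

PROOF. Apply tsum_node with φ Y M = fX (am A H M) n s t S Y, P0 = L.map Prod.fst, X = [s, t], M = [],
w = 1. hnd: L.flatMap verts is Nodup (hG.nodup), R is Nodup and disjoint from it (hR'), [s, t] is Nodup
(hst) and disjoint from both (hG.out, hR'). hswap: fX_swap with b = i.1, D = i.2 (verts (i.1, i.2) =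
verts i): h1 from hG.nodup, hs, ht, hH from hG.out, htw from hG.twin, hp1: pm_mem with P = P0
(P0.map Prod.fst Nodup: the first elements are distinct members of the Nodup list L.flatMap verts),
hp2: pm_not_mem: a member e of M' is in P0, e.1 is a first element, and e.1 ≠ i.1.2 as the blocks are
disjoint and u ≠ v in a block (both follow from hG.nodup; List.nodup_flatMap, List.pairwise...; it is
convenient to prove once: for i, j ∈ L, x ∈ verts i, x ∈ verts j → i = j). hskip: fX_skip (s ≠ i.1.1 by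
hG.out). Then (L.flatMap verts ++ R).toFinset = Finset.range n minus {s, t} (hR', hG.out), so
incexc (for the adjacency am A H M', any M') turns the inner sum into
 sum over k < n of (if S (k+1) then PC (am A H M') (range n) s t k else 0): TT_congr; TT_sum, TT_mul (or
 if-splitting), TT_PC with hL from hG.nodup.
-/

namespace Pool.Agent.Lib.MP_e05f17_lc

private theorem root_uniq {L : List Blk} (h : (L.flatMap verts).Nodup) {i j : Blk} (hi : i ∈ L)
    (hj : j ∈ L) {x : ℕ} (hx : x ∈ verts i) (hx' : x ∈ verts j) : i = j := by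
  by_contra hne
  have h2 := (List.nodup_flatMap.1 h).2
  have : Std.Symm (Function.onFun List.Disjoint verts) := ⟨fun a b hab => List.Disjoint.symm hab⟩
  have h3 := h2.forall hi hj hne
  exact h3 hx hx'

private theorem root_firsts {L : List Blk} (h : (L.flatMap verts).Nodup) :
    (L.map fun i => i.1.1).Nodup := by
  have h2 := (List.nodup_flatMap.1 h).2
  rw [List.Nodup, List.pairwise_map]
  refine h2.imp ?_
  intro a b hab heq
  exact hab (show a.1.1 ∈ verts a by simp [verts]) (show a.1.1 ∈ verts b by simp [verts, heq])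

theorem tsum_root (c : ℕ) {A : ℕ → ℕ → Bool} {n s t : ℕ} {H : List ℕ} {L : List Blk}
    (S : ℕ → Bool) (hA : Adj A n) (hG : Good A n s t H L) (hs : s < n) (ht : t < n) (hst : s ≠ t)
    (hc : ∀ i ∈ L, i.2.length ≤ c) (R : List ℕ) (hR : R.Nodup)
    (hR' : ∀ x, x ∈ R ↔ x < n ∧ x ≠ s ∧ x ≠ t ∧ x ∉ L.flatMap verts)
    (v : List ℕ → List (ℕ × ℕ) → ℤ)
    (hv : ∀ X M, X.Nodup → s ∈ X → v X M = fX (am A H M) n s t S X.toFinset) (k : ℕ)
    (hk : L.length + R.length ≤ k) :
    tsum (kids c) (nval v) k (nd L R (2 * H.length) [s, t] [] 1) =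
      ∑ k ∈ Finset.range n, if S (k + 1) then (PC A (Finset.range n) s t k : ℤ) else 0 := by
  have hfst : ∀ i : Blk, i.1.1 ∈ verts i := fun i => by simp [verts]
  have hsnd : ∀ i : Blk, i.1.2 ∈ verts i := fun i => by simp [verts]
  have hnv : ∀ i ∈ L, (verts i).Nodup := (List.nodup_flatMap.1 hG.nodup).1
  have hne : ∀ i ∈ L, i.1.1 ≠ i.1.2 := by
    intro i hi h
    have h1 := hnv i hi
    unfold verts at h1
    rw [List.nodup_cons] at h1
    exact h1.1 (by simp [h])
  have hflat : ∀ x, x ∈ L.flatMap verts → x < n ∧ x ≠ s ∧ x ≠ t := by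
    intro x hx
    obtain ⟨i, hi, hxi⟩ := List.mem_flatMap.1 hx
    have h1 := hG.out i hi x hxi
    exact ⟨h1.1, h1.2.1, h1.2.2.1⟩
  have hnd : (L.flatMap verts ++ R ++ [s, t]).Nodup := by
    rw [List.nodup_append, List.nodup_append]
    refine ⟨⟨hG.nodup, hR, ?_⟩, ?_, ?_⟩
    · intro a ha b hb hab
      exact ((hR' b).1 hb).2.2.2 (hab ▸ ha)
    · simp [hst]
    · intro a ha b hb hab
      have ha' : a ≠ s ∧ a ≠ t := by
        rcases List.mem_append.1 ha with h1 | h1
        · exact (hflat a h1).2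
        · exact ⟨((hR' a).1 h1).2.1, ((hR' a).1 h1).2.2.1⟩
      rw [List.mem_cons, List.mem_singleton] at hb
      rcases hb with h1 | h1
      · exact ha'.1 (hab.trans h1)
      · exact ha'.2 (hab.trans h1)
  have hPnd : ((L.map Prod.fst).map Prod.fst).Nodup := by
    rw [List.map_map]
    exact root_firsts hG.nodup
  have hswap : ∀ i ∈ L, ∀ (Y : Finset ℕ) (M' : List (ℕ × ℕ)),
      (∀ e ∈ M', e ∈ L.map Prod.fst) → i.1 ∈ M' → (∀ x ∈ Y, x ∉ verts i) →
      fX (am A H M') n s t S (insert i.1.2 Y) = fX (am A H M') n s t S (insert i.1.1 Y) := by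
    intro i hi Y M' hM' hiM hY
    have hout := hG.out i hi
    refine fX_swap hA S i.1 i.2 M' Y (hne i hi) (fun h => (hout s h).2.1 rfl)
      (fun h => (hout t h).2.2.1 rfl) ⟨(hout _ (hfst i)).2.2.2, (hout _ (hsnd i)).2.2.2⟩ hY
      (fun x hx hxH => hG.twin i hi x hx hxH) (pm_mem hPnd hM' hiM) (pm_not_mem ?_)
    intro e he h
    obtain ⟨j, hj, hje⟩ := List.mem_map.1 (hM' e he)
    have h1 : i.1.2 ∈ verts j := by
      rw [← h, ← hje]
      exact hfst j
    have h2 : i = j := root_uniq hG.nodup hi hj (hsnd i) h1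
    subst h2
    rw [← hje] at h
    exact hne i hi h
  have hskip : ∀ i ∈ L, ∀ (Y : Finset ℕ) (E M' : List (ℕ × ℕ)), i.1.1 ∉ Y →
      fX (am A H (E ++ i.1 :: M')) n s t S Y = fX (am A H (E ++ M')) n s t S Y := by
    intro i hi Y E M' hY
    exact fX_skip S i.1 E M' Y hY (fun h => (hG.out i hi _ (hfst i)).2.1 h.symm)
  have hmain := tsum_node c v (fun Y M => fX (am A H M) n s t S Y) (L.map Prod.fst) s L R
    (2 * H.length) [s, t] [] 1 k hk hnd (by simp) hc hv hswap hskip
    (fun i hi => List.mem_map.2 ⟨i, hi, rfl⟩) (by simp)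
  rw [hmain, one_mul]
  have hset : (L.flatMap verts ++ R).toFinset = Finset.range n \ {s, t} := by
    ext x
    rw [List.mem_toFinset, List.mem_append, Finset.mem_sdiff, Finset.mem_range, Finset.mem_insert,
      Finset.mem_singleton]
    constructor
    · rintro (h | h)
      · have h1 := hflat x h
        exact ⟨h1.1, fun h2 => h2.elim h1.2.1 h1.2.2⟩
      · have h1 := (hR' x).1 h
        exact ⟨h1.1, fun h2 => h2.elim h1.2.1 h1.2.2.1⟩
    · rintro ⟨h1, h2⟩
      by_cases hx : x ∈ L.flatMap verts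
      · exact Or.inl hx
      · exact Or.inr ((hR' x).2 ⟨h1, fun h => h2 (Or.inl h), fun h => h2 (Or.inr h), hx⟩)
  have hst' : ([s, t] : List ℕ).toFinset = {s, t} := by
    ext x
    simp
  have hfun : (fun M' => ∑ Y ∈ (L.flatMap verts ++ R).toFinset.powerset,
      fX (am A H M') n s t S (([s, t] : List ℕ).toFinset ∪ Y)) =
      fun M' => ∑ k ∈ Finset.range n,
        if S (k + 1) then (PC (am A H M') (Finset.range n) s t k : ℤ) else 0 := by
    funext M'
    rw [hset, hst']
    exact incexc (am A H M') n s t hs ht S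
  rw [hfun, TT_sum]
  refine Finset.sum_congr rfl fun k' _ => ?_
  by_cases hS : S (k' + 1) = true
  · simp only [hS, if_true]
    exact TT_PC A H (Finset.range n) s t k' L (root_firsts hG.nodup)
  · simp only [hS]
    have h0 := TT_mul 0 (fun _ => 0) L (2 * H.length) []
    simpa using h0

end Pool.Agent.Lib.MP_e05f17_lc
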