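import Pool.Agent.Lib.MP_e05f17_lc.SizA

/-!
The depth of the search tree.

PROOF. Induction on k generalizing all. k = 0: L = [] and R = [], kids = [] by definition (rfl). k + 1:
Depth (k+1) x is ∀ y ∈ kids c x, Depth k y; cases on L: i :: L: every member of kids is of the form
nd L R b' X' M' w' (List.mem_append, mem_flatMap, kids0, kids1: simp), L.length + R.length ≤ k; L = []:
cases on R: r :: R: the two kids nd [] R ..; []: no kids.
-/

namespace Pool.Agent.Lib.MP_e05f17_lc

private theorem Sizes_kid (c : ℕ) (i : Blk) (L : List Blk) (R : List ℕ) (b : ℕ) (X : List ℕ)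
    (M : List (ℕ × ℕ)) (w : ℤ) (y : Node) (hy : y ∈ kids c (nd (i :: L) R b X M w)) :
    ∃ b' X' M' w', y = nd L R b' X' M' w' := by
  have e1 : kids c (nd (i :: L) R b X M w) = (subs c i.2).flatMap (kids0 i L R b X M w) ++
        (if b = 0 then [] else (subs c i.2).flatMap (kids1 i L R (b - 1) X M w)) := rfl
  rw [e1, List.mem_append, List.mem_flatMap] at hy
  rcases hy with ⟨P, _, hy⟩ | hy
  · unfold kids0 at hy
    rw [List.mem_append] at hy
    rcases hy with hy | hy
    · simp only [List.mem_cons, List.not_mem_nil, or_false] at hy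
      rcases hy with rfl | rfl | rfl
      · exact ⟨_, _, _, _, rfl⟩
      · exact ⟨_, _, _, _, rfl⟩
      · exact ⟨_, _, _, _, rfl⟩
    · split_ifs at hy
      · simp at hy
      · simp only [List.mem_cons, List.not_mem_nil, or_false] at hy
        exact ⟨_, _, _, _, hy⟩
  · split_ifs at hy
    · simp at hy
    · rw [List.mem_flatMap] at hy
      obtain ⟨P, _, hy⟩ := hy
      unfold kids1 at hy
      simp only [List.mem_cons, List.not_mem_nil, or_false] at hy
      rcases hy with rfl | rfl | rfl | rfl
      · exact ⟨_, _, _, _, rfl⟩
      · exact ⟨_, _, _, _, rfl⟩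
      · exact ⟨_, _, _, _, rfl⟩
      · exact ⟨_, _, _, _, rfl⟩

theorem depth_node (c : ℕ) (L : List Blk) (R : List ℕ) (b : ℕ) (X : List ℕ) (M : List (ℕ × ℕ))
    (w : ℤ) (k : ℕ) (hk : L.length + R.length ≤ k) : Depth (kids c) k (nd L R b X M w) := by
  induction k generalizing L R b X M w with
  | zero =>
    have h1 : L = [] := List.eq_nil_of_length_eq_zero (by omega)
    have h2 : R = [] := List.eq_nil_of_length_eq_zero (by omega)
    subst h1
    subst h2
    rfl
  | succ k ih =>
    intro y hy
    cases L with
    | cons i L =>
      obtain ⟨b', X', M', w', rfl⟩ := Sizes_kid c i L R b X M w y hy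
      exact ih L R b' X' M' w' (by rw [List.length_cons] at hk; omega)
    | nil =>
      cases R with
      | nil =>
        have e1 : kids c (nd [] [] b X M w) = [] := rfl
        rw [e1] at hy
        simp at hy
      | cons r R =>
        have e1 : kids c (nd [] (r :: R) b X M w) = [nd [] R b X M w, nd [] R b (r :: X) M w] :=
          rfl
        rw [e1] at hy
        simp only [List.mem_cons, List.not_mem_nil, or_false] at hy
        rcases hy with rfl | rfl
        · exact ih [] R b X M w (by rw [List.length_cons] at hk; omega)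
        · exact ih [] R b (r :: X) M w (by rw [List.length_cons] at hk; omega)

end Pool.Agent.Lib.MP_e05f17_lc
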