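import Pool.Agent.Lib.MP_e05f17_lc.Trav
import Pool.Agent.Lib.MP_e05f17_lc.Root
import Pool.Agent.Lib.MP_e05f17_lc.LeafEq
import Pool.Agent.Lib.MP_e05f17_lc.Input
import Pool.Agent.Lib.MP_e05f17_lc.PathCnt
import Pool.Agent.Lib.MP_e05f17_lc.FindPT
import Pool.Agent.Lib.MP_e05f17_lc.KidsPT
import Pool.Agent.Lib.MP_e05f17_lc.Sizes
import Pool.Agent.Lib.MP_e05f17_lc.Nodes
import Pool.Agent.Lib.MP_e05f17_lc.Psi
import Pool.Agent.Lib.MP_e05f17_lc.Choice
import Pool.Agent.Lib.MP_e05f17_lc.Twins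
import Pool.Agent.Lib.MP_e05f17_lc.Asym

/-! The main theorem. -/

namespace Pool.Agent.Lib.MP_e05f17_lc

open Pool.Agent.Lib.PolyTime Pool.Agent.Lib.MP_33f9c4_lc

/-- The valid inputs. -/
def Valid (d : List Bool) : Prop :=
  ∃ (n : ℕ) (G : SimpleGraph (Fin n)) (s t : Fin n) (S : Set ℕ), s ≠ t ∧ d = input G s t S

theorem Valid.adj {d : List Bool} (h : Valid d) : Adj (adjB d) (nOf d) := by
  obtain ⟨n, G, s, t, S, _, rfl⟩ := h
  rw [nOf_input]
  exact adj_input G s t S

/-- The sum over the search tree is the number of paths. -/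
theorem tsum_eq (c Kmax M0 : ℕ) {n : ℕ} (G : SimpleGraph (Fin n)) (s t : Fin n) (S : Set ℕ)
    (hst : s ≠ t) :
    tsum (kids c) (nval (leaf (input G s t S) (root c Kmax M0 (input G s t S)).1.2))
      (nOf (input G s t S)) (root c Kmax M0 (input G s t S)).2 = (pathCount G s t S : ℤ) := by
  have hA : Adj (adjB (input G s t S)) (nOf (input G s t S)) := by
    rw [nOf_input]; exact adj_input G s t S
  have hn := nOf_input G s t S
  have hs := sOf_input G s t S
  have ht := tOf_input G s t S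
  obtain ⟨hR, hR'⟩ := restOf_spec (input G s t S) (choice c Kmax M0 (input G s t S)).2
  have hcard := (card_le c Kmax M0 (input G s t S) hA).2
  have h := tsum_root c (lenB (input G s t S)) hA (choice_good c Kmax M0 _ hA)
    (by rw [hn, hs]; exact s.2) (by rw [hn, ht]; exact t.2)
    (by rw [hs, ht]; exact fun h => hst (Fin.ext h)) (choice_le c Kmax M0 _ hA)
    (restOf (input G s t S) (choice c Kmax M0 (input G s t S)).2) hR hR'
    (leaf (input G s t S) (choice c Kmax M0 (input G s t S)).1)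
    (fun X M hX hsX => leaf_eq _ _ X M hX hsX) (nOf (input G s t S)) hcard
  have h2 := pathCount_eq G s t S (adjB (input G s t S)) (fun i j => by
      rw [adjB_input]
      exact ⟨fun ⟨_, _, h⟩ => h, fun h => ⟨i.2, j.2, h⟩⟩) (lenB (input G s t S)) (fun k h1 h2 => by
      rw [lenB_input]
      exact ⟨fun h => h.2.2, fun h => ⟨h1, h2, h⟩⟩)
  rw [h2]
  refine Eq.trans h ?_
  rw [hn, hs, ht]

/-- The number of nodes. -/
theorem tcount_root (c Kmax : ℕ) {d : List Bool} (hA : Adj (adjB d) (nOf d)) :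
    (tcount (kids c) (nOf d) (root c Kmax (4 ^ (c + 4)) d).2 : ℝ) ≤
      ((nOf d : ℝ) + 3) * 2 ^ (nOf d) *
        (1 - (1 / 2) ^ (c + 3)) ^ (choice c Kmax (4 ^ (c + 4)) d).2.length := by
  have hcard := card_le c Kmax (4 ^ (c + 4)) d hA
  have h1 := tcount_le c (choice c Kmax (4 ^ (c + 4)) d).2
    (restOf d (choice c Kmax (4 ^ (c + 4)) d).2) (2 * (choice c Kmax (4 ^ (c + 4)) d).1.length)
    [sOf d, tOf d] [] 1 (nOf d) (choice_le c Kmax _ _ hA)
  have h2 := psi_le c (choice c Kmax (4 ^ (c + 4)) d).2.length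
    (2 * (choice c Kmax (4 ^ (c + 4)) d).1.length) (choice_few c Kmax _ _)
  have hq : (0 : ℝ) ≤ 1 - (1 / 2) ^ (c + 3) := by
    have : ((1 : ℝ) / 2) ^ (c + 3) ≤ 1 := pow_le_one₀ (by norm_num) (by norm_num)
    linarith
  refine h1.trans ?_
  have h3 : ((choice c Kmax (4 ^ (c + 4)) d).2.length : ℝ) ≤ nOf d := by
    exact_mod_cast (le_trans (Nat.le_add_right _ _) hcard.2)
  have h4 : (2 : ℝ) ^ (((choice c Kmax (4 ^ (c + 4)) d).2.flatMap verts).length +
      (restOf d (choice c Kmax (4 ^ (c + 4)) d).2).length) ≤ 2 ^ nOf d :=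
    pow_le_pow_right₀ (by norm_num) hcard.1
  have h5 : 0 ≤ psi ((1 / 2) ^ (c + 2)) (choice c Kmax (4 ^ (c + 4)) d).2.length
      (2 * (choice c Kmax (4 ^ (c + 4)) d).1.length) := by
    have : ((1 : ℝ) / 2) ^ (c + 2) ≤ 1 := pow_le_one₀ (by norm_num) (by norm_num)
    exact Finset.sum_nonneg fun j _ => mul_nonneg (Nat.cast_nonneg _) (pow_nonneg (by linarith) _)
  gcongr

/-- **Main theorem.** -/
theorem main (δ : ℝ) (hδ : 0 < δ) (D : ℕ) : ∃ (U : Machine) (ε : ℝ) (C : ℕ), 0 < ε ∧ ε < 1 ∧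
    ∀ (n : ℕ) (G : SimpleGraph (Fin n)) (s t : Fin n) (S : Set ℕ), s ≠ t →
      Outputs U (input G s t S) (Nat.bits (pathCount G s t S)) (C * n ^ C * 2 ^ n) ∧
      (NearTwins G δ D →
        Outputs U (input G s t S) (Nat.bits (pathCount G s t S)) ⌊(C : ℝ) * (2 - ε) ^ n⌋₊) := by
  -- the parameters
  obtain ⟨c, hc⟩ : ∃ c : ℕ, 2 * (D : ℝ) ≤ δ * c := by
    obtain ⟨c, hc⟩ := exists_nat_ge (2 * (D : ℝ) / δ)
    refine ⟨c, ?_⟩
    rw [div_le_iff₀ hδ] at hc
    linarith
  obtain ⟨Kmax, hK⟩ := exists_harm ((2 * (2 * 4 ^ (c + 4) * (c + 2) + 1) * c : ℕ) : ℝ)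
  set M0 := 4 ^ (c + 4) with hM0
  -- the machine
  obtain ⟨Inv, q, i1, i2, i3, i4, i5⟩ := exists_inv c
  obtain ⟨p, hp⟩ := (pt_root c Kmax M0).size_le
  obtain ⟨pp, hpp⟩ : ∃ pp : Polynomial ℕ, ∀ d : List Bool, p.eval (size d) ≤ pp.eval d.length := by
    have : PB (fun n => p.eval (4 * n + 1)) := PB.comp p (((PB.const 4).mul PB.id).add (PB.const 1))
    obtain ⟨pp, hpp⟩ := this
    exact ⟨pp, fun d => (eval_mono p (size_listBool d)).trans (hpp _)⟩
  have hsz : ∀ d, size (root c Kmax M0 d).2 ≤ pp.eval d.length := by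
    intro d
    have h1 := (hp d).trans (hpp d)
    rw [size_prod] at h1
    omega
  obtain ⟨U, T, hU⟩ := exists_traverse (κ := List Bool × List ℕ) (σ := Node)
    (kids := fun _ => kids c) (val := fun κ => nval (leaf κ.1 κ.2)) (init := root c Kmax M0)
    (pt_kids c) pt_nval (pt_root c Kmax M0) Valid (fun d x => Inv (pp.eval d.length) x) nOf
    (q.comp pp + Polynomial.X) (fun d _ => i2 _ _ _ (hsz d) (i1 _))
    (fun d x _ hx y hy => i3 _ _ hx y hy)
    (fun d x _ hx => by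
      rw [Polynomial.eval_add, Polynomial.eval_comp]
      exact (i4 _ _ hx).trans (Nat.le_add_right _ _))
    (fun d x _ hx => by
      rw [Polynomial.eval_add, Polynomial.eval_comp]
      exact (i5 _ _ hx).trans (Nat.le_add_right _ _))
    (fun d hd => depth_node c _ _ _ _ _ _ _ (card_le c Kmax M0 d hd.adj).2)
    (fun d hd => by
      obtain ⟨n, G, s, t, S, _, rfl⟩ := hd
      rw [Polynomial.eval_add, Polynomial.eval_X, nOf_input, input_length]
      exact le_trans (by nlinarith) (Nat.le_add_left _ _))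
  obtain ⟨C1, hC1⟩ := bound_always T
  obtain ⟨ε, C2, hε, hε1, hC2⟩ := bound_twins T (q := (1 / 2) ^ (c + 3)) hδ (by positivity)
    (pow_lt_one₀ (by norm_num) (by norm_num) (by omega)) (Kmax * (c + 2) + 1) (4 * Kmax + 1)
  refine ⟨U, ε, max C1 C2, hε, hε1, fun n G s t S hst => ?_⟩
  have hV : Valid (input G s t S) := ⟨n, G, s, t, S, hst, rfl⟩
  have hn : nOf (input G s t S) = n := nOf_input G s t S
  have hn1 : 1 ≤ n := by have := s.2; omega
  have hout := hU _ hV
  have hval := tsum_eq c Kmax M0 G s t S hst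
  have hcount := tcount_root c Kmax hV.adj
  rw [← hM0, hn] at hcount
  rw [hn] at hval hout
  simp only [root] at hval hcount
  simp only [root, hval, input_length, Int.toNat_natCast] at hout
  have hmono : ∀ {x : List Bool} {a b : ℕ}, Outputs U (input G s t S) x a → a ≤ b →
      Outputs U (input G s t S) x b := by
    rintro x a b ⟨h⟩ hab
    exact ⟨{ steps := h.steps, evals_in_steps := h.evals_in_steps,
             steps_le_m := h.steps_le_m.trans hab }⟩
  set N := (choice c Kmax M0 (input G s t S)).2.length with hN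
  set cnt := tcount (kids c) n (nd (choice c Kmax M0 (input G s t S)).2
    (restOf (input G s t S) (choice c Kmax M0 (input G s t S)).2)
    (2 * (choice c Kmax M0 (input G s t S)).1.length)
    [sOf (input G s t S), tOf (input G s t S)] [] 1) with hcnt
  have hq0 : (0 : ℝ) ≤ 1 - (1 / 2) ^ (c + 3) := by
    have : ((1 : ℝ) / 2) ^ (c + 3) ≤ 1 := pow_le_one₀ (by norm_num) (by norm_num)
    linarith
  have hq1 : (1 : ℝ) - (1 / 2) ^ (c + 3) ≤ 1 := by
    have : (0 : ℝ) ≤ (1 / 2) ^ (c + 3) := by positivity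
    linarith
  constructor
  · refine hmono hout ?_
    have h1 := hC1 n hn1
    have h2 : ((T.eval (n * (n + 3)) * (cnt + 1) : ℕ) : ℝ) ≤
        ((T.eval (n * (n + 3)) : ℕ) : ℝ) * ((n + 3) * 2 ^ n + 1) := by
      push_cast
      have h3 : (cnt : ℝ) ≤ ((n : ℝ) + 3) * 2 ^ n := by
        refine hcount.trans ?_
        have := pow_le_one₀ (n := N) hq0 hq1
        exact mul_le_of_le_one_right (by positivity) this
      gcongr
    have h4 : ((C1 : ℝ)) * n ^ C1 * 2 ^ n ≤ ((max C1 C2 * n ^ max C1 C2 * 2 ^ n : ℕ) : ℝ) := by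
      push_cast
      have h5 : (1 : ℝ) ≤ n := by exact_mod_cast hn1
      have h6 : (C1 : ℝ) ≤ max (C1 : ℝ) C2 := le_max_left _ _
      have h7 : (n : ℝ) ^ C1 ≤ (n : ℝ) ^ max C1 C2 := pow_le_pow_right₀ h5 (le_max_left _ _)
      gcongr
    exact_mod_cast (h2.trans (h1.trans h4))
  · intro htw
    refine hmono hout ?_
    have hmt := mt_large G s t S (c := c) hδ hc htw
    have hlarge : δ * n / 4 ≤ (N : ℝ) * ((Kmax * (c + 2) + 1 : ℕ) : ℝ) + ((4 * Kmax + 1 : ℕ) : ℝ) := by
      rcases le_or_gt (4 * Kmax) (mt (input G s t S) c).length with h | h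
      · have h1 := choice_large c Kmax M0 _ hV.adj (by positivity) hK h
        have h2 : ((mt (input G s t S) c).length : ℝ) ≤
            N * ((Kmax * (c + 2) + 1 : ℕ) : ℝ) + ((2 * Kmax : ℕ) : ℝ) := by exact_mod_cast h1
        have h3 : ((2 * Kmax : ℕ) : ℝ) ≤ ((4 * Kmax : ℕ) : ℝ) := by exact_mod_cast (by omega)
        push_cast at h2 h3 ⊢
        linarith
      · have h2 : ((mt (input G s t S) c).length : ℝ) ≤ ((4 * Kmax : ℕ) : ℝ) := by
          exact_mod_cast h.le
        have h3 : (0 : ℝ) ≤ (N : ℝ) * ((Kmax * (c + 2) + 1 : ℕ) : ℝ) := by positivity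
        push_cast at h2 h3 ⊢
        linarith
    have hNn : N ≤ n := by
      have := (card_le c Kmax M0 _ hV.adj).2
      rw [hn] at this
      omega
    have h1 := hC2 n N hNn hlarge
    refine Nat.le_floor ?_
    have h2 : ((T.eval (n * (n + 3)) * (cnt + 1) : ℕ) : ℝ) ≤
        ((T.eval (n * (n + 3)) : ℕ) : ℝ) *
          ((n + 3) * 2 ^ n * (1 - (1 / 2) ^ (c + 3)) ^ N + 1) := by
      push_cast
      gcongr
    refine h2.trans (h1.trans ?_)
    have h3 : (C2 : ℝ) ≤ ((max C1 C2 : ℕ) : ℝ) := by exact_mod_cast le_max_right _ _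
    have h4 : (0 : ℝ) ≤ (2 - ε) ^ n := pow_nonneg (by linarith) n
    gcongr

end Pool.Agent.Lib.MP_e05f17_lc
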