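import Mathlib

/-!
The number of edges of the unit distance graph of a set system (Haussler).

PROOF. Induction on A (Finset.induction_on), generalizing Q and d. A = ∅: the sum is empty.
insert a A, a ∉ A: let Q1 = Q.image (fun Y => Y.erase a), Qa = Q.filter (a ∉ Y ∧ insert a Y ∈ Q). Both
consist of subsets of A. (i) Q.card = Q1.card + Qa.card (every Y1 ∈ Q1 has one or two preimages Y1,
insert a Y1 in Q, two iff Y1 ∈ Qa; e.g. Q.card = (Q.filter a ∉ Y).card + (Q.filter a ∈ Y).card and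
Q1 = the union of the first with the image of the second, intersection Qa:
Finset.card_union_add_card_inter). (ii) for b ∈ A: E_b Q ≤ E_b Q1 + E_b Qa, where
E_b Q = (Q.filter fun Y => b ∉ Y ∧ insert b Y ∈ Q).card: split the Y ∈ E_b Q by a ∈ Y; Y.erase a is in
E_b Q1, and if both Y1 and insert a Y1 occur then Y1 ∈ E_b Qa; again union and intersection.
(iii) E_a Q = Qa.card. d = 0: Qa = ∅ (Y ∈ Qa would shatter the singleton a), so E_a Q = 0, and
Q1 shatters no singleton of A (Q1 shatters B ⊆ A implies Q shatters B since a ∉ B): induction for Q1 with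
d = 0, and E_b Qa = 0. d + 1: Q1 shatters no B ⊆ A with d + 2 elements, Qa shatters no B ⊆ A with d + 1
elements (otherwise Q shatters insert a B): sum over b ∈ A ≤ (d+1) Q1.card + d Qa.card, plus Qa.card,
is (d+1) Q.card.
-/

namespace Pool.Agent.Lib.MP_e05f17_lc

private theorem NCA_card {α : Type*} [DecidableEq α] (a : α) (Q : Finset (Finset α)) :
    (Q.image fun Y => Y.erase a).card + (Q.filter fun Y => a ∉ Y ∧ insert a Y ∈ Q).card = Q.card := by
  classical
  have h1 : (Q.image fun Y => Y.erase a) =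
      (Q.filter fun Y => a ∉ Y) ∪ (Q.filter fun Y => a ∈ Y).image fun Y => Y.erase a := by
    ext Z
    simp only [Finset.mem_image, Finset.mem_union, Finset.mem_filter]
    constructor
    · rintro ⟨Y, hY, rfl⟩
      by_cases h : a ∈ Y
      · exact Or.inr ⟨Y, ⟨hY, h⟩, rfl⟩
      · left
        rw [Finset.erase_eq_of_notMem h]
        exact ⟨hY, h⟩
    · rintro (⟨h2, h3⟩ | ⟨Y, ⟨h2, _⟩, h4⟩)
      · exact ⟨Z, h2, Finset.erase_eq_of_notMem h3⟩
      · exact ⟨Y, h2, h4⟩
  have h2 : (Q.filter fun Y => a ∉ Y ∧ insert a Y ∈ Q) =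
      (Q.filter fun Y => a ∉ Y) ∩ (Q.filter fun Y => a ∈ Y).image fun Y => Y.erase a := by
    ext Z
    simp only [Finset.mem_image, Finset.mem_inter, Finset.mem_filter]
    constructor
    · rintro ⟨h2, h3, h4⟩
      exact ⟨⟨h2, h3⟩, insert a Z, ⟨h4, Finset.mem_insert_self _ _⟩, Finset.erase_insert h3⟩
    · rintro ⟨⟨h2, h3⟩, Y, ⟨h4, h5⟩, h6⟩
      refine ⟨h2, h3, ?_⟩
      rw [← h6, Finset.insert_erase h5]
      exact h4
  have h3 : ((Q.filter fun Y => a ∈ Y).image fun Y => Y.erase a).card =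
      (Q.filter fun Y => a ∈ Y).card := by
    refine Finset.card_image_of_injOn ?_
    intro Y hY Y' hY' h
    rw [Finset.mem_coe, Finset.mem_filter] at hY hY'
    have h' : Y.erase a = Y'.erase a := h
    rw [← Finset.insert_erase hY.2, ← Finset.insert_erase hY'.2, h']
  rw [h1, h2, Finset.card_union_add_card_inter, h3, add_comm]
  exact Finset.card_filter_add_card_filter_not (s := Q) (fun Y => a ∈ Y)

private theorem NCA_edge {α : Type*} [DecidableEq α] {a b : α} (hab : a ≠ b) (Q : Finset (Finset α)) :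
    (Q.filter fun Y => b ∉ Y ∧ insert b Y ∈ Q).card ≤
      ((Q.image fun Y => Y.erase a).filter
        fun Y => b ∉ Y ∧ insert b Y ∈ Q.image fun Y => Y.erase a).card +
      ((Q.filter fun Y => a ∉ Y ∧ insert a Y ∈ Q).filter
        fun Y => b ∉ Y ∧ insert b Y ∈ Q.filter fun Y => a ∉ Y ∧ insert a Y ∈ Q).card := by
  classical
  obtain ⟨E, hE⟩ : ∃ E, E = Q.filter fun Y => b ∉ Y ∧ insert b Y ∈ Q := ⟨_, rfl⟩
  have hEm : ∀ Y, Y ∈ E ↔ Y ∈ Q ∧ b ∉ Y ∧ insert b Y ∈ Q := fun Y => by rw [hE, Finset.mem_filter]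
  rw [← hE]
  obtain ⟨S1, hS1⟩ : ∃ S1, S1 = (E.filter fun Y => a ∈ Y).image fun Y => Y.erase a := ⟨_, rfl⟩
  have h3 : S1.card = (E.filter fun Y => a ∈ Y).card := by
    rw [hS1]
    refine Finset.card_image_of_injOn ?_
    intro Y hY Y' hY' h
    rw [Finset.mem_coe, Finset.mem_filter] at hY hY'
    have h' : Y.erase a = Y'.erase a := h
    rw [← Finset.insert_erase hY.2, ← Finset.insert_erase hY'.2, h']
  have h4 := Finset.card_filter_add_card_filter_not (s := E) (fun Y => a ∈ Y)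
  have h5 := Finset.card_union_add_card_inter (E.filter fun Y => a ∉ Y) S1
  have hS1m : ∀ Z, Z ∈ S1 ↔ ∃ Y ∈ E, a ∈ Y ∧ Y.erase a = Z := by
    intro Z
    rw [hS1, Finset.mem_image]
    constructor
    · rintro ⟨Y, hY, h⟩
      rw [Finset.mem_filter] at hY
      exact ⟨Y, hY.1, hY.2, h⟩
    · rintro ⟨Y, h1, h2, h⟩
      exact ⟨Y, Finset.mem_filter.2 ⟨h1, h2⟩, h⟩
  have h6 : (E.filter fun Y => a ∉ Y) ∪ S1 ⊆ (Q.image fun Y => Y.erase a).filter
      fun Y => b ∉ Y ∧ insert b Y ∈ Q.image fun Y => Y.erase a := by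
    intro Z hZ
    rw [Finset.mem_union, Finset.mem_filter, hS1m] at hZ
    rw [Finset.mem_filter, Finset.mem_image, Finset.mem_image]
    rcases hZ with ⟨h7, h8⟩ | ⟨Y, h7, h8, rfl⟩
    · rw [hEm] at h7
      refine ⟨⟨Z, h7.1, Finset.erase_eq_of_notMem h8⟩, h7.2.1, insert b Z, h7.2.2, ?_⟩
      refine Finset.erase_eq_of_notMem ?_
      rw [Finset.mem_insert, not_or]
      exact ⟨hab, h8⟩
    · rw [hEm] at h7
      refine ⟨⟨Y, h7.1, rfl⟩, fun h => h7.2.1 (Finset.mem_of_mem_erase h), insert b Y, h7.2.2, ?_⟩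
      exact Finset.erase_insert_of_ne hab.symm
  have h7 : (E.filter fun Y => a ∉ Y) ∩ S1 ⊆ (Q.filter fun Y => a ∉ Y ∧ insert a Y ∈ Q).filter
        fun Y => b ∉ Y ∧ insert b Y ∈ Q.filter fun Y => a ∉ Y ∧ insert a Y ∈ Q := by
    intro Z hZ
    rw [Finset.mem_inter, Finset.mem_filter, hS1m, hEm] at hZ
    obtain ⟨⟨h8, h9⟩, Y, h10, h11, h12⟩ := hZ
    rw [hEm] at h10
    have h13 : insert a Z = Y := by rw [← h12, Finset.insert_erase h11]
    rw [Finset.mem_filter, Finset.mem_filter, Finset.mem_filter]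
    refine ⟨⟨h8.1, h9, by rw [h13]; exact h10.1⟩, h8.2.1, h8.2.2, ?_, ?_⟩
    · rw [Finset.mem_insert, not_or]
      exact ⟨hab, h9⟩
    · rw [Finset.insert_comm, h13]
      exact h10.2.2
  have h8 := Finset.card_le_card h6
  have h9 := Finset.card_le_card h7
  omega

private theorem NCA_sh1 {α : Type*} [DecidableEq α] {a : α} {B : Finset α} (ha : a ∉ B)
    {Q : Finset (Finset α)} (h : (Q.image fun Y => Y.erase a).Shatters B) : Q.Shatters B := by
  intro t ht
  obtain ⟨u, hu, h1⟩ := h ht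
  obtain ⟨Y, hY, h2⟩ := Finset.mem_image.1 hu
  refine ⟨Y, hY, ?_⟩
  rw [← h1, ← h2]
  ext x
  rw [Finset.mem_inter, Finset.mem_inter, Finset.mem_erase]
  constructor
  · rintro ⟨h3, h4⟩
    exact ⟨h3, fun h5 => ha (h5 ▸ h3), h4⟩
  · rintro ⟨h3, h4⟩
    exact ⟨h3, h4.2⟩

private theorem NCA_sh2 {α : Type*} [DecidableEq α] {a : α} {B : Finset α} (ha : a ∉ B)
    {Q : Finset (Finset α)} (h : (Q.filter fun Y => a ∉ Y ∧ insert a Y ∈ Q).Shatters B) :
    Q.Shatters (insert a B) := by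
  intro t ht
  have h1 : t.erase a ⊆ B := by
    intro x hx
    rw [Finset.mem_erase] at hx
    exact (Finset.mem_insert.1 (ht hx.2)).resolve_left hx.1
  obtain ⟨u, hu, h2⟩ := h h1
  rw [Finset.mem_filter] at hu
  by_cases h3 : a ∈ t
  · refine ⟨insert a u, hu.2.2, ?_⟩
    rw [← Finset.insert_inter_distrib, h2, Finset.insert_erase h3]
  · refine ⟨u, hu.1, ?_⟩
    rw [Finset.insert_inter_of_notMem hu.2.1, h2, Finset.erase_eq_of_notMem h3]

theorem ud_le {α : Type*} [DecidableEq α] (A : Finset α) (Q : Finset (Finset α))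
    (hQ : ∀ Y ∈ Q, Y ⊆ A) (d : ℕ) (hd : ∀ B ⊆ A, B.card = d + 1 → ¬ Q.Shatters B) :
    ∑ a ∈ A, (Q.filter fun Y => a ∉ Y ∧ insert a Y ∈ Q).card ≤ d * Q.card := by
  classical
  induction A using Finset.induction_on generalizing Q d with
  | empty => simp
  | insert a A ha ih =>
    rw [Finset.sum_insert ha]
    obtain ⟨Q1, hQ1⟩ : ∃ Q1, Q1 = Q.image fun Y => Y.erase a := ⟨_, rfl⟩
    obtain ⟨Qa, hQa⟩ : ∃ Qa, Qa = Q.filter fun Y => a ∉ Y ∧ insert a Y ∈ Q := ⟨_, rfl⟩
    have hc : Q1.card + Qa.card = Q.card := by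
      rw [hQ1, hQa]
      exact NCA_card a Q
    have h1 : ∀ Y ∈ Q1, Y ⊆ A := by
      intro Y hY
      rw [hQ1] at hY
      obtain ⟨Z, hZ, rfl⟩ := Finset.mem_image.1 hY
      intro x hx
      rw [Finset.mem_erase] at hx
      exact (Finset.mem_insert.1 (hQ Z hZ hx.2)).resolve_left hx.1
    have h2 : ∀ Y ∈ Qa, Y ⊆ A := by
      intro Y hY
      rw [hQa, Finset.mem_filter] at hY
      intro x hx
      exact (Finset.mem_insert.1 (hQ Y hY.1 hx)).resolve_left fun h => hY.2.1 (h ▸ hx)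
    have h3 : ∑ b ∈ A, (Q.filter fun Y => b ∉ Y ∧ insert b Y ∈ Q).card ≤
        ∑ b ∈ A, (Q1.filter fun Y => b ∉ Y ∧ insert b Y ∈ Q1).card +
        ∑ b ∈ A, (Qa.filter fun Y => b ∉ Y ∧ insert b Y ∈ Qa).card := by
      rw [← Finset.sum_add_distrib]
      refine Finset.sum_le_sum fun b hb => ?_
      rw [hQ1, hQa]
      exact NCA_edge (a := a) (b := b) (by rintro rfl; exact ha hb) Q
    have h4 := ih Q1 h1 d fun B hB hB1 hs =>
      hd B (hB.trans (Finset.subset_insert _ _)) hB1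
        (NCA_sh1 (fun h => ha (hB h)) (by rw [← hQ1]; exact hs))
    rw [← hQa]
    cases d with
    | zero =>
      have h5 : Qa = ∅ := by
        rw [Finset.eq_empty_iff_forall_notMem]
        intro Y hY
        have hne : Qa.Shatters ∅ := by
          intro t ht
          refine ⟨Y, hY, ?_⟩
          rw [Finset.subset_empty.1 ht, Finset.empty_inter]
        rw [hQa] at hne
        refine hd (insert a ∅) ?_ ?_ (NCA_sh2 (Finset.notMem_empty a) hne)
        · exact Finset.insert_subset_insert a (Finset.empty_subset A)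
        · rw [Finset.card_insert_of_notMem (Finset.notMem_empty a), Finset.card_empty]
      rw [h5] at h3 ⊢
      simp only [Finset.filter_empty, Finset.card_empty, Finset.sum_const_zero] at h3 ⊢
      omega
    | succ e =>
      have h5 := ih Qa h2 e fun B hB hB1 hs =>
        hd (insert a B) (Finset.insert_subset_insert a hB)
          (by rw [Finset.card_insert_of_notMem (fun h => ha (hB h)), hB1])
          (NCA_sh2 (fun h => ha (hB h)) (by rw [← hQa]; exact hs))
      have h6 : (e + 1) * Q.card = (e + 1) * Q1.card + (e * Qa.card + Qa.card) := by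
        rw [← hc]
        ring
      omega

end Pool.Agent.Lib.MP_e05f17_lc
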