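import Pool.Agent.Lib.MP_e05f17_lc.NCA

/-!
The weighted version.

PROOF. Layer cake: with Q t = A.powerset.filter (fun Y => t < w Y) and T larger than all w Y, Y ⊆ A:
min (w Y) (w Z) = sum over t < T of (if t < w Y ∧ t < w Z then 1 else 0), so the left side is the sum over
t < T of sum over a ∈ A of ((Q t).filter (a ∉ Y ∧ insert a Y ∈ Q t)).card (for a ∈ A the subsets of A.erase
a are the subsets of A without a) ≤ sum over t of d * (Q t).card (ud_le; Q t ⊆ Q 0 and
Finset.Shatters.mono_left) = d * sum of w Y.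
-/

namespace Pool.Agent.Lib.MP_e05f17_lc

theorem wt_le {α : Type*} [DecidableEq α] (A : Finset α) (w : Finset α → ℕ) (d : ℕ)
    (hd : ∀ B ⊆ A, B.card = d + 1 → ¬ (A.powerset.filter fun Y => 0 < w Y).Shatters B) :
    ∑ a ∈ A, ∑ Y ∈ (A.erase a).powerset, min (w Y) (w (insert a Y)) ≤
      d * ∑ Y ∈ A.powerset, w Y := by
  classical
  set T : ℕ := ∑ Y ∈ A.powerset, w Y with hT
  have hle : ∀ Y ∈ A.powerset, w Y ≤ T := fun Y hY =>
    Finset.single_le_sum (f := w) (fun _ _ => Nat.zero_le _) hY
  have hcake : ∀ n : ℕ, n ≤ T → n = ∑ t ∈ Finset.range T, if t < n then 1 else 0 := by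
    intro n hn
    rw [← Finset.card_filter]
    have : (Finset.range T).filter (fun t => t < n) = Finset.range n := by
      ext t
      simp only [Finset.mem_filter, Finset.mem_range]
      omega
    rw [this, Finset.card_range]
  -- the left side
  have hL : ∑ a ∈ A, ∑ Y ∈ (A.erase a).powerset, min (w Y) (w (insert a Y))
      = ∑ t ∈ Finset.range T, ∑ a ∈ A,
        ((A.powerset.filter fun Y => t < w Y).filter fun Y =>
          a ∉ Y ∧ insert a Y ∈ A.powerset.filter fun Y => t < w Y).card := by
    rw [Finset.sum_comm]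
    apply Finset.sum_congr rfl
    intro a ha
    have h1 : ∀ Y ∈ (A.erase a).powerset, min (w Y) (w (insert a Y))
        = ∑ t ∈ Finset.range T, if (t < w Y ∧ t < w (insert a Y)) then 1 else 0 := by
      intro Y hY
      rw [Finset.mem_powerset] at hY
      have hYA : Y ⊆ A := hY.trans (Finset.erase_subset _ _)
      have h2 := hcake (min (w Y) (w (insert a Y)))
        ((min_le_left _ _).trans (hle Y (Finset.mem_powerset.2 hYA)))
      simpa only [lt_min_iff] using h2
    rw [Finset.sum_congr rfl h1, Finset.sum_comm]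
    apply Finset.sum_congr rfl
    intro t _
    rw [← Finset.card_filter]
    congr 1
    ext Y
    simp only [Finset.mem_filter, Finset.mem_powerset]
    constructor
    · rintro ⟨h3, h4, h5⟩
      have hYA : Y ⊆ A := h3.trans (Finset.erase_subset _ _)
      refine ⟨⟨hYA, h4⟩, ?_, Finset.insert_subset ha hYA, h5⟩
      intro h6
      exact absurd rfl (Finset.mem_erase.1 (h3 h6)).1
    · rintro ⟨⟨h3, h4⟩, h5, _, h7⟩
      refine ⟨?_, h4, h7⟩
      intro y hy
      rw [Finset.mem_erase]
      exact ⟨fun h => h5 (h ▸ hy), h3 hy⟩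
  have hR : ∑ Y ∈ A.powerset, w Y
      = ∑ t ∈ Finset.range T, (A.powerset.filter fun Y => t < w Y).card := by
    have h1 : ∀ Y ∈ A.powerset, w Y = ∑ t ∈ Finset.range T, if t < w Y then 1 else 0 :=
      fun Y hY => hcake _ (hle Y hY)
    rw [Finset.sum_congr rfl h1, Finset.sum_comm]
    apply Finset.sum_congr rfl
    intro t _
    rw [← Finset.card_filter]
  rw [hL]
  have hT2 : d * T = ∑ t ∈ Finset.range T, d * (A.powerset.filter fun Y => t < w Y).card := by
    rw [← Finset.mul_sum]
    congr 1
  rw [hT2]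
  apply Finset.sum_le_sum
  intro t _
  apply ud_le A (A.powerset.filter fun Y => t < w Y)
    (fun Y hY => Finset.mem_powerset.1 (Finset.mem_filter.1 hY).1) d
  intro B hB hcard hsh
  refine hd B hB hcard (hsh.mono_left ?_)
  intro Y hY
  rw [Finset.mem_filter] at hY ⊢
  exact ⟨hY.1, by omega⟩

end Pool.Agent.Lib.MP_e05f17_lc
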