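import Mathlib

/-!
Separated families: the lower bound for one set.

PROOF. For Y ⊆ A let V_Y = {v ∈ V : N v ∩ A = Y}, b = |V_Y|; the sum over Y in A.powerset of b is
V.card and the Y with b > 0 are the image. For a ∉ A: {v : N v ∩ insert a A = Y} = {v ∈ V_Y : a ∉ N v} =: V1
and {v : N v ∩ insert a A = insert a Y} = {v ∈ V_Y : a ∈ N v} =: V2 (Y ⊆ A, a ∉ A), |V1| + |V2| = b and
b * min |V1| |V2| ≥ |V1| |V2|. Sum over a ∉ A of |V1| |V2| = number of triples (u, v, a), u, v ∈ V_Y,
a ∉ N u, a ∈ N v, a ∉ A; adding the one with u and v exchanged: 2 * sum = sum over ordered pairs (u, v) of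
V_Y of the number of a ∈ symmDiff (N u) (N v) (automatically a ∉ A as both have the same trace on A)
≥ K b (b - 1). So 2 b * (sum over a of min) ≥ K b (b-1), and 2 * (sum of min) ≥ K (b - 1) if b > 0 (real or
natural numbers); sum over Y.
-/

namespace Pool.Agent.Lib.MP_e05f17_lc

private theorem ncc_key {α ι : Type*} [DecidableEq α] [Fintype α] [DecidableEq ι]
    (N : ι → Finset α) (U : Finset ι) (K : ℕ) (A : Finset α)
    (hK : ∀ u ∈ U, ∀ v ∈ U, u ≠ v → K ≤ (symmDiff (N u) (N v)).card)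
    (hA : ∀ u ∈ U, ∀ v ∈ U, ∀ a ∈ A, a ∈ N u → a ∈ N v) :
    K * (U.card - 1) ≤ 2 * ∑ a ∈ Aᶜ,
      min (U.filter fun v => a ∉ N v).card (U.filter fun v => a ∈ N v).card := by
  rcases Nat.eq_zero_or_pos U.card with h0 | hpos
  · rw [h0]
    simp
  refine Nat.le_of_mul_le_mul_left ?_ hpos
  have h1 : U.card * (K * (U.card - 1)) ≤ ∑ u ∈ U, ∑ v ∈ U, (symmDiff (N u) (N v)).card := by
    have h : ∀ u ∈ U, K * (U.card - 1) ≤ ∑ v ∈ U, (symmDiff (N u) (N v)).card := by
      intro u hu
      calc K * (U.card - 1) = ∑ v ∈ U.erase u, K := by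
            rw [Finset.sum_const, Finset.card_erase_of_mem hu, smul_eq_mul, mul_comm]
        _ ≤ ∑ v ∈ U.erase u, (symmDiff (N u) (N v)).card :=
            Finset.sum_le_sum fun v hv =>
              hK u hu v (Finset.mem_of_mem_erase hv) (Finset.ne_of_mem_erase hv).symm
        _ ≤ _ := Finset.sum_le_sum_of_subset (Finset.erase_subset _ _)
    have h' := Finset.card_nsmul_le_sum U _ _ h
    rwa [smul_eq_mul] at h'
  have h2 : ∀ u ∈ U, ∀ v ∈ U, (symmDiff (N u) (N v)).card =
      ∑ a ∈ Aᶜ, (if a ∈ symmDiff (N u) (N v) then 1 else 0) := by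
    intro u hu v hv
    rw [← Finset.card_filter]
    refine congrArg Finset.card ?_
    ext a
    rw [Finset.mem_filter, Finset.mem_compl]
    constructor
    · intro h
      refine ⟨fun ha => ?_, h⟩
      rw [Finset.mem_symmDiff] at h
      rcases h with ⟨h3, h4⟩ | ⟨h3, h4⟩
      · exact h4 (hA u hu v hv a ha h3)
      · exact h4 (hA v hv u hu a ha h3)
    · exact fun h => h.2
  have h3 : ∑ u ∈ U, ∑ v ∈ U, (symmDiff (N u) (N v)).card =
      ∑ a ∈ Aᶜ, 2 * ((U.filter fun v => a ∉ N v).card * (U.filter fun v => a ∈ N v).card) := by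
    have h4 : ∑ u ∈ U, ∑ v ∈ U, (symmDiff (N u) (N v)).card =
        ∑ u ∈ U, ∑ a ∈ Aᶜ, ∑ v ∈ U, (if a ∈ symmDiff (N u) (N v) then 1 else 0) := by
      refine Finset.sum_congr rfl fun u hu => ?_
      rw [Finset.sum_congr rfl fun v hv => h2 u hu v hv, Finset.sum_comm]
    rw [h4, Finset.sum_comm]
    refine Finset.sum_congr rfl fun a _ => ?_
    have h5 : ∀ u v, (if a ∈ symmDiff (N u) (N v) then 1 else 0) =
        (if a ∈ N u then 1 else 0) * (if a ∉ N v then 1 else 0) +
        (if a ∉ N u then 1 else 0) * (if a ∈ N v then 1 else 0) := by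
      intro u v
      by_cases hu : a ∈ N u <;> by_cases hv : a ∈ N v <;> simp [Finset.mem_symmDiff, hu, hv]
    have h6 : ∑ u ∈ U, ∑ v ∈ U, (if a ∈ symmDiff (N u) (N v) then 1 else 0) =
        (∑ u ∈ U, if a ∈ N u then 1 else 0) * (∑ v ∈ U, if a ∉ N v then 1 else 0) +
        (∑ u ∈ U, if a ∉ N u then 1 else 0) * (∑ v ∈ U, if a ∈ N v then 1 else 0) := by
      rw [Finset.sum_mul_sum, Finset.sum_mul_sum, ← Finset.sum_add_distrib]
      refine Finset.sum_congr rfl fun u _ => ?_
      rw [← Finset.sum_add_distrib]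
      exact Finset.sum_congr rfl fun v _ => h5 u v
    rw [h6, Finset.card_filter, Finset.card_filter]
    ring
  have h7 : ∀ a, (U.filter fun v => a ∉ N v).card * (U.filter fun v => a ∈ N v).card ≤
      U.card * min (U.filter fun v => a ∉ N v).card (U.filter fun v => a ∈ N v).card := by
    intro a
    have ha1 : (U.filter fun v => a ∉ N v).card ≤ U.card := Finset.card_filter_le _ _
    have ha2 : (U.filter fun v => a ∈ N v).card ≤ U.card := Finset.card_filter_le _ _
    rcases le_total (U.filter fun v => a ∉ N v).card (U.filter fun v => a ∈ N v).card with h | h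
    · rw [min_eq_left h, mul_comm]
      exact Nat.mul_le_mul_right _ ha2
    · rw [min_eq_right h]
      exact Nat.mul_le_mul_right _ ha1
  calc U.card * (K * (U.card - 1)) ≤ ∑ u ∈ U, ∑ v ∈ U, (symmDiff (N u) (N v)).card := h1
    _ = ∑ a ∈ Aᶜ, 2 * ((U.filter fun v => a ∉ N v).card * (U.filter fun v => a ∈ N v).card) := h3
    _ ≤ ∑ a ∈ Aᶜ, 2 * (U.card * min (U.filter fun v => a ∉ N v).card
          (U.filter fun v => a ∈ N v).card) :=
        Finset.sum_le_sum fun a _ => Nat.mul_le_mul_left _ (h7 a)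
    _ = U.card * (2 * ∑ a ∈ Aᶜ,
      min (U.filter fun v => a ∉ N v).card (U.filter fun v => a ∈ N v).card) := by
        rw [Finset.mul_sum, Finset.mul_sum]
        exact Finset.sum_congr rfl fun a _ => by ring

theorem sep_le {α ι : Type*} [DecidableEq α] [Fintype α] [DecidableEq ι] (N : ι → Finset α)
    (V : Finset ι) (K : ℕ)
    (hK : ∀ u ∈ V, ∀ v ∈ V, u ≠ v → K ≤ (symmDiff (N u) (N v)).card) (A : Finset α) :
    K * (V.card - (V.image fun v => N v ∩ A).card) ≤
      2 * ∑ a ∈ Aᶜ, ∑ Y ∈ A.powerset,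
        min (V.filter fun v => N v ∩ insert a A = Y).card
          (V.filter fun v => N v ∩ insert a A = insert a Y).card := by
  have h1 : ∀ Y ∈ A.powerset, K * ((V.filter fun v => N v ∩ A = Y).card - 1) ≤
      2 * ∑ a ∈ Aᶜ, min (V.filter fun v => N v ∩ insert a A = Y).card
          (V.filter fun v => N v ∩ insert a A = insert a Y).card := by
    intro Y hY
    have hYA := Finset.mem_powerset.1 hY
    have h2 := ncc_key N (V.filter fun v => N v ∩ A = Y) K A
      (fun u hu v hv => hK u (Finset.mem_filter.1 hu).1 v (Finset.mem_filter.1 hv).1)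
      (by
        intro u hu v hv a ha hau
        have h3 : a ∈ N u ∩ A := Finset.mem_inter.2 ⟨hau, ha⟩
        rw [(Finset.mem_filter.1 hu).2, ← (Finset.mem_filter.1 hv).2] at h3
        exact (Finset.mem_inter.1 h3).1)
    refine h2.trans (Nat.mul_le_mul_left _ (Finset.sum_le_sum fun a ha => ?_))
    have haA : a ∉ A := Finset.mem_compl.1 ha
    have haY : a ∉ Y := fun h => haA (hYA h)
    refine min_le_min (Finset.card_le_card ?_) (Finset.card_le_card ?_)
    · intro v hv
      obtain ⟨hv1, hv2⟩ := Finset.mem_filter.1 hv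
      obtain ⟨hv3, hv4⟩ := Finset.mem_filter.1 hv1
      refine Finset.mem_filter.2 ⟨hv3, ?_⟩
      rw [Finset.inter_insert_of_notMem hv2, hv4]
    · intro v hv
      obtain ⟨hv1, hv2⟩ := Finset.mem_filter.1 hv
      obtain ⟨hv3, hv4⟩ := Finset.mem_filter.1 hv1
      refine Finset.mem_filter.2 ⟨hv3, ?_⟩
      rw [Finset.inter_insert_of_mem hv2, hv4]
  have h3 : V.card - (V.image fun v => N v ∩ A).card ≤
      ∑ Y ∈ A.powerset, ((V.filter fun v => N v ∩ A = Y).card - 1) := by
    have h4 : V.card = ∑ Y ∈ V.image (fun v => N v ∩ A),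
        (V.filter fun v => N v ∩ A = Y).card := Finset.card_eq_sum_card_image _ _
    have h5 : ∑ Y ∈ V.image (fun v => N v ∩ A), ((V.filter fun v => N v ∩ A = Y).card - 1) +
        (V.image fun v => N v ∩ A).card = V.card := by
      rw [h4, Finset.card_eq_sum_ones (V.image fun v => N v ∩ A), ← Finset.sum_add_distrib]
      refine Finset.sum_congr rfl fun Y hY => ?_
      obtain ⟨v, hv, rfl⟩ := Finset.mem_image.1 hY
      have h6 : 0 < (V.filter fun w => N w ∩ A = N v ∩ A).card :=
        Finset.card_pos.2 ⟨v, Finset.mem_filter.2 ⟨hv, rfl⟩⟩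
      omega
    have h7 : ∑ Y ∈ V.image (fun v => N v ∩ A), ((V.filter fun v => N v ∩ A = Y).card - 1) ≤
        ∑ Y ∈ A.powerset, ((V.filter fun v => N v ∩ A = Y).card - 1) := by
      refine Finset.sum_le_sum_of_subset ?_
      intro Y hY
      obtain ⟨v, -, rfl⟩ := Finset.mem_image.1 hY
      exact Finset.mem_powerset.2 Finset.inter_subset_right
    omega
  calc K * (V.card - (V.image fun v => N v ∩ A).card)
      ≤ K * ∑ Y ∈ A.powerset, ((V.filter fun v => N v ∩ A = Y).card - 1) :=
        Nat.mul_le_mul_left _ h3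
    _ = ∑ Y ∈ A.powerset, K * ((V.filter fun v => N v ∩ A = Y).card - 1) := Finset.mul_sum _ _ _
    _ ≤ ∑ Y ∈ A.powerset, 2 * ∑ a ∈ Aᶜ, min (V.filter fun v => N v ∩ insert a A = Y).card
          (V.filter fun v => N v ∩ insert a A = insert a Y).card := Finset.sum_le_sum h1
    _ = _ := by rw [← Finset.mul_sum, Finset.sum_comm]

end Pool.Agent.Lib.MP_e05f17_lc
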