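import Pool.Agent.Lib.MP_e05f17_lc.NCB
import Pool.Agent.Lib.MP_e05f17_lc.NCC

/-!
The packing lemma (Haussler) for linear complexity.

PROOF. n = card α, m = V.card. For A with |A| = s let W A = sum over a ∈ A, Y ⊆ A.erase a of
min (w_A Y) (w_A (insert a Y)), w_A Y = (V.filter (N v ∩ A = Y)).card. wt_le: W A ≤ d m (the sum of w_A
over the powerset is m; the Y with w_A Y > 0 are the traces N v ∩ A, and if they shatter B ⊆ A then V.image
N shatters B: N v ∩ A ∩ B = N v ∩ B). Double counting: the pairs (A, a), |A| = s, a ∈ A correspond to the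
pairs (A', a), |A'| = s - 1, a ∉ A' (A' = A.erase a, A = insert a A'; Finset.sum_bij' or sum_sigma'), so
sum over |A| = s of W A = sum over |A'| = s-1 of (sum over a ∉ A', Y ⊆ A' of min ..) and by sep_le twice
this is ≥ C(n, s-1) * K (m - c s) (hc: the number of traces on A' is ≤ c ((s-1)+1)). So
2 C(n,s) d m ≥ C(n,s-1) K (m - c s); multiply by n - s + 1 and use C(n,s-1) (n-s+1) = C(n,s) s
(Nat.choose_succ_right_eq), cancel C(n,s) > 0, n - s + 1 ≤ n.
-/

namespace Pool.Agent.Lib.MP_e05f17_lc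

private theorem NCD_wt {α ι : Type*} [DecidableEq α] [DecidableEq ι] (N : ι → Finset α)
    (V : Finset ι) (d : ℕ)
    (hd : ∀ B : Finset α, B.card = d + 1 → ¬ (V.image N).Shatters B) (A : Finset α) :
    ∑ a ∈ A, ∑ Y ∈ (A.erase a).powerset,
      min (V.filter fun v => N v ∩ A = Y).card (V.filter fun v => N v ∩ A = insert a Y).card ≤
      d * V.card := by
  have h := wt_le A (fun Y => (V.filter fun v => N v ∩ A = Y).card) d (by
    intro B hBA hB hsh
    refine hd B hB fun t ht => ?_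
    obtain ⟨Y, hY, hYt⟩ := hsh ht
    rw [Finset.mem_filter] at hY
    obtain ⟨v, hv⟩ := Finset.card_pos.1 hY.2
    rw [Finset.mem_filter] at hv
    refine ⟨N v, Finset.mem_image_of_mem _ hv.1, ?_⟩
    rw [← hYt, ← hv.2]
    ext x
    simp only [Finset.mem_inter]
    constructor
    · rintro ⟨h1, h2⟩
      exact ⟨h1, h2, hBA h1⟩
    · rintro ⟨h1, h2, _⟩
      exact ⟨h1, h2⟩)
  refine h.trans (le_of_eq ?_)
  rw [← Finset.card_eq_sum_card_fiberwise (f := fun v => N v ∩ A) (t := A.powerset)]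
  intro v _
  exact Finset.mem_coe.2 (Finset.mem_powerset.2 Finset.inter_subset_right)

private theorem NCD_double {α : Type*} [DecidableEq α] [Fintype α] (t : ℕ)
    (F : Finset α → α → ℕ) :
    ∑ A ∈ Finset.powersetCard (t + 1) (Finset.univ : Finset α), ∑ a ∈ A, F (A.erase a) a =
      ∑ A ∈ Finset.powersetCard t (Finset.univ : Finset α), ∑ a ∈ Aᶜ, F A a := by
  rw [Finset.sum_sigma', Finset.sum_sigma']
  refine Finset.sum_nbij' (fun x => ⟨x.1.erase x.2, x.2⟩) (fun x => ⟨insert x.2 x.1, x.2⟩)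
    ?_ ?_ ?_ ?_ ?_
  · rintro ⟨A, a⟩ h
    simp only [Finset.mem_sigma, Finset.mem_powersetCard, Finset.mem_compl] at h ⊢
    refine ⟨⟨Finset.subset_univ _, ?_⟩, Finset.notMem_erase a A⟩
    rw [Finset.card_erase_of_mem h.2, h.1.2]
    rfl
  · rintro ⟨A, a⟩ h
    simp only [Finset.mem_sigma, Finset.mem_powersetCard, Finset.mem_compl] at h ⊢
    refine ⟨⟨Finset.subset_univ _, ?_⟩, Finset.mem_insert_self a A⟩
    rw [Finset.card_insert_of_notMem h.2, h.1.2]
  · rintro ⟨A, a⟩ h
    simp only [Finset.mem_sigma, Finset.mem_powersetCard] at h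
    simp only [Finset.insert_erase h.2]
  · rintro ⟨A, a⟩ h
    simp only [Finset.mem_sigma, Finset.mem_powersetCard, Finset.mem_compl] at h
    simp only [Finset.erase_insert h.2]
  · rintro ⟨A, a⟩ _
    rfl

theorem packing {α ι : Type*} [DecidableEq α] [Fintype α] [DecidableEq ι] (N : ι → Finset α)
    (V : Finset ι) (K c d s : ℕ)
    (hK : ∀ u ∈ V, ∀ v ∈ V, u ≠ v → K ≤ (symmDiff (N u) (N v)).card)
    (hd : ∀ B : Finset α, B.card = d + 1 → ¬ (V.image N).Shatters B)
    (hc : ∀ A : Finset α, (V.image fun v => N v ∩ A).card ≤ c * (A.card + 1))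
    (hs : 1 ≤ s) (hs' : s ≤ Fintype.card α) :
    s * K * (V.card - c * s) ≤ 2 * d * V.card * Fintype.card α := by
  obtain ⟨t, rfl⟩ : ∃ t, s = t + 1 := ⟨s - 1, by omega⟩
  set n := Fintype.card α with hn
  set m := V.card with hm
  set F : Finset α → α → ℕ := fun A a => ∑ Y ∈ A.powerset,
    min (V.filter fun v => N v ∩ insert a A = Y).card
      (V.filter fun v => N v ∩ insert a A = insert a Y).card with hF
  have h1 : ∑ A ∈ Finset.powersetCard (t + 1) (Finset.univ : Finset α), ∑ a ∈ A, F (A.erase a) a ≤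
      n.choose (t + 1) * (d * m) := by
    have h2 : ∀ A ∈ Finset.powersetCard (t + 1) (Finset.univ : Finset α),
        ∑ a ∈ A, F (A.erase a) a ≤ d * m := by
      intro A _
      refine le_trans (le_of_eq ?_) (NCD_wt N V d hd A)
      refine Finset.sum_congr rfl fun a ha => ?_
      simp only [hF, Finset.insert_erase ha]
    refine (Finset.sum_le_card_nsmul _ _ _ h2).trans (le_of_eq ?_)
    rw [Finset.card_powersetCard, Finset.card_univ, smul_eq_mul]
  have h3 : n.choose t * (K * (m - c * (t + 1))) ≤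
      2 * ∑ A ∈ Finset.powersetCard t (Finset.univ : Finset α), ∑ a ∈ Aᶜ, F A a := by
    rw [Finset.mul_sum]
    have h4 : ∀ A ∈ Finset.powersetCard t (Finset.univ : Finset α),
        K * (m - c * (t + 1)) ≤ 2 * ∑ a ∈ Aᶜ, F A a := by
      intro A hA
      rw [Finset.mem_powersetCard] at hA
      refine le_trans ?_ (sep_le N V K hK A)
      apply Nat.mul_le_mul_left
      have h5 := hc A
      rw [hA.2] at h5
      omega
    refine le_trans (le_of_eq ?_) (Finset.card_nsmul_le_sum _ _ _ h4)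
    rw [Finset.card_powersetCard, Finset.card_univ, smul_eq_mul]
  rw [← NCD_double t F] at h3
  have h6 : n.choose t * (K * (m - c * (t + 1))) ≤ 2 * (n.choose (t + 1) * (d * m)) :=
    h3.trans (Nat.mul_le_mul_left 2 h1)
  have h7 : n.choose (t + 1) * (t + 1) = n.choose t * (n - t) := Nat.choose_succ_right_eq n t
  have h8 : 0 < n.choose (t + 1) := Nat.choose_pos hs'
  apply Nat.le_of_mul_le_mul_left _ h8
  calc n.choose (t + 1) * ((t + 1) * K * (m - c * (t + 1)))
      = (n.choose (t + 1) * (t + 1)) * (K * (m - c * (t + 1))) := by ring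
    _ = (n - t) * (n.choose t * (K * (m - c * (t + 1)))) := by rw [h7]; ring
    _ ≤ n * (2 * (n.choose (t + 1) * (d * m))) := Nat.mul_le_mul (Nat.sub_le _ _) h6
    _ = n.choose (t + 1) * (2 * d * m * n) := by ring

end Pool.Agent.Lib.MP_e05f17_lc
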