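import Pool.Agent.Lib.MP_e05f17_lc.Core
import Pool.Agent.Lib.MP_33f9c4_lc.Mpt

/-!
Two general functions in polynomial time.

TOOLS: `PT f` says that f is computable in polynomial time (types with `Enc`). Files PolyTime/Core, Ctrl,
Derived, More, Lists, BinNat (all imported) contain: PT.id, PT.const, PT.fst, PT.snd, PT.pair, .fst',
.snd', PT.comp, PT.congr (pointwise equality), PT.ite (hypothesis PT (fun a => decide (c a))), PT.cond,
PT.and, PT.or, PT.not, PT.eq, PT.le, PT.lt, PT.add, PT.sub, PT.mul, PT.mulConst, PT.addConst, PT.succ,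
PT.pred, PT.cons, PT.append, PT.reverse, PT.length, PT.tail, PT.isNil, PT.head?, PT.drop, PT.range,
PT.map, PT.filter, PT.flatMap, PT.any, PT.all, PT.zipIdx, PT.getElem?, PT.listCases, PT.natCases,
PT.optCases, PT.list1, PT.mapConst, PT.flatMapConst, PT.foldl (size bound for all prefixes),
PT.foldl_add (each step adds a bounded size), PT.iterate, PT.size_le, PB.* for polynomial bounds;
BinNat: BN (binary numbers), BZ (integers): PT.toBN, PT.bnAdd, bnMul, bnDiv, bnMod, bnSum, bnFoldl,
bzAdd, bzMul, bzNeg, bzOfBN, bzFoldl, size_BN_le_of_lt, lt_two_pow_size, size_BZ_le_of_lt; also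
mpt_getD, mpt_take of MP_33f9c4_lc/Mpt.lean. Typical proofs: Mpt.lean, section General. In PT.map etc.
the inner hypothesis is PT (fun x : α × β => g x.1 x.2): give g explicitly (g := fun a b => ...).

PROOFS. pt_find: find? p l = (l.filter p).head? (List.head?_filter): PT.filter and PT.head?.
pt_findGetD: optCases. pt_contains: l.contains x = l.any (fun y => y == x) or
!(l.filter (y == x)).isEmpty: PT.any with PT.eq (decide (y = x)); careful with the direction of ==.
pt_sumBN: the sum of a list of BN values: PT.bnSum. pt_sumBZ: PT.bzFoldl or PT.foldl; the partial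
sums have natAbs ≤ sum of natAbs ≤ length * 2^S if every size is ≤ S.
-/

namespace Pool.Agent.Lib.MP_e05f17_lc

open Pool.Agent.Lib.PolyTime Pool.Agent.Lib.MP_33f9c4_lc

variable {α : Type} [Enc α]

/-- `find?` with a test in polynomial time. -/
theorem pt_find {β : Type} [Enc β] {f : α → List β} {p : α → β → Bool} (hf : PT f)
    (hp : PT (fun x : α × β => p x.1 x.2)) : PT (fun a => (f a).find? (p a)) := by
  refine (PT.head? (PT.filter hf hp)).congr (fun a => ?_)
  rw [List.head?_filter]

/-- `find?` with a default value. -/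
theorem pt_findGetD {β : Type} [Enc β] {f : α → List β} {p : α → β → Bool} (b : β) (hf : PT f)
    (hp : PT (fun x : α × β => p x.1 x.2)) : PT (fun a => ((f a).find? (p a)).getD b) := by
  refine (PT.optCases (g := fun _ : α => b) (h := fun (_ : α) (y : β) => y) (pt_find hf hp)
    (PT.const b) PT.snd).congr (fun a => ?_)
  cases h : (f a).find? (p a) <;> rfl

/-- Membership of numbers in lists. -/
theorem pt_contains {f : α → List ℕ} {g : α → ℕ} (hf : PT f) (hg : PT g) :
    PT (fun a => (f a).contains (g a)) := by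
  have h1 : PT (fun x : α × ℕ => decide (x.2 = g x.1)) :=
    PT.eq PT.snd (PT.comp (g := g) hg PT.fst)
  refine (PT.any (p := fun (a : α) (y : ℕ) => decide (y = g a)) hf h1).congr (fun a => ?_)
  rw [Bool.eq_iff_iff, List.any_eq_true, List.contains_iff_mem]
  constructor
  · rintro ⟨y, hy, hy2⟩
    rw [decide_eq_true_eq] at hy2
    rwa [← hy2]
  · intro h
    exact ⟨g a, h, by simp⟩

/-- Sums of integers. -/
theorem pt_sumBZ {β : Type} [Enc β] {f : α → List β} {g : α → β → ℤ} (hf : PT f)
    (hg : PT (fun x : α × β => (⟨g x.1 x.2⟩ : BZ))) :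
    PT (fun a => (⟨((f a).map (g a)).sum⟩ : BZ)) := by
  have h1 : PT (fun x : α × β => (⟨(g x.1 x.2).toNat⟩ : BN)) := PT.bzToBN hg
  have h2 : PT (fun x : α × β => (⟨(-(g x.1 x.2)).toNat⟩ : BN)) := PT.bzToBN (PT.bzNeg hg)
  have h3 := PT.bnSum (f := f) (g := fun (a : α) (b : β) => (⟨(g a b).toNat⟩ : BN)) hf h1
  have h4 := PT.bnSum (f := f) (g := fun (a : α) (b : β) => (⟨(-(g a b)).toNat⟩ : BN)) hf h2
  refine (PT.bzSub (PT.bzOfBN h3) (PT.bzOfBN h4)).congr (fun a => BZ.ext' ?_)
  simp only
  induction f a with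
  | nil => simp
  | cons b l ih =>
    rw [List.map_cons, List.map_cons, List.map_cons, List.sum_cons, List.sum_cons, List.sum_cons,
      ← ih]
    push_cast
    have h5 := Int.toNat_sub_toNat_neg (g a b)
    linarith

end Pool.Agent.Lib.MP_e05f17_lc
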