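import Pool.Agent.Lib.MP_e05f17_lc.Core

/-!
Lists of disjoint pairs with the vertices that distinguish them.
-/

namespace Pool.Agent.Lib.MP_e05f17_lc

/-- A list of disjoint pairs with the lists of the vertices that distinguish them. -/
structure Pairs (A : ℕ → ℕ → Bool) (n s t c : ℕ) (L : List Blk) : Prop where
  nodup : (L.flatMap fun b => [b.1.1, b.1.2]).Nodup
  lt : ∀ b ∈ L, b.1.1 < n ∧ b.1.2 < n
  avoid : ∀ b ∈ L, b.1.1 ≠ s ∧ b.1.1 ≠ t ∧ b.1.2 ≠ s ∧ b.1.2 ≠ t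
  mem : ∀ b ∈ L, ∀ x, x ∈ b.2 ↔ x < n ∧ x ≠ b.1.1 ∧ x ≠ b.1.2 ∧ A b.1.1 x ≠ A b.1.2 x
  nodup' : ∀ b ∈ L, b.2.Nodup
  le : ∀ b ∈ L, b.2.length ≤ c

end Pool.Agent.Lib.MP_e05f17_lc
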