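import Pool.Agent.Lib.MP_e05f17_lc.Core
import Pool.Agent.Lib.MP_e05f17_lc.Stmt

/-!
Paths with `k` steps as injective sequences.

PROOF. Map a path p of length k to the function i ↦ (p.getVert i : ℕ), Fin (k+1) → ℕ. It lies in
inj (range n) s t k (values < n; injective: IsPath and getVert: SimpleGraph.Walk.IsPath.getVert_injOn;
getVert_zero; getVert_length) and is a walk for A (hA and SimpleGraph.Walk.adj_getVert_succ).
Injective: two walks with the same getVert function and the same length are equal
(SimpleGraph.Walk.ext_getVert_le_length or ext_getVert / ext_support). Surjective: for q in inj with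
IsWalk, build by induction on k a walk in G from q 0 to q last with getVert i = q i (define
f : Fin (k+1) → Fin n with f i = q i; statement: for every k and f : Fin (k+1) → Fin n with
G.Adj (f i.castSucc) (f i.succ) there is a walk w : G.Walk (f 0) (f last) with w.length = k and
w.getVert i = f i for all i ≤ k: cons of the walk for Fin.tail f), it is a path as q is injective
(SimpleGraph.Walk.isPath_def, support = List.ofFn f, or IsPath from injectivity of getVert on ≤ length:
SimpleGraph.Walk.IsPath.... isPath_iff_injective...). Then Nat.card of the subtype = card of the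
finset: Nat.card_eq_of_bijective or Nat.card_congr with an Equiv to {q // q ∈ finset},
Nat.card_eq_fintype_card, Fintype.card_coe.
-/

namespace Pool.Agent.Lib.MP_e05f17_lc

private theorem pathA_build {n : ℕ} (G : SimpleGraph (Fin n)) : ∀ (k : ℕ) (f : Fin (k + 1) → Fin n)
    (a b : Fin n), f 0 = a → f (Fin.last k) = b →
    (∀ i : Fin k, G.Adj (f i.castSucc) (f i.succ)) →
    ∃ w : G.Walk a b, w.length = k ∧ ∀ i : Fin (k + 1), w.getVert i = f i := by
  intro k
  induction k with
  | zero =>
    intro f a b ha hb _
    have hab : a = b := by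
      rw [← ha, ← hb]
      rfl
    subst hab
    refine ⟨SimpleGraph.Walk.nil, rfl, fun i => ?_⟩
    have hi : i = 0 := Fin.ext (Nat.lt_one_iff.1 i.2)
    rw [hi, ha]
    rfl
  | succ k ih =>
    intro f a b ha hb hf
    obtain ⟨w, hw, hv⟩ := ih (fun i => f i.succ) (f (Fin.succ 0)) b rfl
      (by rw [← hb]; rfl) (fun i => hf i.succ)
    have h0 : G.Adj a (f (Fin.succ 0)) := by
      have h1 := hf 0
      rw [← ha]
      exact h1
    refine ⟨SimpleGraph.Walk.cons h0 w, by rw [SimpleGraph.Walk.length_cons, hw], fun i => ?_⟩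
    refine Fin.cases ?_ (fun j => ?_) i
    · rw [ha]
      rfl
    · exact hv j

private theorem pathA_mem {n : ℕ} (G : SimpleGraph (Fin n)) (s t : Fin n) (A : ℕ → ℕ → Bool)
    (hA : ∀ i j : Fin n, A i j = true ↔ G.Adj i j) (k : ℕ) (p : G.Walk s t) (hp : p.IsPath)
    (hl : p.length = k) :
    (fun i : Fin (k + 1) => ((p.getVert (i : ℕ) : Fin n) : ℕ)) ∈
      (inj (Finset.range n) s t k).filter fun q => IsWalk A q := by
  rw [Finset.mem_filter, inj, Finset.mem_filter, Fintype.mem_piFinset]
  refine ⟨⟨fun i => Finset.mem_range.2 (p.getVert i).2, ?_, ?_, ?_⟩, ?_⟩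
  · intro i j hij
    have h1 : p.getVert (i : ℕ) = p.getVert (j : ℕ) := Fin.ext hij
    have hi : (i : ℕ) ≤ p.length := by
      have := i.2
      omega
    have hj : (j : ℕ) ≤ p.length := by
      have := j.2
      omega
    exact Fin.ext (hp.getVert_injOn hi hj h1)
  · show ((p.getVert ((0 : Fin (k + 1)) : ℕ) : Fin n) : ℕ) = s
    rw [Fin.val_zero, SimpleGraph.Walk.getVert_zero]
  · show ((p.getVert ((Fin.last k : Fin (k + 1)) : ℕ) : Fin n) : ℕ) = t
    rw [Fin.val_last, ← hl, SimpleGraph.Walk.getVert_length]
  · intro i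
    refine (hA _ _).2 ?_
    have h1 := p.adj_getVert_succ (i := (i : ℕ)) (by
      have := i.2
      omega)
    exact h1

theorem pathCount_len {n : ℕ} (G : SimpleGraph (Fin n)) (s t : Fin n) (A : ℕ → ℕ → Bool)
    (hA : ∀ i j : Fin n, A i j = true ↔ G.Adj i j) (k : ℕ) :
    Nat.card {p : G.Walk s t // p.IsPath ∧ p.length = k} = PC A (Finset.range n) s t k := by
  classical
  have key : Function.Bijective (fun p : {p : G.Walk s t // p.IsPath ∧ p.length = k} =>
      (⟨fun i : Fin (k + 1) => ((p.1.getVert (i : ℕ) : Fin n) : ℕ),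
        pathA_mem G s t A hA k p.1 p.2.1 p.2.2⟩ :
        {q // q ∈ (inj (Finset.range n) s t k).filter fun q => IsWalk A q})) := by
    constructor
    · rintro ⟨p, hp, hl⟩ ⟨q, hq, hl'⟩ h
      apply Subtype.ext
      have h1 := congrArg Subtype.val h
      refine SimpleGraph.Walk.ext_getVert_le_length (hl.trans hl'.symm) fun j hj => Fin.ext ?_
      have h2 := congrFun h1 ⟨j, by
        have hj' : j ≤ p.length := hj
        omega⟩
      exact h2
    · rintro ⟨q, hq⟩
      have hq' := hq
      rw [Finset.mem_filter, inj, Finset.mem_filter, Fintype.mem_piFinset] at hq'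
      obtain ⟨⟨h1, h2, h3, h4⟩, h5⟩ := hq'
      obtain ⟨w, hw, hv⟩ := pathA_build G k (fun i => ⟨q i, Finset.mem_range.1 (h1 i)⟩) s t
        (Fin.ext h3) (Fin.ext h4) (fun i => (hA _ _).1 (h5 i))
      have hpath : w.IsPath := by
        rw [← SimpleGraph.Walk.IsPath.getVert_injOn_iff]
        intro i hi j hj hij
        have hi' : i ≤ w.length := hi
        have hj' : j ≤ w.length := hj
        have e1 := hv ⟨i, by omega⟩
        have e2 := hv ⟨j, by omega⟩
        have e3 : w.getVert i = w.getVert j := hij
        have e4 : q ⟨i, by omega⟩ = q ⟨j, by omega⟩ :=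
          congrArg Fin.val ((e1.symm.trans e3).trans e2)
        exact congrArg Fin.val (h2 e4)
      refine ⟨⟨w, hpath, hw⟩, ?_⟩
      apply Subtype.ext
      funext i
      exact congrArg Fin.val (hv i)
  rw [Nat.card_eq_of_bijective _ key, Nat.card_eq_fintype_card, Fintype.card_coe, PC]

end Pool.Agent.Lib.MP_e05f17_lc
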