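import Pool.Agent.Lib.MP_e05f17_lc.PTA

/-!
Reading the input in polynomial time.

TOOLS: `PT f` says that f is computable in polynomial time (types with `Enc`). Files PolyTime/Core, Ctrl,
Derived, More, Lists, BinNat (all imported) contain: PT.id, PT.const, PT.fst, PT.snd, PT.pair, .fst',
.snd', PT.comp, PT.congr (pointwise equality), PT.ite (hypothesis PT (fun a => decide (c a))), PT.cond,
PT.and, PT.or, PT.not, PT.eq, PT.le, PT.lt, PT.add, PT.sub, PT.mul, PT.mulConst, PT.addConst, PT.succ,
PT.pred, PT.cons, PT.append, PT.reverse, PT.length, PT.tail, PT.isNil, PT.head?, PT.drop, PT.range,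
PT.map, PT.filter, PT.flatMap, PT.any, PT.all, PT.zipIdx, PT.getElem?, PT.listCases, PT.natCases,
PT.optCases, PT.list1, PT.mapConst, PT.flatMapConst, PT.foldl (size bound for all prefixes),
PT.foldl_add (each step adds a bounded size), PT.iterate, PT.size_le, PB.* for polynomial bounds;
BinNat: BN (binary numbers), BZ (integers): PT.toBN, PT.bnAdd, bnMul, bnDiv, bnMod, bnSum, bnFoldl,
bzAdd, bzMul, bzNeg, bzOfBN, bzFoldl, size_BN_le_of_lt, lt_two_pow_size, size_BZ_le_of_lt; also
mpt_getD, mpt_take of MP_33f9c4_lc/Mpt.lean. Typical proofs: Mpt.lean, section General. In PT.map etc.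
the inner hypothesis is PT (fun x : α × β => g x.1 x.2): give g explicitly (g := fun a b => ...).

PROOFS. nOf: pt_findGetD over PT.range of (length + 1), test n * (n + 3) == length (PT.mul, PT.eq; == on
ℕ is decide of =, use PT.congr). ent: mpt_getD with PT.mul, PT.add. adjB: PT.and, PT.lt. sOf, tOf:
pt_findGetD over PT.range. lenB: PT.le, PT.pred. Tip: prove PT (fun d => nOf d) first and compose
(PT.comp) with hf; for functions of several arguments compose the function on the product
(fun x : List Bool × (ℕ × ℕ) => ent x.1 x.2.1 x.2.2) with PT.pair.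
-/

namespace Pool.Agent.Lib.MP_e05f17_lc

open Pool.Agent.Lib.PolyTime Pool.Agent.Lib.MP_33f9c4_lc

variable {α : Type} [Enc α]

theorem pt_nOf {f : α → List Bool} (hf : PT f) : PT (fun a => nOf (f a)) := by
  have h1 : PT (fun d : List Bool => nOf d) := by
    have hlen : PT (fun d : List Bool => d.length) := PT.length PT.id
    have hp : PT (fun x : List Bool × ℕ => decide (x.2 * (x.2 + 3) = x.1.length)) :=
      PT.eq (PT.mul PT.snd (PT.addConst PT.snd 3)) (PT.length PT.fst)
    exact (pt_findGetD (f := fun d : List Bool => List.range (d.length + 1))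
      (p := fun d n => decide (n * (n + 3) = d.length)) 0
      (PT.range (PT.addConst hlen 1)) hp).congr (fun d => rfl)
  exact h1.comp hf

theorem pt_ent {f : α → List Bool} {g h : α → ℕ} (hf : PT f) (hg : PT g) (hh : PT h) :
    PT (fun a => ent (f a) (g a) (h a)) :=
  mpt_getD hf (PT.add (PT.mul hg (PT.addConst (pt_nOf hf) 3)) hh) false

theorem pt_adjB {f : α → List Bool} {g h : α → ℕ} (hf : PT f) (hg : PT g) (hh : PT h) :
    PT (fun a => adjB (f a) (g a) (h a)) :=
  PT.and (PT.and (PT.lt hg (pt_nOf hf)) (PT.lt hh (pt_nOf hf))) (pt_ent hf hg hh)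

theorem pt_sOf {f : α → List Bool} (hf : PT f) : PT (fun a => sOf (f a)) := by
  have h1 : PT (fun d : List Bool => sOf d) := by
    have hp : PT (fun x : List Bool × ℕ => ent x.1 x.2 (nOf x.1)) :=
      pt_ent PT.fst PT.snd (pt_nOf PT.fst)
    exact pt_findGetD (f := fun d : List Bool => List.range (nOf d))
      (p := fun d i => ent d i (nOf d)) 0 (PT.range (pt_nOf PT.id)) hp
  exact h1.comp hf

theorem pt_tOf {f : α → List Bool} (hf : PT f) : PT (fun a => tOf (f a)) := by
  have h1 : PT (fun d : List Bool => tOf d) := by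
    have hp : PT (fun x : List Bool × ℕ => ent x.1 x.2 (nOf x.1 + 1)) :=
      pt_ent PT.fst PT.snd (PT.addConst (pt_nOf PT.fst) 1)
    exact pt_findGetD (f := fun d : List Bool => List.range (nOf d))
      (p := fun d i => ent d i (nOf d + 1)) 0 (PT.range (pt_nOf PT.id)) hp
  exact h1.comp hf

theorem pt_lenB {f : α → List Bool} {g : α → ℕ} (hf : PT f) (hg : PT g) :
    PT (fun a => lenB (f a) (g a)) :=
  PT.and (PT.and (PT.le (PT.const 1) hg) (PT.le hg (pt_nOf hf)))
    (pt_ent hf (PT.pred hg) (PT.addConst (pt_nOf hf) 2))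

end Pool.Agent.Lib.MP_e05f17_lc
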