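import Pool.Agent.Lib.MP_e05f17_lc.Pairs

/-!
The selected blocks are good.

PROOFS. Invariant of the foldl of sstep over L with accumulator (U, T) (generalized in an induction from
the left: List.foldl_induction style, e.g. prove for all lists L' ⊆ L and accumulators with the
invariant): s, t ∈ U; every vertex of every block of T is in U; T.flatMap verts is Nodup; every b ∈ T is
trim H b' for some b' ∈ L with b'.1.1, b'.1.2 ∉ H; verts of b ∈ T avoid s, t, H and are < n. Step: a block
is added only if no vertex of verts (trim H b) is in U (so it is disjoint from the previous ones and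
from s, t) and b.1.1, b.1.2 ∉ H; verts (trim H b) is Nodup: b.1.1 ≠ b.1.2 (h.nodup), both not in b.2
(h.mem), b.2 Nodup (h.nodup'). Vertices < n by h.lt, h.mem; not in H: filter. twin: x ∉ verts b,
x ∉ H: then x ∉ b'.2 and x ≠ u, v, so A u x = A v x if x < n by h.mem; if x ≥ n both are false (hA.symm,
hA.lt). sel_le: (trim H b').2 is a filter of b'.2.
-/

namespace Pool.Agent.Lib.MP_e05f17_lc

variable {A : ℕ → ℕ → Bool} {n s t c : ℕ} {L : List Blk}

private theorem SelA_foldl {α β : Type*} (f : β → α → β) (P : β → Prop) (l : List α) (b : β)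
    (hb : P b) (hs : ∀ b a, a ∈ l → P b → P (f b a)) : P (l.foldl f b) := by
  induction l generalizing b with
  | nil => exact hb
  | cons a l ih =>
    rw [List.foldl_cons]
    exact ih (f b a) (hs b a (List.mem_cons_self ..) hb) fun b' a' h' =>
      hs b' a' (List.mem_cons_of_mem _ h')

/-- the invariant of the selection -/
private structure SelAInv (H : List ℕ) (s t : ℕ) (L : List Blk) (acc : List ℕ × List Blk) : Prop where
  hs : s ∈ acc.1
  ht : t ∈ acc.1
  sub : ∀ b ∈ acc.2, ∀ x ∈ verts b, x ∈ acc.1
  ne : ∀ b ∈ acc.2, ∀ x ∈ verts b, x ≠ s ∧ x ≠ t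
  nodup : (acc.2.flatMap verts).Nodup
  src : ∀ b ∈ acc.2, ∃ b' ∈ L, b = trim H b' ∧ b'.1.1 ∉ H ∧ b'.1.2 ∉ H

private theorem SelA_nodup (h : Pairs A n s t c L) (H : List ℕ) {b : Blk} (hb : b ∈ L) :
    (verts (trim H b)).Nodup := by
  have h1 := (List.nodup_flatMap.1 h.nodup).1 b hb
  have h2 : b.1.1 ≠ b.1.2 := by simpa using h1
  have h3 : b.1.1 ∉ b.2 := fun h' => ((h.mem b hb b.1.1).1 h').2.1 rfl
  have h4 : b.1.2 ∉ b.2 := fun h' => ((h.mem b hb b.1.2).1 h').2.2.1 rfl
  have h5 : (b.2.filter fun x => !H.contains x).Nodup := (h.nodup' b hb).filter _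
  change (b.1.1 :: b.1.2 :: b.2.filter fun x => !H.contains x).Nodup
  rw [List.nodup_cons, List.nodup_cons]
  refine ⟨?_, ?_, h5⟩
  · intro h'
    rw [List.mem_cons] at h'
    rcases h' with h' | h'
    · exact h2 h'
    · exact h3 (List.mem_filter.1 h').1
  · intro h'
    exact h4 (List.mem_filter.1 h').1

private theorem SelA_inv (h : Pairs A n s t c L) (H : List ℕ) :
    SelAInv H s t L (L.foldl (sstep H) ([s, t], [])) := by
  refine SelA_foldl (sstep H) (SelAInv H s t L) L ([s, t], []) ?_ ?_
  · refine ⟨by simp, by simp, ?_, ?_, ?_, ?_⟩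
    · intro b hb
      exact absurd hb List.not_mem_nil
    · intro b hb
      exact absurd hb List.not_mem_nil
    · exact List.nodup_nil
    · intro b hb
      exact absurd hb List.not_mem_nil
  · intro acc b hb hI
    unfold sstep
    split_ifs with hcond
    · exact hI
    · have hc1 : b.1.1 ∉ H := by
        intro h'
        apply hcond
        simp [h']
      have hc2 : b.1.2 ∉ H := by
        intro h'
        apply hcond
        simp [h']
      have hc3 : ∀ x ∈ verts (trim H b), x ∉ acc.1 := by
        intro x hx h'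
        apply hcond
        rw [Bool.or_eq_true]
        right
        rw [List.any_eq_true]
        exact ⟨x, hx, by simpa using h'⟩
      refine ⟨?_, ?_, ?_, ?_, ?_, ?_⟩
      · exact List.mem_append_right _ hI.hs
      · exact List.mem_append_right _ hI.ht
      · intro b' hb' x hx
        rw [List.mem_cons] at hb'
        rcases hb' with rfl | hb'
        · exact List.mem_append_left _ hx
        · exact List.mem_append_right _ (hI.sub b' hb' x hx)
      · intro b' hb' x hx
        rw [List.mem_cons] at hb'
        rcases hb' with rfl | hb'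
        · refine ⟨?_, ?_⟩
          · rintro rfl
            exact hc3 x hx hI.hs
          · rintro rfl
            exact hc3 x hx hI.ht
        · exact hI.ne b' hb' x hx
      · change ((trim H b :: acc.2).flatMap verts).Nodup
        rw [List.flatMap_cons, List.nodup_append]
        refine ⟨SelA_nodup h H hb, hI.nodup, ?_⟩
        intro x hx y hy hxy
        subst hxy
        rw [List.mem_flatMap] at hy
        obtain ⟨b', hb', hx'⟩ := hy
        exact hc3 x hx (hI.sub b' hb' x hx')
      · intro b' hb'
        rw [List.mem_cons] at hb'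
        rcases hb' with rfl | hb'
        · exact ⟨b, hb, rfl, hc1, hc2⟩
        · exact hI.src b' hb'

theorem sel_good (hA : Adj A n) (h : Pairs A n s t c L) (H : List ℕ) :
    Good A n s t H (sel s t H L) := by
  have hI := SelA_inv h H
  refine ⟨hI.nodup, ?_, ?_⟩
  · intro b hb x hx
    obtain ⟨h1, h2⟩ := hI.ne b hb x hx
    obtain ⟨b', hb', rfl, h3, h4⟩ := hI.src b hb
    change x ∈ b'.1.1 :: b'.1.2 :: (b'.2.filter fun x => !H.contains x) at hx
    rw [List.mem_cons, List.mem_cons, List.mem_filter] at hx
    rcases hx with rfl | rfl | ⟨hx, hx'⟩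
    · exact ⟨(h.lt b' hb').1, h1, h2, h3⟩
    · exact ⟨(h.lt b' hb').2, h1, h2, h4⟩
    · exact ⟨((h.mem b' hb' x).1 hx).1, h1, h2, by simpa using hx'⟩
  · intro b hb x hx hxH
    obtain ⟨b', hb', rfl, _, _⟩ := hI.src b hb
    change x ∉ b'.1.1 :: b'.1.2 :: (b'.2.filter fun x => !H.contains x) at hx
    rw [List.mem_cons, List.mem_cons, List.mem_filter] at hx
    push Not at hx
    obtain ⟨h1, h2, h3⟩ := hx
    change A b'.1.1 x = A b'.1.2 x
    by_cases hxn : x < n
    · by_contra hne
      have h4 : x ∈ b'.2 := (h.mem b' hb' x).2 ⟨hxn, h1, h2, hne⟩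
      exact h3 h4 (by simpa using hxH)
    · have h5 : ∀ u, A u x = false := by
        intro u
        by_contra hne
        have h6 : A u x = true := by simpa using hne
        rw [hA.symm] at h6
        exact hxn (hA.lt x u h6)
      rw [h5, h5]

theorem sel_le (h : Pairs A n s t c L) (H : List ℕ) : ∀ b ∈ sel s t H L, b.2.length ≤ c := by
  intro b hb
  obtain ⟨b', hb', rfl, _, _⟩ := (SelA_inv h H).src b hb
  exact (List.length_filter_le _ _).trans (h.le b' hb')

end Pool.Agent.Lib.MP_e05f17_lc
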