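import Pool.Agent.Lib.MP_e05f17_lc.Pairs

/-!
The number of selected blocks.

PROOF. H = hubs n L (K+1): x ∈ H iff x < n and x is in b.2 for at least K + 1 blocks b of L (mult). Let U be
the final first component of the foldl of sstep, U.length ≤ (c+2) * (sel ..).length + 2 (each added block
adds verts (trim H b), of length ≤ c + 2; start [s, t]). For every b ∈ L: (1) b.1.1 ∈ H or b.1.2 ∈ H, or
(2) some x ∈ verts (trim H b) is in U (either it was in U when b was processed and U only grows, or b was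
added). Assign to b in case (1) that element of H: injective as the pairs are disjoint (h.nodup), so at
most H.length blocks. In case (2) assign x ∈ U: every x is assigned to at most K + 1 blocks:
x ∈ [b.1.1, b.1.2] for at most one b, and x ∈ b.2 with x ∉ H for at most K blocks b if x ∉ H and x < n
(mult L x < K + 1). Everything is counted with List.countP.
-/

namespace Pool.Agent.Lib.MP_e05f17_lc

variable {A : ℕ → ℕ → Bool} {n s t c : ℕ} {L : List Blk}

private theorem SelB_sstep_mono (H : List ℕ) (acc : List ℕ × List Blk) (b : Blk) {x : ℕ}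
    (hx : x ∈ acc.1) : x ∈ (sstep H acc b).1 := by
  unfold sstep
  split_ifs
  · exact hx
  · exact List.mem_append_right _ hx

private theorem SelB_foldl_mono (H : List ℕ) (L : List Blk) : ∀ (acc : List ℕ × List Blk) {x : ℕ},
    x ∈ acc.1 → x ∈ (L.foldl (sstep H) acc).1 := by
  induction L with
  | nil => intro acc x hx; exact hx
  | cons b L ih =>
    intro acc x hx
    exact ih _ (SelB_sstep_mono H acc b hx)

private theorem SelB_len (H : List ℕ) {c : ℕ} (L : List Blk) (hL : ∀ b ∈ L, b.2.length ≤ c) :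
    ∀ acc : List ℕ × List Blk, acc.1.length ≤ (c + 2) * acc.2.length + 2 →
      (L.foldl (sstep H) acc).1.length ≤ (c + 2) * (L.foldl (sstep H) acc).2.length + 2 := by
  induction L with
  | nil => intro acc h; exact h
  | cons b L ih =>
    intro acc h
    refine ih (fun b' hb' => hL b' (List.mem_cons_of_mem _ hb')) _ ?_
    unfold sstep
    split_ifs
    · exact h
    · have h1 : (trim H b).2.length ≤ c :=
        (List.length_filter_le _ _).trans (hL b List.mem_cons_self)
      simp only [List.length_append, List.length_cons, verts, Nat.mul_add]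
      omega

private theorem SelB_cover (H : List ℕ) (L : List Blk) : ∀ (acc : List ℕ × List Blk), ∀ b ∈ L,
    (b.1.1 ∈ H ∨ b.1.2 ∈ H) ∨ ∃ x ∈ (L.foldl (sstep H) acc).1, x ∈ verts (trim H b) := by
  induction L with
  | nil => intro acc b hb; exact absurd hb List.not_mem_nil
  | cons b' L ih =>
    intro acc b hb
    rcases List.mem_cons.1 hb with rfl | hb
    · by_cases h1 : b.1.1 ∈ H ∨ b.1.2 ∈ H
      · exact Or.inl h1
      · right
        rw [not_or] at h1
        have h2 : ∃ x ∈ (sstep H acc b).1, x ∈ verts (trim H b) := by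
          unfold sstep
          split_ifs with h3
          · simp only [List.contains_iff_mem, Bool.or_eq_true, List.any_eq_true, h1.1, h1.2,
              false_or] at h3
            obtain ⟨x, hx, hx'⟩ := h3
            exact ⟨x, hx', hx⟩
          · exact ⟨b.1.1, List.mem_append_left _ (List.mem_cons_self), List.mem_cons_self⟩
        obtain ⟨x, hx, hx'⟩ := h2
        exact ⟨x, SelB_foldl_mono H L _ hx, hx'⟩
    · exact ih _ b hb

open Classical in
/-- the number of the members of the list with the property `P` -/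
private noncomputable def SelB_cnt {α : Type} (P : α → Prop) : List α → ℕ
  | [] => 0
  | a :: L => (if P a then 1 else 0) + SelB_cnt P L

private theorem SelB_cons {α : Type} (P : α → Prop) (a : α) (L : List α) :
    (P a ∧ SelB_cnt P (a :: L) = 1 + SelB_cnt P L) ∨
      (¬ P a ∧ SelB_cnt P (a :: L) = SelB_cnt P L) := by
  classical
  by_cases h : P a
  · left
    exact ⟨h, by rw [SelB_cnt, if_pos h]⟩
  · right
    exact ⟨h, by rw [SelB_cnt, if_neg h, Nat.zero_add]⟩

private theorem SelB_mono {α : Type} {P Q : α → Prop} (L : List α) (h : ∀ a ∈ L, P a → Q a) :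
    SelB_cnt P L ≤ SelB_cnt Q L := by
  induction L with
  | nil => exact le_rfl
  | cons a L ih =>
    have h1 := ih fun b hb => h b (List.mem_cons_of_mem _ hb)
    have h2 := h a List.mem_cons_self
    rcases SelB_cons P a L with ⟨h3, h4⟩ | ⟨h3, h4⟩
    · rcases SelB_cons Q a L with ⟨h5, h6⟩ | ⟨h5, h6⟩
      · omega
      · exact absurd (h2 h3) h5
    · rcases SelB_cons Q a L with ⟨h5, h6⟩ | ⟨h5, h6⟩ <;> omega

private theorem SelB_zero {α : Type} {P : α → Prop} (L : List α) (h : ∀ a ∈ L, ¬ P a) :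
    SelB_cnt P L = 0 := by
  induction L with
  | nil => rfl
  | cons a L ih =>
    have h1 := ih fun b hb => h b (List.mem_cons_of_mem _ hb)
    rcases SelB_cons P a L with ⟨h3, h4⟩ | ⟨h3, h4⟩
    · exact absurd h3 (h a List.mem_cons_self)
    · omega

private theorem SelB_all {α : Type} {P : α → Prop} (L : List α) (h : ∀ a ∈ L, P a) :
    SelB_cnt P L = L.length := by
  induction L with
  | nil => rfl
  | cons a L ih =>
    have h1 := ih fun b hb => h b (List.mem_cons_of_mem _ hb)
    rcases SelB_cons P a L with ⟨h3, h4⟩ | ⟨h3, h4⟩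
    · rw [List.length_cons]
      omega
    · exact absurd (h a List.mem_cons_self) h3

private theorem SelB_or {α : Type} (L : List α) (P Q : α → Prop) :
    SelB_cnt (fun b => P b ∨ Q b) L ≤ SelB_cnt P L + SelB_cnt Q L := by
  induction L with
  | nil => exact le_rfl
  | cons a L ih =>
    rcases SelB_cons (fun b => P b ∨ Q b) a L with ⟨h3, h4⟩ | ⟨h3, h4⟩
    · rcases SelB_cons P a L with ⟨h5, h6⟩ | ⟨h5, h6⟩
      · rcases SelB_cons Q a L with ⟨h7, h8⟩ | ⟨h7, h8⟩ <;> omega
      · rcases SelB_cons Q a L with ⟨h7, h8⟩ | ⟨h7, h8⟩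
        · omega
        · exact absurd (h3.resolve_left h5) h7
    · rcases SelB_cons P a L with ⟨h5, h6⟩ | ⟨h5, h6⟩ <;>
        rcases SelB_cons Q a L with ⟨h7, h8⟩ | ⟨h7, h8⟩ <;> omega

private theorem SelB_filter {α : Type} {P : α → Prop} (p : α → Bool) (L : List α)
    (h : ∀ a ∈ L, P a → p a = true) : SelB_cnt P L ≤ (L.filter p).length := by
  induction L with
  | nil => exact le_rfl
  | cons a L ih =>
    have h1 := ih fun b hb => h b (List.mem_cons_of_mem _ hb)
    have h2 := h a List.mem_cons_self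
    rcases SelB_cons P a L with ⟨h3, h4⟩ | ⟨h3, h4⟩
    · rw [List.filter_cons_of_pos (h2 h3), List.length_cons]
      omega
    · rw [List.filter_cons]
      split_ifs
      · rw [List.length_cons]
        omega
      · omega

private theorem SelB_ex {α : Type} (L : List α) (U : List ℕ) (Q : ℕ → α → Prop) {m : ℕ}
    (h : ∀ x ∈ U, SelB_cnt (Q x) L ≤ m) :
    SelB_cnt (fun b => ∃ x ∈ U, Q x b) L ≤ m * U.length := by
  induction U with
  | nil =>
    rw [SelB_zero L fun b _ hb => by
      obtain ⟨x, hx, -⟩ := hb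
      exact List.not_mem_nil hx]
    exact Nat.zero_le _
  | cons x U ih =>
    have h1 : SelB_cnt (fun b => ∃ y ∈ x :: U, Q y b) L ≤
        SelB_cnt (Q x) L + SelB_cnt (fun b => ∃ y ∈ U, Q y b) L := by
      refine le_trans (SelB_mono L ?_) (SelB_or L (Q x) fun b => ∃ y ∈ U, Q y b)
      rintro b _ ⟨y, hy, hQ⟩
      rcases List.mem_cons.1 hy with rfl | hy
      · exact Or.inl hQ
      · exact Or.inr ⟨y, hy, hQ⟩
    have h2 := ih fun y hy => h y (List.mem_cons_of_mem _ hy)
    have h3 := h x List.mem_cons_self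
    rw [List.length_cons, Nat.mul_succ]
    omega

private theorem SelB_pairs (L : List Blk) (P : ℕ → Prop) :
    SelB_cnt (fun b : Blk => P b.1.1 ∨ P b.1.2) L ≤
      SelB_cnt P (L.flatMap fun b => [b.1.1, b.1.2]) := by
  induction L with
  | nil => exact le_rfl
  | cons a L ih =>
    have e : ((a :: L).flatMap fun b : Blk => [b.1.1, b.1.2]) =
        a.1.1 :: a.1.2 :: (L.flatMap fun b => [b.1.1, b.1.2]) := rfl
    rw [e]
    rcases SelB_cons P a.1.1 (a.1.2 :: (L.flatMap fun b => [b.1.1, b.1.2])) with ⟨h1, h2⟩ | ⟨h1, h2⟩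
    · rcases SelB_cons P a.1.2 (L.flatMap fun b => [b.1.1, b.1.2]) with ⟨h3, h4⟩ | ⟨h3, h4⟩ <;>
        rcases SelB_cons (fun b : Blk => P b.1.1 ∨ P b.1.2) a L with ⟨h5, h6⟩ | ⟨h5, h6⟩ <;> omega
    · rcases SelB_cons P a.1.2 (L.flatMap fun b => [b.1.1, b.1.2]) with ⟨h3, h4⟩ | ⟨h3, h4⟩
      · rcases SelB_cons (fun b : Blk => P b.1.1 ∨ P b.1.2) a L with ⟨h5, h6⟩ | ⟨h5, h6⟩ <;> omega
      · rcases SelB_cons (fun b : Blk => P b.1.1 ∨ P b.1.2) a L with ⟨h5, h6⟩ | ⟨h5, h6⟩
        · exact absurd (h5.resolve_left h1) h3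
        · omega

private theorem SelB_case1 (h : Pairs A n s t c L) (H : List ℕ) :
    SelB_cnt (fun b : Blk => b.1.1 ∈ H ∨ b.1.2 ∈ H) L ≤ H.length := by
  refine (SelB_pairs L fun x => x ∈ H).trans ?_
  refine (SelB_filter (fun x => decide (x ∈ H)) _ fun a _ ha => by simpa using ha).trans ?_
  refine (List.subperm_of_subset (h.nodup.filter _) ?_).length_le
  intro x hx
  rw [List.mem_filter, decide_eq_true_eq] at hx
  exact hx.2

private theorem SelB_case2 (h : Pairs A n s t c L) (K x : ℕ) :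
    SelB_cnt (fun b : Blk => ¬ (b.1.1 ∈ hubs n L (K + 1) ∨ b.1.2 ∈ hubs n L (K + 1)) ∧
      x ∈ verts (trim (hubs n L (K + 1)) b)) L ≤ K + 1 := by
  set H := hubs n L (K + 1) with hH
  have h1 : SelB_cnt (fun b : Blk => b.1.1 = x ∨ b.1.2 = x) L ≤ 1 := by
    refine (SelB_pairs L fun y => y = x).trans ?_
    refine (SelB_filter (fun y => y == x) _ fun a _ ha => by simpa using ha).trans ?_
    have h2 := List.nodup_iff_count_le_one.1 h.nodup x
    rwa [List.count, List.countP_eq_length_filter] at h2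
  have h2 : SelB_cnt (fun b : Blk => x ∉ H ∧ x ∈ b.2) L ≤ K := by
    by_cases hx : x ∈ H
    · rw [SelB_zero L fun b _ hb => hb.1 hx]
      exact Nat.zero_le _
    · by_cases hb : ∃ b ∈ L, x ∈ b.2
      · obtain ⟨b, hb, hxb⟩ := hb
        have hxn : x < n := ((h.mem b hb x).1 hxb).1
        have h3 : ¬ K + 1 ≤ mult L x := by
          intro h4
          apply hx
          rw [hH, hubs, List.mem_filter]
          exact ⟨List.mem_range.2 hxn, by simpa using h4⟩
        have h4 : SelB_cnt (fun b : Blk => x ∉ H ∧ x ∈ b.2) L ≤ mult L x := by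
          rw [mult]
          exact SelB_filter _ L fun b _ h5 => by simpa using h5.2
        omega
      · rw [SelB_zero L fun b hbL h4 => hb ⟨b, hbL, h4.2⟩]
        exact Nat.zero_le _
  have h3 : SelB_cnt (fun b : Blk => ¬ (b.1.1 ∈ H ∨ b.1.2 ∈ H) ∧ x ∈ verts (trim H b)) L ≤
      SelB_cnt (fun b : Blk => b.1.1 = x ∨ b.1.2 = x) L +
        SelB_cnt (fun b : Blk => x ∉ H ∧ x ∈ b.2) L := by
    refine le_trans (SelB_mono L ?_)
      (SelB_or L (fun b => b.1.1 = x ∨ b.1.2 = x) fun b => x ∉ H ∧ x ∈ b.2)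
    rintro b _ ⟨-, h4⟩
    simp only [verts, trim, List.mem_cons, List.mem_filter, Bool.not_eq_true',
      List.contains_eq_mem, decide_eq_false_iff_not] at h4
    rcases h4 with h4 | h4 | ⟨h4, h5⟩
    · exact Or.inl (Or.inl h4.symm)
    · exact Or.inl (Or.inr h4.symm)
    · exact Or.inr ⟨h5, h4⟩
  omega

theorem sel_large (h : Pairs A n s t c L) (K : ℕ) :
    L.length ≤ (hubs n L (K + 1)).length +
      (K + 1) * ((c + 2) * (sel s t (hubs n L (K + 1)) L).length + 2) := by
  set H := hubs n L (K + 1) with hH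
  set acc := L.foldl (sstep H) ([s, t], []) with hacc
  have h1 : acc.1.length ≤ (c + 2) * acc.2.length + 2 := SelB_len H L h.le _ (by simp)
  have h2 : L.length ≤ SelB_cnt (fun b : Blk => b.1.1 ∈ H ∨ b.1.2 ∈ H) L +
      SelB_cnt (fun b : Blk => ∃ x ∈ acc.1, ¬ (b.1.1 ∈ H ∨ b.1.2 ∈ H) ∧
        x ∈ verts (trim H b)) L := by
    refine le_trans (le_of_eq ?_) (SelB_or L (fun b => b.1.1 ∈ H ∨ b.1.2 ∈ H) fun b =>
      ∃ x ∈ acc.1, ¬ (b.1.1 ∈ H ∨ b.1.2 ∈ H) ∧ x ∈ verts (trim H b))
    symm
    refine SelB_all L fun b hb => ?_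
    by_cases h3 : b.1.1 ∈ H ∨ b.1.2 ∈ H
    · exact Or.inl h3
    · rcases SelB_cover H L ([s, t], []) b hb with h4 | ⟨x, hx, hx'⟩
      · exact Or.inl h4
      · exact Or.inr ⟨x, hx, h3, hx'⟩
  have h3 := SelB_case1 h H
  have h4 := SelB_ex L acc.1 (fun x b => ¬ (b.1.1 ∈ H ∨ b.1.2 ∈ H) ∧ x ∈ verts (trim H b))
    (m := K + 1) fun x _ => SelB_case2 h K x
  have h5 : (K + 1) * acc.1.length ≤ (K + 1) * ((c + 2) * acc.2.length + 2) :=
    Nat.mul_le_mul_left _ h1
  have h6 : (sel s t H L).length = acc.2.length := rfl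
  rw [h6]
  omega

end Pool.Agent.Lib.MP_e05f17_lc
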