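import Pool.Agent.Lib.MP_e05f17_lc.Pairs

/-!
The number of hubs.

PROOF. (hubs n L (K+1)).length = number of x < n with K + 1 ≤ mult L x. Sum over K < Kmax: the sum over
x < n of the number of K < Kmax with K + 1 ≤ mult L x, which is ≤ mult L x. And the sum over x < n of
mult L x = sum over b ∈ L of the number of x < n with x ∈ b.2 ≤ sum over b ∈ L of b.2.length ≤ c L.length
(b.2 is Nodup; by h.le). Write lengths of filters of List.range n as Finset cards or as
sums over Finset.range n of if; double counting by induction on L: mult (b :: L) x = (if x ∈ b.2 then 1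
else 0) + mult L x.
-/

namespace Pool.Agent.Lib.MP_e05f17_lc

variable {A : ℕ → ℕ → Bool} {n s t c : ℕ} {L : List Blk}

private theorem SelC_len (n : ℕ) (p : ℕ → Bool) :
    ((List.range n).filter p).length = ((Finset.range n).filter fun x => p x = true).card := by
  have h1 : ((Finset.range n).filter fun x => p x = true) =
      ((List.range n).filter p).toFinset := by
    ext x
    simp
  rw [h1, List.toFinset_card_of_nodup (List.nodup_range.filter _)]

private theorem SelC_mult (n c : ℕ) (L : List Blk) (h1 : ∀ b ∈ L, b.2.Nodup)
    (h2 : ∀ b ∈ L, b.2.length ≤ c) : ∑ x ∈ Finset.range n, mult L x ≤ c * L.length := by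
  induction L with
  | nil => simp [mult]
  | cons b L ih =>
    have h3 : ∀ x, mult (b :: L) x = (if x ∈ b.2 then 1 else 0) + mult L x := by
      intro x
      unfold mult
      rw [List.filter_cons]
      by_cases hx : x ∈ b.2
      · rw [if_pos (by simpa using hx), if_pos hx, List.length_cons]
        omega
      · rw [if_neg (by simpa using hx), if_neg hx]
        omega
    have h4 := ih (fun b' hb' => h1 b' (List.mem_cons_of_mem _ hb'))
      (fun b' hb' => h2 b' (List.mem_cons_of_mem _ hb'))
    simp only [h3]
    rw [Finset.sum_add_distrib, List.length_cons, mul_add, mul_one]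
    have h5 : ∑ x ∈ Finset.range n, (if x ∈ b.2 then 1 else 0) ≤ c := by
      rw [← Finset.sum_filter, Finset.sum_const, smul_eq_mul, mul_one]
      calc ((Finset.range n).filter fun x => x ∈ b.2).card ≤ b.2.toFinset.card := by
            apply Finset.card_le_card
            intro x hx
            rw [List.mem_toFinset]
            exact (Finset.mem_filter.1 hx).2
        _ ≤ b.2.length := List.toFinset_card_le _
        _ ≤ c := h2 b List.mem_cons_self
    omega

theorem sum_hubs_le (h : Pairs A n s t c L) (Kmax : ℕ) :
    ∑ K ∈ Finset.range Kmax, (hubs n L (K + 1)).length ≤ c * L.length := by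
  have h1 : ∀ K, (hubs n L (K + 1)).length =
      ∑ x ∈ Finset.range n, if K + 1 ≤ mult L x then 1 else 0 := by
    intro K
    rw [hubs, SelC_len, Finset.card_filter]
    apply Finset.sum_congr rfl
    intro x _
    simp
  simp only [h1]
  rw [Finset.sum_comm]
  refine le_trans (Finset.sum_le_sum fun x _ => ?_) (SelC_mult n c L h.nodup' h.le)
  rw [← Finset.sum_filter, Finset.sum_const, smul_eq_mul, mul_one]
  calc ((Finset.range Kmax).filter fun K => K + 1 ≤ mult L x).card
      ≤ (Finset.range (mult L x)).card := by
        apply Finset.card_le_card
        intro K hK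
        rw [Finset.mem_range]
        have h2 := (Finset.mem_filter.1 hK).2
        omega
    _ = mult L x := Finset.card_range _

end Pool.Agent.Lib.MP_e05f17_lc
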