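import Pool.Agent.Lib.MP_e05f17_lc.SelA
import Pool.Agent.Lib.MP_e05f17_lc.SelB
import Pool.Agent.Lib.MP_e05f17_lc.SelC

/-!
The selection of disjoint blocks: collects SelA, SelB, SelC.
-/

namespace Pool.Agent.Lib.MP_e05f17_lc



end Pool.Agent.Lib.MP_e05f17_lc
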