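import Pool.Agent.Lib.MP_e05f17_lc.Core

/-!
Sizes of the nodes.

PROOF. size of lists: size_cons: size (a :: l) = size a + size l + 1, size_nil = 1, size_append:
size (l ++ l') + 1 = size l + size l', size_prod: size x = size x.1 + size x.2 + 1, size_nat n = 2n + 1.
For an integer w: the size of ⟨w⟩ : BZ is the size of the pair (sign, ⟨w.natAbs⟩ : BN) (enc_BZ). Let
β w = size (⟨w.natAbs⟩ : BN). Then β (-w) = β w, β (w + w) ≤ β w + 2 (the bits of 2a are false :: bits
of a, or a = 0: enc_BN, Nat.bits_append_bit / Nat.bit0_bits; natAbs (w+w) = 2 natAbs w), and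
β w + 2 ≤ size ⟨w⟩ ≤ β w + 4. Potential
 Φ x = 10 size L + 10 size R + size b + size X + size M + β w for x = nd L R b X M w,
 Inv m x : Φ x ≤ 10 m. Then Φ x ≤ 10 size x, size x ≤ Φ x + 20 ≤ 10 m + 20.
Children of (i :: L, ...): 10 size (i :: L) = 10 size i + 10 size L + 10; the new X is u :: v :: (P ++ X)
at most, with P a sublist of i.2 (size P ≤ size i.2: induction on the definition of subs), so X grows by
at most size u + size v + 2 + size i.2, M by size i.1 + 1, β by 2, b does not grow; total
≤ 3 size i + 10 ≤ 10 size i + 10, as size i = size i.1 + size i.2 + 1, size i.1 = size u + size v + 1.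
Children of ([], r :: R): X grows by size r + 1. Number of children: (subs c D).length ≤ 2^c, so at most
2^c * 4 + 2^c * 4 (+ 2): q = constant. Take q = 10 X + 20 + 8 * 2^c + 2.
-/

namespace Pool.Agent.Lib.MP_e05f17_lc

open Pool.Agent.Lib.PolyTime

private def bt (w : ℤ) : ℕ := size (⟨w.natAbs⟩ : BN)

private theorem bt_neg (w : ℤ) : bt (-w) = bt w := by
  unfold bt
  rw [Int.natAbs_neg]

private theorem bt_add (w : ℤ) : bt (w + w) ≤ bt w + 2 := by
  unfold bt
  have e1 : (w + w).natAbs = 2 * w.natAbs := by omega
  rw [e1]
  have e2 : ∀ n : ℕ, size (⟨n⟩ : BN) = size n.bits := fun n => rfl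
  rw [e2, e2]
  by_cases h : w.natAbs = 0
  · rw [h]
    simp
  · rw [Nat.bit0_bits _ h, size_cons]
    have : size false = 1 := by decide
    omega

private theorem bz_size (w : ℤ) : bt w + 2 ≤ size (⟨w⟩ : BZ) ∧ size (⟨w⟩ : BZ) ≤ bt w + 4 := by
  have h1 : size (⟨w⟩ : BZ) = size (decide (w < 0), (⟨w.natAbs⟩ : BN)) := rfl
  rw [h1, size_prod]
  have h2 := size_bool_le (decide (w < 0))
  have h3 := size_bool_pos (decide (w < 0))
  have h4 : size (decide (w < 0), (⟨w.natAbs⟩ : BN)).2 = bt w := rfl
  have h5 : size (decide (w < 0), (⟨w.natAbs⟩ : BN)).1 = size (decide (w < 0)) := rfl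
  rw [h4, h5]
  omega

private theorem size_app (l l' : List ℕ) : size (l ++ l') + 1 = size l + size l' := by
  induction l with
  | nil => rw [List.nil_append, size_nil]; omega
  | cons a l ih => rw [List.cons_append, size_cons, size_cons]; omega

private theorem subs_size : ∀ (d : ℕ) (D P : List ℕ), P ∈ subs d D → size P ≤ size D
  | 0, D, P, h => by
    simp only [subs, List.mem_singleton] at h
    rw [h, size_nil]
    exact size_pos D
  | d + 1, [], P, h => by
    simp only [subs, List.mem_singleton] at h
    rw [h]
  | d + 1, x :: D, P, h => by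
    rw [subs, List.mem_append, List.mem_map] at h
    rcases h with h | ⟨Q, h, rfl⟩
    · have := subs_size d D P h
      rw [size_cons]
      omega
    · have := subs_size d D Q h
      rw [size_cons, size_cons]
      omega

private theorem subs_len : ∀ (d : ℕ) (D : List ℕ), (subs d D).length ≤ 2 ^ d
  | 0, D => by simp [subs]
  | d + 1, [] => by simpa [subs] using Nat.one_le_two_pow
  | d + 1, x :: D => by
    have h1 := subs_len d D
    rw [subs, List.length_append, List.length_map, pow_succ]
    omega

private def Ph (x : Node) : ℕ :=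
  10 * size x.1.1.1 + 10 * size x.1.1.2 + size x.1.2 + size x.2.1.1 + size x.2.1.2 + bt x.2.2.val

private theorem Ph_nd (L : List Blk) (R : List ℕ) (b : ℕ) (X : List ℕ) (M : List (ℕ × ℕ))
    (w : ℤ) : Ph (nd L R b X M w) = 10 * size L + 10 * size R + size b + size X + size M + bt w :=
  rfl

private theorem size_nd (x : Node) : size x = size x.1.1.1 + size x.1.1.2 + size x.1.2 +
    size x.2.1.1 + size x.2.1.2 + size x.2.2 + 5 := by
  rw [size_prod, size_prod, size_prod, size_prod, size_prod]
  omega

private theorem kid_le {i : Blk} {L : List Blk} {R : List ℕ} {b b' : ℕ} {X X' P : List ℕ}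
    {M M' : List (ℕ × ℕ)} {w w' : ℤ} (hP : size P ≤ size i.2) (hb : size b' ≤ size b)
    (hX : size X' ≤ size i.1.1 + size i.1.2 + 2 + size (P ++ X))
    (hM : size M' ≤ size i.1 + size M + 1) (hw : bt w' ≤ bt w + 2) :
    Ph (nd L R b' X' M' w') ≤ Ph (nd (i :: L) R b X M w) := by
  rw [Ph_nd, Ph_nd, size_cons i L, size_prod i, size_prod i.1]
  rw [size_prod i.1] at hM
  have h1 := size_app P X
  omega

theorem exists_inv (c : ℕ) : ∃ (Inv : ℕ → Node → Prop) (q : Polynomial ℕ),
    (∀ x : Node, Inv (size x) x) ∧ (∀ m m' x, m ≤ m' → Inv m x → Inv m' x) ∧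
    (∀ m x, Inv m x → ∀ y ∈ kids c x, Inv m y) ∧
    (∀ m x, Inv m x → size x ≤ q.eval m) ∧ (∀ m x, Inv m x → (kids c x).length ≤ q.eval m) := by
  refine ⟨fun m x => Ph x ≤ 10 * m, Polynomial.C 10 * Polynomial.X + Polynomial.C (20 + 8 * 2 ^ c + 2),
    ?_, ?_, ?_, ?_, ?_⟩
  · intro x
    show Ph x ≤ 10 * size x
    rw [size_nd x]
    have h1 := (bz_size x.2.2.val).1
    have h2 : size (⟨x.2.2.val⟩ : BZ) = size x.2.2 := rfl
    rw [h2] at h1
    unfold Ph
    omega
  · intro m m' x hm h
    show Ph x ≤ 10 * m'
    have h' : Ph x ≤ 10 * m := h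
    omega
  · intro m x h y hy
    refine le_trans ?_ h
    obtain ⟨⟨⟨L, R⟩, b⟩, ⟨⟨X, M⟩, ⟨w⟩⟩⟩ := x
    cases L with
    | nil =>
      cases R with
      | nil => simp [kids] at hy
      | cons r R =>
        have e1 : kids c ((([], r :: R), b), ((X, M), ⟨w⟩)) =
            [nd [] R b X M w, nd [] R b (r :: X) M w] := rfl
        rw [e1] at hy
        have e2 : Ph ((([], r :: R), b), ((X, M), ⟨w⟩)) =
            10 * size ([] : List Blk) + 10 * size (r :: R) + size b + size X + size M + bt w := rfl
        rw [e2, size_cons r R]
        simp only [List.mem_cons, List.not_mem_nil, or_false] at hy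
        rcases hy with rfl | rfl
        · rw [Ph_nd]; omega
        · rw [Ph_nd, size_cons]; omega
    | cons i L =>
      have e1 : kids c (((i :: L, R), b), ((X, M), ⟨w⟩)) =
          (subs c i.2).flatMap (kids0 i L R b X M w) ++
            (if b = 0 then [] else (subs c i.2).flatMap (kids1 i L R (b - 1) X M w)) := rfl
      have e2 : Ph (((i :: L, R), b), ((X, M), ⟨w⟩)) = Ph (nd (i :: L) R b X M w) := rfl
      rw [e1, List.mem_append] at hy
      rw [e2]
      have hb1 : size (b - 1) ≤ size b := by
        rw [size_nat, size_nat]; omega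
      have hMc : size (i.1 :: M) ≤ size i.1 + size M + 1 := le_of_eq (size_cons _ _)
      have hn := bt_neg w
      have ha := bt_add w
      rcases hy with hy | hy
      · rw [List.mem_flatMap] at hy
        obtain ⟨P, hP, hy⟩ := hy
        have hP' := subs_size c i.2 P hP
        unfold kids0 at hy
        split_ifs at hy <;>
          simp only [List.mem_append, List.mem_cons, List.not_mem_nil, or_false] at hy
        · rcases hy with rfl | rfl | rfl
          · exact kid_le hP' le_rfl (by omega) hMc (by omega)
          · exact kid_le hP' le_rfl (by rw [size_cons]; omega) hMc (by omega)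
          · exact kid_le hP' le_rfl (by rw [size_cons, size_cons]; omega)
              hMc (by omega)
        · rcases hy with (rfl | rfl | rfl) | rfl
          · exact kid_le hP' le_rfl (by omega) hMc (by omega)
          · exact kid_le hP' le_rfl (by rw [size_cons]; omega) hMc (by omega)
          · exact kid_le hP' le_rfl (by rw [size_cons, size_cons]; omega)
              hMc (by omega)
          · exact kid_le hP' le_rfl (by rw [size_cons]; omega) hMc (by omega)
      · split_ifs at hy with hb
        · simp at hy
        · rw [List.mem_flatMap] at hy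
          obtain ⟨P, hP, hy⟩ := hy
          have hP' := subs_size c i.2 P hP
          unfold kids1 at hy
          simp only [List.mem_cons, List.not_mem_nil, or_false] at hy
          rcases hy with rfl | rfl | rfl | rfl
          · exact kid_le hP' hb1 (by rw [size_cons]; omega) (by omega) (by omega)
          · exact kid_le hP' hb1 (by rw [size_cons]; omega) hMc (by omega)
          · exact kid_le hP' hb1 (by rw [size_cons, size_cons]; omega) (by omega) (by omega)
          · exact kid_le hP' hb1 (by rw [size_cons, size_cons]; omega)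
              hMc (by omega)
  · intro m x h
    have h' : Ph x ≤ 10 * m := h
    simp only [Polynomial.eval_add, Polynomial.eval_mul, Polynomial.eval_C, Polynomial.eval_X]
    rw [size_nd x]
    have h1 := (bz_size x.2.2.val).2
    have h2 : size (⟨x.2.2.val⟩ : BZ) = size x.2.2 := rfl
    rw [h2] at h1
    unfold Ph at h'
    omega
  · intro m x _
    simp only [Polynomial.eval_add, Polynomial.eval_mul, Polynomial.eval_C, Polynomial.eval_X]
    have key : (kids c x).length ≤ 8 * 2 ^ c + 2 := by
      obtain ⟨⟨⟨L, R⟩, b⟩, ⟨⟨X, M⟩, ⟨w⟩⟩⟩ := x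
      cases L with
      | nil =>
        cases R with
        | nil => simp [kids]
        | cons r R =>
          have e1 : kids c ((([], r :: R), b), ((X, M), ⟨w⟩)) =
              [nd [] R b X M w, nd [] R b (r :: X) M w] := rfl
          rw [e1]
          simp
      | cons i L =>
        have e1 : kids c (((i :: L, R), b), ((X, M), ⟨w⟩)) =
            (subs c i.2).flatMap (kids0 i L R b X M w) ++
              (if b = 0 then [] else (subs c i.2).flatMap (kids1 i L R (b - 1) X M w)) := rfl
        have hs := subs_len c i.2
        have hfl : ∀ (l : List (List ℕ)) (g : List ℕ → List Node), (∀ P, (g P).length ≤ 4) →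
            (l.flatMap g).length ≤ 4 * l.length := by
          intro l g hg
          induction l with
          | nil => simp
          | cons a l ih =>
            rw [List.flatMap_cons, List.length_append, List.length_cons]
            have := hg a
            omega
        have h0 := hfl (subs c i.2) (kids0 i L R b X M w) (by
          intro P
          unfold kids0
          split_ifs <;> simp)
        have h1 := hfl (subs c i.2) (kids1 i L R (b - 1) X M w) (by
          intro P
          simp [kids1])
        rw [e1, List.length_append]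
        split_ifs
        · rw [List.length_nil]; omega
        · omega
    omega

end Pool.Agent.Lib.MP_e05f17_lc
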