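import Pool.Agent.Lib.MP_e05f17_lc.TravA
import Pool.Agent.Lib.MP_33f9c4_lc.Loop

/-!
Depth first search as a Turing machine, in time polynomial per node.

PROOF. exists_loop (MP_33f9c4_lc/Loop.lean) with S = List σ × (κ × BZ), g = tstep kids val
(PT.listCases on s.1), fin s = s.1.isEmpty (PT.isNil), out s = (s.2.2.val.toNat).bits (PT.bzToBN,
PT.bits), init d = ([(init d).2], ((init d).1, ⟨0⟩)). N = tcount (kids (init d).1) (dep d) (init d).2:
tstep_iter with st = [] gives the final state and the output; for i < N the stack is not empty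
(tstep_mid), so fin = false. Size of the states for i ≤ N: the stack has ≤ 1 + dep Q elements of size
≤ q.eval |d|, Q = q.eval |d| (size_list_le), the context has size ≤ polynomial (PT.size_le of hi,
size_listBool), the sum has natAbs ≤ i V with V = 2^(polynomial of |d|) (natAbs_lt_two_pow_size, size of
⟨val⟩ ≤ p.eval (size (κ, x)), PT.size_le of hv) and i ≤ N ≤ (Q+1)^dep ≤ 2^(Q dep) so by
size_BZ_le_of_lt the size is polynomial. So each T.eval (size ..) ≤ P.eval |d| (PB lemmas), and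
T0.eval |d| + (N + 1) P.eval |d| ≤ (T0 + P).eval |d| * (N + 1).
-/

namespace Pool.Agent.Lib.MP_e05f17_lc

open Pool.Agent.Lib.PolyTime Pool.Agent.Lib.MP_33f9c4_lc

private theorem pt_tstep {κ σ : Type} [Enc κ] [Enc σ] {kids : κ → σ → List σ} {val : κ → σ → ℤ}
    (hk : PT (fun x : κ × σ => kids x.1 x.2)) (hv : PT (fun x : κ × σ => (⟨val x.1 x.2⟩ : BZ))) :
    PT (tstep kids val) := by
  refine (PT.listCases (f := fun s : List σ × (κ × BZ) => s.1) (g := fun s => s)
    (h := fun s x st => (kids s.2.1 x ++ st, (s.2.1, (⟨s.2.2.val + val s.2.1 x⟩ : BZ))))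
    PT.fst PT.id ?_).congr (fun s => ?_)
  · have e1 : PT (fun x : (List σ × (κ × BZ)) × (σ × List σ) => (x.1.2.1, x.2.1)) :=
      (PT.fst.snd'.fst').pair PT.snd.fst'
    have e2 : PT (fun x : (List σ × (κ × BZ)) × (σ × List σ) => kids x.1.2.1 x.2.1) :=
      PT.comp (g := fun x : κ × σ => kids x.1 x.2) hk e1
    have e3 : PT (fun x : (List σ × (κ × BZ)) × (σ × List σ) => (⟨val x.1.2.1 x.2.1⟩ : BZ)) :=
      PT.comp (g := fun x : κ × σ => (⟨val x.1 x.2⟩ : BZ)) hv e1
    exact PT.pair (PT.append e2 PT.snd.snd')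
      (PT.pair PT.fst.snd'.fst' (PT.bzAdd PT.fst.snd'.snd' e3))
  · obtain ⟨l, c⟩ := s
    cases l <;> rfl

theorem exists_traverse {κ σ : Type} [Enc κ] [Enc σ] {kids : κ → σ → List σ} {val : κ → σ → ℤ}
    {init : List Bool → κ × σ}
    (hk : PT (fun x : κ × σ => kids x.1 x.2)) (hv : PT (fun x : κ × σ => (⟨val x.1 x.2⟩ : BZ)))
    (hi : PT init) (V : List Bool → Prop) (Inv : List Bool → σ → Prop) (dep : List Bool → ℕ)
    (q : Polynomial ℕ) (h0 : ∀ d, V d → Inv d (init d).2)
    (h1 : ∀ d x, V d → Inv d x → ∀ y ∈ kids (init d).1 x, Inv d y)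
    (h2 : ∀ d x, V d → Inv d x → size x ≤ q.eval d.length)
    (h3 : ∀ d x, V d → Inv d x → (kids (init d).1 x).length ≤ q.eval d.length)
    (h4 : ∀ d, V d → Depth (kids (init d).1) (dep d) (init d).2)
    (h5 : ∀ d, V d → dep d ≤ q.eval d.length) :
    ∃ (U : Machine) (T : Polynomial ℕ), ∀ d, V d →
      Outputs U d (Nat.bits (tsum (kids (init d).1) (val (init d).1) (dep d) (init d).2).toNat)
        (T.eval d.length * (tcount (kids (init d).1) (dep d) (init d).2 + 1)) := by
  obtain ⟨pv, hpv⟩ := hv.size_le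
  obtain ⟨pi, hpi⟩ := hi.size_le
  obtain ⟨T, hT⟩ := exists_loop (g := tstep kids val)
    (fin := fun s : List σ × (κ × BZ) => s.1.isEmpty)
    (out := fun s : List σ × (κ × BZ) => (s.2.2.val.toNat).bits) (pt_tstep hk hv)
    (PT.isNil PT.fst) (PT.bits (f := fun s : List σ × (κ × BZ) => ⟨s.2.2.val.toNat⟩)
      (PT.bzToBN PT.snd.snd'))
  obtain ⟨U, T0, hU, -⟩ := hT (fun d => ([(init d).2], ((init d).1, (⟨0⟩ : BZ))))
    (PT.pair (PT.list1 hi.snd') (PT.pair hi.fst' (PT.const _)))
  -- the sizes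
  obtain ⟨P, hP⟩ : PB (fun m => T.eval (((1 + q.eval m * q.eval m) * (q.eval m + 1) + 1) +
      (pi.eval (4 * m + 1) + (4 * (q.eval m * q.eval m +
        pv.eval (pi.eval (4 * m + 1) + q.eval m + 1) + 1) + 5) + 1) + 1)) := by
    have a1 : PB (fun m => pi.eval (4 * m + 1)) := PB.comp pi (((PB.const 4).mul PB.id).add (PB.const 1))
    have a2 : PB (fun m => q.eval m) := PB.poly q
    have a3 : PB (fun m => pv.eval (pi.eval (4 * m + 1) + q.eval m + 1)) :=
      PB.comp pv ((a1.add a2).add (PB.const 1))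
    exact PB.comp T ((((((PB.const 1).add (a2.mul a2)).mul (a2.add (PB.const 1))).add
      (PB.const 1)).add ((a1.add (((PB.const 4).mul (((a2.mul a2).add a3).add
        (PB.const 1))).add (PB.const 5))).add (PB.const 1))).add (PB.const 1))
  refine ⟨U, T0 + P, fun d hd => ?_⟩
  set k := (init d).1 with hkdef
  set x0 := (init d).2 with hx0
  set m := d.length with hm
  set N := tcount (kids k) (dep d) x0 with hN
  have hV : ∀ x, Inv d x → (val k x).natAbs ≤ 2 ^ (pv.eval (pi.eval (4 * m + 1) + q.eval m + 1)) := by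
    intro x hx
    have b1 := natAbs_lt_two_pow_size (⟨val k x⟩ : BZ)
    have b2 : size (⟨val k x⟩ : BZ) ≤ pv.eval (size (k, x)) := hpv (k, x)
    have b3 : size (k, x) ≤ pi.eval (4 * m + 1) + q.eval m + 1 := by
      rw [size_prod]
      have b4 := hpi d
      have b5 : pi.eval (size d) ≤ pi.eval (4 * m + 1) := eval_mono pi (size_listBool d)
      have b6 : size x ≤ q.eval m := h2 d x hd hx
      have b7 : size (init d) = size k + size x0 + 1 := size_prod _
      simp only
      omega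
    have b8 := eval_mono pv b3
    exact (le_of_lt b1).trans (Nat.pow_le_pow_right (by norm_num) (b2.trans b8))
  have hks : size k ≤ pi.eval (4 * m + 1) := by
    have b4 := hpi d
    have b5 : pi.eval (size d) ≤ pi.eval (4 * m + 1) := eval_mono pi (size_listBool d)
    have b7 : size (init d) = size k + size x0 + 1 := size_prod _
    omega
  have hN2 : N ≤ 2 ^ (q.eval m * q.eval m) := by
    have c1 := tcount_pow kids k (Inv d) (q.eval m) (fun x hx => h1 d x hd hx)
      (fun x hx => h3 d x hd hx) (dep d) x0 (h0 d hd)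
    have c2 : q.eval m + 1 ≤ 2 ^ q.eval m := Nat.lt_two_pow_self
    calc N ≤ (q.eval m + 1) ^ dep d := c1
      _ ≤ (2 ^ q.eval m) ^ dep d := Nat.pow_le_pow_left c2 _
      _ = 2 ^ (q.eval m * dep d) := (pow_mul _ _ _).symm
      _ ≤ 2 ^ (q.eval m * q.eval m) :=
        Nat.pow_le_pow_right (by norm_num) (Nat.mul_le_mul_left _ (h5 d hd))
  have hz : ∀ (i : ℕ) (b : ℤ), i ≤ N → b.natAbs ≤ i *
      2 ^ (pv.eval (pi.eval (4 * m + 1) + q.eval m + 1)) → size (⟨b⟩ : BZ) ≤
      4 * (q.eval m * q.eval m + pv.eval (pi.eval (4 * m + 1) + q.eval m + 1) + 1) + 5 := by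
    intro i b hi1 hb
    refine size_BZ_le_of_lt ?_
    have c3 : i * 2 ^ (pv.eval (pi.eval (4 * m + 1) + q.eval m + 1)) ≤
        2 ^ (q.eval m * q.eval m) * 2 ^ (pv.eval (pi.eval (4 * m + 1) + q.eval m + 1)) :=
      Nat.mul_le_mul_right _ (hi1.trans hN2)
    rw [← pow_add] at c3
    have c4 : 0 < 2 ^ (q.eval m * q.eval m + pv.eval (pi.eval (4 * m + 1) + q.eval m + 1)) :=
      pow_pos (by norm_num) _
    rw [pow_succ]
    simp only
    omega
  have hmid : ∀ i < N, ∃ (l : List σ) (b : ℤ),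
      (tstep kids val)^[i] ([x0], (k, (⟨0⟩ : BZ))) = (l, (k, ⟨b⟩)) ∧ l ≠ [] ∧
      l.length ≤ 1 + dep d * q.eval m ∧ (∀ y ∈ l, Inv d y) ∧
      b.natAbs ≤ i * 2 ^ (pv.eval (pi.eval (4 * m + 1) + q.eval m + 1)) := by
    intro i hiN
    obtain ⟨l, b, e, e1, e2, e3, e4⟩ := tstep_mid kids val k (Inv d) (q.eval m)
      (2 ^ (pv.eval (pi.eval (4 * m + 1) + q.eval m + 1))) (fun x hx => h1 d x hd hx)
      (fun x hx => h3 d x hd hx) hV (dep d) x0 (h4 d hd) (h0 d hd) [] 0 i hiN
    rw [List.append_nil] at e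
    exact ⟨l, b, e, e1, e2, e3, by simpa using e4⟩
  have hend : (tstep kids val)^[N] ([x0], (k, (⟨0⟩ : BZ))) =
      ([], (k, ⟨tsum (kids k) (val k) (dep d) x0⟩)) := by
    have := tstep_iter kids val k (dep d) x0 (h4 d hd) [] 0
    rw [zero_add] at this
    exact this
  have hsize : ∀ i ∈ Finset.range (N + 1),
      T.eval (size ((tstep kids val)^[i] ([x0], (k, (⟨0⟩ : BZ))))) ≤ P.eval m := by
    intro i hiN
    rw [Finset.mem_range] at hiN
    refine le_trans (eval_mono T ?_) (hP m)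
    rcases Nat.lt_or_ge i N with h | h
    · obtain ⟨l, b, e, e1, e2, e3, e4⟩ := hmid i h
      rw [e, size_prod, size_prod]
      have c1 := size_list_le (S := q.eval m) l (fun y hy => h2 d y hd (e3 y hy))
      have c2 : l.length * (q.eval m + 1) ≤ (1 + q.eval m * q.eval m) * (q.eval m + 1) := by
        refine Nat.mul_le_mul_right _ (e2.trans ?_)
        have h5' : dep d ≤ q.eval m := h5 d hd
        have := Nat.mul_le_mul_right (q.eval m) h5'
        omega
      have c3 := hz i b h.le e4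
      simp only
      omega
    · have hi2 : i = N := by omega
      subst hi2
      rw [hend, size_prod, size_prod, size_nil]
      have c3 := hz N _ le_rfl (tsum_abs kids val k (Inv d) _ (fun x hx => h1 d x hd hx) hV (dep d)
        x0 (h0 d hd))
      simp only
      omega
  have hout := hU d N (by rw [← hkdef, ← hx0, hend]; rfl) (fun i hi' => by
    rw [← hkdef, ← hx0]
    obtain ⟨l, b, e, e1, -⟩ := hmid i hi'
    rw [e]
    cases l with
    | nil => exact absurd rfl e1
    | cons y l => rfl)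
  rw [← hkdef, ← hx0, hend] at hout
  obtain ⟨ho⟩ := hout
  refine ⟨{ steps := ho.steps, evals_in_steps := ho.evals_in_steps, steps_le_m := ?_ }⟩
  have c0 : ho.steps ≤ T0.eval m + ∑ i ∈ Finset.range (N + 1),
      T.eval (size ((tstep kids val)^[i] ([x0], (k, (⟨0⟩ : BZ))))) := ho.steps_le_m
  refine c0.trans ?_
  have c1 := Finset.sum_le_sum hsize
  rw [Finset.sum_const, Finset.card_range, smul_eq_mul] at c1
  change _ ≤ (T0 + P).eval m * (N + 1)
  rw [Polynomial.eval_add, Nat.add_mul]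
  have c2 : T0.eval m ≤ T0.eval m * (N + 1) := Nat.le_mul_of_pos_right _ (by omega)
  rw [Nat.mul_comm (P.eval m) (N + 1)]
  omega

end Pool.Agent.Lib.MP_e05f17_lc
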