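import Pool.Agent.Lib.MP_e05f17_lc.Core

/-!
Depth first search.

PROOFS. All by induction on m (generalizing x, st, a). iterate: Function.iterate_add_apply,
iterate_succ_apply. For a list l of nodes of depth ≤ m: the iterate number (l.map (tcount m)).sum
applied to (l ++ st, (k, ⟨a⟩)) is (st, (k, ⟨a + (l.map (tsum m)).sum⟩)) (induction on l). For m + 1:
tcount = 1 + sum; the first step replaces x by kids k x and adds val k x.
tstep_mid: for a list l of nodes with I, Depth m, and i < (l.map (tcount m)).sum the state is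
(l' ++ st, (k, ⟨b⟩)), l' ≠ [], l'.length ≤ l.length + m * Q, all in I, |b| ≤ |a| + i V. (l = x :: l2: if
i < tcount m x the induction for x with the stack l2 ++ st, else subtract.) For i = 0 and m + 1:
l' = [x]. tcount_pow: 1 + Q (Q+1)^m ≤ (Q+1)^(m+1).
-/

namespace Pool.Agent.Lib.MP_e05f17_lc

open Pool.Agent.Lib.PolyTime

variable {κ σ : Type} (kids : κ → σ → List σ) (val : κ → σ → ℤ)

/-- One step of the depth first search: stack, context, sum. -/
def tstep (s : List σ × (κ × BZ)) : List σ × (κ × BZ) :=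
  match s.1 with
  | [] => s
  | x :: st => (kids s.2.1 x ++ st, (s.2.1, ⟨s.2.2.val + val s.2.1 x⟩))

private theorem tstep_cons (k : κ) (x : σ) (st : List σ) (a : ℤ) :
    tstep kids val (x :: st, (k, ⟨a⟩)) = (kids k x ++ st, (k, ⟨a + val k x⟩)) := rfl

private theorem it_list (k : κ) (m : ℕ)
    (ih : ∀ (x : σ), Depth (kids k) m x → ∀ (st : List σ) (a : ℤ),
      (tstep kids val)^[tcount (kids k) m x] (x :: st, (k, ⟨a⟩)) =
        (st, (k, ⟨a + tsum (kids k) (val k) m x⟩))) :
    ∀ (l : List σ), (∀ x ∈ l, Depth (kids k) m x) → ∀ (st : List σ) (a : ℤ),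
      (tstep kids val)^[(l.map (tcount (kids k) m)).sum] (l ++ st, (k, ⟨a⟩)) =
        (st, (k, ⟨a + (l.map (tsum (kids k) (val k) m)).sum⟩)) := by
  intro l
  induction l with
  | nil => intro _ st a; simp
  | cons x l ihl =>
    intro hl st a
    rw [List.map_cons, List.sum_cons, Nat.add_comm, Function.iterate_add_apply, List.cons_append,
      ih x (hl x List.mem_cons_self), ihl (fun y hy => hl y (List.mem_cons_of_mem _ hy)),
      List.map_cons, List.sum_cons, add_assoc]

theorem tstep_iter (k : κ) (m : ℕ) (x : σ) (hx : Depth (kids k) m x) (st : List σ) (a : ℤ) :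
    (tstep kids val)^[tcount (kids k) m x] (x :: st, (k, ⟨a⟩)) =
      (st, (k, ⟨a + tsum (kids k) (val k) m x⟩)) := by
  induction m generalizing x st a with
  | zero =>
    have h : kids k x = [] := hx
    have h1 : tcount (kids k) 0 x = 1 := rfl
    have h2 : tsum (kids k) (val k) 0 x = val k x := rfl
    rw [h1, h2, Function.iterate_one, tstep_cons, h, List.nil_append]
  | succ m ih =>
    have h : ∀ y ∈ kids k x, Depth (kids k) m y := hx
    have h1 : tcount (kids k) (m + 1) x = ((kids k x).map (tcount (kids k) m)).sum + 1 :=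
      Nat.add_comm _ _
    have h2 : tsum (kids k) (val k) (m + 1) x =
        val k x + ((kids k x).map (tsum (kids k) (val k) m)).sum := rfl
    rw [h1, h2, Function.iterate_add_apply, Function.iterate_one, tstep_cons,
      it_list kids val k m (fun x hx st a => ih x hx st a) (kids k x) h st, add_assoc]

private theorem mid_list (k : κ) (I : σ → Prop) (Q V m : ℕ)
    (ih : ∀ (x : σ), Depth (kids k) m x → I x → ∀ (st : List σ) (a : ℤ) (i : ℕ),
      i < tcount (kids k) m x →
      ∃ (l : List σ) (b : ℤ), (tstep kids val)^[i] (x :: st, (k, ⟨a⟩)) = (l ++ st, (k, ⟨b⟩)) ∧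
        l ≠ [] ∧ l.length ≤ 1 + m * Q ∧ (∀ y ∈ l, I y) ∧ b.natAbs ≤ a.natAbs + i * V)
    (hS : ∀ (x : σ), Depth (kids k) m x → I x →
      (tsum (kids k) (val k) m x).natAbs ≤ tcount (kids k) m x * V) :
    ∀ (l : List σ), (∀ x ∈ l, Depth (kids k) m x ∧ I x) → ∀ (st : List σ) (a : ℤ) (i : ℕ),
      i < (l.map (tcount (kids k) m)).sum →
      ∃ (l' : List σ) (b : ℤ), (tstep kids val)^[i] (l ++ st, (k, ⟨a⟩)) = (l' ++ st, (k, ⟨b⟩)) ∧
        l' ≠ [] ∧ l'.length ≤ l.length + m * Q ∧ (∀ y ∈ l', I y) ∧
        b.natAbs ≤ a.natAbs + i * V := by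
  intro l
  induction l with
  | nil => intro _ st a i hi; simp at hi
  | cons x l ihl =>
    intro hl st a i hi
    obtain ⟨hx, hIx⟩ := hl x List.mem_cons_self
    rcases lt_or_ge i (tcount (kids k) m x) with h | h
    · obtain ⟨l', b, e, h1, h2, h3, h4⟩ := ih x hx hIx (l ++ st) a i h
      refine ⟨l' ++ l, b, ?_, ?_, ?_, ?_, h4⟩
      · rw [List.cons_append, e, List.append_assoc]
      · intro h5
        exact h1 (List.append_eq_nil_iff.1 h5).1
      · rw [List.length_append, List.length_cons]; omega
      · intro y hy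
        rcases List.mem_append.1 hy with hy | hy
        · exact h3 y hy
        · exact (hl y (List.mem_cons_of_mem _ hy)).2
    · obtain ⟨j, rfl⟩ := Nat.exists_eq_add_of_le h
      have hj : j < (l.map (tcount (kids k) m)).sum := by
        rw [List.map_cons, List.sum_cons] at hi; omega
      obtain ⟨l', b, e, h1, h2, h3, h4⟩ := ihl (fun y hy => hl y (List.mem_cons_of_mem _ hy)) st
        (a + tsum (kids k) (val k) m x) j hj
      refine ⟨l', b, ?_, h1, ?_, h3, ?_⟩
      · rw [Nat.add_comm, Function.iterate_add_apply, List.cons_append,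
          tstep_iter kids val k m x hx, e]
      · rw [List.length_cons]; omega
      · have h5 := hS x hx hIx
        have h6 := Int.natAbs_add_le a (tsum (kids k) (val k) m x)
        rw [Nat.add_mul]
        omega

theorem tsum_abs (k : κ) (I : σ → Prop) (V : ℕ)
    (hI : ∀ x, I x → ∀ y ∈ kids k x, I y)
    (hV : ∀ x, I x → (val k x).natAbs ≤ V) (m : ℕ) (x : σ) (hIx : I x) :
      (tsum (kids k) (val k) m x).natAbs ≤ tcount (kids k) m x * V := by
  induction m generalizing x with
  | zero =>
    have h1 : tcount (kids k) 0 x = 1 := rfl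
    have h2 : tsum (kids k) (val k) 0 x = val k x := rfl
    rw [h1, h2, Nat.one_mul]
    exact hV x hIx
  | succ m ih =>
    have h1 : tcount (kids k) (m + 1) x = 1 + ((kids k x).map (tcount (kids k) m)).sum := rfl
    have h2 : tsum (kids k) (val k) (m + 1) x =
        val k x + ((kids k x).map (tsum (kids k) (val k) m)).sum := rfl
    have key : ∀ l : List σ, (∀ y ∈ l, I y) → ((l.map (tsum (kids k) (val k) m)).sum).natAbs ≤
        (l.map (tcount (kids k) m)).sum * V := by
      intro l
      induction l with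
      | nil => intro _; simp
      | cons y l ihl =>
        intro hl
        rw [List.map_cons, List.sum_cons, List.map_cons, List.sum_cons, Nat.add_mul]
        have h3 := ihl (fun z hz => hl z (List.mem_cons_of_mem _ hz))
        have h4 := ih y (hl y List.mem_cons_self)
        have h5 := Int.natAbs_add_le (tsum (kids k) (val k) m y)
          ((l.map (tsum (kids k) (val k) m)).sum)
        omega
    have h3 := key _ (hI x hIx)
    have h4 := hV x hIx
    have h5 := Int.natAbs_add_le (val k x) (((kids k x).map (tsum (kids k) (val k) m)).sum)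
    rw [h1, h2, Nat.add_mul, Nat.one_mul]
    omega

theorem tstep_mid (k : κ) (I : σ → Prop) (Q V : ℕ) (hI : ∀ x, I x → ∀ y ∈ kids k x, I y)
    (hQ : ∀ x, I x → (kids k x).length ≤ Q) (hV : ∀ x, I x → (val k x).natAbs ≤ V) (m : ℕ) (x : σ)
    (hx : Depth (kids k) m x) (hIx : I x) (st : List σ) (a : ℤ) (i : ℕ)
    (hi : i < tcount (kids k) m x) :
    ∃ (l : List σ) (b : ℤ), (tstep kids val)^[i] (x :: st, (k, ⟨a⟩)) = (l ++ st, (k, ⟨b⟩)) ∧
      l ≠ [] ∧ l.length ≤ 1 + m * Q ∧ (∀ y ∈ l, I y) ∧ b.natAbs ≤ a.natAbs + i * V := by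
  induction m generalizing x st a i with
  | zero =>
    have h1 : tcount (kids k) 0 x = 1 := rfl
    have h2 : i = 0 := by omega
    subst h2
    exact ⟨[x], a, rfl, by simp, by simp, by simpa using hIx, by simp⟩
  | succ m ih =>
    rcases Nat.eq_zero_or_pos i with h0 | h0
    · subst h0
      exact ⟨[x], a, rfl, by simp, by simp, by simpa using hIx, by simp⟩
    obtain ⟨j, rfl⟩ := Nat.exists_eq_succ_of_ne_zero (by omega : i ≠ 0)
    have h1 : tcount (kids k) (m + 1) x = 1 + ((kids k x).map (tcount (kids k) m)).sum := rfl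
    have h : ∀ y ∈ kids k x, Depth (kids k) m y := hx
    obtain ⟨l', b, e, h2, h3, h4, h5⟩ := mid_list kids val k I Q V m
      (fun x hx hIx st a i hi => ih x hx hIx st a i hi)
      (fun x _ hIx => tsum_abs kids val k I V hI hV m x hIx) (kids k x)
      (fun y hy => ⟨h y hy, hI x hIx y hy⟩) st (a + val k x) j (by omega)
    refine ⟨l', b, ?_, h2, ?_, h4, ?_⟩
    · rw [Nat.succ_eq_add_one, Function.iterate_add_apply, Function.iterate_one, tstep_cons, e]
    · have := hQ x hIx
      rw [Nat.add_mul]; omega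
    · have h6 := hV x hIx
      have h7 := Int.natAbs_add_le a (val k x)
      rw [Nat.succ_mul]; omega

theorem tcount_pow (k : κ) (I : σ → Prop) (Q : ℕ) (hI : ∀ x, I x → ∀ y ∈ kids k x, I y)
    (hQ : ∀ x, I x → (kids k x).length ≤ Q) (m : ℕ) (x : σ) (hIx : I x) :
    tcount (kids k) m x ≤ (Q + 1) ^ m := by
  induction m generalizing x with
  | zero => exact le_refl 1
  | succ m ih =>
    have h1 : tcount (kids k) (m + 1) x = 1 + ((kids k x).map (tcount (kids k) m)).sum := rfl
    have key : ∀ l : List σ, (∀ y ∈ l, I y) → (l.map (tcount (kids k) m)).sum ≤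
        l.length * (Q + 1) ^ m := by
      intro l
      induction l with
      | nil => intro _; simp
      | cons y l ihl =>
        intro hl
        rw [List.map_cons, List.sum_cons, List.length_cons, Nat.add_mul]
        have h3 := ihl (fun z hz => hl z (List.mem_cons_of_mem _ hz))
        have h4 := ih y (hl y List.mem_cons_self)
        omega
    have h2 := key _ (hI x hIx)
    have h3 : (kids k x).length * (Q + 1) ^ m ≤ Q * (Q + 1) ^ m := Nat.mul_le_mul_right _ (hQ x hIx)
    have h4 : 1 ≤ (Q + 1) ^ m := Nat.one_le_pow _ _ (by omega)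
    rw [h1, pow_succ, Nat.mul_add, Nat.mul_comm ((Q + 1) ^ m) Q]
    omega

end Pool.Agent.Lib.MP_e05f17_lc
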