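import Pool.Agent.Lib.MP_e05f17_lc.TreeB
import Pool.Agent.Lib.MP_e05f17_lc.BudA

/-!
The sum over the search tree.

PROOF. Induction on L, generalizing b, X, M, w, k. L = []: TT _ [] b M is its value at M; tsum_rest
(TreeA) with φ' = fun Z => φ Z M (hv: s ∈ X ⊆ X').
i :: L: k = k' + 1. Put V = L.flatMap verts ++ R and h X' M' = sum over Y in V.toFinset.powerset of
φ (X'.toFinset ∪ Y) M'. nval is 0 (the list of blocks is not empty). By induction the value of a child
nd L R b' X' M' w' with (V ++ X').Nodup, s ∈ X' is w' * TT (h X') L b' M'. The X' that occur are P ++ X,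
u :: (P ++ X), v :: (P ++ X), u :: v :: (P ++ X) with P a sublist of i.2 (mem_subs): Nodup is clear from
hnd. tsum (kids c) .. (k'+1) is the list sum over kids; (subs c i.2).flatMap: List.map_flatMap and
List.sum_flatMap (or induction). So
 kids0 gives w * sum over P in subs of
   [TT (h (P++X)) L b (i.1::M) + (if P = [] then 2 else 1) TT (h (u::(P++X))) L b (i.1::M)
    + TT (h (u::v::(P++X))) L b (i.1::M) + (if P = [] then 0 else TT (h (v::(P++X))) L b (i.1::M))].
 For P = []: TT (h (v::X)) L b (i.1::M) = TT (h (u::X)) L b (i.1::M) by TT_congr and hswap (Y := X ∪ Y',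
 whose elements are not in verts i; M' = E ++ i.1 :: M contains i.1; all its members are in P0 by hP and
 hM), so kids0 gives w * sum over P of TT of all four = w * TT (F) L b (i.1 :: M) with
 F M' = sum over Y in (verts i ++ V).toFinset.powerset of φ (X.toFinset ∪ Y) M', by sum_block
 (TT_congr with E arbitrary, TT_listSum, TT_add). This is the case b = 0 and the first term for b > 0.
 kids1 gives w * sum over P of [TT (h (u::(P++X))) L b' M - TT (h (u::(P++X))) L b' (i.1::M)
 + TT (h (u::v::(P++X))) L b' M - TT (h (u::v::(P++X))) L b' (i.1::M)] (b = b' + 1), and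
 TT (h (P++X)) L b' M = TT (h (P++X)) L b' (i.1::M), TT (h (v::(P++X))) L b' M = same with i.1::M, by
 TT_congr and hskip (u is not in the set: (P++X) ∪ Y, v :: ... ; hskip for E and M' = M), so this is
 w * (TT F L b' M - TT F L b' (i.1 :: M)).
-/

namespace Pool.Agent.Lib.MP_e05f17_lc

open Pool.Agent.Lib.PolyTime

private theorem Tree_flat {α β : Type} (f : β → ℤ) (g : α → List β) (l : List α) :
    ((l.flatMap g).map f).sum = (l.map fun P => ((g P).map f).sum).sum := by
  induction l with
  | nil => rfl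
  | cons a l ih =>
    rw [List.flatMap_cons, List.map_append, List.sum_append, ih, List.map_cons, List.sum_cons]

private theorem Tree_sub {α : Type} (w : ℤ) (f g : α → ℤ) (l : List α) :
    (l.map fun P => w * (f P - g P)).sum = w * ((l.map f).sum - (l.map g).sum) := by
  induction l with
  | nil => simp
  | cons a l ih =>
    rw [List.map_cons, List.sum_cons, ih, List.map_cons, List.sum_cons, List.map_cons,
      List.sum_cons]
    ring

private theorem Tree_TT_nil (F : List (ℕ × ℕ) → ℤ) (b : ℕ) (M : List (ℕ × ℕ)) :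
    TT F [] b M = F M := by
  cases b <;> rfl

private theorem Tree_nodup {i : Blk} {V X P : List ℕ} (hnd : (verts i ++ V ++ X).Nodup)
    (hP : P.Sublist i.2) : (V ++ (i.1.1 :: i.1.2 :: (P ++ X))).Nodup := by
  have h1 : (i.1.1 :: i.1.2 :: P ++ V ++ X).Nodup := by
    refine hnd.sublist ?_
    rw [List.append_assoc, List.append_assoc]
    exact ((hP.cons_cons i.1.2).cons_cons i.1.1).append_right (V ++ X)
  refine h1.perm ?_
  have h2 : (i.1.1 :: i.1.2 :: P ++ V ++ X).Perm (V ++ (i.1.1 :: i.1.2 :: P) ++ X) :=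
    List.Perm.append_right X List.perm_append_comm
  have h3 : V ++ (i.1.1 :: i.1.2 :: P) ++ X = V ++ (i.1.1 :: i.1.2 :: (P ++ X)) := by
    rw [List.append_assoc]
    rfl
  rw [h3] at h2
  exact h2

theorem tsum_node (c : ℕ) (v : List ℕ → List (ℕ × ℕ) → ℤ) (φ : Finset ℕ → List (ℕ × ℕ) → ℤ)
    (P0 : List (ℕ × ℕ)) (s : ℕ) (L : List Blk) (R : List ℕ) (b : ℕ) (X : List ℕ)
    (M : List (ℕ × ℕ)) (w : ℤ) (k : ℕ) (hk : L.length + R.length ≤ k)
    (hnd : (L.flatMap verts ++ R ++ X).Nodup) (hs : s ∈ X) (hc : ∀ i ∈ L, i.2.length ≤ c)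
    (hv : ∀ X' M', X'.Nodup → s ∈ X' → v X' M' = φ X'.toFinset M')
    (hswap : ∀ i ∈ L, ∀ (Y : Finset ℕ) (M' : List (ℕ × ℕ)), (∀ e ∈ M', e ∈ P0) → i.1 ∈ M' →
      (∀ x ∈ Y, x ∉ verts i) → φ (insert i.1.2 Y) M' = φ (insert i.1.1 Y) M')
    (hskip : ∀ i ∈ L, ∀ (Y : Finset ℕ) (E M' : List (ℕ × ℕ)), i.1.1 ∉ Y →
      φ Y (E ++ i.1 :: M') = φ Y (E ++ M'))
    (hP : ∀ i ∈ L, i.1 ∈ P0) (hM : ∀ e ∈ M, e ∈ P0) :
    tsum (kids c) (nval v) k (nd L R b X M w) =
      w * TT (fun M' => ∑ Y ∈ (L.flatMap verts ++ R).toFinset.powerset, φ (X.toFinset ∪ Y) M')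
        L b M := by
  induction L generalizing b X M w k with
  | nil =>
    have h := tsum_rest c v (fun Z => φ Z M) R b X M w k (by simpa using hk) (by simpa using hnd)
      (fun X' hX' hsub => hv X' M hX' (hsub hs))
    rw [h, Tree_TT_nil]
    rfl
  | cons i L ih =>
    obtain ⟨k, rfl⟩ : ∃ k', k = k' + 1 := ⟨k - 1, by rw [List.length_cons] at hk; omega⟩
    have hk' : L.length + R.length ≤ k := by rw [List.length_cons] at hk; omega
    obtain ⟨V, hV⟩ : ∃ V, V = L.flatMap verts ++ R := ⟨_, rfl⟩
    obtain ⟨h, hh⟩ : ∃ h : List ℕ → List (ℕ × ℕ) → ℤ,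
        h = fun X' M' => ∑ Y ∈ V.toFinset.powerset, φ (X'.toFinset ∪ Y) M' := ⟨_, rfl⟩
    have hnd' : (verts i ++ V ++ X).Nodup := by
      rw [hV]
      rw [List.flatMap_cons] at hnd
      simpa [List.append_assoc] using hnd
    -- the children
    have hchild : ∀ (b' : ℕ) (X' : List ℕ) (M' : List (ℕ × ℕ)) (w' : ℤ), (V ++ X').Nodup →
        s ∈ X' → (∀ e ∈ M', e ∈ P0) →
        tsum (kids c) (nval v) k (nd L R b' X' M' w') = w' * TT (h X') L b' M' := by
      intro b' X' M' w' h1 h2 h3
      rw [hh, hV]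
      exact ih b' X' M' w' k hk' (by rw [← hV]; exact h1) h2
        (fun j hj => hc j (List.mem_cons_of_mem _ hj))
        (fun j hj => hswap j (List.mem_cons_of_mem _ hj))
        (fun j hj => hskip j (List.mem_cons_of_mem _ hj))
        (fun j hj => hP j (List.mem_cons_of_mem _ hj)) h3
    have hiM : ∀ e ∈ i.1 :: M, e ∈ P0 := by
      intro e he
      rcases List.mem_cons.1 he with rfl | he
      · exact hP i List.mem_cons_self
      · exact hM e he
    -- the sum of the four functions
    obtain ⟨G, hG⟩ : ∃ G : ℕ → List (ℕ × ℕ) → List ℕ → ℤ, G = fun b' M' P =>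
        TT (h (P ++ X)) L b' M' + TT (h (i.1.1 :: (P ++ X))) L b' M' +
          TT (h (i.1.2 :: (P ++ X))) L b' M' + TT (h (i.1.1 :: i.1.2 :: (P ++ X))) L b' M' :=
      ⟨_, rfl⟩
    have hF : ∀ (b' : ℕ) (M' : List (ℕ × ℕ)),
        TT (fun M' => ∑ Y ∈ ((i :: L).flatMap verts ++ R).toFinset.powerset,
          φ (X.toFinset ∪ Y) M') L b' M' = ((subs c i.2).map (G b' M')).sum := by
      intro b' M'
      have h1 : (fun M' => ∑ Y ∈ ((i :: L).flatMap verts ++ R).toFinset.powerset,
          φ (X.toFinset ∪ Y) M') = fun M' => ((subs c i.2).map fun P =>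
            h (P ++ X) M' + h (i.1.1 :: (P ++ X)) M' + h (i.1.2 :: (P ++ X)) M' +
              h (i.1.1 :: i.1.2 :: (P ++ X)) M').sum := by
        funext M'
        have h2 := sum_block c (fun Z => φ Z M') i V X (hc i List.mem_cons_self) hnd'
        have h3 : (i :: L).flatMap verts ++ R = verts i ++ V := by
          rw [hV, List.flatMap_cons, List.append_assoc]
        rw [h3, h2, hh]
      rw [h1, TT_listSum]
      congr 1
      apply List.map_congr_left
      intro P _
      rw [TT_add, TT_add, TT_add, hG]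
    -- membership
    have hu : ∀ x ∈ V ++ X, x ∉ verts i := by
      intro x hx hxi
      rw [List.append_assoc] at hnd'
      exact (List.nodup_append.1 hnd').2.2 x hxi x hx rfl
    have hk0 : ∀ P ∈ subs c i.2,
        ((kids0 i L R b X M w P).map (tsum (kids c) (nval v) k)).sum = w * G b (i.1 :: M) P := by
      intro P hPs
      have hbig := Tree_nodup hnd' (mem_subs c i.2 P hPs)
      have hn1 : (V ++ (i.1.1 :: (P ++ X))).Nodup :=
        hbig.sublist (((List.sublist_cons_self _ _).cons_cons _).append_left V)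
      have hn2 : (V ++ (i.1.2 :: (P ++ X))).Nodup :=
        hbig.sublist ((List.sublist_cons_self _ _).append_left V)
      have hn0 : (V ++ (P ++ X)).Nodup :=
        hn2.sublist ((List.sublist_cons_self _ _).append_left V)
      have hs0 : s ∈ P ++ X := List.mem_append_right _ hs
      have hs1 : ∀ a : ℕ, s ∈ a :: (P ++ X) := fun a => List.mem_cons_of_mem _ hs0
      have c0 := hchild b (P ++ X) (i.1 :: M) w hn0 hs0 hiM
      have c3 := hchild b (i.1.1 :: i.1.2 :: (P ++ X)) (i.1 :: M) w hbig
        (List.mem_cons_of_mem _ (hs1 _)) hiM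
      cases P with
      | nil =>
        have c1 := hchild b (i.1.1 :: ([] ++ X)) (i.1 :: M) (w + w) hn1 (hs1 _) hiM
        have hsw : TT (h (i.1.2 :: ([] ++ X))) L b (i.1 :: M) =
            TT (h (i.1.1 :: ([] ++ X))) L b (i.1 :: M) := by
          apply TT_congr
          intro E hE
          rw [hh]
          apply Finset.sum_congr rfl
          intro Y hY
          rw [List.nil_append, List.toFinset_cons, List.toFinset_cons, Finset.insert_union,
            Finset.insert_union]
          apply hswap i List.mem_cons_self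
          · intro e he
            rcases List.mem_append.1 he with he | he
            · obtain ⟨j, hj, rfl⟩ := List.mem_map.1 (hE e he)
              exact hP j (List.mem_cons_of_mem _ hj)
            · exact hiM e he
          · exact List.mem_append_right _ List.mem_cons_self
          · intro x hx
            apply hu
            rcases Finset.mem_union.1 hx with hx | hx
            · exact List.mem_append_right _ (List.mem_toFinset.1 hx)
            · exact List.mem_append_left _
                (List.mem_toFinset.1 (Finset.mem_powerset.1 hY hx))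
        have e1 : ((kids0 i L R b X M w []).map (tsum (kids c) (nval v) k)).sum =
            tsum (kids c) (nval v) k (nd L R b ([] ++ X) (i.1 :: M) w) +
            (tsum (kids c) (nval v) k (nd L R b (i.1.1 :: ([] ++ X)) (i.1 :: M) (w + w)) +
            (tsum (kids c) (nval v) k (nd L R b (i.1.1 :: i.1.2 :: ([] ++ X)) (i.1 :: M) w) +
              0)) := rfl
        rw [e1, c0, c1, c3, hG]
        show _ = w * (TT (h ([] ++ X)) L b (i.1 :: M) +
          TT (h (i.1.1 :: ([] ++ X))) L b (i.1 :: M) +
          TT (h (i.1.2 :: ([] ++ X))) L b (i.1 :: M) +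
          TT (h (i.1.1 :: i.1.2 :: ([] ++ X))) L b (i.1 :: M))
        rw [hsw]
        ring
      | cons a P =>
        have c1 := hchild b (i.1.1 :: (a :: P ++ X)) (i.1 :: M) w hn1 (hs1 _) hiM
        have c2 := hchild b (i.1.2 :: (a :: P ++ X)) (i.1 :: M) w hn2 (hs1 _) hiM
        have e1 : ((kids0 i L R b X M w (a :: P)).map (tsum (kids c) (nval v) k)).sum =
            tsum (kids c) (nval v) k (nd L R b (a :: P ++ X) (i.1 :: M) w) +
            (tsum (kids c) (nval v) k (nd L R b (i.1.1 :: (a :: P ++ X)) (i.1 :: M) w) +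
            (tsum (kids c) (nval v) k (nd L R b (i.1.1 :: i.1.2 :: (a :: P ++ X)) (i.1 :: M) w) +
            (tsum (kids c) (nval v) k (nd L R b (i.1.2 :: (a :: P ++ X)) (i.1 :: M) w) +
              0))) := rfl
        rw [e1, c0, c1, c2, c3, hG]
        ring
    have hk1 : ∀ (b' : ℕ), ∀ P ∈ subs c i.2,
        ((kids1 i L R b' X M w P).map (tsum (kids c) (nval v) k)).sum =
          w * (G b' M P - G b' (i.1 :: M) P) := by
      intro b' P hPs
      have hbig := Tree_nodup hnd' (mem_subs c i.2 P hPs)
      have hn1 : (V ++ (i.1.1 :: (P ++ X))).Nodup :=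
        hbig.sublist (((List.sublist_cons_self _ _).cons_cons _).append_left V)
      have hs0 : s ∈ P ++ X := List.mem_append_right _ hs
      have hs1 : ∀ a : ℕ, s ∈ a :: (P ++ X) := fun a => List.mem_cons_of_mem _ hs0
      have hskp : ∀ X' : List ℕ, i.1.1 ∉ X' → TT (h X') L b' (i.1 :: M) = TT (h X') L b' M := by
        intro X' hX'
        apply TT_congr
        intro E hE
        rw [hh]
        apply Finset.sum_congr rfl
        intro Y hY
        apply hskip i List.mem_cons_self
        intro hx
        rcases Finset.mem_union.1 hx with hx | hx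
        · exact hX' (List.mem_toFinset.1 hx)
        · exact hu i.1.1 (List.mem_append_left _
            (List.mem_toFinset.1 (Finset.mem_powerset.1 hY hx))) List.mem_cons_self
      have hnu : i.1.1 ∉ i.1.2 :: (P ++ X) :=
        (List.nodup_cons.1 (List.nodup_append.1 hbig).2.1).1
      have d0 := hskp (P ++ X) (fun hm => hnu (List.mem_cons_of_mem _ hm))
      have d2 := hskp (i.1.2 :: (P ++ X)) hnu
      have c1 := hchild b' (i.1.1 :: (P ++ X)) M w hn1 (hs1 _) hM
      have c2 := hchild b' (i.1.1 :: (P ++ X)) (i.1 :: M) (-w) hn1 (hs1 _) hiM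
      have c3 := hchild b' (i.1.1 :: i.1.2 :: (P ++ X)) M w hbig
        (List.mem_cons_of_mem _ (hs1 _)) hM
      have c4 := hchild b' (i.1.1 :: i.1.2 :: (P ++ X)) (i.1 :: M) (-w) hbig
        (List.mem_cons_of_mem _ (hs1 _)) hiM
      have e1 : ((kids1 i L R b' X M w P).map (tsum (kids c) (nval v) k)).sum =
          tsum (kids c) (nval v) k (nd L R b' (i.1.1 :: (P ++ X)) M w) +
          (tsum (kids c) (nval v) k (nd L R b' (i.1.1 :: (P ++ X)) (i.1 :: M) (-w)) +
          (tsum (kids c) (nval v) k (nd L R b' (i.1.1 :: i.1.2 :: (P ++ X)) M w) +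
          (tsum (kids c) (nval v) k (nd L R b' (i.1.1 :: i.1.2 :: (P ++ X)) (i.1 :: M) (-w)) +
            0))) := rfl
      rw [e1, c1, c2, c3, c4, hG]
      show _ = w * ((TT (h (P ++ X)) L b' M + TT (h (i.1.1 :: (P ++ X))) L b' M +
        TT (h (i.1.2 :: (P ++ X))) L b' M + TT (h (i.1.1 :: i.1.2 :: (P ++ X))) L b' M) -
        (TT (h (P ++ X)) L b' (i.1 :: M) + TT (h (i.1.1 :: (P ++ X))) L b' (i.1 :: M) +
        TT (h (i.1.2 :: (P ++ X))) L b' (i.1 :: M) +
        TT (h (i.1.1 :: i.1.2 :: (P ++ X))) L b' (i.1 :: M)))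
      rw [d0, d2]
      ring
    -- the sum over the children
    have hS0 : (((subs c i.2).flatMap (kids0 i L R b X M w)).map
        (tsum (kids c) (nval v) k)).sum = w * ((subs c i.2).map (G b (i.1 :: M))).sum := by
      rw [Tree_flat, ← List.sum_map_mul_left]
      congr 1
      exact List.map_congr_left hk0
    have hS1 : ∀ b' : ℕ, (((subs c i.2).flatMap (kids1 i L R b' X M w)).map
        (tsum (kids c) (nval v) k)).sum = w * (((subs c i.2).map (G b' M)).sum -
          ((subs c i.2).map (G b' (i.1 :: M))).sum) := by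
      intro b'
      rw [Tree_flat, ← Tree_sub]
      congr 1
      exact List.map_congr_left (hk1 b')
    cases b with
    | zero =>
      have e1 : tsum (kids c) (nval v) (k + 1) (nd (i :: L) R 0 X M w) =
          0 + (((subs c i.2).flatMap (kids0 i L R 0 X M w) ++ []).map
            (tsum (kids c) (nval v) k)).sum := rfl
      rw [e1, List.append_nil, zero_add, hS0, ← hF]
      rfl
    | succ b =>
      have e1 : tsum (kids c) (nval v) (k + 1) (nd (i :: L) R (b + 1) X M w) =
          0 + (((subs c i.2).flatMap (kids0 i L R (b + 1) X M w) ++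
            (subs c i.2).flatMap (kids1 i L R b X M w)).map
            (tsum (kids c) (nval v) k)).sum := rfl
      rw [e1, List.map_append, List.sum_append, zero_add, hS0, hS1, ← hF, ← hF, ← hF, ← mul_add]
      rfl

end Pool.Agent.Lib.MP_e05f17_lc
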