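import Pool.Agent.Lib.MP_e05f17_lc.Core

/-!
Sublists, and the part of the tree below the blocks.

PROOFS. subs_perm: induction on D, generalizing d; subs (d+1) (x :: D) = subs d D ++ (subs d D).map (x :: ·),
compare with List.sublists'_cons, then List.sublists_perm_sublists' (or state it for sublists'
directly). sum_subs: for a Nodup list D with D.length ≤ d: the sum over subs d D of f P.toFinset is the
sum over D.toFinset.powerset: by induction on D generalizing d and f, with
Finset.sum_powerset_insert (x ∉ D.toFinset) and List.sum_append, List.map_map.
tsum_rest: induction on R generalizing k, X, w. R = []: kids is [], the value is w * v X M = w * φ X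
(k = 0: definition of tsum; k + 1: + empty sum); powerset of the empty set. r :: R: k = k' + 1;
nval is 0 (R is not empty), the kids are nd [] R b X M w and nd [] R b (r :: X) M w; induction for both
(for X: (R ++ X).Nodup; for r :: X: (R ++ r :: X).Nodup, List.nodup_middle), then
Finset.sum_powerset_insert with r ∉ R.toFinset and (r :: X).toFinset ∪ Y = X.toFinset ∪ insert r Y.
-/

namespace Pool.Agent.Lib.MP_e05f17_lc

open Pool.Agent.Lib.PolyTime

theorem sum_subs (d : ℕ) (D : List ℕ) (hd : D.length ≤ d) (hD : D.Nodup) (f : Finset ℕ → ℤ) :
    ((subs d D).map fun P => f P.toFinset).sum = ∑ P ∈ D.toFinset.powerset, f P := by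
  induction D generalizing d f with
  | nil =>
    cases d <;> simp [subs]
  | cons x D ih =>
    cases d with
    | zero => simp at hd
    | succ d =>
      have hd' : D.length ≤ d := by simpa using hd
      rw [List.nodup_cons] at hD
      have hx : x ∉ D.toFinset := by simpa using hD.1
      have e1 := ih d hd' hD.2 f
      have e2 := ih d hd' hD.2 (fun P => f (insert x P))
      rw [subs, List.map_append, List.sum_append, List.map_map, List.toFinset_cons,
        Finset.sum_powerset_insert hx, ← e1, ← e2]
      congr 2
      apply List.map_congr_left
      intro P _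
      simp

/-- The elements of `subs d D` are sublists of `D`. -/
theorem mem_subs (d : ℕ) (D P : List ℕ) (h : P ∈ subs d D) : P.Sublist D := by
  induction D generalizing d P with
  | nil =>
    cases d <;> (simp [subs] at h; simp [h])
  | cons x D ih =>
    cases d with
    | zero =>
      simp only [subs, List.mem_singleton] at h
      rw [h]
      exact List.nil_sublist _
    | succ d =>
      rw [subs, List.mem_append, List.mem_map] at h
      rcases h with h | ⟨P', h, rfl⟩
      · exact (ih d P h).cons _
      · exact (ih d P' h).cons_cons _

theorem tsum_rest (c : ℕ) (v : List ℕ → List (ℕ × ℕ) → ℤ) (φ : Finset ℕ → ℤ) (R : List ℕ) (b : ℕ)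
    (X : List ℕ) (M : List (ℕ × ℕ)) (w : ℤ) (k : ℕ) (hk : R.length ≤ k) (hnd : (R ++ X).Nodup)
    (hv : ∀ X' : List ℕ, X'.Nodup → X ⊆ X' → v X' M = φ X'.toFinset) :
    tsum (kids c) (nval v) k (nd [] R b X M w) =
      w * ∑ Y ∈ R.toFinset.powerset, φ (X.toFinset ∪ Y) := by
  induction R generalizing k X w with
  | nil =>
    have e1 : nval v (nd [] [] b X M w) = w * φ X.toFinset := by
      unfold nval nd
      simp only [List.isEmpty_nil, Bool.and_self, if_true]
      rw [hv X (by simpa using hnd) (List.Subset.refl _)]
    have e2 : kids c (nd [] [] b X M w) = [] := rfl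
    cases k with
    | zero =>
      rw [tsum, e1]
      simp
    | succ k =>
      rw [tsum, e1, e2]
      simp
  | cons r R ih =>
    cases k with
    | zero => simp at hk
    | succ k =>
      have hk' : R.length ≤ k := by simpa using hk
      have hr : r ∉ R ++ X := by
        rw [List.cons_append, List.nodup_cons] at hnd
        exact hnd.1
      have hRX : (R ++ X).Nodup := by
        rw [List.cons_append, List.nodup_cons] at hnd
        exact hnd.2
      have hrR : r ∉ R.toFinset := by
        rw [List.mem_toFinset]
        intro h
        exact hr (List.mem_append_left _ h)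
      have e1 : nval v (nd [] (r :: R) b X M w) = 0 := by
        unfold nval nd
        simp
      have e2 : kids c (nd [] (r :: R) b X M w) = [nd [] R b X M w, nd [] R b (r :: X) M w] := rfl
      have e3 := ih X w k hk' hRX hv
      have e4 := ih (r :: X) w k hk' (by rw [List.nodup_middle, List.nodup_cons]; exact ⟨hr, hRX⟩)
        (fun X' h1 h2 => hv X' h1 (fun a ha => h2 (List.mem_cons_of_mem _ ha)))
      rw [tsum, e1, e2, List.map_cons, List.map_cons, List.map_nil, e3, e4, List.toFinset_cons,
        List.toFinset_cons, Finset.sum_powerset_insert hrR]
      simp only [List.sum_cons, List.sum_nil, zero_add, add_zero, Finset.insert_union,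
        Finset.union_insert]
      ring

end Pool.Agent.Lib.MP_e05f17_lc
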