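import Pool.Agent.Lib.MP_e05f17_lc.TreeA

/-!
The subsets of a block and of the rest.

PROOF. Put u = i.1.1, v = i.1.2, D = i.2. For a disjoint union of finsets the sum over the powerset is
an iterated sum: apply Finset.sum_powerset_insert twice (for u and v: (verts i ++ V).toFinset =
insert u (insert v (D ++ V).toFinset)), and for D ++ V: sum over the powerset of D.toFinset ∪ V.toFinset
(disjoint) of g Y = sum over P in D.toFinset.powerset of the sum over Y in V.toFinset.powerset of
g (P ∪ Y) (by induction on the list D with sum_powerset_insert, or Finset.sum_bij; the first is easy).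
Then sum_subs (TreeA) turns the sum over P into the sum over subs c D (the summand depends on P.toFinset
only: (P ++ X).toFinset = P.toFinset ∪ X.toFinset etc.), and the four cases
empty, {u}, {v}, {u,v} are the four summands (Finset.insert_union, union_comm ...: arguments of φ are
equal as sets, ext; simp; tauto).
-/

namespace Pool.Agent.Lib.MP_e05f17_lc

private theorem treeB_union (D V : List ℕ) (hnd : (D ++ V).Nodup) (g : Finset ℕ → ℤ) :
    ∑ Y ∈ (D ++ V).toFinset.powerset, g Y =
      ∑ P ∈ D.toFinset.powerset, ∑ Y ∈ V.toFinset.powerset, g (P ∪ Y) := by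
  induction D generalizing g with
  | nil => simp
  | cons x D ih =>
    rw [List.cons_append, List.nodup_cons] at hnd
    have hx1 : x ∉ (D ++ V).toFinset := by rw [List.mem_toFinset]; exact hnd.1
    have hx2 : x ∉ D.toFinset := by
      rw [List.mem_toFinset]; exact fun h => hnd.1 (List.mem_append_left _ h)
    rw [List.cons_append, List.toFinset_cons, Finset.sum_powerset_insert hx1, ih hnd.2 g,
      ih hnd.2 (fun Y => g (insert x Y)), List.toFinset_cons, Finset.sum_powerset_insert hx2]
    simp only [Finset.insert_union]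

/-- The sum over the subsets of a block and a set of further vertices. -/
theorem sum_block (c : ℕ) (φ : Finset ℕ → ℤ) (i : Blk) (V X : List ℕ) (hc : i.2.length ≤ c)
    (hnd : (verts i ++ V ++ X).Nodup) :
    ∑ Y ∈ (verts i ++ V).toFinset.powerset, φ (X.toFinset ∪ Y) =
      ((subs c i.2).map fun P =>
        (∑ Y ∈ V.toFinset.powerset, φ ((P ++ X).toFinset ∪ Y)) +
        (∑ Y ∈ V.toFinset.powerset, φ ((i.1.1 :: (P ++ X)).toFinset ∪ Y)) +
        (∑ Y ∈ V.toFinset.powerset, φ ((i.1.2 :: (P ++ X)).toFinset ∪ Y)) +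
        ∑ Y ∈ V.toFinset.powerset, φ ((i.1.1 :: i.1.2 :: (P ++ X)).toFinset ∪ Y)).sum := by
  obtain ⟨⟨u, v⟩, D⟩ := i
  dsimp only at *
  have hnd1 : (u :: v :: (D ++ V)).Nodup := by
    have h1 := (List.nodup_append.1 hnd).1
    simpa [verts] using h1
  rw [List.nodup_cons, List.nodup_cons] at hnd1
  obtain ⟨hu, hv, hDV⟩ := hnd1
  have hu' : u ∉ insert v (D ++ V).toFinset := by
    rw [Finset.mem_insert, List.mem_toFinset]
    simpa using hu
  have hv' : v ∉ (D ++ V).toFinset := by
    rw [List.mem_toFinset]
    exact hv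
  have hD : D.Nodup := (List.nodup_append.1 hDV).1
  have e0 : (verts ((u, v), D) ++ V).toFinset = insert u (insert v (D ++ V).toFinset) := by
    simp [verts]
  rw [e0, Finset.sum_powerset_insert hu', Finset.sum_powerset_insert hv',
    Finset.sum_powerset_insert hv', treeB_union D V hDV, treeB_union D V hDV, treeB_union D V hDV,
    treeB_union D V hDV, ← Finset.sum_add_distrib, ← Finset.sum_add_distrib,
    ← Finset.sum_add_distrib, ← sum_subs c D hc hD]
  refine congrArg List.sum (List.map_congr_left fun P _ => ?_)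
  have a1 : ∀ Y : Finset ℕ, X.toFinset ∪ (P.toFinset ∪ Y) = (P ++ X).toFinset ∪ Y := by
    intro Y; ext a; simp; tauto
  have a2 : ∀ Y : Finset ℕ, X.toFinset ∪ insert u (P.toFinset ∪ Y) =
      (u :: (P ++ X)).toFinset ∪ Y := by
    intro Y; ext a; simp; tauto
  have a3 : ∀ Y : Finset ℕ, X.toFinset ∪ insert v (P.toFinset ∪ Y) =
      (v :: (P ++ X)).toFinset ∪ Y := by
    intro Y; ext a; simp; tauto
  have a4 : ∀ Y : Finset ℕ, X.toFinset ∪ insert u (insert v (P.toFinset ∪ Y)) =
      (u :: v :: (P ++ X)).toFinset ∪ Y := by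
    intro Y; ext a; simp; tauto
  simp only [a1, a2, a3, a4]
  ring

end Pool.Agent.Lib.MP_e05f17_lc
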