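import Pool.Agent.Lib.MP_e05f17_lc.Core
import Pool.Agent.Lib.MP_e05f17_lc.Input

/-!
The list of the vertices that distinguish two vertices.

PROOF. delta d u v is the filter of List.range (nOf d), nOf_input; its length is the card of the finset of
the x < n with the property (List.toFinset_card_of_nodup, or Finset.card_bij' / card_image of Fin.val):
x ↦ (x : ℕ) maps the filter of Finset.univ : Finset (Fin n) bijectively. The Boolean inequality
adjB d u x != adjB d v x is, by adjB_input, not (G.Adj u x ↔ G.Adj v x).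
-/

namespace Pool.Agent.Lib.MP_e05f17_lc

variable {n : ℕ} (G : SimpleGraph (Fin n)) (s t : Fin n) (S : Set ℕ)

private theorem TwA_adj (u y : Fin n) : adjB (input G s t S) u y = true ↔ G.Adj u y := by
  rw [adjB_input]
  constructor
  · rintro ⟨_, _, h⟩
    exact h
  · intro h
    exact ⟨u.isLt, y.isLt, h⟩

theorem delta_length (u v : Fin n) : (delta (input G s t S) u v).length = differ G u v := by
  classical
  unfold delta differ
  rw [nOf_input, ← List.toFinset_card_of_nodup (List.nodup_range.filter _)]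
  rw [← Finset.card_image_of_injective _ Fin.val_injective]
  congr 1
  ext x
  rw [List.mem_toFinset, List.mem_filter, List.mem_range, Finset.mem_image]
  constructor
  · rintro ⟨hx, h⟩
    rw [Bool.and_eq_true, Bool.and_eq_true, bne_iff_ne, bne_iff_ne, bne_iff_ne] at h
    obtain ⟨⟨h1, h2⟩, h3⟩ := h
    refine ⟨⟨x, hx⟩, ?_, rfl⟩
    rw [Finset.mem_filter]
    refine ⟨Finset.mem_univ _, ?_, ?_, ?_⟩
    · intro h4
      exact h1 (congrArg Fin.val h4)
    · intro h4
      exact h2 (congrArg Fin.val h4)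
    · intro h4
      apply h3
      rw [Bool.eq_iff_iff]
      exact (TwA_adj G s t S u ⟨x, hx⟩).trans (h4.trans (TwA_adj G s t S v ⟨x, hx⟩).symm)
  · rintro ⟨y, hy, rfl⟩
    rw [Finset.mem_filter] at hy
    obtain ⟨_, h1, h2, h3⟩ := hy
    refine ⟨y.isLt, ?_⟩
    rw [Bool.and_eq_true, Bool.and_eq_true, bne_iff_ne, bne_iff_ne, bne_iff_ne]
    refine ⟨⟨fun h4 => h1 (Fin.ext h4), fun h4 => h2 (Fin.ext h4)⟩, ?_⟩
    intro h4
    apply h3
    rw [Bool.eq_iff_iff] at h4
    exact (TwA_adj G s t S u y).symm.trans (h4.trans (TwA_adj G s t S v y))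

theorem differ_comm (u v : Fin n) : differ G u v = differ G v u := by
  classical
  unfold differ
  congr 1
  ext x
  rw [Finset.mem_filter, Finset.mem_filter]
  constructor
  · rintro ⟨h0, h1, h2, h3⟩
    exact ⟨h0, h2, h1, fun h4 => h3 h4.symm⟩
  · rintro ⟨h0, h1, h2, h3⟩
    exact ⟨h0, h2, h1, fun h4 => h3 h4.symm⟩

end Pool.Agent.Lib.MP_e05f17_lc
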