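import Pool.Agent.Lib.MP_e05f17_lc.MatchSpec
import Pool.Agent.Lib.MP_e05f17_lc.TwA

/-!
The greedy matching of a graph with many near-twins is large.

PROOF. Let m, u, v be as in NearTwins, I = the set of i : Fin m with differ G (u i) (v i) ≤ c. Markov:
(c+1) * #(complement of I) ≤ sum of differ ≤ D n, so #(Iᶜ) ≤ D n/(c+1) ≤ δ n/2 by hc (2D ≤ δ c) and
#I ≥ m - δ n/2 ≥ δ n/2. For i ∈ I let x = min, y = max of u i, v i (as numbers; u i ≠ v i by
injectivity of Sum.elim u v); delta has length differ ≤ c (delta_length, differ_comm), so by mt_max one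
of u i, v i is s or t or is in F = (mt ..).flatMap [b.1.1, b.1.2] (sOf_input, tOf_input). So there is an
injective map from I to {s, t} ∪ F.toFinset (choose the vertex; injective because the pairs are
disjoint): #I ≤ 2 + F.length = 2 + 2 * (mt ..).length. Hence (mt ..).length ≥ δ n/4 - 1.
-/

namespace Pool.Agent.Lib.MP_e05f17_lc

theorem mt_large {n : ℕ} (G : SimpleGraph (Fin n)) (s t : Fin n) (S : Set ℕ) {δ : ℝ} {D c : ℕ}
    (hδ : 0 < δ) (hc : 2 * (D : ℝ) ≤ δ * c) (h : NearTwins G δ D) :
    δ * n / 4 - 1 ≤ (mt (input G s t S) c).length := by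
  classical
  obtain ⟨m, u, v, hm, hinj, hsum⟩ := h
  set L := mt (input G s t S) c with hL
  set F : List ℕ := L.flatMap fun b => [b.1.1, b.1.2] with hF
  set T : Finset ℕ := {(s : ℕ), (t : ℕ)} ∪ F.toFinset with hT
  have hFlen : F.length = 2 * L.length := by
    rw [hF, List.length_flatMap]
    have h1 : ∀ l : List Blk, (l.map fun b => ([b.1.1, b.1.2] : List ℕ).length).sum = 2 * l.length := by
      intro l
      induction l with
      | nil => rfl
      | cons a l ih =>
        rw [List.map_cons, List.sum_cons, ih, List.length_cons]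
        simp
        omega
    exact h1 L
  have hTcard : T.card ≤ 2 + 2 * L.length := by
    rw [hT, ← hFlen]
    refine (Finset.card_union_le _ _).trans ?_
    exact Nat.add_le_add Finset.card_le_two (List.toFinset_card_le F)
  -- the vertex
  have hpick : ∀ a b : Fin n, a ≠ b → differ G a b ≤ c →
      ∃ x : ℕ, (x = a ∨ x = b) ∧ x ∈ T := by
    have key : ∀ a b : Fin n, (a : ℕ) < b → differ G a b ≤ c →
        ∃ x : ℕ, (x = a ∨ x = b) ∧ x ∈ T := by
      intro a b hab hd
      have h1 := mt_max (input G s t S) c a b hab (by rw [nOf_input]; exact b.isLt)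
        (by rw [delta_length]; exact hd)
      rw [sOf_input, tOf_input] at h1
      rcases h1 with ⟨x, hx, h2⟩ | ⟨x, hx, h2⟩
      · refine ⟨x, ?_, ?_⟩
        · simpa using hx
        · rw [hT, Finset.mem_union]
          left
          simpa using h2
      · refine ⟨x, ?_, ?_⟩
        · simpa using hx
        · rw [hT, Finset.mem_union]
          right
          rw [List.mem_toFinset]
          exact h2
    intro a b hab hd
    rcases Nat.lt_or_ge (a : ℕ) (b : ℕ) with h1 | h1
    · exact key a b h1 hd
    · have h2 : (b : ℕ) < a := lt_of_le_of_ne h1 fun h3 => hab (Fin.ext h3.symm)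
      obtain ⟨x, hx, hx'⟩ := key b a h2 (by rw [differ_comm]; exact hd)
      exact ⟨x, hx.symm, hx'⟩
  -- the pairs are disjoint
  have huv : ∀ i j, u i ≠ v j := by
    intro i j hij
    have h1 : (Sum.inl i : Fin m ⊕ Fin m) = Sum.inr j := hinj hij
    exact absurd h1 (by simp)
  have huu : ∀ i j, u i = u j → i = j := by
    intro i j hij
    have h1 : (Sum.inl i : Fin m ⊕ Fin m) = Sum.inl j := hinj hij
    exact Sum.inl_injective h1
  have hvv : ∀ i j, v i = v j → i = j := by
    intro i j hij
    have h1 : (Sum.inr i : Fin m ⊕ Fin m) = Sum.inr j := hinj hij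
    exact Sum.inr_injective h1
  have hex : ∀ i : Fin m, ∃ x : ℕ, differ G (u i) (v i) ≤ c → (x = u i ∨ x = v i) ∧ x ∈ T := by
    intro i
    by_cases hi : differ G (u i) (v i) ≤ c
    · obtain ⟨x, hx⟩ := hpick (u i) (v i) (huv i i) hi
      exact ⟨x, fun _ => hx⟩
    · exact ⟨0, fun h => absurd h hi⟩
  choose f hf using hex
  set I : Finset (Fin m) := Finset.univ.filter fun i => differ G (u i) (v i) ≤ c with hI
  have hIT : I.card ≤ T.card := by
    refine Finset.card_le_card_of_injOn f ?_ ?_
    · intro i hi
      rw [hI, Finset.coe_filter] at hi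
      exact (hf i hi.2).2
    · intro i hi j hj hij
      rw [hI, Finset.coe_filter] at hi hj
      rcases (hf i hi.2).1 with h1 | h1 <;> rcases (hf j hj.2).1 with h2 | h2
      · apply huu
        apply Fin.ext
        rw [← h1, ← h2, hij]
      · exfalso
        apply huv i j
        apply Fin.ext
        rw [← h1, ← h2, hij]
      · exfalso
        apply huv j i
        apply Fin.ext
        rw [← h1, ← h2, hij]
      · apply hvv
        apply Fin.ext
        rw [← h1, ← h2, hij]
  -- Markov
  set I' : Finset (Fin m) := Finset.univ.filter fun i => ¬ differ G (u i) (v i) ≤ c with hI'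
  have hcard : I.card + I'.card = m := by
    rw [hI, hI', Finset.card_filter_add_card_filter_not, Finset.card_univ, Fintype.card_fin]
  have hmk : (c + 1) * I'.card ≤ D * n := by
    refine le_trans ?_ hsum
    calc (c + 1) * I'.card = ∑ _i ∈ I', (c + 1) := by
          rw [Finset.sum_const, smul_eq_mul, mul_comm]
      _ ≤ ∑ i ∈ I', differ G (u i) (v i) := by
          refine Finset.sum_le_sum fun i hi => ?_
          rw [hI', Finset.mem_filter] at hi
          exact not_le.1 hi.2
      _ ≤ ∑ i, differ G (u i) (v i) :=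
          Finset.sum_le_sum_of_subset (Finset.subset_univ _)
  have hmkR : ((c : ℝ) + 1) * I'.card ≤ D * n := by exact_mod_cast hmk
  have hcardR : (I.card : ℝ) + I'.card = m := by exact_mod_cast hcard
  have hITR : (I.card : ℝ) ≤ 2 + 2 * L.length := by exact_mod_cast hIT.trans hTcard
  have hn0 : (0 : ℝ) ≤ n := Nat.cast_nonneg n
  have hc0 : (0 : ℝ) ≤ c := Nat.cast_nonneg c
  have h1 : 2 * (I'.card : ℝ) ≤ δ * n := by
    have h2 : ((c : ℝ) + 1) * (2 * I'.card) ≤ ((c : ℝ) + 1) * (δ * n) := by
      have h3 : 2 * (D : ℝ) * n ≤ δ * c * n := mul_le_mul_of_nonneg_right hc hn0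
      have h4 : 0 ≤ δ * n := mul_nonneg hδ.le hn0
      nlinarith
    exact le_of_mul_le_mul_left h2 (by positivity)
  linarith

end Pool.Agent.Lib.MP_e05f17_lc
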